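import Mathlib
import Pool.Agent.Lib.MP_bc5265_an.S.Defs

/-!
# Region `R_2`: definitions

`1 < q ≤ p < 2`, `r > 1/p`: the order of the sampling numbers and of the linear numbers of
`H^r_p` in `L_q` is `m^{-r} (log m)^{(d-1)(r+1/p)}`.

Everything on the grid `Gr d L = Fin d → Fin (2^L)`. Operators are matrices; operators on the grid
are (sums of) tensor products `tens A` of matrices on one axis.
Levels are shifted by one in the names: `EM L (k+1)`, `IM L (k+1)`, `JM L b (k+1)` are the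
operators of level `k`, and `EM L 0 = IM L 0 = JM L b 0 = 0`.
-/

set_option linter.unusedSectionVars false

open MeasureTheory Finset Matrix
open scoped ENNReal

namespace Pool.Agent.MP_bc5265.R2

open Pool.Agent.MP_bc5265.S

noncomputable section

variable {d L : ℕ}

/-- Matrices on one axis of the grid. -/
abbrev M1 (L : ℕ) : Type := Matrix (Fin (2 ^ L)) (Fin (2 ^ L)) ℝ

/-- Matrices on the grid. -/
abbrev MG (d L : ℕ) : Type := Matrix (Gr d L) (Gr d L) ℝ

/-- Normalised `p`-th moment. -/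
def mom (p : ℝ) {X : Type} [Fintype X] (g : X → ℝ) : ℝ := (∑ x, |g x| ^ p) / Fintype.card X

/-- Normalised `ℓ_p` norm. -/
def nrm (p : ℝ) {X : Type} [Fintype X] (g : X → ℝ) : ℝ := mom p g ^ (1 / p)

/-- Tensor product. -/
def tens (A : Fin d → M1 L) : MG d L := fun x y => ∏ j, A j (x j) (y j)

/-- `EM L (k+1)`: average over the dyadic cells of level `k` (the identity for `k ≥ L`). -/
def EM (L : ℕ) : ℕ → M1 L
  | 0 => 0
  | k + 1 => fun x y =>
      if (x : ℕ) / 2 ^ (L - k) = (y : ℕ) / 2 ^ (L - k) then 1 / (2 : ℝ) ^ (L - k) else 0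

/-- `IM L (k+1)`: value at the left end point of the dyadic cell of level `k` (the identity for
`k ≥ L`). -/
def IM (L : ℕ) : ℕ → M1 L
  | 0 => 0
  | k + 1 => fun x y => if (y : ℕ) = (x : ℕ) / 2 ^ (L - k) * 2 ^ (L - k) then 1 else 0

/-- Cyclic shift: `(SM L t *ᵥ F) x = F (x + t)`. -/
def SM (L t : ℕ) : M1 L := fun x y => if (y : ℕ) = ((x : ℕ) + t) % 2 ^ L then 1 else 0

/-- Difference of order `l` with step `t`. -/
def DM (L l t : ℕ) : M1 L := (SM L t - 1) ^ l

/-- Lagrange polynomials for the nodes `0, 1, …, 2^b - 1`. -/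
def lg (b i : ℕ) (y : ℝ) : ℝ := ∏ j ∈ (range (2 ^ b)).erase i, (y - j) / ((i : ℝ) - j)

/-- `JM L b (k+1)`: on each dyadic cell of level `k` the polynomial of degree `< 2^b` which
interpolates at the `2^b` nodes `x₀ + i 2^(L-k-b)`, `x₀` the left end point of the cell
(the identity for `k + b ≥ L`). -/
def JM (L b : ℕ) : ℕ → M1 L
  | 0 => 0
  | k + 1 => if k + b ≤ L then
      fun x y => ∑ i ∈ range (2 ^ b),
        if (y : ℕ) = (x : ℕ) / 2 ^ (L - k) * 2 ^ (L - k) + i * 2 ^ (L - k - b) then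
          lg b i ((((x : ℕ) : ℝ) - (((x : ℕ) / 2 ^ (L - k) * 2 ^ (L - k) : ℕ) : ℝ)) /
            2 ^ (L - k - b)) else 0
    else 1

/-- Haar differences. -/
def Dt (L : ℕ) (t : Fin d → ℕ) : MG d L := tens fun j => EM L (t j + 1) - EM L (t j)

/-- Differences of the interpolation operators. -/
def Et (L : ℕ) (v : Fin d → ℕ) : MG d L := tens fun j => IM L (v j + 1) - IM L (v j)

/-- The operator uses only the values in the points of `S`. -/
def Cols (A : MG d L) (S : Finset (Gr d L)) : Prop := ∀ x y, y ∉ S → A x y = 0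

/-- Bound in the maximum norm. -/
def SupB (A : MG d L) (C : ℝ) : Prop :=
  ∀ (g : Gr d L → ℝ) (M : ℝ), (∀ x, |g x| ≤ M) → ∀ x, |(A *ᵥ g) x| ≤ C * M

/-- `x` and `y` are in the same dyadic cell of levels `v`. -/
def sameCell (v : Fin d → ℕ) (x y : Gr d L) : Prop :=
  ∀ j, (x j : ℕ) / 2 ^ (L - v j) = (y j : ℕ) / 2 ^ (L - v j)

instance (v : Fin d → ℕ) (x y : Gr d L) : Decidable (sameCell v x y) := by
  unfold sameCell; infer_instance

/-- Constant on the cells of levels `v`. -/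
def CellC (v : Fin d → ℕ) (ψ : Gr d L → ℝ) : Prop := ∀ x y, sameCell v x y → ψ x = ψ y

/-- The discrete class: all mixed differences of order `l`. -/
def Cls (l : ℕ) (r p B : ℝ) (F : Gr d L → ℝ) : Prop :=
  ∀ (e : Finset (Fin d)) (t : Fin d → ℕ),
    nrm p ((tens fun j => if j ∈ e then DM L l (t j) else 1) *ᵥ F) ≤
      B * ∏ j ∈ e, ((t j : ℝ) / 2 ^ L) ^ r

/-- Functions whose interpolation differences vanish up to the level `n` and decay afterwards. -/
def GG (n : ℕ) (p ρ β : ℝ) (g : Gr d L → ℝ) : Prop := ∀ v : Fin d → ℕ,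
  (∑ j, v j ≤ n → Et L v *ᵥ g = 0) ∧
  (n < ∑ j, v j → nrm p (Et L v *ᵥ g) ≤
    β * (2 : ℝ) ^ (-(ρ * (((∑ j, v j : ℕ) : ℝ) - (n : ℝ)))))

/-- The box `{0, …, m-1}^d`. -/
def box (d m : ℕ) : Finset (Fin d → ℕ) := Fintype.piFinset fun _ : Fin d => range m

/-- Cell average of a function on the torus. -/
def avc (g : Torus d → ℝ) (L : ℕ) (X : Gr d L) : ℝ :=
  ∫ y, g y * (if gx L y = X then (2 : ℝ) ^ (d * L) else 0) ∂(μT d)

end

end Pool.Agent.MP_bc5265.R2
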