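import Mathlib
import Pool.Agent.Lib.MP_bc5265_an.R2.Defs

/-!
# Region `R_2`: specifications, block B (windows)

Modules: `NRM PTI TEN OPS CON DEC MTP LAY SER WHC DTG FAR REL VAN WNO WCO WSC ASB`.
Main statement of the block: `SpecB`.
-/

set_option linter.unusedSectionVars false

open MeasureTheory Finset Matrix
open scoped ENNReal

namespace Pool.Agent.MP_bc5265.R2

open Pool.Agent.MP_bc5265.S

noncomputable section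

/-- NRM. Elementary facts on the normalised `ℓ_p` norms (`Real.Lp_add_le` for the triangle
inequality, `Real.inner_le_nnorm_mul_nnorm`/Hölder or `inner_le_Lp_mul_Lq` for the monotonicity in
`p`). -/
def SpecNRM : Prop := ∀ (X : Type) [Fintype X] [Nonempty X] (p : ℝ), 1 ≤ p →
  (∀ g : X → ℝ, 0 ≤ mom p g) ∧
  (∀ g : X → ℝ, 0 ≤ nrm p g) ∧
  (∀ g : X → ℝ, nrm p g ^ p = mom p g) ∧
  (∀ (c : ℝ) (g : X → ℝ), nrm p (c • g) = |c| * nrm p g) ∧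
  (∀ g h : X → ℝ, nrm p (g + h) ≤ nrm p g + nrm p h) ∧
  (∀ (β : Type) (s : Finset β) (g : β → X → ℝ), nrm p (∑ i ∈ s, g i) ≤ ∑ i ∈ s, nrm p (g i)) ∧
  (∀ g h : X → ℝ, (∀ x, |g x| ≤ |h x|) → nrm p g ≤ nrm p h) ∧
  (∀ (g : X → ℝ) (M : ℝ), 0 ≤ M → (∀ x, |g x| ≤ M) → nrm p g ≤ M) ∧
  (∀ (q : ℝ) (g : X → ℝ), 1 ≤ q → q ≤ p → nrm q g ≤ nrm p g)

/-- PTI. Pointwise inequality: `|a+b|^p ≤ |a|^p + p sgn(a) |a|^(p-1) b + 2 |b|^p` for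
`1 ≤ p ≤ 2`.
PROOF. For `a = 0` clear. Otherwise divide by `|a|^p`, and let `t = b/a`: the claim is
`|1+t|^p ≤ 1 + p t + 2 |t|^p`. For `t ≥ 0`: `f(t) = 1 + p t + t^p - (1+t)^p`, `f(0) = 0`,
`f' = p (1 + t^(p-1) - (1+t)^(p-1)) ≥ 0` because `0 ≤ p-1 ≤ 1` (subadditivity of `t^(p-1)`). For
`t = -s`, `0 ≤ s ≤ 1`: `f(s) = 1 - p s + 2 s^p - (1-s)^p`, `f(0) = 0`,
`f' = p ((1-s)^(p-1) + 2 s^(p-1) - 1) ≥ 0` because `(1-s)^(p-1) + s^(p-1) ≥ 1`. For `s ≥ 1`: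
`f(s) = 1 - p s + 2 s^p - (s-1)^p`, `f(1) = 3 - p > 0`,
`f' = p (2 s^(p-1) - 1 - (s-1)^(p-1)) ≥ 0`. -/
def SpecPTI : Prop := ∀ p a b : ℝ, 1 ≤ p → p ≤ 2 →
  |a + b| ^ p ≤ |a| ^ p + p * (SignType.sign a * |a| ^ (p - 1)) * b + 2 * |b| ^ p

/-- TEN. Algebra of tensor products (`Finset.prod_univ_sum`; `Fintype.piFinset`). -/
def SpecTEN : Prop := ∀ d L : ℕ,
  (∀ A B : Fin d → M1 L, tens A * tens B = tens fun j => A j * B j) ∧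
  (tens (fun _ : Fin d => (1 : M1 L)) = 1) ∧
  (∀ (S : Fin d → Finset ℕ) (A : Fin d → ℕ → M1 L),
    tens (fun j => ∑ k ∈ S j, A j k) = ∑ k ∈ Fintype.piFinset S, tens fun j => A j (k j)) ∧
  (∀ (A : Fin d → M1 L) (j : Fin d), A j = 0 → tens A = 0) ∧
  (∀ (A : Fin d → M1 L) (C : Fin d → ℝ), (∀ j x, ∑ y, |A j x y| ≤ C j) →
    ∀ x, ∑ y, |tens A x y| ≤ ∏ j, C j) ∧
  (∀ (A : Fin d → M1 L) (C : Fin d → ℝ), (∀ j y, ∑ x, |A j x y| ≤ C j) →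
    ∀ y, ∑ x, |tens A x y| ≤ ∏ j, C j)

/-- OPS. The one-dimensional operators.
PROOF. Write `x_k = x / 2^(L-k) * 2^(L-k)`. `IM (k+1)` is evaluation at `x_k`, and
`(x_j)_k = x_(min j k)`. `EM (k+1)` averages over `{y : y_k = x_k}`, which has `2^(L-k)` elements.
If `c ≤ a` then `IM c *ᵥ g` is constant on the cells over which `EM a` averages. -/
def SpecOPS : Prop := ∀ L : ℕ,
  (∀ a c, EM L a * EM L c = EM L (min a c)) ∧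
  (∀ a c, IM L a * IM L c = IM L (min a c)) ∧
  (∀ a c, c ≤ a → EM L a * IM L c = IM L c) ∧
  (∀ k, L + 1 ≤ k → EM L k = 1 ∧ IM L k = 1) ∧
  (∀ k x y, 0 ≤ EM L k x y ∧ EM L k x y = EM L k y x) ∧
  (∀ k x, ∑ y, |EM L k x y| ≤ 1) ∧
  (∀ k y, ∑ x, |EM L k x y| ≤ 1) ∧
  (∀ k x, ∑ y, |IM L k x y| ≤ 1)

/-- CON. Contractions. From OPS and TEN.
PROOF. First part: `A = tens EM` has entries `≥ 0`, row sums `≤ 1` and column sums `≤ 1`; by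
convexity `|∑_y A x y g y|^p ≤ ∑_y A x y |g y|^p` (row sums `≤ 1`), and summation over `x`. Second
part: `tens (fun j => EM (a j) - EM (c j)) = ∑_{e} ± tens (…)`, `2^d` terms of the first kind (TEN
with index sets of two elements; write `A j 0 = EM (a j)`, `A j 1 = - EM (c j)`, and note that
`tens` of matrices `± EM` is `±` a tensor product), triangle inequality. Third part: an operator
with row sums `∑_y |A x y| ≤ C`. -/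
def SpecCON : Prop := ∀ (d L : ℕ) (p : ℝ), 1 ≤ p →
  (∀ (a : Fin d → ℕ) (g : Gr d L → ℝ), nrm p ((tens fun j => EM L (a j)) *ᵥ g) ≤ nrm p g) ∧
  (∀ (a c : Fin d → ℕ) (g : Gr d L → ℝ),
    nrm p ((tens fun j => EM L (a j) - EM L (c j)) *ᵥ g) ≤ 2 ^ d * nrm p g) ∧
  (∀ (A : MG d L) (C : ℝ), (∀ x, ∑ y, |A x y| ≤ C) → SupB A C)

/-- DEC. Decompositions on the grid, from TEN and OPS. Here `D_t = Dt L t`, `η_v = Et L v`.
(1), (2): `∑_{k<m} (EM (k+1) - EM k) = EM m = 1` for `m ≥ L+1`, and the same for `IM`.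
(3) `D_t η_v = 0` if `v j < t j` for some `j`: for this `j`, `EM (t+1) * IM (v+1) = IM (v+1) =
EM t * IM (v+1)`, and the same with `IM v`.
(4) `∑_{t ∈ [a, a+w-1]^d} D_t = tens (EM (a+w) - EM a)`.
(5) `tens (1 - IM a) = ∑_{v ∈ ∏ [a_j, m-1]} η_v` for `m ≥ L+1`, `a_j ≤ m`.
(6) `Π = tens (EM (a+w) - EM a)` satisfies `Π * tens (1 - IM a) = Π` and
`Π * tens (EM (a+w)) = Π`, `Π * Π = Π` .
(7) `η_v` vanishes if `v j > L` for some `j`, `D_t` also. -/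
def SpecDEC : Prop := ∀ d L : ℕ,
  (∀ m, L + 1 ≤ m → ∑ t ∈ box d m, Dt L t = (1 : MG d L)) ∧
  (∀ m, L + 1 ≤ m → ∑ v ∈ box d m, Et L v = (1 : MG d L)) ∧
  (∀ (t v : Fin d → ℕ) (j : Fin d), v j < t j → (Dt L t * Et L v : MG d L) = 0) ∧
  (∀ (a : Fin d → ℕ) (w : ℕ),
    ∑ t ∈ Fintype.piFinset (fun j => Ico (a j) (a j + w)), (Dt L t : MG d L) =
      tens fun j => EM L (a j + w) - EM L (a j)) ∧
  (∀ (a : Fin d → ℕ) (m : ℕ), L + 1 ≤ m → (∀ j, a j ≤ m) →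
    (tens fun j => 1 - IM L (a j) : MG d L) =
      ∑ v ∈ Fintype.piFinset (fun j => Ico (a j) m), Et L v) ∧
  (∀ (a : Fin d → ℕ) (w : ℕ),
    (tens fun j => EM L (a j + w) - EM L (a j)) * (tens fun j => 1 - IM L (a j)) =
      (tens fun j => EM L (a j + w) - EM L (a j) : MG d L) ∧
    (tens fun j => EM L (a j + w) - EM L (a j)) * (tens fun j => EM L (a j + w)) =
      (tens fun j => EM L (a j + w) - EM L (a j) : MG d L) ∧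
    (tens fun j => EM L (a j + w) - EM L (a j)) * (tens fun j => EM L (a j + w) - EM L (a j)) =
      (tens fun j => EM L (a j + w) - EM L (a j) : MG d L)) ∧
  (∀ (v : Fin d → ℕ) (j : Fin d), L < v j → (Et L v : MG d L) = 0 ∧ (Dt L v : MG d L) = 0)

/-- MTP. Martingale type `p` (tensor form, coarse filtrations).
PROOF. One coordinate: let `P_κ = EM (lev (κ+1)) - EM (lev κ)` act in coordinate `j` and
`P_κ V_κ = V_κ`. Then with `S_m = ∑_{κ<m} V_κ`: `EM (lev m) S_m = S_m` (in coordinate `j`), so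
`φ = sgn(S_m) |S_m|^(p-1)` is constant in `x_j` on the cells of `EM (lev m)`, and
`EM (lev m) V_m = 0`; the matrices are symmetric, hence `∑_x φ x * V_m x = 0`. With PTI,
`∑ |S_m + V_m|^p ≤ ∑ |S_m|^p + 2 ∑ |V_m|^p`, and by induction `∑ |∑_κ V_κ|^p ≤ 2 ∑_κ ∑ |V_κ|^p`.
All coordinates: from `tens (P_(κ j)) U_κ = U_κ` we get that the operator `P_(κ j)` in coordinate
`j` alone (`tens` of `1` in the other coordinates) fixes `U_κ`. Apply the one-coordinate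
inequality in the first coordinate to `V_(κ_1) = ∑_{κ'} U_(κ_1, κ')`, then in the second
coordinate for every fixed `κ_1`, and so on: factor `2^d`. (Induction over a finset `J` of
processed coordinates; the sum over the box splits by the values of `κ` on `J`.) -/
def SpecMTP : Prop := ∀ (d L m : ℕ) (p : ℝ) (lev : ℕ → ℕ) (U : (Fin d → ℕ) → Gr d L → ℝ),
  1 ≤ p → p ≤ 2 → Monotone lev →
  (∀ κ ∈ box d m, (tens fun j => EM L (lev (κ j + 1)) - EM L (lev (κ j))) *ᵥ U κ = U κ) →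
  mom p (∑ κ ∈ box d m, U κ) ≤ 2 ^ d * ∑ κ ∈ box d m, mom p (U κ)

/-- LAY. Number of vectors with given sum (from `S.SpecCnt`, `S.specCnt` in `S/Cnt.lean`, by the
translation `v ↦ v - a`). -/
def SpecLAY : Prop := ∀ (d m k : ℕ) (a : Fin d → ℕ), 1 ≤ d → ∑ j, a j ≤ k →
  ((box d m).filter fun v => (∀ j, a j ≤ v j) ∧ ∑ j, v j = k).card ≤
    (k - ∑ j, a j + 1) ^ (d - 1)

/-- SER. `∑_{j<J} (h+j+1)^e x^j ≤ C h^e` for `h ≥ 1`, `0 ≤ x < 1`.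
PROOF. `h+j+1 ≤ h (j+2)`, and `∑ (j+2)^e x^j` converges
(`summable_pow_mul_geometric_of_norm_lt_one`). -/
def SpecSER : Prop := ∀ (e : ℕ) (x : ℝ), 0 ≤ x → x < 1 → ∃ C : ℝ, 0 < C ∧ ∀ h J : ℕ, 1 ≤ h →
  ∑ j ∈ range J, ((h : ℝ) + j + 1) ^ e * x ^ j ≤ C * (h : ℝ) ^ e

/-- The selected Whitney cubes: side `2^i`, lower corner `2^i κ`. -/
def selW (C1 n i : ℕ) {d : ℕ} (κ : Fin d → ℕ) : Prop :=
  2 ^ i * (∑ j, κ j + C1) ≤ n ∧ n < 2 ^ (i + 1) * (∑ j, κ j / 2 + C1)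

instance (C1 n i : ℕ) {d : ℕ} (κ : Fin d → ℕ) : Decidable (selW C1 n i κ) := by
  unfold selW; infer_instance

/-- WHC. Whitney decomposition of `{t : |t| + C1 ≤ n}`.
PROOF. Let `P i` be `2^i (|t / 2^i| + C1) ≤ n` (`t / 2^i` coordinatewise). `P (i+1) → P i`: since
`2^i (t_j/2^i) ≤ 2^(i+1) (t_j / 2^(i+1)) + 2^i`, `2^i |t/2^i| + 2^i C1 ≤ 2^(i+1) |t/2^(i+1)| +
d 2^i + C1 2^i ≤ 2^(i+1) (|t/2^(i+1)| + C1)`. `P 0` is `|t| + C1 ≤ n`; `P i` fails for `2^i > n`.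
`selW C1 n i (t/2^i)` is `P i ∧ ¬ P (i+1)` (`(t/2^i)/2 = t/2^(i+1)`), so there is exactly one `i`.
(3): `2^i |κ| + C1 2^i ≤ n`, and `n < 2^(i+1) |κ/2| + 2^(i+1) C1 ≤ 2^i |κ| + 2 C1 2^i`.
(4): by (3), `|κ|` takes at most `C1` values `k` (`n - 2 C1 2^i < 2^i k ≤ n - C1 2^i`), and for
each the number of `κ` is at most `(k+1)^(d-1)` (`S.SpecCnt`), where `2^i (k+1) ≤ n`. -/
def SpecWHC : Prop := ∀ d C1 n : ℕ, 1 ≤ d → d ≤ C1 →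
  (∀ t : Fin d → ℕ, ∑ j, t j + C1 ≤ n → ∃! i, selW C1 n i fun j => t j / 2 ^ i) ∧
  (∀ (t : Fin d → ℕ) (i : ℕ), (selW C1 n i fun j => t j / 2 ^ i) → ∑ j, t j + C1 ≤ n) ∧
  (∀ (i : ℕ) (κ : Fin d → ℕ), selW C1 n i κ →
    2 ^ i * ∑ j, κ j + C1 * 2 ^ i ≤ n ∧ n < 2 ^ i * ∑ j, κ j + 2 * C1 * 2 ^ i) ∧
  (∀ i m : ℕ, ((box d m).filter fun κ => selW C1 n i κ).card * (2 ^ i) ^ (d - 1) ≤
    C1 * n ^ (d - 1))

/-- DTG. The Haar blocks of `g`. From DEC, CON, LAY, SER.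
PROOF. `D_t g = ∑_{v ∈ box (L+1), v ≥ t, |v| > n} D_t η_v g` (DEC (2), (3)), and
`nrm p (D_t η_v g) ≤ 2^d β 2^(-ρ(|v|-n))` (CON). There are at most `(k - |t| + 1)^(d-1)` such `v`
with `|v| = k`. For `|t| ≤ n`: sum over `k = n+j`, `j ≥ 1`:
`∑_j (n-|t|+j+1)^(d-1) 2^(-ρ j) ≤ C (n-|t|+1)^(d-1)` (SER with `h = n-|t|+1`). For `|t| > n`:
`k = |t|+j`, `j ≥ 0`: `2^(-ρ(|t|-n)) ∑_j (j+1)^(d-1) 2^(-ρ j)`. -/
def SpecDTG : Prop := ∀ (d : ℕ) (p ρ : ℝ), 1 ≤ d → 1 ≤ p → 0 < ρ → ∃ C : ℝ, 0 < C ∧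
  ∀ (n L : ℕ) (β : ℝ) (g : Gr d L → ℝ) (t : Fin d → ℕ), 0 ≤ β → GG n p ρ β g →
    (∑ j, t j ≤ n → nrm p (Dt L t *ᵥ g) ≤ C * β * ((n - ∑ j, t j : ℕ) + 1 : ℝ) ^ (d - 1)) ∧
    (n < ∑ j, t j → nrm p (Dt L t *ᵥ g) ≤
      C * β * (2 : ℝ) ^ (-(ρ * (((∑ j, t j : ℕ) : ℝ) - (n : ℝ)))))

/-- FAR. The levels which are not covered by windows. From DTG, MTP, LAY, SER, NRM.
PROOF. By MTP with `lev = id` (`D_t D_t = D_t`) the `p`-th power of the left side is at most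
`2^d ∑_t nrm p (D_t g)^p` over `t` in the box with `n < |t| + C1`. The `t` with `n - C1 < |t| ≤ n`:
at most `C1 (n+1)^(d-1)`, each at most `(C β C1^(d-1))^p`-like. The `t` with `|t| = n+j`, `j ≥ 1`:
at most `(n+j+1)^(d-1)`, each at most `(C β 2^(-ρ j))^p`; SER. Total `≤ C β^p n^(d-1)`. -/
def SpecFAR : Prop := ∀ (d C1 : ℕ) (p ρ : ℝ), 1 ≤ d → 1 ≤ p → p ≤ 2 → 0 < ρ → ∃ C : ℝ, 0 < C ∧
  ∀ (n L : ℕ) (β : ℝ) (g : Gr d L → ℝ), 1 ≤ n → 0 ≤ β → GG n p ρ β g →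
    nrm p (∑ t ∈ (box d (L + 1)).filter (fun t => n < ∑ j, t j + C1), Dt L t *ᵥ g) ≤
      C * β * (n : ℝ) ^ (((d : ℝ) - 1) / p)

/-! ### Windows -/

/-- The point of the cell of levels `a` containing `x` with relative coordinates `y` in the grid
with `2^H` points (`a j + H ≤ L`). -/
def pt {d L : ℕ} (a : Fin d → ℕ) (H : ℕ) (x : Gr d L) (y : Gr d H) : Gr d L := fun j =>
  ⟨((x j : ℕ) / 2 ^ (L - a j) * 2 ^ (L - a j) + (y j : ℕ) * 2 ^ (L - a j - H)) % 2 ^ L,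
    Nat.mod_lt _ (by positivity)⟩

/-- Sample means over the cells of levels `b`, for the pattern `Y`. -/
def smn {d H : ℕ} (b : Fin d → ℕ) (M : ℝ) (Y : Finset (Gr d H)) (ψ : Gr d H → ℝ) (x : Gr d H) :
    ℝ := (2 : ℝ) ^ (∑ j, b j) / M * ∑ y ∈ Y, if sameCell b x y then ψ y else 0

/-- True means over the cells of levels `b`. -/
def avn {d H : ℕ} (b : Fin d → ℕ) (ψ : Gr d H → ℝ) (x : Gr d H) : ℝ :=
  ((tens fun j => EM H (b j + 1)) *ᵥ ψ) x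

/-- The noise constant: `ν^(-1/2)` for `ν = 2^(-j) ≥ 1`, `ν^(-1/p)` for `ν < 1`. -/
def NU (p : ℝ) (j : ℤ) : ℝ := if j ≤ 0 then (2 : ℝ) ^ ((j : ℝ) / 2) else (2 : ℝ) ^ ((j : ℝ) / p)

/-- A good pattern. -/
def RWP (d : ℕ) (p α C : ℝ) (h i0 : ℕ) (Y : Finset (Gr d (3 * h))) : Prop :=
  Y.card ≤ 2 * 2 ^ (h + i0) ∧
  ∀ b v : Fin d → ℕ, ((∑ j, b j : ℕ) : ℝ) ≤ α * h → (∀ j, v j ≤ 3 * h) → h < ∑ j, v j →
    ∀ ψ : Gr d (3 * h) → ℝ, CellC v ψ →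
      nrm p (fun x => avn b ψ x - smn b (2 ^ (h + i0)) Y ψ x) ≤
        C * NU p (((∑ j, v j : ℕ) : ℤ) - ((h + i0 : ℕ) : ℤ)) * nrm p ψ

/-- RW. Existence of good patterns (main statement of block R, file SpecR). -/
def SpecRW : Prop := ∀ (d : ℕ) (p : ℝ), 1 ≤ d → 1 < p → p < 2 →
  ∃ (α C : ℝ) (h0 : ℕ), 0 < α ∧ 0 < C ∧ ∀ h i0 : ℕ, h0 ≤ h → 2 ^ i0 ≤ h ^ d →
    ∃ Y : Finset (Gr d (3 * h)), RWP d p α C h i0 Y

/-- The estimator of a window: in every cell of levels `a` the sample means over the cells of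
levels `b ≥ a`. -/
def WM {d : ℕ} (L : ℕ) (a b : Fin d → ℕ) {H : ℕ} (M : ℝ) (Y : Finset (Gr d H)) : MG d L :=
  fun x z => ∑ y ∈ Y, if z = pt a H x y ∧ sameCell b x z then
    (2 : ℝ) ^ (∑ j, (b j - a j)) / M else 0

/-- REL. Relative coordinates. `a j + H ≤ L`, `a ≤ b ≤ a+H`, `a ≤ v ≤ a+H`, `ψ` constant on the
cells of levels `v`, `ψ_x y = ψ (pt a H x y)`.
(1) `ψ_x` is constant on the cells of levels `v - a` of the relative grid.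
(2) `(WM *ᵥ ψ) (pt a H x y) = smn (b-a) M Y ψ_x y`: `pt a H (pt a H x y) y' = pt a H x y'`, and
`sameCell b (pt a H x y) (pt a H x y') ↔ sameCell (b-a) y y'` (inside the cell of `x`, the
coordinate of level `b` of `pt a H x y` is `y / 2^(H-(b-a))`).
(3) `(tens EM(b+1) *ᵥ ψ) (pt a H x y) = avn (b-a) ψ_x y`: every cell of levels `b` is the union of
cells of levels `a+H`, which all have the same number of points, `ψ` is constant on them and the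
points `pt a H x y'` are representatives.
(4) Both functions in (2), (3) are constant on the cells of levels `b`, in particular on the cells
of levels `a+H`; for `Φ` constant on the cells of levels `a+H`,
`mom p Φ = (average over x of mom p (y ↦ Φ (pt a H x y)))`. -/
def SpecREL : Prop := ∀ (d L H : ℕ) (a b v : Fin d → ℕ) (M p : ℝ) (Y : Finset (Gr d H))
  (ψ : Gr d L → ℝ), (∀ j, a j + H ≤ L) → (∀ j, a j ≤ b j) → (∀ j, b j ≤ a j + H) →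
  (∀ j, a j ≤ v j) → (∀ j, v j ≤ a j + H) → CellC v ψ →
  (∀ x : Gr d L, CellC (fun j => v j - a j) fun y : Gr d H => ψ (pt a H x y)) ∧
  (∀ (x : Gr d L) (y : Gr d H), (WM L a b M Y *ᵥ ψ) (pt a H x y) =
    smn (fun j => b j - a j) M Y (fun y' => ψ (pt a H x y')) y) ∧
  (∀ (x : Gr d L) (y : Gr d H), ((tens fun j => EM L (b j + 1)) *ᵥ ψ) (pt a H x y) =
    avn (fun j => b j - a j) (fun y' => ψ (pt a H x y')) y) ∧
  (∀ Φ : Gr d L → ℝ, CellC (fun j => a j + H) Φ →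
    mom p Φ = (∑ x : Gr d L, mom p fun y : Gr d H => Φ (pt a H x y)) / Fintype.card (Gr d L)) ∧
  CellC (fun j => a j + H) (WM L a b M Y *ᵥ ψ) ∧
  CellC (fun j => a j + H) ((tens fun j => EM L (b j + 1)) *ᵥ ψ)

/-- VAN. Facts on `η_v`. (1) `η_v g` is constant on the cells of levels `v`. (2) If `a ≤ v` and
`v j > a j + H` for some `j` (`a j + H ≤ L` for all `j`) then `η_v g` vanishes at all points
`pt a H x y`: the `j`-th coordinate `z` of the point is a multiple of `2^(L-a-H)`, hence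
`z / 2^(L-v) * 2^(L-v) = z = z / 2^(L-v+1) * 2^(L-v+1)` (`v ≥ a+H+1`), so row `z` of
`IM (v+1) - IM v` is zero. (3) Therefore `WM *ᵥ (η_v *ᵥ g) = 0`. -/
def SpecVAN : Prop := ∀ (d L H : ℕ) (a b v : Fin d → ℕ) (M : ℝ) (Y : Finset (Gr d H))
  (g : Gr d L → ℝ),
  CellC v (Et L v *ᵥ g) ∧
  ((∀ j, a j + H ≤ L) → (∃ j, a j + H < v j) →
    (∀ (x : Gr d L) (y : Gr d H), (Et L v *ᵥ g) (pt a H x y) = 0) ∧
    WM L a b M Y *ᵥ (Et L v *ᵥ g) = 0)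

/-- WNO. Noise of one window. From REL, VAN, DEC, CON, LAY, SER, NRM.
`h = n - |a|`, `b = a+w-1` (`w ≥ 1`), `M = 2^(h+i0)`, `i0 ≤ h`.
PROOF. Let `T = tens (EM (a+w)) - WM L a b M Y`, `R g = tens (1 - IM a) *ᵥ g = ∑_{v ≥ a} η_v g`
(DEC (5), `m = L+1`), only `|v| > n` counts. If `v ≤ a+3h`: by REL, VAN (1), `mom p (T η_v g)` is
the average over `x` of `mom p` of `avn (b-a) ψ_x - smn (b-a) M Y ψ_x`, `ψ = η_v g`, so by RWP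
(`|b-a| = d (w-1) ≤ α h`, `|v-a| > h` because `|v| > n`) `nrm p (T η_v g) ≤
C0 NU p (|v|-n-i0) nrm p (η_v g) ≤ C0 NU p (j-i0) β 2^(-ρ j)`, `j = |v|-n ≥ 1`. Since `1/p > 1/2`,
`NU p (j-i0) 2^(-ρ j) ≤ 2^(-i0/2) 2^(-(ρ-1/p) j)` (for `j ≤ i0`: `(j-i0)/2 - ρ j ≤
-i0/2 - (ρ-1/p) j`; for `j > i0`: `(j-i0)/p - ρ j`, `i0/p ≥ i0/2`). If `v j > a j + 3h` for some
`j`: the `WM` part is zero (VAN (3)), the first part is at most `nrm p (η_v g) ≤ β 2^(-ρ j)` with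
`j = |v| - n ≥ 2h+1 ≥ i0`, again `≤ β 2^(-i0/2) 2^(-(ρ-1/p) j)` (`j/p ≥ j/2 ≥ i0/2`). The number of
`v ≥ a` with `|v| = n+j` is at most `(h+j+1)^(d-1)`. SER with `x = 2^(-(ρ-1/p))`. -/
def SpecWNO : Prop := ∀ (d : ℕ) (p ρ C0 : ℝ), 1 ≤ d → 1 < p → p < 2 → 1 / p < ρ → 0 < C0 →
  ∃ C : ℝ, 0 < C ∧ ∀ (α : ℝ) (h i0 : ℕ) (Y : Finset (Gr d (3 * h))), 0 < α → 1 ≤ h → i0 ≤ h →
    RWP d p α C0 h i0 Y →
    ∀ (n L w : ℕ) (a : Fin d → ℕ) (β : ℝ) (g : Gr d L → ℝ), 1 ≤ w → ∑ j, a j + h = n →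
      (d : ℝ) * w ≤ α * h → w ≤ h → (∀ j, a j + 3 * h ≤ L) → 0 ≤ β → GG n p ρ β g →
      nrm p (((tens fun j => EM L (a j + w)) -
          WM L a (fun j => a j + w - 1) (2 ^ (h + i0)) Y) *ᵥ ((tens fun j => 1 - IM L (a j)) *ᵥ g)) ≤
        C * β * ((h : ℝ) ^ (d - 1) * (2 : ℝ) ^ (-((i0 : ℝ) / 2)))

/-- WCO. Cost of one window and bound in the maximum norm. From TEN, OPS, CON.
PROOF. (1) Column `z` of `WM L a b M Y` is nonzero only for `z = pt a H x y`, `y ∈ Y`; `pt a H x y`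
depends on `x` only through `x / 2^(L-a)`: at most `2^|a| |Y|` points `z`. Row `z` of
`tens (1 - IM a)` has at most `2^d` nonzero entries, in the points with coordinates `z_j` or
`z_j / 2^(L-a+1) * 2^(L-a+1)` (the left end point for `IM a`, `a ≥ 1`). The product with any matrix
from the left does not change the support of the columns. (2) Row sums: `1 - IM a`: at most `2`
in each coordinate; `WM`: at most `|Y| 2^(|b-a|) / M`; `EM (a+w) - EM a`: at most `2` in each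
coordinate. -/
def SpecWCO : Prop := ∀ (d L H : ℕ) (a b : Fin d → ℕ) (w : ℕ) (M : ℝ) (Y : Finset (Gr d H)),
  (∀ j, a j ≤ L) → 0 < M →
  (∃ S : Finset (Gr d L), S.card ≤ 2 ^ d * (2 ^ (∑ j, a j) * Y.card) ∧
    Cols ((tens fun j => EM L (a j + w) - EM L (a j)) * WM L a b M Y *
      (tens fun j => 1 - IM L (a j))) S) ∧
  SupB ((tens fun j => EM L (a j + w) - EM L (a j)) * WM L a b M Y *
      (tens fun j => 1 - IM L (a j)) : MG d L)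
    (2 ^ d * (Y.card * 2 ^ (∑ j, (b j - a j)) / M) * 2 ^ d)

/-- WSC. One scale of windows: type `p`. From MTP, NRM.
PROOF. `U κ = Π_κ V_κ` for selected `κ` and `0` otherwise, `Π_κ = tens (EM (2^i κ + 2^i) -
EM (2^i κ))`, `lev κ = 2^i κ` in MTP (`Π_κ Π_κ = Π_κ` from DEC). -/
def SpecWSC : Prop := ∀ (d L i m : ℕ) (p : ℝ) (s : Finset (Fin d → ℕ)) (N : ℝ)
  (V : (Fin d → ℕ) → Gr d L → ℝ), 1 ≤ p → p ≤ 2 → s ⊆ box d m → 0 ≤ N →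
  (∀ κ ∈ s, nrm p (V κ) ≤ N) →
  nrm p (∑ κ ∈ s, (tens fun j => EM L (2 ^ i * κ j + 2 ^ i) - EM L (2 ^ i * κ j)) *ᵥ V κ) ≤
    4 ^ d * (s.card : ℝ) ^ (1 / p) * N

/-- I0. Choice of the oversampling exponents. PROOF. `i0 = Nat.log 2 ⌊h^γ⌋`. -/
def SpecI0 : Prop := ∀ (γ : ℝ) (d : ℕ), 0 < γ → γ ≤ d → 1 ≤ d → ∃ i0 : ℕ → ℕ, ∀ h : ℕ, 1 ≤ h →
  (2 : ℝ) ^ i0 h ≤ (h : ℝ) ^ γ ∧ (h : ℝ) ^ γ < 2 * 2 ^ i0 h ∧ 2 ^ i0 h ≤ h ^ d

/-- SCA. Sums over the scales (numbers). `w = 2^i`.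
(1) noise: `δ = (d-1)/p - (d-1) + γ/2 > 0`;
`(C1 n^(d-1) / w^(d-1))^(1/p) * (2 C1 w)^(d-1-γ/2)-like` is `n^((d-1)/p) w^(-δ)`.
(2) cost: `γ < d-1`. Geometric sums. -/
def SpecSCA : Prop := ∀ (d C1 : ℕ) (p γ : ℝ), 2 ≤ d → 1 ≤ C1 → 1 < p → 0 < γ → γ < (d : ℝ) - 1 →
  2 * ((d : ℝ) - 1) * (1 - 1 / p) < γ → ∃ C : ℝ, 0 < C ∧
    (∀ (n m : ℕ) (c : ℕ → ℝ), 1 ≤ n → (∀ i, 0 ≤ c i) →
      (∀ i, c i * ((2 : ℝ) ^ i) ^ (d - 1) ≤ C1 * (n : ℝ) ^ (d - 1)) →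
      (∑ i ∈ range m, c i ^ (1 / p) * (((2 * C1 * 2 ^ i : ℕ) : ℝ) ^ ((d : ℝ) - 1) *
          (((C1 * 2 ^ i : ℕ) : ℝ) ^ (-(γ / 2)))) ≤ C * (n : ℝ) ^ (((d : ℝ) - 1) / p)) ∧
      (∑ i ∈ range m, c i * ((2 * C1 * 2 ^ i : ℕ) : ℝ) ^ γ ≤ C * (n : ℝ) ^ (d - 1)))

/-- B. MAIN STATEMENT OF BLOCK B. From RW, WHC, DEC, FAR, WNO, WCO, WSC, I0, SCA, CON, NRM.
PROOF. Constants: `γ = (d-1)(3/2 - 1/p)` (so `2(d-1)(1-1/p) < γ < d-1`), `i0(h)` from I0,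
`α, C0, h0` from RW, `C1 ≥ max (d, d/α, h0, h1)` where `i0(h) ≤ h` for `h ≥ h1`
(`2^(i0 h) ≤ h^d`). For `h ≥ h0` let `Y_h` be the good pattern. For a selected cube `(i, κ)`,
`w = 2^i`, `a = w κ`, `h = n - |a|`: `C1 w ≤ h < 2 C1 w` (WHC), so `d w ≤ α h`, `w ≤ h`, `h ≥ h0`,
`a j + 3h ≤ 3n ≤ L`. Let
`W = ∑_(i,κ) Π_κ * WM L a (a+w-1) 2^(h+i0) Y_h * tens (1 - IM a)`, `Π_κ = tens (EM (a+w) - EM a)`.
By DEC (1), (4), (6) and WHC (partition)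
`g - W g = ∑_{t ∈ box (L+1), n < |t|+C1} D_t g + ∑_(i,κ) Π_κ (tens EM (a+w) - WM …) (tens (1-IM a)) g`.
First sum: FAR. Second sum: for each `i` by WSC and WNO at most
`4^d (number of κ)^(1/p) C β h^(d-1) 2^(-i0/2)`, where `2^(-i0/2) ≤ 2 h^(-γ/2)`,
`h^(d-1) ≤ (2 C1 w)^(d-1)`, `h^(-γ/2) ≤ (C1 w)^(-γ/2)`; sum over `i` by SCA, WHC (4).
Cost: each window at most `2^d 2^|a| 2 2^(h+i0) = 2^(d+1) 2^n 2^(i0) ≤ 2^(d+1) 2^n (2 C1 w)^γ`;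
SCA. Maximum norm: finitely many windows (a number depending only on `n`), each with bound
`2^d (2 2^(h+i0) 2^(d w) / 2^(h+i0)) 2^d`. -/
def SpecB : Prop := ∀ (d : ℕ) (p ρ : ℝ), 2 ≤ d → 1 < p → p < 2 → 1 / p < ρ → ρ < 1 →
  ∃ C : ℝ, 0 < C ∧ ∀ n : ℕ, 1 ≤ n → ∃ Cn : ℝ, 0 < Cn ∧ ∀ L : ℕ, 4 * n ≤ L →
    ∃ (W : MG d L) (S : Finset (Gr d L)), (S.card : ℝ) ≤ C * (n : ℝ) ^ (d - 1) * 2 ^ n ∧
      Cols W S ∧ SupB W Cn ∧
      ∀ (β : ℝ) (g : Gr d L → ℝ), 0 ≤ β → GG n p ρ β g →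
        nrm p (g - W *ᵥ g) ≤ C * β * (n : ℝ) ^ (((d : ℝ) - 1) / p)

end

end Pool.Agent.MP_bc5265.R2
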