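import Mathlib
import Pool.Agent.Lib.MP_bc5265_an.R2.SpecB

/-!
# Region `R_2`: specifications, block A (direct theorem, transfer to the torus)

Modules: `LAG JOP FDR JKB DN1 DNB TVS CLA SMB A UG GRD APX REI UPT RAT UP`.

Available (proved) in `Pool/Agent/Lib/MP_bc5265_an/S`: `S.specHaar`, `S.specMarch`,
`S.specReIm`, `S.specBlk`, `S.specApp S.specHaar S.specBlk`, `S.specPts`, `S.specCts`, `S.specCnt`,
`S.FinalM.*` (monotonicity of the classes and of the sampling numbers).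
-/

set_option linter.unusedSectionVars false

open MeasureTheory Finset Matrix
open scoped ENNReal

namespace Pool.Agent.MP_bc5265.R2

open Pool.Agent.MP_bc5265.S

noncomputable section

/-- LAG. Lagrange polynomials for the nodes `0, …, 2^b-1` (Mathlib's `Lagrange.basis`, or directly:
two polynomials of degree `< 2^b` which agree in `2^b` points are equal). (3): polynomials are
Lipschitz on bounded intervals, there are finitely many `i`. -/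
def SpecLAG : Prop := ∀ b : ℕ,
  (∀ i j : ℕ, i < 2 ^ b → j < 2 ^ b → lg b i (j : ℝ) = if i = j then 1 else 0) ∧
  (∀ i : ℕ, i < 2 ^ b → ∃ P : Polynomial ℝ, P.natDegree < 2 ^ b ∧ ∀ y, P.eval y = lg b i y) ∧
  (∀ P : Polynomial ℝ, P.natDegree < 2 ^ b → ∀ y : ℝ,
    ∑ i ∈ range (2 ^ b), lg b i y * P.eval (i : ℝ) = P.eval y) ∧
  (∃ C : ℝ, 0 < C ∧ ∀ i : ℕ, i < 2 ^ b → ∀ y y' : ℝ, 0 ≤ y → y ≤ 2 ^ b → 0 ≤ y' → y' ≤ 2 ^ b →
    |lg b i y| ≤ C ∧ |lg b i y - lg b i y'| ≤ C * |y - y'|)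

/-- JOP. The interpolation operators `JM`. From LAG. (For `k + b ≤ L` let `τ_k = 2^(L-k-b)`, `x_k`
the left end point of the cell of level `k` of `x`; nodes `x_k + i τ_k`, `i < 2^b`.)
PROOF. (1) `JM (k+1) = 1` if `k+b ≥ L`: for `k+b = L`, `τ_k = 1` and all points of the cell are
nodes, `lg b i j = δ_ij`. (2) `a ≤ c`. `JM c * JM a = JM a`: on a cell of the higher level the
function `JM a g` is a polynomial of degree `< 2^b` in the position, `JM c` reproduces it (LAG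
(3), composed with an affine map). `JM a * JM c = JM a`: `JM c g` agrees with `g` in the nodes of
its level, and the nodes `x_k + i τ_k` of the lower level are among them. (3) `IM j` (`j ≥ 1`)
evaluates at a multiple of `2^(L-j+1)`, which is a node of level `k` if `j ≤ k+b+1`. (4) Row
sums: at most `2^b * C`. -/
def SpecJOP : Prop := ∀ b : ℕ,
  (∀ L k : ℕ, 1 ≤ k → L + 1 ≤ k + b → JM L b k = 1) ∧
  (∀ L a c : ℕ, JM L b a * JM L b c = JM L b (min a c)) ∧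
  (∀ L j k : ℕ, j ≤ k + b + 1 → IM L j * JM L b (k + 1) = IM L j) ∧
  (∃ C : ℝ, 0 < C ∧ ∀ (L k : ℕ) (x : Fin (2 ^ L)), ∑ y, |JM L b k x y| ≤ C)

/-- FDR. A functional on `F 0, …, F (N-1)` which annihilates the polynomials of degree `< l` is a
combination of the `l`-th differences.
PROOF. Induction on `l`. `l = 0`: `γ = lam`. Step: `lam` annihilates the constants, so by Abel
summation `∑_(μ<N) lam μ F μ = ∑_(μ<N-1) lam' μ (F (μ+1) - F μ)`, `lam' μ = - ∑_(ν≤μ) lam ν`;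
`lam'` annihilates the polynomials of degree `< l-1` (each is `P(x+1) - P(x)` for some `P` of
degree one more; or use binomial polynomials). -/
def SpecFDR : Prop := ∀ (l N : ℕ) (lam : ℕ → ℝ),
  (∀ P : Polynomial ℝ, P.degree < (l : ℕ) → ∑ μ ∈ range N, lam μ * P.eval (μ : ℝ) = 0) →
  ∃ γ : ℕ → ℝ, ∀ F : ℕ → ℝ, ∑ μ ∈ range N, lam μ * F μ =
    ∑ μ ∈ range (N - l), γ μ * ∑ i ∈ range (l + 1), (-1 : ℝ) ^ (l - i) * (l.choose i) * F (μ + i)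

/-- The points used by the kernel representation: `x' + μ 2^(L-s-b)`, `x'` the left end point of
the cell of level `s-1` (`x' = 0` for `s = 0`). -/
def nd (L b s : ℕ) (x : Fin (2 ^ L)) (μ : ℕ) : Fin (2 ^ L) :=
  ⟨((x : ℕ) / 2 ^ (L - (s - 1)) * 2 ^ (L - (s - 1)) + μ * 2 ^ (L - s - b)) % 2 ^ L,
    Nat.mod_lt _ (by positivity)⟩

/-- JKB. Kernel representation in one dimension. From LAG, JOP, FDR, OPS. `τ = 2^(L-s-b)`,
`T = (IM (v+1) - IM v) * (JM (s+1) - JM s)`, `u = (JM (s+1) - JM s) F`.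
PROOF. (i) `T F x = ∑_(i<2^b) a0(x,i) u(x_s + i τ)`, `|a0| ≤ C 2^(-(v-s))`, `x_s` the left end
point of the cell of level `s` of `x`. If `v > s`: `T F x = u(x_v) - u(x_(v-1))`, both points are
in the cell of level `s` of `x`, `u = JM (s+1) u` (JOP), so
`u(y) = ∑_i lg b i ((y-x_s)/τ) u(x_s+iτ)` and the coefficients are differences
`lg b i (σ_v) - lg b i (σ_(v-1))` with `|σ_v - σ_(v-1)| ≤ 2^(L-v)/τ = 2^(b-(v-s))`, LAG (4). If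
`v = s ≥ 1`: `u(x_(s-1)) = 0` (`IM s * (JM (s+1) - JM s) = 0` by JOP (3), `s ≥ 1`), so
`T F x = u(x_s)`. If `v = s = 0`: `T F x = u(0)`. If `v > L` then `T = 0`.
(ii) `s = 0`: `u(i τ) = F(i τ)` (nodes; `x_0 = 0`), `a x μ = a0 x μ` for `μ < 2^b`, `0` otherwise.
(iii) `s ≥ 1`: let `x'` be the left end point of the cell of level `s-1` of `x`,
`x_s + i τ = x' + μ_z τ`, `μ_z < 2^(b+1)` (`x_s - x' ∈ {0, 2^b τ}`). Since `x_s + iτ` is a node of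
level `s`, `u(x'+μ_z τ) = F(x'+μ_z τ) - ∑_k lg b k (μ_z/2) F(x' + 2kτ)`: a functional in
`F(x'+μτ)`, `μ < 2^(b+1)`, depending only on `μ_z`, which annihilates the polynomials of degree
`< 2^b`, hence of degree `< l`. FDR: it is `∑_(μ<2^(b+1)-l) γ_(μ_z,μ) (Δ^l_τ F)(x'+μτ)`, the
constants `γ` depend on `b, l, μ_z` only (finitely many), and there is no wrap around:
`x' + (μ+l) τ < 2^L`. `(DM L l τ *ᵥ F) z = ∑_i (-1)^(l-i) C(l,i) F(z+iτ)`. -/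
def SpecJKB : Prop := ∀ b l : ℕ, l ≤ 2 ^ b → ∃ C : ℝ, 0 < C ∧ ∀ L s v : ℕ, s ≤ v → s + b ≤ L →
  ∃ a : Fin (2 ^ L) → ℕ → ℝ, (∀ x μ, |a x μ| ≤ C * (2 : ℝ) ^ (-((v : ℝ) - s))) ∧
    ∀ x y, ((IM L (v + 1) - IM L v) * (JM L b (s + 1) - JM L b s)) x y =
      ∑ μ ∈ range (2 ^ (b + 1)), a x μ *
        (if s = 0 then (1 : M1 L) else DM L l (2 ^ (L - s - b))) (nd L b s x μ) y

/-- DN1. From the full grid to a coarse grid, one coordinate. `h_i = 2^(L-i)`.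
PROOF. `S_i F(x) = ∑_(a=1)^l (-1)^(a+1) C(l,a) avg_(θ<h_i) F(x+aθ)` (cyclic), so
`F - S_i F = (-1)^l avg_(θ<h_i) Δ^l_θ F`, `S_L F = F` (for `l ≥ 1`; `l = 0`: `S_i = 0`, and
`F = Δ^0 F`, direct). The `S_i` commute. In the points `z` of the coarse grid (multiples of
`2^(L-k)`): `F = S_k F + ∑_(i=k)^(L-1) (S_(i+1) - S_i) F`,
`(S_(i+1)-S_i) F = (S_(i+1)-S_i)(F - S_(i+1) F) + S_(i+1) (S_(i+1)-S_i) F`. Let `‖·‖` be the
`ℓ_p` norm over the full grid (normalised, and over `Y`), `‖·‖_k` over the coarse grid. Then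
(i) `‖F - S_(i+1) F‖ ≤ N_i`, `‖(S_(i+1)-S_i)F‖ ≤ 2 N_i` (Minkowski; steps `θ ≤ 2^(L-i)`).
(ii) for `j ≥ k`: `‖avg_(θ<h_j) G(·+aθ)‖_k ≤ a^(1/p) 2^((j-k)/p) ‖G‖`: by convexity
`2^(-k) ∑_z avg_θ |G(z+aθ)|^p ≤ 2^(-k) h_j^(-1) a ∑_x |G x|^p`, since for every `x` there are at
most `a` pairs `(z, θ)` with `z + aθ = x` (`0 ≤ aθ < a 2^(L-k)`, `z` runs through multiples of
`2^(L-k)`). (iii) Add up: `C = C(l)`; `2^((i+1-k)/p) ≤ 2 · 2^((i-k)/p)`. -/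
def SpecDN1 : Prop := ∀ (l : ℕ) (p : ℝ), 1 ≤ p → ∃ C : ℝ, 0 < C ∧
  ∀ (L k : ℕ) (Y : Type) [Fintype Y] (F : Fin (2 ^ L) → Y → ℝ) (N : ℝ) (Nd : ℕ → ℝ), k ≤ L →
    0 ≤ N → (∀ i, 0 ≤ Nd i) → (∑ x, ∑ y, |F x y| ^ p ≤ 2 ^ L * N ^ p) →
    (∀ i t : ℕ, k ≤ i → i ≤ L → t ≤ 2 ^ (L - i) →
      ∑ x, ∑ y, |∑ z, DM L l t x z * F z y| ^ p ≤ 2 ^ L * Nd i ^ p) →
    ∑ x ∈ univ.filter (fun x : Fin (2 ^ L) => 2 ^ (L - k) ∣ (x : ℕ)), ∑ y, |F x y| ^ p ≤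
      2 ^ k * (C * (N + ∑ i ∈ Icc k L, (2 : ℝ) ^ (((i : ℝ) - k) / p) * Nd i)) ^ p

/-- DNB. Norms of mixed differences over coarse grids. From DN1, TEN.
PROOF. For a set `J` of processed coordinates let `‖G‖_J` be the normalised `ℓ_p` norm over the
points whose coordinates `x_j`, `j ∈ J`, are multiples of `2^(L-s_j-b)`. Claim (induction on `J`):
for every `e ⊆ J^c` and all steps `t`, with `A = tens (D_j for j ∈ J, D_j = 1 if s_j = 0 and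
DM L l (2^(L-s_j-b)) otherwise; DM L l (t_j) for j ∈ e; 1 otherwise)`,
`‖A F‖_J ≤ C^|J| 2^(-r ∑_(j∈J) s_j) ∏_(j∈e) (t_j/2^L)^r`. `J = ∅`: `Cls`. Step: new coordinate
`j ∉ e`, apply DN1 with `k = s_j + b` in coordinate `j` (the other coordinates form `Y`) to
`G = A' F`, `A'` with `D_j` in coordinate `j`: `N` from the claim with `e ∪ {j}`,
`t_j = 2^(L-s_j-b)` if `s_j ≥ 1` (`(t_j/2^L)^r ≤ 2^(-r s_j)`), with `e` if `s_j = 0`.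
`Nd i`: `Δ^l_t D_j` in coordinate `j`, `t ≤ 2^(L-i)`: `D_j` is bounded by `2^l` and commutes with
`Δ^l_t` (cyclic shifts preserve the norm), so `Nd i = 2^l (2^(-i))^r * (…)`. Since `r > 1/p`,
`∑_(i≥k) 2^((i-k)/p) 2^(-r i) ≤ C 2^(-r k) ≤ C 2^(-r s_j)`. -/
def SpecDNB : Prop := ∀ (d l b : ℕ) (p r : ℝ), 1 ≤ p → 1 / p < r → ∃ C : ℝ, 0 < C ∧
  ∀ (L : ℕ) (F : Gr d L → ℝ) (s : Fin d → ℕ), (∀ j, s j + b ≤ L) → Cls l r p 1 F →
    ∑ x ∈ univ.filter (fun x : Gr d L => ∀ j : Fin d, 2 ^ (L - s j - b) ∣ (x j : ℕ)),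
      |((tens fun j => if s j = 0 then 1 else DM L l (2 ^ (L - s j - b))) *ᵥ F) x| ^ p ≤
      2 ^ (∑ j, s j + d * b) * (C * (2 : ℝ) ^ (-(r * (∑ j, s j : ℕ)))) ^ p

/-- TVS. One term. From JKB, DNB, TEN, JOP, OPS.
PROOF. If `v j < s j` for some `j` then `(IM (v+1) - IM v) * (JM (s+1) - JM s) = 0` (JOP (3):
`IM (v+1) JM (s+1) = IM (v+1)`, `IM (v+1) JM s = IM (v+1)` as `s ≥ 1`, `v+1 ≤ (s-1)+b+1`, the same
for `IM v`). If `s j + b > L` for some `j` then (`b ≤ L`) `s j ≥ 1` and `JM (s+1) - JM s = 0`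
(JOP (1)). Otherwise by JKB, with `A = tens (1 or DM)`, `z(x,μ)_j = nd L b (s j) (x j) (μ j)`:
`|(…F) x| ≤ C^d 2^(-|v-s|) ∑_μ |(A F)(z(x,μ))|`, `μ ∈ {0..2^(b+1)-1}^d`. By Hölder
`(∑_μ y_μ)^p ≤ (2^((b+1)d))^(p-1) ∑_μ y_μ^p`. All coordinates of `z(x,μ)` are multiples of
`2^(L-s_j-b)`, and every such point `z` is `z(x,μ)` for at most `2^((b+1)d) ∏ 2^(L-s_j+1)` pairs
`(x, μ)` (given `μ` and `z`, `x_j` lies in one cell of level `s_j - 1`, for `s_j = 0` in the whole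
axis). DNB. -/
def SpecTVS : Prop := ∀ (d l b : ℕ) (p r : ℝ), 1 ≤ p → 1 / p < r → l ≤ 2 ^ b →
  ∃ C : ℝ, 0 < C ∧ ∀ (L : ℕ) (F : Gr d L → ℝ) (s v : Fin d → ℕ), b ≤ L → Cls l r p 1 F →
    ((¬ ∀ j, s j ≤ v j) →
      Et L v *ᵥ ((tens fun j => JM L b (s j + 1) - JM L b (s j)) *ᵥ F) = 0) ∧
    ((∀ j, s j ≤ v j) →
      nrm p (Et L v *ᵥ ((tens fun j => JM L b (s j + 1) - JM L b (s j)) *ᵥ F)) ≤
        C * ((2 : ℝ) ^ (-(((∑ j, v j : ℕ) : ℝ) - (∑ j, s j : ℕ))) *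
          (2 : ℝ) ^ (-(r * (∑ j, s j : ℕ)))))

/-- The Smolyak operator of order `2^b`. -/
def SB {d : ℕ} (L b n : ℕ) : MG d L :=
  ∑ s ∈ (box d (n + 1)).filter (fun s => ∑ j, s j ≤ n), tens fun j => JM L b (s j + 1) - JM L b (s j)

/-- CLA. The class after the Smolyak operator. From TVS, TEN, JOP, NRM.
PROOF. `1 - SB = ∑_{s ∈ box (m), |s| > n}` of the tensor differences, `m = max (L+1) (n+1)` (JOP
(1): `JM L b m = 1`). `Et v (1 - SB) F = ∑_{s ≤ v, |s| > n} …`: empty if `|v| ≤ n`. Otherwise, as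
`|s| > n` and `ρ ≤ r`: `2^(-r|s|) ≤ 2^(-rn) 2^(-ρ(|s|-n))`, and
`∑_{s ≤ v} 2^(-|v-s|) 2^(-ρ(|s|-n)) = 2^(-ρ(|v|-n)) ∑_{s≤v} 2^(-(1-ρ)|v-s|) ≤
2^(-ρ(|v|-n)) (1/(1-2^(-(1-ρ))))^d`. -/
def SpecCLA : Prop := ∀ (d l b : ℕ) (p r ρ : ℝ), 1 ≤ p → 1 / p < ρ → ρ < 1 → ρ ≤ r →
  l ≤ 2 ^ b → ∃ C : ℝ, 0 < C ∧ ∀ (n L : ℕ) (F : Gr d L → ℝ), b ≤ L → Cls l r p 1 F →
    GG n p ρ (C * (2 : ℝ) ^ (-(r * n))) (F - SB L b n *ᵥ F)

/-- SMB. Cost and maximum norm of the Smolyak operator. From JOP, TEN, LAY, CON.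
PROOF. `(JM (s+1) - JM s) x y ≠ 0` only if `2^(L-s-b) ∣ y` (`s+b ≤ L`), so the tensor difference
uses at most `2^(|s|+db)` points, and `∑_{|s| ≤ n} 2^(|s|+db) ≤ 2^(db) ∑_(k≤n) (k+1)^(d-1) 2^k ≤
2^(db) 2^(d-1) n^(d-1) 2^(n+1)` (`n ≥ 1`). Row sums: each tensor difference at most `(2C)^d`, the
number of terms is at most `(n+1)^d`. -/
def SpecSMB : Prop := ∀ d b : ℕ, 1 ≤ d → ∃ C : ℝ, 0 < C ∧ ∀ n : ℕ, 1 ≤ n → ∃ Cn : ℝ, 0 < Cn ∧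
  ∀ L : ℕ, n + b ≤ L → ∃ S : Finset (Gr d L), (S.card : ℝ) ≤ C * (n : ℝ) ^ (d - 1) * 2 ^ n ∧
    Cols (SB L b n : MG d L) S ∧ SupB (SB L b n : MG d L) Cn

/-- UG. The upper bound on the grid. From B, CLA, SMB.
PROOF. `ρ = (1/p + min r 1)/2`, `b` with `l ≤ 2^b`. `A = SB + W - W * SB` with `W` from B;
`F - A F = g - W g`, `g = F - SB F ∈ GG n p ρ (C 2^(-rn))`. `S = S_SB ∪ S_W`. -/
def SpecUG : Prop := ∀ (d l : ℕ) (p r : ℝ), 2 ≤ d → 1 < p → p < 2 → 1 / p < r →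
  ∃ C : ℝ, 0 < C ∧ ∀ n : ℕ, 1 ≤ n → ∃ (Cn : ℝ) (L0 : ℕ), 0 < Cn ∧ ∀ L : ℕ, L0 ≤ L →
    ∃ (A : MG d L) (S : Finset (Gr d L)), (S.card : ℝ) ≤ C * (n : ℝ) ^ (d - 1) * 2 ^ n ∧
      Cols A S ∧ SupB A Cn ∧ ∀ F : Gr d L → ℝ, Cls l r p 1 F →
        nrm p (F - A *ᵥ F) ≤ C * ((2 : ℝ) ^ (-(r * n)) * (n : ℝ) ^ (((d : ℝ) - 1) / p))

/-! ### Transfer to the torus -/

/-- GRD. Cell averages of functions in the class are in the discrete class.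
PROOF. `gx L (y + 2π t/2^L) = gx L y + t` coordinatewise mod `2^L` (pattern: `BlkM.E_shift` in
`S/Blk.lean`), hence by translation invariance of `μT` the cell average of `g(· + 2π t/2^L)` is
the cyclic shift (`SM L t` in each coordinate) of `avc g L`, and by linearity
`(tens (DM or 1)) *ᵥ avc g L = avc (mixedDiff l e (2π t/2^L) g) L` (`diff` in different coordinates
commute; induction along the list in `mixedDiff`). By Jensen the normalised `ℓ_p` norm of cell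
averages is at most the `L_p` norm (`gx L` has cells of measure `2^(-dL)`), so the left side is at
most `∏_(j∈e) (2π t_j/2^L)^r ≤ (2π)^(rd) ∏_(j∈e) (t_j/2^L)^r`; for `e = ∅`: `‖g‖_p ≤ 1`. -/
def SpecGRD : Prop := ∀ (d l L : ℕ) (p r : ℝ) (g : C(Torus d, ℝ)), 1 ≤ p → 0 < r →
  g ∈ HClass ℝ d l r (ENNReal.ofReal p) →
    Cls l r p ((2 * Real.pi) ^ (r * d)) (avc (g : Torus d → ℝ) L)

/-- APX. Uniform approximation by cell averages, uniformly on the class.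
PROOF. Choose `r'` with `1/p < r' < min r 1`. `c g ∈ HClass ℝ d l r' p` with `c = π^(-(r-r')d)`:
the differences depend only on `t mod 2π`, so replace `t_j` by the representative `t_j'` with
`|t_j'| ≤ π`, `|t_j'| ≤ |t_j|`; `|t_j'|^r ≤ π^(r-r') |t_j'|^(r')`. `S.specMarch` (with `r'`, needs
`l ≥ 1`) and `S.specReIm` (or directly, `𝕜 = ℝ`) give `Good p r' C'` for multiples of `g`, then
`S.specApp S.specHaar S.specBlk`; `avc g L X = fn (cf g L) X` is `fn_cf` in `S/App.lean`. -/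
def SpecAPX : Prop := ∀ (d l : ℕ) (p r : ℝ), 1 < p → 1 / p < r → r < l →
  ∃ ε : ℕ → ℝ, Filter.Tendsto ε Filter.atTop (nhds 0) ∧
    ∀ g : C(Torus d, ℝ), g ∈ HClass ℝ d l r (ENNReal.ofReal p) →
      ∀ (L : ℕ) (x : Torus d), |g x - avc (g : Torus d → ℝ) L (gx L x)| ≤ ε L

/-- REI. Real and imaginary parts of the elements of the class (pattern: `S/ReIm.lean`). -/
def SpecREI : Prop := ∀ (𝕜 : Type) [RCLike 𝕜] (d l : ℕ) (r : ℝ) (p : ℝ≥0∞) (f : C(Torus d, 𝕜)),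
  f ∈ HClass 𝕜 d l r p → ∃ g g' : C(Torus d, ℝ), g ∈ HClass ℝ d l r p ∧ g' ∈ HClass ℝ d l r p ∧
    ∀ x, f x = ((g x : ℝ) : 𝕜) + ((g' x : ℝ) : 𝕜) * RCLike.I

/-- UPT. The upper bound on the torus, explicit form. From UG, GRD, APX, REI (and `S.specPts`,
`S.specCts`, `S.specHaar`; pattern `S/Up.lean`).
PROOF. Given `n`, take `Cn, L0` from UG and `L ≥ L0` so large that `ε_L (1 + Cn) ≤ 2^(-rn)`. Let
`A, S` be from UG, `x_i` points of the torus with `gx L x_i = X_i`, `S = {X_i}` (at most `m`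
points; repeat a point with `ψ = 0` to have exactly `m`), `ψ_i` continuous real with
`‖A(·, X_i) ∘ gx - ψ_i‖_2 ≤ η` (S.specCts; every grid function is `fn c`, `S.specHaar`), regarded as
`𝕜`-valued. For real `g` in the class, `ḡ = avc g L`, `c = (2π)^(-rd)`: `c ḡ ∈ Cls l r p 1` (GRD), so
`nrm p (ḡ - A ḡ) ≤ c^(-1) C 2^(-rn) n^((d-1)/p)`. `g - ∑ g(x_i) ψ_i = (g - ḡ∘gx) + (ḡ - Aḡ)∘gx +
(A(ḡ - g(x_·)))∘gx + ∑ g(x_i) (A(·,X_i)∘gx - ψ_i)`, with norms at most `ε_L`, the above, `Cn ε_L`,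
`m (1 + ε_0) η` (`|g| ≤ |avc g 0| + ε_0 ≤ 1 + ε_0`); the `L_p` norm on the torus of `G ∘ gx` is
`nrm p G` (`integral_comp_gx`). For `f = g + i g'`: twice this (REI). -/
def SpecUPT : Prop := ∀ (𝕜 : Type) [RCLike 𝕜] (d l : ℕ) (p r : ℝ), 2 ≤ d → 1 < p → p < 2 →
  1 / p < r → r < l → ∃ C : ℝ, 0 < C ∧ ∀ n m : ℕ, 1 ≤ n →
    C * (n : ℝ) ^ (d - 1) * 2 ^ n ≤ m →
    ∃ (x : Fin m → Torus d) (ψ : Fin m → C(Torus d, 𝕜)), ∀ f ∈ HClass 𝕜 d l r (ENNReal.ofReal p),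
      eLpNorm (fun y => f y - ∑ i, f (x i) * ψ i y) (ENNReal.ofReal p) (μT d) ≤
        ENNReal.ofReal (C * ((2 : ℝ) ^ (-(r * n)) * (n : ℝ) ^ (((d : ℝ) - 1) / p)))

/-- The rate `m^{-r} (log m)^{(d-1)(r+1/p)}`. -/
def rate2 (d : ℕ) (p r : ℝ) (m : ℕ) : ℝ :=
  (m : ℝ) ^ (-r) * Real.log m ^ (((d : ℝ) - 1) * (r + 1 / p))

/-- RAT. Numbers: choice of `n`.
PROOF. For `m ≥ m_0` let `n ≥ 1` be maximal with `C n^(d-1) 2^n ≤ m`. Then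
`m < C (n+1)^(d-1) 2^(n+1) ≤ C 2^d n^(d-1) 2^n`, `log m ≥ n log 2 - C'' ≥ c n`-like for `n` large
(so `n ≤ C log m` for all `m ≥ m_0`, by enlarging the constant), `2^(-n) ≤ C' n^(d-1)/m`, so
`2^(-rn) n^((d-1)/p) ≤ C' m^(-r) n^((d-1)(r+1/p)) ≤ C'' rate2`. For `2 ≤ m < m_0`:
`rate2 ≥ c > 0`. -/
def SpecRAT : Prop := ∀ (d : ℕ) (p r C : ℝ), 2 ≤ d → 1 < p → 0 < r → 0 < C →
  ∃ (m0 : ℕ) (C' : ℝ), 2 ≤ m0 ∧ 0 < C' ∧
    (∀ m : ℕ, m0 ≤ m → ∃ n : ℕ, 1 ≤ n ∧ C * (n : ℝ) ^ (d - 1) * 2 ^ n ≤ m ∧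
      (2 : ℝ) ^ (-(r * n)) * (n : ℝ) ^ (((d : ℝ) - 1) / p) ≤ C' * rate2 d p r m) ∧
    (∀ m : ℕ, 2 ≤ m → m < m0 → 1 ≤ C' * rate2 d p r m)

/-- UP. The upper bound. From UPT, RAT.
PROOF. `q ≤ p`: `L_q ≤ L_p` on a probability space (`S.FinalM.samplingNumber_mono` is for the
class and the norm). For `m < m0`: `ψ = 0`, `‖f‖_q ≤ ‖f‖_p ≤ 1 ≤ C' rate2`. -/
def SpecUP : Prop := ∀ (𝕜 : Type) [RCLike 𝕜] (d l : ℕ) (p q r : ℝ), 2 ≤ d → 1 ≤ q → q ≤ p →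
  1 < p → p < 2 → 1 / p < r → r < l → ∃ C : ℝ, 0 < C ∧ ∀ m : ℕ, 2 ≤ m →
    samplingNumber m (HClass 𝕜 d l r (ENNReal.ofReal p)) (ENNReal.ofReal q) ≤
      ENNReal.ofReal (C * rate2 d p r m)

end

end Pool.Agent.MP_bc5265.R2
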