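import Mathlib
import Pool.Agent.Lib.MP_bc5265_an.R2.SpecA
import Pool.Agent.Lib.MP_bc5265_an.Main

/-!
# Region `R_2`: specifications, block C (lower bound for arbitrary linear functionals)

Modules: `DOO PHQ BDG STE LP1 LPD LPG LPT RKB WTS KHI BRN LAM RND MEM LOWL LOWR LSN FIN`.

`N = 2^n` cells for each level `s` with `|s| = n`, `K` levels, `D = K N` test functions (smooth bumps
`Phi`, biorthogonal to the Haar functions `Haf` of the same levels, `Tensor.lean`). A linear method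
with `m ≤ D/8` functionals has an error matrix `T = 1 - (rank ≤ 2m)`.
-/

set_option linter.unusedSectionVars false

open MeasureTheory Finset Matrix
open scoped ENNReal

namespace Pool.Agent.MP_bc5265.R2

open Pool.Agent.MP_bc5265.S Pool.Agent.MP_bc5265

noncomputable section

/-! ### Littlewood-Paley on the dyadic grid -/

/-- Dyadic maximal function. -/
def MX {L : ℕ} (f : Fin (2 ^ L) → ℝ) (x : Fin (2 ^ L)) : ℝ :=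
  (range (L + 2)).sup' ⟨0, by simp⟩ fun k => |(EM L k *ᵥ f) x|

/-- DOO. Doob's maximal inequality on the dyadic grid.
PROOF. Weak type: for `lam > 0` the set `{MX f > lam}` is a disjoint union of maximal dyadic cells on
which the average of `|f|` is `> lam` (first level `k` with `|E_k f| > lam`), so
`lam #{MX f > lam} ≤ ∑_{MX f > lam} |f|`. Then with `g = MX f` (layer cake, or the elementary
inequality `g^a = ∫_0^g a s^(a-1) ds`): `∑ g^a = ∫ a s^(a-1) #{g > s} ds ≤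
∫ a s^(a-2) ∑_{g > s} |f| ds = (a/(a-1)) ∑ |f| g^(a-1) ≤ (a/(a-1)) (∑ |f|^a)^(1/a)
(∑ g^a)^(1-1/a)` (Hölder), so `∑ g^a ≤ (a/(a-1))^a ∑ |f|^a`. -/
def SpecDOO : Prop := ∀ a : ℝ, 1 < a → ∃ C : ℝ, 0 < C ∧ ∀ (L : ℕ) (f : Fin (2 ^ L) → ℝ),
  mom a (MX f) ≤ C * mom a f

/-- PHQ. Pointwise inequality. `a = |f|`, `b = |g|`, `s = ⟨f, g⟩` for vectors `f, g`:
`|f+g|^Q ≤ |f|^Q + Q |f|^(Q-2) ⟨f,g⟩ + C (|f|^(Q-2) |g|^2 + |g|^Q)`.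
PROOF. If `a ≤ 2b`: the left side is at most `(a+b)^Q ≤ (3b)^Q`, and `Q a^(Q-2) |s| ≤ Q a^(Q-1) b
≤ Q 2^(Q-1) b^Q`. If `b < a/2`: divide by `a^Q`; `b' = b/a < 1/2`, `s' = s/a^2`, `|s'| ≤ b'`,
`y = 2s' + b'^2 ∈ [-3/4, 5/4]` (`1+y ≥ (1-b')^2 ≥ 1/4`), `|y| ≤ (5/2) b'`, and
`(1+y)^(Q/2) ≤ 1 + (Q/2) y + C y^2` on `[-3/4, 5/4]` (Taylor with bounded second derivative). -/
def SpecPHQ : Prop := ∀ Q : ℝ, 2 ≤ Q → ∃ C : ℝ, 0 < C ∧ ∀ a b s : ℝ, 0 ≤ a → 0 ≤ b →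
  |s| ≤ a * b → (a ^ 2 + 2 * s + b ^ 2) ^ (Q / 2) ≤
    a ^ Q + Q * a ^ (Q - 2) * s + C * (a ^ (Q - 2) * b ^ 2 + b ^ Q)

/-- BDG. Square function inequality for vector valued martingale differences, `Q > 2`. From PHQ,
DOO, OPS. `|·|` is the Euclidean norm in `J → ℝ`.
PROOF. `f_m = ∑_(k<m) D k`, `f = f_(L+1)`, `f_m = EM L m f`. PHQ with `f_m`, `D m` and the
average over `x`: `avg |f_m|^(Q-2) ⟨f_m, D m⟩ = 0` (`f_m` is constant on the cells of `EM L m`,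
`EM L m (D m) = 0`). So `avg |f|^Q ≤ C ∑_m avg (|f_m|^(Q-2) |D m|^2 + |D m|^Q) ≤
C avg (g^(Q-2) S^2 + S^Q)`, `S^2 = ∑ |D m|^2`, `g = max_m |f_m| ≤ MX |f|` (`|E f| ≤ E |f|`).
Hölder and DOO: `avg g^(Q-2) S^2 ≤ (avg g^Q)^((Q-2)/Q) (avg S^Q)^(2/Q) ≤
C (avg |f|^Q)^((Q-2)/Q) (avg S^Q)^(2/Q)`. With `X = avg |f|^Q`, `Y = avg S^Q`:
`X ≤ C (X^(1-2/Q) Y^(2/Q) + Y)` implies `X ≤ C' Y`. -/
def SpecBDG : Prop := ∀ Q : ℝ, 2 < Q → ∃ C : ℝ, 0 < C ∧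
  ∀ (L : ℕ) (J : Type) [Fintype J] (D : ℕ → Fin (2 ^ L) → J → ℝ),
    (∀ k i, (EM L (k + 1) - EM L k) *ᵥ (fun x => D k x i) = fun x => D k x i) →
    ∑ x, (∑ i, (∑ k ∈ range (L + 1), D k x i) ^ 2) ^ (Q / 2) ≤
      C * ∑ x, (∑ k ∈ range (L + 1), ∑ i, D k x i ^ 2) ^ (Q / 2)

/-- STE. Stein's inequality, vector valued, `Q > 2`. From DOO, OPS.
PROOF. `w_k = ∑_i u_(k,i)^2 ≥ 0`; `∑_i (E_k u_(k,i))^2 ≤ E_k w_k` (Jensen). So it is enough to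
show, for `a = Q/2 > 1`, `∑_x (∑_k E_k w_k)^a ≤ C ∑_x (∑_k w_k)^a`. Let `G = ∑_k E_k w_k`,
`h = G^(a-1)`: `∑_x G^a = ∑_x ∑_k (E_k w_k) h = ∑_x ∑_k w_k E_k h ≤ ∑_x (∑_k w_k) MX h ≤
(∑_x (∑_k w_k)^a)^(1/a) (∑_x (MX h)^(a'))^(1/a')`, `a' = a/(a-1) ∈ (1, ∞)`, and by DOO
`∑ (MX h)^(a') ≤ C ∑ h^(a') = C ∑ G^a`. Divide. -/
def SpecSTE : Prop := ∀ Q : ℝ, 2 < Q → ∃ C : ℝ, 0 < C ∧
  ∀ (L : ℕ) (J : Type) [Fintype J] (u : ℕ → Fin (2 ^ L) → J → ℝ),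
    ∑ x, (∑ k ∈ range (L + 2), ∑ i, ((EM L k *ᵥ fun y => u k y i) x) ^ 2) ^ (Q / 2) ≤
      C * ∑ x, (∑ k ∈ range (L + 2), ∑ i, u k x i ^ 2) ^ (Q / 2)

/-- LP1. One dimension: BDG for `D k = (EM (k+1) - EM k) u_k` (`(EM (k+1) - EM k)^2` is the same
operator), then `|D k|^2 ≤ 2 |EM (k+1) u_k|^2 + 2 |EM k u_k|^2` and STE twice (once for the
sequence `u_0, u_1, …, u_L, 0` and once for the shifted sequence `0, u_0, …, u_L`). -/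
def SpecLP1 : Prop := ∀ Q : ℝ, 2 < Q → ∃ C : ℝ, 0 < C ∧
  ∀ (L : ℕ) (J : Type) [Fintype J] (u : ℕ → Fin (2 ^ L) → J → ℝ),
    ∑ x, (∑ i, (∑ k ∈ range (L + 1), ((EM L (k + 1) - EM L k) *ᵥ fun y => u k y i) x) ^ 2) ^
        (Q / 2) ≤
      C * ∑ x, (∑ k ∈ range (L + 1), ∑ i, u k x i ^ 2) ^ (Q / 2)

/-- LPD. `d` dimensions. From LP1, TEN. PROOF. Induction over the coordinates. For a set `J` of
coordinates let `D^J_t` be `tens` with `EM (t j + 1) - EM (t j)` for `j ∈ J` and `1` otherwise.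
Claim: for every finite type `I` and functions `u : (Fin d → ℕ) → Gr d L → I → ℝ` supported (in
`t`) on vectors with `t j = 0` for `j ∉ J`, `t j ≤ L`:
`∑_x (∑_i (∑_t (D^J_t u_(t,i)) x)^2)^(Q/2) ≤ C^|J| ∑_x (∑_(t,i) u_(t,i)(x)^2)^(Q/2)`. Step
`J ∪ {j}`: for fixed values of the other coordinates of `x` apply LP1 in the variable `x_j` to
`U_(k,i) = ∑_{t : t j = k} D^J_t u_(t,i)` (index type `I`), then the claim for `J` to the functions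
`u` with index type `I × {0..L}` (the value `k = t j` becomes an index). -/
def SpecLPD : Prop := ∀ (Q : ℝ) (d : ℕ), 2 < Q → ∃ C : ℝ, 0 < C ∧
  ∀ (L : ℕ) (u : (Fin d → ℕ) → Gr d L → ℝ),
    ∑ x, |∑ t ∈ box d (L + 1), (Dt L t *ᵥ u t) x| ^ Q ≤
      C * ∑ x, (∑ t ∈ box d (L + 1), u t x ^ 2) ^ (Q / 2)

/-- LPG. Littlewood-Paley inequality for `1 < q < 2` by duality. From LPD, OPS (symmetry).
PROOF. `S = (∑_t (D_t F)^2)^(1/2)`, `u_t = (D_t F) S^(q-2)` (`0` where `S = 0`), `Q = q/(q-1)`.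
`∑_x S^q = ∑_x ∑_t (D_t F) u_t = ∑_x F ∑_t D_t u_t ≤ (∑ |F|^q)^(1/q) (∑ |∑_t D_t u_t|^Q)^(1/Q) ≤
(∑ |F|^q)^(1/q) (C ∑_x (∑_t u_t^2)^(Q/2))^(1/Q)`, and `∑_t u_t^2 = S^(2q-2)`,
`(S^(2q-2))^(Q/2) = S^q`. Divide. -/
def SpecLPG : Prop := ∀ (q : ℝ) (d : ℕ), 1 < q → q < 2 → ∃ C : ℝ, 0 < C ∧
  ∀ (L : ℕ) (F : Gr d L → ℝ),
    ∑ x, (∑ t ∈ box d (L + 1), ((Dt L t *ᵥ F) x) ^ 2) ^ (q / 2) ≤ C * ∑ x, |F x| ^ q

/-- LPT. The inequality for functions on the torus and the Haar functions `Haf` of `Tensor.lean`.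
From LPG. PROOF. `L = n+1`, `G = avc F L` (cell averages); `∑_X |G X|^q ≤ 2^(dL) ∫ |F|^q` (Jensen).
For a level `s` (`s_j ≤ n`) and a cell `X`: `(Dt L (s+1) *ᵥ G) X = ± 2^|s| ∫ F Haf s (X / 2^(L-s))`:
in one coordinate `(E_(s+1) - E_s) G (x) = ± (average over the left half - average over the right
half of the cell of level s of x)/2` (here `E_(s+1)` is `EM L (s+2)`, `E_s` is `EM L (s+1)`). The
levels `s_b + 1 ∈ box d (L+1)` are different for different `b`. -/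
def SpecLPT : Prop := ∀ (q : ℝ) (d : ℕ), 1 < q → q < 2 → ∃ C : ℝ, 0 < C ∧
  ∀ (n : ℕ) (B : Type) [Fintype B] (lv : B → Fin d → ℕ), Function.Injective lv →
    (∀ b, ∑ j, lv b j = n) → ∀ F : Torus d → ℝ, MemLp F (ENNReal.ofReal q) (μT d) →
      ∑ X : Gr d (n + 1), (∑ b, (2 ^ n * ∫ x, F x * Haf (lv b)
          (fun j => (X j : ℕ) / 2 ^ (n + 1 - lv b j)) x ∂(μT d)) ^ 2) ^ (q / 2) ≤
        C * 2 ^ (d * (n + 1)) * ∫ x, |F x| ^ q ∂(μT d)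

/-! ### Weights -/

/-- RKB. Submatrices. From `rank_bound` (`Fin.lean`) applied to the subtype `I1 ∩ K0`. -/
def SpecRKB : Prop := ∀ (I J : Type) [Fintype I] [DecidableEq I] [Fintype J] (Y : I → J → ℝ)
  (Z : J → I → ℝ) (I1 K0 : Finset I),
  ((I1 ∩ K0).card : ℝ) - Fintype.card J ≤
    ∑ i ∈ I1, ∑ k ∈ K0, ((if i = k then (1 : ℝ) else 0) - ∑ j, Y i j * Z j k) ^ 2

/-- WTS. The weights. From RKB. `T = 1 - Y Z`, `D = |I|`.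
PROOF. `φ(t) = t` for `t ≤ 1`, `1 + log t` for `t ≥ 1`: concave, increasing on `[0, ∞)`,
`φ(s) ≤ φ(t) + (s-t)/max(1,t)`. For `v : I → (0,1]` let `γ_k(v) = ∑_i v_i T_ik^2`,
`Γ_k = max(1, γ_k)`, `Ψ(v) = ∑_k φ(γ_k(v)) - 10 ∑_i log v_i`, over the `v` with `v_i = 2^(-j_i)`.
`Ψ(v) ≥ 10 log 2 max j_i`, so there is a minimum; let `v` be the minimum,
`R_i = v_i ∑_k T_ik^2/Γ_k`. Compare with `v_i` replaced by `v_i/2`: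
`0 ≤ Ψ' - Ψ ≤ -R_i/2 + 10 log 2`, so `R_i ≤ 20 log 2 ≤ 14`. If `v_i < 1` compare with `2 v_i`:
`0 ≤ Ψ' - Ψ ≤ R_i - 10 log 2`, so `R_i ≥ 6.9`. `∑_i R_i = ∑_k γ_k/Γ_k = ∑_k min(1, γ_k) ≤ D`,
so at most `D/6.9` rows have `v_i < 1`; `I1` = the others, `K0 = {k : γ_k ≤ 1}`. By RKB
`∑_(k∈K0) γ_k ≥ ∑_(k∈K0) ∑_(i∈I1) T_ik^2 ≥ |I1 ∩ K0| - D/4 ≥ |K0| - D/6.9 - D/4`, hence
`∑_k min(1, γ_k) ≥ D - D/6.9 - D/4 ≥ D/2`. `w_k = 1/Γ_k`; column sums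
`∑_i v_i T_ik^2 w_k = γ_k/Γ_k ≤ 1`. -/
def SpecWTS : Prop := ∀ (I J : Type) [Fintype I] [DecidableEq I] [Fintype J] (Y : I → J → ℝ)
  (Z : J → I → ℝ) (T : I → I → ℝ),
  (∀ i k, T i k = (if i = k then (1 : ℝ) else 0) - ∑ j, Y i j * Z j k) →
  4 * Fintype.card J ≤ Fintype.card I →
  ∃ v w : I → ℝ, (∀ i, 0 ≤ v i ∧ v i ≤ 1) ∧ (∀ i, 0 ≤ w i ∧ w i ≤ 1) ∧
    (∀ k, ∑ i, v i * T i k ^ 2 * w k ≤ 1) ∧
    (∀ i, ∑ k, v i * T i k ^ 2 * w k ≤ 14) ∧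
    (Fintype.card I : ℝ) / 2 ≤ ∑ i, ∑ k, v i * T i k ^ 2 * w k

/-! ### Randomisation -/

/-- KHI. Khinchine-Kahane for vectors. (`sg`, `Signs.lean`.)
PROOF. `X = ∑_e (∑_i ε_i V_ie)^2 = S + ∑_(i≠j) ε_i ε_j ⟨V_i, V_j⟩`, `E X = S`,
`E X^2 = S^2 + 2 ∑_(i≠j) ⟨V_i,V_j⟩^2 ≤ 3 S^2`. Paley-Zygmund:
`S/2 ≤ E X 1[X > S/2] ≤ (E X^2)^(1/2) P(X > S/2)^(1/2)`, `P ≥ 1/12`;
`E X^(q/2) ≥ (1/12) (S/2)^(q/2) ≥ S^(q/2)/24`. -/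
def SpecKHI : Prop := ∀ (q : ℝ) (I E : Type) [Fintype I] [DecidableEq I] [Fintype E]
  (V : I → E → ℝ), 0 < q → q ≤ 2 →
  2 ^ Fintype.card I * ((∑ i, ∑ e, V i e ^ 2) ^ (q / 2) / 24) ≤
    ∑ ε : I → Bool, (∑ e, (∑ i, sg (ε i) * V i e) ^ 2) ^ (q / 2)

/-- BRN. Sparse sums. Average over `ξ : I → Fin K`; `X = ∑_{ξ i = 0} Q i`, `0 ≤ Q i ≤ 1`,
`∑ Q = K R`, `R ≥ 1/4`.
PROOF. `E X = R`, `E X^2 ≤ E X + (E X)^2` (independence of the `ξ i`, `Q i^2 ≤ Q i`).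
Paley-Zygmund: `P(X ≥ R/2) ≥ R^2/(4(R+R^2)) = R/(4(1+R)) ≥ 1/20`, `(R/2)^s ≥ 1/8` for
`0 < s ≤ 1`. -/
def SpecBRN : Prop := ∀ (s R : ℝ) (I : Type) [Fintype I] [DecidableEq I] (K : ℕ) (Q : I → ℝ),
  0 < s → s ≤ 1 → 1 ≤ K → (∀ i, 0 ≤ Q i ∧ Q i ≤ 1) → ∑ i, Q i = K * R → 1 / 4 ≤ R →
  (K : ℝ) ^ Fintype.card I / 160 ≤
    ∑ ξ : I → Fin K, (∑ i, if (ξ i : ℕ) = 0 then Q i else 0) ^ s

/-- LAM. The normalisation. Average over `ξ` of `Lam ξ ≥ 1`, where `Lam ξ` is an upper bound of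
`K #{k : ξ (b,k) = 0}/N` for all `b`.
PROOF. `Lam ξ = 2 + ∑_b (K #_b/N - 1)^2`: `y ≤ 2 + (y-1)^2` for all real `y`.
`E (K #_b/N - 1)^2 ≤ (K^2/N^2) (N/K) = K/N` (variance of a sum of independent variables), sum
over the `K` values `b`: `K^2/N ≤ A`. -/
def SpecLAM : Prop := ∀ (A : ℝ) (B : Type) [Fintype B] [DecidableEq B] (ι : B → Type)
  [∀ b, Fintype (ι b)] [∀ b, DecidableEq (ι b)] (K N : ℕ), 1 ≤ K → 1 ≤ N →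
  Fintype.card B = K → (∀ b, Fintype.card (ι b) = N) → (K : ℝ) ^ 2 ≤ A * N →
  ∃ Lam : ((Σ b, ι b) → Fin K) → ℝ, (∀ ξ, 1 ≤ Lam ξ) ∧
    (∀ ξ b, (K : ℝ) * (∑ k : ι b, if (ξ ⟨b, k⟩ : ℕ) = 0 then (1 : ℝ) else 0) ≤ N * Lam ξ) ∧
    ∑ ξ, Lam ξ ≤ (2 + A) * (K : ℝ) ^ Fintype.card (Σ b, ι b)

/-- RND. The random test vector. From KHI, BRN, LAM.
PROOF. `K = |B|`, `ξ : Σ → Fin K`, `ε : Σ → Bool`, `y_i = K^(1/p) 1[ξ i = 0] sg(ε i) (w i)^(1/2)`.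
For fixed `z`, KHI (`E = B`, `V i b = T ⟨b, cl z b⟩ i |y_i|`):
`E_ε (∑_b (∑_i T y)^2)^(q/2) ≥ (1/24) (∑_b ∑_i T^2 y_i^2)^(q/2) ≥
(1/24) K^(q/p) (∑_{ξ i = 0} Q_z(i))^(q/2)`, `Q_z(i) = ∑_b v ⟨b, cl z b⟩ T ⟨b, cl z b⟩ i ^2 w i`
(`v ≤ 1`), `0 ≤ Q_z(i) ≤ 1` (column sums), `∑_i Q_z(i) = K R(z)`,
`R(z) = (1/K) ∑_b R_⟨b, cl z b⟩ ≤ 14`, and the average over `z` of `R(z)` is
`(1/(K N)) ∑_i R_i ≥ 1/2` (uniform distribution of `cl z b`). So at least `|Z|/56` points `z` have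
`R(z) ≥ 1/4`; for these BRN (`s = q/2`) gives `E_ξ (…)^(q/2) ≥ 1/160`. Total:
`E_(ξ,ε) ∑_z (…)^(q/2) ≥ c0 K^(q/p) |Z|`, `c0 = 1/(24·160·56)`. With LAM: there is `(ξ, ε)` with
`∑_z (…)^(q/2) ≥ (c0/(2+A)) K^(q/p) |Z| Lam ξ`. `x = y / (Lam ξ)^(1/p)`:
`∑_k |x ⟨b,k⟩|^p ≤ K #_b / Lam ≤ N`, and `(Lam^(1/p))^(-q) Lam ≥ 1` as `q ≤ p`, `Lam ≥ 1`. -/
def SpecRND : Prop := ∀ p q A : ℝ, 0 < q → q ≤ p → p ≤ 2 → 0 ≤ A → ∃ c : ℝ, 0 < c ∧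
  ∀ (B : Type) [Fintype B] [DecidableEq B] [Nonempty B] (ι : B → Type) [∀ b, Fintype (ι b)]
    [∀ b, DecidableEq (ι b)] (N : ℕ) (Z : Type) [Fintype Z] [Nonempty Z] (cl : Z → ∀ b, ι b)
    (T : (Σ b, ι b) → (Σ b, ι b) → ℝ) (v w : (Σ b, ι b) → ℝ), 1 ≤ N →
    (∀ b, Fintype.card (ι b) = N) → ((Fintype.card B : ℝ) ^ 2 ≤ A * N) →
    (∀ b k, (univ.filter fun z => cl z b = k).card * N = Fintype.card Z) →
    (∀ i, 0 ≤ v i ∧ v i ≤ 1) → (∀ i, 0 ≤ w i ∧ w i ≤ 1) →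
    (∀ k, ∑ i, v i * T i k ^ 2 * w k ≤ 1) → (∀ i, ∑ k, v i * T i k ^ 2 * w k ≤ 14) →
    ((N : ℝ) * Fintype.card B / 2 ≤ ∑ i, ∑ k, v i * T i k ^ 2 * w k) →
    ∃ x : (Σ b, ι b) → ℝ, (∀ b, ∑ k, |x ⟨b, k⟩| ^ p ≤ N) ∧
      c * (Fintype.card B : ℝ) ^ (q / p) * Fintype.card Z ≤
        ∑ z, (∑ b, (∑ i, T ⟨b, cl z b⟩ i * x i) ^ 2) ^ (q / 2)

/-! ### The lower bound -/

/-- MEM. The test functions are in the class, `ℓ_p` normalisation (copy of `total_bound` in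
`Member.lean` with `block_bound`, `eLpNorm_G` in `Norm.lean`: there `∑_k a_k^2 ≤ 1`, `p ≥ 2`, was used
only for `∫ |G|^p = 2^(-n) ∑_k |a_k|^p ≤ 2^(-n)`; here `∑_k |a_k|^p ≤ 2^n`, so
`∫ |G|^p ≤ 1`, and the factor `(2^n)^(1/p)` disappears). -/
def SpecMEM : Prop := ∀ (l : ℕ) (r : ℝ) (d : ℕ), 0 < r → r < l → ∃ c1 : ℝ, 0 < c1 ∧
  ∀ (B : Type) [Fintype B] (lv : B → Fin d → ℕ) (n : ℕ), Function.Injective lv →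
    (∀ b, ∑ j, lv b j = n) → ∀ p : ℝ, 1 ≤ p →
    ∀ a : (Σ b, ∀ j, Fin (2 ^ lv b j)) → ℝ, (∀ b, ∑ k, |a ⟨b, k⟩| ^ p ≤ 2 ^ n) →
    ∀ (e : Finset (Fin d)) (t : Fin d → ℝ),
      eLpNorm (mixedDiff l e t ((c1 * (2 ^ n) ^ (-r)) • ftest lv a))
        (ENNReal.ofReal p) (μT d) ≤ ENNReal.ofReal (∏ j ∈ e, |t j| ^ r)

/-- LOWL. The lower bound with an explicit number of levels. From LPT, WTS, RND, MEM (pattern: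
`lower_layer` in `Main.lean`, all its lemmas can be used: `lev`, `lev_sum`, `lev_injective`, `fC`,
`Lmap`, `gerr`, `pairing`, `Ymat`, `Zmat`, `Tmat`, `integral_same`, `integral_ne`, `integral_Chi`).
PROOF. `B = Fin e → Fin k`, `n = e k`, `N = 2^n`, `ι b = ∀ j, Fin (2^(lev b j))`,
`κ = (2 c0)^(e+1)`, `T = Tmat`, `J = Fin m ⊕ Fin m`. If `k = 0` then `f = 0`. `k ≥ 1`:
`(k^e)^2 ≤ 2^e 2^(ek)` since `k^2 ≤ 2 · 2^k`. WTS (`4 · 2m ≤ k^e 2^(ek)`), then RND with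
`Z = Gr (e+1) (n+1)`, `cl X b = (X_j / 2^(n+1-lev b j))_j`, give `x`. With
`F = gerr φ ψ' (Lmap lv Λ) x` (real part of the error of `fC lv x`):
`2^n ∫ F Haf_i = κ ∑_(i') T i i' x i'` (`pairing`), so by LPT
`c K^(q/p) |Z| ≤ κ^(-q) C |Z| ∫ |F|^q`. Finally `f = c1 (2^n)^(-r) • fC lv x` is in the class
(MEM), `K = k^e`. For `q = 2`: not needed (`q ≤ p < 2`). -/
def SpecLOWL : Prop := ∀ (𝕜 : Type) [RCLike 𝕜] (e l : ℕ) (p q r : ℝ), 1 ≤ e → 0 < r → r < l →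
  1 < q → q ≤ p → p < 2 → ∃ c : ℝ, 0 < c ∧ ∀ k m : ℕ, 8 * m ≤ 2 ^ (e * k) * k ^ e →
    ∀ (Λ : Fin m → (C(Torus (e + 1), 𝕜) →ₗ[𝕜] 𝕜)) (ψ : Fin m → Torus (e + 1) → 𝕜),
      (∀ i, MemLp (ψ i) (ENNReal.ofReal q) (μT (e + 1))) →
      ∃ f ∈ HClass 𝕜 (e + 1) l r (ENNReal.ofReal p),
        ENNReal.ofReal (c * (((2 : ℝ) ^ (e * k)) ^ (-r) * ((k : ℝ) ^ e) ^ (1 / p))) ≤
          eLpNorm (fun y => f y - ∑ i, Λ i f * ψ i y) (ENNReal.ofReal q) (μT (e + 1))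

/-- LOWR. From LOWL. Copy of `exists_k`, `rate_le` (with `q = p`: `rate d p p r` there is
`rate2 d p r`) and of the last part of `Results/MP_bc5265_an/SharpLowerBound.lean`. -/
def SpecLOWR : Prop := ∀ (𝕜 : Type) [RCLike 𝕜] (d l : ℕ) (p q r : ℝ), 2 ≤ d → 0 < r → r < l →
  1 < q → q ≤ p → p < 2 → ∃ c : ℝ, 0 < c ∧ ∀ m : ℕ, 2 ≤ m →
    ENNReal.ofReal (c * rate2 d p r m) ≤
      linearNumber m (HClass 𝕜 d l r (ENNReal.ofReal p)) (ENNReal.ofReal q)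

/-- LSN. Point evaluations are linear functionals, continuous functions are in `L_q`. -/
def SpecLSN : Prop := ∀ (𝕜 : Type) [RCLike 𝕜] (d m : ℕ) (F : Set C(Torus d, 𝕜)) (q : ℝ≥0∞),
  linearNumber m F q ≤ samplingNumber m F q

/-- FIN. The theorem. From UP, LOWR, LSN. -/
def SpecFIN : Prop := ∀ (𝕜 : Type) [RCLike 𝕜] (d l : ℕ) (p q r : ℝ), 2 ≤ d → 1 < q → q ≤ p →
  p < 2 → 1 / p < r → r < l → ∃ c C : ℝ, 0 < c ∧ 0 < C ∧ ∀ m : ℕ, 2 ≤ m →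
    ENNReal.ofReal (c * ((m : ℝ) ^ (-r) * Real.log m ^ (((d : ℝ) - 1) * (r + 1 / p)))) ≤
      linearNumber m (HClass 𝕜 d l r (ENNReal.ofReal p)) (ENNReal.ofReal q) ∧
    linearNumber m (HClass 𝕜 d l r (ENNReal.ofReal p)) (ENNReal.ofReal q) ≤
      samplingNumber m (HClass 𝕜 d l r (ENNReal.ofReal p)) (ENNReal.ofReal q) ∧
    samplingNumber m (HClass 𝕜 d l r (ENNReal.ofReal p)) (ENNReal.ofReal q) ≤
      ENNReal.ofReal (C * ((m : ℝ) ^ (-r) * Real.log m ^ (((d : ℝ) - 1) * (r + 1 / p))))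

end

end Pool.Agent.MP_bc5265.R2
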