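import Mathlib
import Pool.Agent.Lib.MP_bc5265_an.R2.SpecB

/-!
# Region `R_2`: specifications, block R (the random pattern)

Modules: `IND MOM ZVA ZVB ZEX PCO POC UNB GOO OPB MAR DUA LOW HIG`, and `RW` (main statement
`SpecRW`, file SpecB), from GOO, LOW, HIG:
PROOF of RW. `k` with `2k > p/(p-1)`; `α, δ, κ, h0` from GOO, `h0` enlarged such that `2^i0 ≤ h^d`
implies `i0 ≤ δ h` and `i0 ≤ h` for `h ≥ h0`; `g = 3dh - h - i0 ≥ 0`. `Y = {y : ω y = 0}`;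
`Y.card ≤ 2 * 2^(h+i0)` is the field `co` with `b = 0`, `c = 0`. `b j ≤ 3h` because
`∑ b ≤ α h ≤ h`. `C` = the maximum of the constants of LOW and HIG.

Notation. The grid is `Gr d H` with `H = 3h`; `M = 2^(h+i0)`, `g = d H - h - i0`; a point `x` is
selected by `ω : Gr d H → Fin (2^g)` if `ω x = 0` (probability `2^(-g) = M / 2^(dH)`),
`ζ_x = 2^g 1[ω x = 0] - 1` is centred.
-/

set_option linter.unusedSectionVars false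

open MeasureTheory Finset Matrix
open scoped ENNReal

namespace Pool.Agent.MP_bc5265.R2

open Pool.Agent.MP_bc5265.S

noncomputable section

/-- Expectation over `ω : X → Fin (2^g)` (uniform). -/
def EX {X : Type} [Fintype X] [DecidableEq X] (g : ℕ) (f : (X → Fin (2 ^ g)) → ℝ) : ℝ :=
  (∑ ω, f ω) / Fintype.card (X → Fin (2 ^ g))

/-- The centred selection variable. -/
def zt (g : ℕ) (t : Fin (2 ^ g)) : ℝ := if (t : ℕ) = 0 then 2 ^ g - 1 else -1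

/-- `f` depends only on the coordinates in `S`. -/
def DepOn {X : Type} {g : ℕ} (S : Set X) (f : (X → Fin (2 ^ g)) → ℝ) : Prop :=
  ∀ ω ω', (∀ x ∈ S, ω x = ω' x) → f ω = f ω'

/-- IND. Independence and the moments of `ζ`.
PROOF. (1) `Fintype.sum` over `X → Fin (2^g)` as a product over `S` and its complement
(`Equiv.piEquivPiSubtypeProd`). (2), (3): by (1) and counting on one coordinate, or directly from
`Fintype.sum` of a function of `ω x`: `∑_ω φ (ω x) = (2^g)^(|X|-1) ∑_t φ t`. (4)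
`E ζ^(2j) = 2^(-g) (2^g-1)^(2j) + (1-2^(-g)) ≤ (2^g)^(2j-1) + 1 ≤ 2 (2^g)^(2j-1)`. -/
def SpecIND : Prop := ∀ (X : Type) [Fintype X] [DecidableEq X] (g : ℕ),
  (∀ (S : Set X) (f f' : (X → Fin (2 ^ g)) → ℝ), DepOn S f → DepOn Sᶜ f' →
    EX g (fun ω => f ω * f' ω) = EX g f * EX g f') ∧
  (∀ (x : X) (φ : Fin (2 ^ g) → ℝ), EX g (fun ω : X → Fin (2 ^ g) => φ (ω x)) =
    (∑ t, φ t) / 2 ^ g) ∧
  (∑ t : Fin (2 ^ g), zt g t = 0) ∧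
  (∀ j : ℕ, 1 ≤ j → (∑ t : Fin (2 ^ g), zt g t ^ (2 * j)) / 2 ^ g ≤ 2 * ((2 : ℝ) ^ g) ^ (2 * j - 1))

/-- The bound of the moment inequality. -/
def mbd {X : Type} [Fintype X] (g k : ℕ) (a : X → ℝ) : ℝ :=
  ∑ j ∈ Icc 1 k, ((2 : ℝ) ^ g * ∑ x, a x ^ 2) ^ (k - j) *
    (((2 : ℝ) ^ g) ^ (2 * j - 1) * ∑ x, a x ^ (2 * j))

/-- MOM. Moment inequality. From IND.
PROOF. `S = ∑_x X_x`, `X_x = a x ζ_x` independent and centred, `V = ∑ E X_x^2 ≤ 2^(g+1) ∑ a^2`,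
`W_j = ∑ E X_x^(2j) ≤ 2 (2^g)^(2j-1) ∑ a^(2j)`. For `k ≥ 1`: `E S^(2k) = ∑_x E X_x S^(2k-1)`. With
`S = S_x + X_x`, `S_x` independent of `X_x`, `E X_x S_x^(2k-1) = 0`, so
`E X_x S^(2k-1) = E X_x ((S_x+X_x)^(2k-1) - S_x^(2k-1)) ≤ (2k-1) E X_x^2 (|S_x| + |X_x|)^(2k-2)
≤ (2k-1) 4^k (E X_x^2 E S_x^(2k-2) + E X_x^(2k))`. Moreover `E S_x^(2k-2) ≤ E S^(2k-2)` (Jensen in
the coordinate `x`: `|S_x|^(2m) ≤ E_x |S_x + X_x|^(2m)`; elementary: `(s+t)^(2m) ≥ s^(2m) +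
2m s^(2m-1) t`). Hence `E S^(2k) ≤ C_k (V E S^(2k-2) + W_k)`, and by induction
`E S^(2k) ≤ C_k' ∑_(j=1)^k V^(k-j) W_j` (for `k = 1`: `E S^2 = V ≤ 2 * (j = 1 term)`). -/
def SpecMOM : Prop := ∀ k : ℕ, 1 ≤ k → ∃ C : ℝ, 0 < C ∧
  ∀ (X : Type) [Fintype X] [DecidableEq X] (g : ℕ) (a : X → ℝ),
    EX g (fun ω : X → Fin (2 ^ g) => (∑ x, a x * zt g (ω x)) ^ (2 * k)) ≤ C * mbd g k a

/-- ZVA. Variance of an average of products over disjoint cells. From IND. `cl : X → R` is the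
cell, `B i ρ` depends only on the coordinates in the cell `ρ`.
PROOF. `P_ρ = ∏_i B i ρ` are independent for different `ρ` (IND), so
`E (∑ w P_ρ - E ∑ w P_ρ)^2 = w^2 ∑_ρ E (P_ρ - E P_ρ)^2 ≤ w^2 ∑_ρ E P_ρ^2`, and
`P_ρ^2 = ∏_(i<m) B_i^2 ≤ (1/m) ∑_i B_i^(2m)` (`Real.inner_le…`/AM-GM
`Real.geom_mean_le_arith_mean` or `inner_le_nnorm_mul_nnorm`; `m ≥ 1`). -/
def SpecZVA : Prop := ∀ (X R : Type) [Fintype X] [DecidableEq X] [Fintype R] [DecidableEq R]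
  (g m : ℕ) (cl : X → R) (w Q : ℝ) (B : Fin m → R → (X → Fin (2 ^ g)) → ℝ), 1 ≤ m →
  (∀ i ρ, DepOn {x | cl x = ρ} (B i ρ)) →
  (∀ i ρ, EX g (fun ω => B i ρ ω ^ (2 * m)) ≤ Q) →
  EX g (fun ω => (∑ ρ, w * ∏ i, B i ρ ω -
    EX g (fun ω => ∑ ρ, w * ∏ i, B i ρ ω)) ^ 2) ≤ w ^ 2 * Fintype.card R * Q

/-- Points in the cell of levels `b` with index `c`. -/
def inC {d H : ℕ} (b c : Fin d → ℕ) (y : Gr d H) : Prop := ∀ j, (y j : ℕ) / 2 ^ (H - b j) = c j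

instance {d H : ℕ} (b c : Fin d → ℕ) (y : Gr d H) : Decidable (inC b c y) := by
  unfold inC; infer_instance

/-- Average over the cell of levels `v` of `x` of `ζ` times the indicator of the cell `c` of levels
`b`. -/
def Bc {d H : ℕ} (g : ℕ) (v b c : Fin d → ℕ) (x : Gr d H) (ω : Gr d H → Fin (2 ^ g)) : ℝ :=
  (2 : ℝ) ^ (∑ j, v j) / 2 ^ (d * H) *
    ∑ y : Gr d H, if sameCell v x y ∧ inC b c y then zt g (ω y) else 0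

/-- The coefficients of `mom (2k) (T u)`. -/
def Zc {d H : ℕ} (g k : ℕ) (v b : Fin d → ℕ) (c : Fin (2 * k) → Fin d → ℕ)
    (ω : Gr d H → Fin (2 ^ g)) : ℝ :=
  (∑ x : Gr d H, ∏ i, Bc g v b (c i) x ω) / 2 ^ (d * H)

/-- The dual operator: averages over the cells of levels `v` of `ζ u`. -/
def Tu {d H : ℕ} (g : ℕ) (v : Fin d → ℕ) (ω : Gr d H → Fin (2 ^ g)) (u : Gr d H → ℝ)
    (x : Gr d H) : ℝ :=
  (2 : ℝ) ^ (∑ j, v j) / 2 ^ (d * H) *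
    ∑ y : Gr d H, if sameCell v x y then zt g (ω y) * u y else 0

/-- Powers of `1/ν`: `2^(2k j)` for `j = |v| - h - i0 > 0`, `1` otherwise. -/
def pw (k : ℕ) (j : ℤ) : ℝ := if j ≤ 0 then 1 else (2 : ℝ) ^ ((2 * k : ℝ) * j)

/-- ZVB. Variance of `Zc`. From MOM, ZVA. `g + h + i0 = d H`, so `2^(g+|v|-dH) = 2^(|v|-h-i0) =
1/ν`.
PROOF. `Bc` depends on `x` only through its cell of levels `v` (`2^|v|` cells, each with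
`2^(dH-|v|)` points, `v j ≤ H`), so `Zc = ∑_ρ 2^(-|v|) ∏_i B_i(ρ)`; ZVA with `w = 2^(-|v|)`,
`|R| = 2^|v|`, `m = 2k`: the variance is at most `2^(-|v|) Q`, `Q ≥ E Bc^(4k)`. By MOM (with `2k`
in place of `k`) with `a y = 2^(|v|-dH)` on at most `2^(dH-|v|)` points: the `j`-th term of
`mbd g (2k)` is at most `(2^(g+|v|-dH))^(2k-j) (2^(g+|v|-dH))^(2j-1) = (1/ν)^(2k+j-1)`,
`2k ≤ 2k+j-1 ≤ 4k-1`, at most `1` if `1/ν ≤ 1` and at most `(1/ν)^(4k)` if `1/ν > 1`. -/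
def SpecZVB : Prop := ∀ k : ℕ, 1 ≤ k → ∃ C : ℝ, 0 < C ∧
  ∀ (d H g h i0 : ℕ) (v b : Fin d → ℕ) (c : Fin (2 * k) → Fin d → ℕ), g + h + i0 = d * H →
    (∀ j, v j ≤ H) →
    EX g (fun ω : Gr d H → Fin (2 ^ g) =>
      (Zc g k v b c ω - EX g (fun ω' : Gr d H → Fin (2 ^ g) => Zc g k v b c ω')) ^ 2) ≤
      C * 2 ^ (-((∑ j, v j : ℕ) : ℝ)) * pw (2 * k) (((∑ j, v j : ℕ) : ℤ) - ((h + i0 : ℕ) : ℤ))

/-- The operator bound: `ν^(-k)` for `ν ≥ 1`, `ν^(1-2k)` for `ν < 1`; `j = |v| - h - i0`. -/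
def pb (k : ℕ) (j : ℤ) : ℝ :=
  if j ≤ 0 then (2 : ℝ) ^ ((k : ℝ) * j) else (2 : ℝ) ^ ((2 * k - 1 : ℝ) * j)

/-- ZEX. Expansion and expectation. From MOM. `u` constant on the cells of levels `b` (`b j ≤ H`),
`u = ∑_c U c 1_c`.
(1) `mom (2k) (T u) = ∑_(c : Fin (2k) → cells) (∏_i U (c i)) Zc`: expand the power
(`Finset.prod_univ_sum`, `T u x = ∑_c U c * Bc v b c x`).
(2) `EX (mom (2k) (T u)) ≤ C pb k (|v|-h-i0) mom (2k) u`: for fixed `x` MOM with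
`a y = 2^(|v|-dH) u y` on the cell of levels `v` of `x`; with `A_j = average of u^(2j)` over this
cell the `j`-th term of `mbd g k` is `(A_1/ν)^(k-j) ν^(1-2j) A_j ≤ ν^(-(k-j)+1-2j) A_k`
(`A_1 ≤ A_k^(1/k)`, `A_j ≤ A_k^(j/k)`), and `-(k+j-1)` is between `-k` and `1-2k`; the average
over `x` of `A_k` is `mom (2k) u`. -/
def SpecZEX : Prop := ∀ k : ℕ, 1 ≤ k → ∃ C : ℝ, 0 < C ∧
  ∀ (d H g h i0 : ℕ) (v b : Fin d → ℕ) (U : (Fin d → ℕ) → ℝ), g + h + i0 = d * H →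
    (∀ j, v j ≤ H) → (∀ j, b j ≤ H) →
    (∀ ω : Gr d H → Fin (2 ^ g),
      mom (2 * k : ℕ) (Tu g v ω fun y => U fun j => (y j : ℕ) / 2 ^ (H - b j)) =
        ∑ c ∈ Fintype.piFinset (fun _ : Fin (2 * k) =>
            Fintype.piFinset fun j : Fin d => range (2 ^ b j)),
          (∏ i, U (c i)) * Zc g k v b c ω) ∧
    EX g (fun ω : Gr d H → Fin (2 ^ g) =>
      mom (2 * k : ℕ) (Tu g v ω fun y => U fun j => (y j : ℕ) / 2 ^ (H - b j))) ≤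
      C * pb k (((∑ j, v j : ℕ) : ℤ) - ((h + i0 : ℕ) : ℤ)) *
        mom (2 * k : ℕ) (fun y : Gr d H => U fun j => (y j : ℕ) / 2 ^ (H - b j))

/-- PCO. Number of selected points in a cell of levels `b`: the probability that it is more than
twice its expectation `μ = 2^(h+i0-|b|)` is at most `1/μ` (Chebyshev; the variance of the number is
at most its expectation). From IND. -/
def SpecPCO : Prop := ∀ (d H g h i0 : ℕ) (b c : Fin d → ℕ), g + h + i0 = d * H →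
  (∀ j, b j ≤ H) → (∀ j, c j < 2 ^ b j) →
  EX g (fun ω : Gr d H → Fin (2 ^ g) =>
    if 2 * (2 : ℝ) ^ (h + i0) < 2 ^ (∑ j, b j) *
      ((univ.filter fun y : Gr d H => inC b c y ∧ (ω y : ℕ) = 0).card : ℝ) then 1 else 0) ≤
    (2 : ℝ) ^ (∑ j, b j) / 2 ^ (h + i0)

/-- POC. Occupancy: the probability that a cell of levels `v` contains `κ` selected points is at
most `ν^κ`, `ν = 2^(h+i0-|v|)` (union over the subsets of size `κ`: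
`C(|cell|, κ) 2^(-gκ) ≤ (|cell| 2^(-g))^κ`, `|cell| 2^(-g) = 2^(dH-|v|-g) = ν`). From IND. -/
def SpecPOC : Prop := ∀ (d H g h i0 κ : ℕ) (v : Fin d → ℕ) (x : Gr d H), g + h + i0 = d * H →
  (∀ j, v j ≤ H) →
  EX g (fun ω : Gr d H → Fin (2 ^ g) =>
    if κ ≤ (univ.filter fun y : Gr d H => sameCell v x y ∧ (ω y : ℕ) = 0).card then 1 else 0) ≤
    ((2 : ℝ) ^ (h + i0) / 2 ^ (∑ j, v j)) ^ κ

/-- Good selections. -/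
structure GoodO (d k κ : ℕ) (α δ : ℝ) (h i0 g : ℕ) (ω : Gr d (3 * h) → Fin (2 ^ g)) : Prop where
  zc : ∀ k' : ℕ, (k' = 1 ∨ k' = k) → ∀ (v b : Fin d → ℕ) (c : Fin (2 * k') → Fin d → ℕ),
    (∀ j, v j ≤ 3 * h) → h < ∑ j, v j → ((∑ j, v j : ℕ) : ℝ) < (1 + δ) * h →
    (∀ j, b j ≤ 3 * h) → ((∑ j, b j : ℕ) : ℝ) ≤ α * h → (∀ i j, c i j < 2 ^ b j) →
    |Zc g k' v b c ω - EX g (fun ω' : Gr d (3 * h) → Fin (2 ^ g) => Zc g k' v b c ω')| ≤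
      (2 : ℝ) ^ (-((2 * k' * ∑ j, b j : ℕ) : ℝ)) * (2 : ℝ) ^ (-((k' * i0 : ℕ) : ℝ))
  co : ∀ b c : Fin d → ℕ, (∀ j, b j ≤ 3 * h) → ((∑ j, b j : ℕ) : ℝ) ≤ α * h →
    (∀ j, c j < 2 ^ b j) →
    (2 : ℝ) ^ (∑ j, b j) * ((univ.filter fun y : Gr d (3 * h) => inC b c y ∧
      (ω y : ℕ) = 0).card : ℝ) ≤ 2 * 2 ^ (h + i0)
  oc : ∀ (v : Fin d → ℕ) (x : Gr d (3 * h)), (∀ j, v j ≤ 3 * h) →
    (1 + δ) * h ≤ ((∑ j, v j : ℕ) : ℝ) →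
    (univ.filter fun y : Gr d (3 * h) => sameCell v x y ∧ (ω y : ℕ) = 0).card < κ

/-- UNB. Numbers for the union bound: for small `α, δ`, large `κ` and `h ≥ h0` the sum of all
probabilities is `< 1`. `C` is the constant of ZVB, `k ≥ 1`, `2^i0 ≤ h^d`.
First line: events `zc` for `k' ∈ {1, k}` (bounded by twice the sum for `k`): number of
`(v, b, c)` at most `(3h+1)^(2d) 2^(2k α h)`; by Chebyshev each has probability at most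
`C 2^(-h) 2^(4k δ h) (2^(2k α h) 2^(k i0))^2`. Second line: `(3h+1)^d 2^(α h)` pairs `(b, c)`,
probability at most `2^(α h) / 2^h`. Third line: `(3h+1)^d` vectors `v`, each with `2^|v|` cells:
`2^|v| (2^(h+i0-|v|))^κ`, `|v| ≥ (1+δ)h`; for `κ ≥ 1` it is largest at `|v| = (1+δ) h`:
`2^((1+δ)h) 2^((i0 - δ h) κ)`.
PROOF. Choose `α = δ = 1/(40 k)`, `κ` with `κ δ ≥ 4`; every term is (polynomial in `h`)
`* 2^(-c h)` with `c > 0`: exponents `2kα + 4kδ + 4kα - 1 < 0`, `2α - 1 < 0`,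
`1 + δ - κ δ < 0`. -/
def SpecUNB : Prop := ∀ (d k : ℕ) (C : ℝ), 1 ≤ d → 1 ≤ k → 0 < C →
  ∃ (α δ : ℝ) (κ h0 : ℕ), 0 < α ∧ 0 < δ ∧ α ≤ 1 ∧ δ ≤ 1 ∧ 1 ≤ κ ∧ 1 ≤ h0 ∧
    ∀ h i0 : ℕ, h0 ≤ h → 2 ^ i0 ≤ h ^ d →
      2 * ((3 * h + 1 : ℝ) ^ (2 * d) * (2 : ℝ) ^ (2 * k * α * h)) *
          (C * (2 : ℝ) ^ (-(h : ℝ)) * (2 : ℝ) ^ (4 * k * δ * h) *
            ((2 : ℝ) ^ (2 * k * α * h) * (2 : ℝ) ^ ((k * i0 : ℕ) : ℝ)) ^ 2) +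
        (3 * h + 1 : ℝ) ^ d * (2 : ℝ) ^ (α * h) * ((2 : ℝ) ^ (α * h) * (2 : ℝ) ^ (-(h : ℝ))) +
        (3 * h + 1 : ℝ) ^ d * ((2 : ℝ) ^ ((1 + δ) * h) * (2 : ℝ) ^ (((i0 : ℝ) - δ * h) * κ)) < 1

/-- GOO. Existence of good selections. From ZVB, PCO, POC, UNB (Chebyshev and union bound).
In `zc` the threshold is `λ = 2^(-2k'|b|) 2^(-k' i0)`, `h < |v| < (1+δ)h`, `|v| - h - i0 ≤ δ h`, so
the variance is at most `C 2^(-h) 2^(4k' δ h)`, and `λ^(-2) ≤ (2^(2k' α h) 2^(k' i0))^2`. The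
constant for UNB is the maximum of the constants of ZVB for `1` and `k`. In `oc`:
`2^|v| (2^(h+i0)/2^|v|)^κ` (`κ ≥ 1`) decreases in `|v|`; the number of cells of levels `v` is
`2^|v|`. The numbers of `v, b` (with `b j ≤ 3h`): at most `(3h+1)^d`; of `c`: `2^|b| ≤ 2^(α h)`. -/
def SpecGOO : Prop := ∀ d k : ℕ, 1 ≤ d → 1 ≤ k →
  ∃ (α δ : ℝ) (κ h0 : ℕ), 0 < α ∧ 0 < δ ∧ α ≤ 1 ∧ δ ≤ 1 ∧ 1 ≤ κ ∧ 1 ≤ h0 ∧
    ∀ h i0 : ℕ, h0 ≤ h → 2 ^ i0 ≤ h ^ d →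
      ∀ g : ℕ, g + h + i0 = d * (3 * h) → ∃ ω, GoodO d k κ α δ h i0 g ω

/-- OPB. Operator bounds for good selections. From ZEX.
PROOF. `mom (2k') (T u) = ∑_c (∏ U (c i)) Zc ≤ ∑_c (∏ U (c i)) EX Zc + ∑_c ∏ |U (c i)| λ`,
the first sum is `EX (mom (2k') (T u)) ≤ C pb mom (2k') u`, the second is
`(∑_c |U c|)^(2k') 2^(-2k'|b|) 2^(-k' i0) = (mean of |u|)^(2k') 2^(-k' i0) ≤ mom (2k') u *
2^(-k' i0)`, and `2^(-k' i0) ≤ pb k' (|v|-h-i0)` because `|v| ≥ h` (the exponent is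
`≥ -k' i0` in both cases). -/
def SpecOPB : Prop := ∀ k : ℕ, 1 ≤ k → ∃ C : ℝ, 0 < C ∧
  ∀ (d κ h i0 g : ℕ) (α δ : ℝ) (ω : Gr d (3 * h) → Fin (2 ^ g)), 1 ≤ d →
    g + h + i0 = d * (3 * h) → GoodO d k κ α δ h i0 g ω →
    ∀ k' : ℕ, (k' = 1 ∨ k' = k) → ∀ v b : Fin d → ℕ, (∀ j, v j ≤ 3 * h) → h < ∑ j, v j →
      ((∑ j, v j : ℕ) : ℝ) < (1 + δ) * h → (∀ j, b j ≤ 3 * h) →
      ((∑ j, b j : ℕ) : ℝ) ≤ α * h → ∀ u : Gr d (3 * h) → ℝ, CellC b u →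
        mom (2 * k' : ℕ) (Tu g v ω u) ≤
          C * pb k' (((∑ j, v j : ℕ) : ℤ) - ((h + i0 : ℕ) : ℤ)) * mom (2 * k' : ℕ) u

/-- MAR. Marcinkiewicz interpolation. `U` is a set of functions closed under truncation, `T`
additive on it.
PROOF. For `t > 0` let `u = u1 + u2`, `u1 = u 1[|u| > σ t]`. `#{|T u| > 2t} ≤ #{|T u1| > t} +
#{|T u2| > t}`, so (normalised) `≤ t^(-2) A avg u1^2 + t^(-2k) B avg u2^(2k)`. Multiply by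
`P (2t)^(P-1) 2` and integrate over `t ∈ (0, ∞)` (`|y|^P = ∫_0^|y| P s^(P-1) ds`):
`∫ t^(P-3) 1[t < |u|/σ] dt = (|u|/σ)^(P-2)/(P-2)`, `∫ t^(P-1-2k) 1[t ≥ |u|/σ] dt =
(|u|/σ)^(P-2k)/(2k-P)` for `u ≠ 0`. Result with `C = 2^P P (1/(P-2) + 1/(2k-P))`. (One can also
sum over `t = 2^i`, `i ∈ ℤ`, i.e. a dyadic version with finitely many nonzero terms.) -/
def SpecMAR : Prop := ∀ (P : ℝ) (k : ℕ), 2 < P → P < 2 * k → ∃ C : ℝ, 0 < C ∧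
  ∀ (X : Type) [Fintype X] [Nonempty X] (U : Set (X → ℝ)) (T : (X → ℝ) → X → ℝ) (A B σ : ℝ),
    0 < A → 0 < B → 0 < σ →
    (∀ u ∈ U, ∀ s : ℝ, (fun x => if s < |u x| then u x else 0) ∈ U ∧
      (fun x => if s < |u x| then 0 else u x) ∈ U) →
    (∀ u u', T (fun x => u x + u' x) = fun x => T u x + T u' x) →
    (∀ u ∈ U, mom (2 : ℕ) (T u) ≤ A * mom (2 : ℕ) u) →
    (∀ u ∈ U, mom (2 * k : ℕ) (T u) ≤ B * mom (2 * k : ℕ) u) →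
    ∀ u ∈ U, mom P (T u) ≤ C * (A * σ ^ (2 - P) + B * σ ^ (2 * k - P)) * mom P u

/-- DUA. Duality. `Y = {x : ω x = 0}`, `M = 2^(h+i0)`, `g + h + i0 = d H`, `P = p/(p-1)`.
PROOF. Let `ψ` be constant on the cells of levels `v`, `N = avn b ψ - smn b M Y ψ`. Then
`- N x = (2^|b| / 2^(dH)) ∑_{y ∈ cell_b(x)} ζ_y ψ y` (because `2^|b|/M = 2^|b| 2^g / 2^(dH)`).
`N` is constant on the cells of levels `b`; let `u = sgn(N) |N|^(p-1)`, constant on these cells.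
`avg_x u N = - avg_y ζ_y ψ y u y = - avg_x ψ x (T u) x`, so by Hölder
`mom p N = avg u N ≤ nrm p ψ * nrm P (T u) ≤ nrm p ψ * K * nrm P u = nrm p ψ K (mom p N)^(1/P)`;
divide. -/
def SpecDUA : Prop := ∀ (d H g h i0 : ℕ) (p K : ℝ) (v b : Fin d → ℕ)
  (ω : Gr d H → Fin (2 ^ g)), 1 < p → g + h + i0 = d * H → (∀ j, v j ≤ H) → (∀ j, b j ≤ H) →
  0 ≤ K →
  (∀ u : Gr d H → ℝ, CellC b u → nrm (p / (p - 1)) (Tu g v ω u) ≤ K * nrm (p / (p - 1)) u) →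
  ∀ ψ : Gr d H → ℝ, CellC v ψ →
    nrm p (fun x => avn b ψ x -
      smn b (2 ^ (h + i0)) (univ.filter fun y => (ω y : ℕ) = 0) ψ x) ≤ K * nrm p ψ

/-- LOW. The levels `h < |v| < (1+δ) h`. From OPB, MAR, DUA.
PROOF. `P = p/(p-1) > 2`, `2k > P`. `U` = functions constant on the cells of levels `b`,
`T = Tu g v ω` (linear), `j = |v|-h-i0`, `ν = 2^(-j)`. `A = C ν^(-1)` (`pb 1 j = 2^j` in both
cases), `B = C pb k j`. For `j ≤ 0`: `σ = ν^(1/2)`: `A σ^(2-P) = C ν^(-P/2)`,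
`B σ^(2k-P) = C ν^(-k+k-P/2)`. For `j > 0`: `σ = ν`: `A σ^(2-P) = C ν^(1-P)`,
`B σ^(2k-P) = C ν^(1-2k+2k-P)`. `(ν^(1-P))^(1/P) = ν^(-1/p)`. -/
def SpecLOW : Prop := ∀ (p : ℝ) (k : ℕ), 1 < p → p < 2 → p / (p - 1) < 2 * k →
  ∃ C : ℝ, 0 < C ∧ ∀ (d κ h i0 g : ℕ) (α δ : ℝ) (ω : Gr d (3 * h) → Fin (2 ^ g)), 1 ≤ d →
    g + h + i0 = d * (3 * h) → GoodO d k κ α δ h i0 g ω →
    ∀ v b : Fin d → ℕ, (∀ j, v j ≤ 3 * h) → h < ∑ j, v j →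
      ((∑ j, v j : ℕ) : ℝ) < (1 + δ) * h → (∀ j, b j ≤ 3 * h) →
      ((∑ j, b j : ℕ) : ℝ) ≤ α * h → ∀ ψ : Gr d (3 * h) → ℝ, CellC v ψ →
        nrm p (fun x => avn b ψ x -
          smn b (2 ^ (h + i0)) (univ.filter fun y => (ω y : ℕ) = 0) ψ x) ≤
          C * NU p (((∑ j, v j : ℕ) : ℤ) - ((h + i0 : ℕ) : ℤ)) * nrm p ψ

/-- HIG. The levels `|v| ≥ (1+δ) h`, `δ h ≥ i0` (so `ν = 2^(h+i0-|v|) ≤ 1`). From CON, NRM.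
PROOF. `Y = {ω = 0}`, `M = 2^(h+i0)`. On the cell `c` of levels `b`: `|smn| ≤ (2^|b|/M)
∑_{Y ∩ c} |ψ|`; by Hölder and `#(Y ∩ c) ≤ 2 M 2^(-|b|)` (field `co`):
`|smn|^p ≤ (2^|b|/M)^p (2 M 2^(-|b|))^(p-1) ∑_{Y∩c} |ψ|^p = 2^(p-1) (2^|b|/M) ∑_{Y∩c} |ψ|^p`, so
`mom p (smn) ≤ 2^(p-1) M^(-1) ∑_{y ∈ Y} |ψ y|^p ≤ 2^(p-1) M^(-1) κ ∑_(cells r of levels v)
|ψ_r|^p = 2^(p-1) κ (2^|v|/M) mom p ψ = 2^(p-1) κ ν^(-1) mom p ψ` (field `oc`). With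
`nrm p (avn) ≤ nrm p ψ ≤ ν^(-1/p) nrm p ψ`: `C = 1 + 2 κ`. `NU p j = 2^(j/p)` for `j ≥ 0`. -/
def SpecHIG : Prop := ∀ (p : ℝ) (k κ d h i0 g : ℕ) (α δ : ℝ) (ω : Gr d (3 * h) → Fin (2 ^ g)),
  1 < p → p < 2 → 1 ≤ κ → g + h + i0 = d * (3 * h) → (i0 : ℝ) ≤ δ * h →
  GoodO d k κ α δ h i0 g ω →
    ∀ v b : Fin d → ℕ, (∀ j, v j ≤ 3 * h) → (1 + δ) * h ≤ ((∑ j, v j : ℕ) : ℝ) →
      (∀ j, b j ≤ 3 * h) → ((∑ j, b j : ℕ) : ℝ) ≤ α * h →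
      ∀ ψ : Gr d (3 * h) → ℝ, CellC v ψ →
        nrm p (fun x => avn b ψ x -
          smn b (2 ^ (h + i0)) (univ.filter fun y => (ω y : ℕ) = 0) ψ x) ≤
          (1 + 2 * κ) * NU p (((∑ j, v j : ℕ) : ℤ) - ((h + i0 : ℕ) : ℤ)) * nrm p ψ

end

end Pool.Agent.MP_bc5265.R2
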