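import Mathlib
import Pool.Agent.Lib.MP_bc5265_an.S.Defs
import Pool.Agent.Lib.MP_bc5265_an.Tensor
import Pool.Agent.Lib.MP_bc5265_an.R2.SpecA
import Pool.Agent.Lib.MP_bc5265_an.S.Blk
import Pool.Agent.Lib.MP_bc5265_an.R2.SpecC

section
/-!
PARS: Parseval on the torus for grid functions. CTS: approximation by continuous functions.
-/
set_option linter.unusedSectionVars false

open MeasureTheory Finset
open scoped ENNReal fwdDiff

namespace Pool.Agent.MP_bc5265.S

noncomputable section

namespace ParsM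

variable {d L : ℕ}

/-- A function of the cell is a combination of indicator functions. -/
lemma comp_gx (F : Gr d L → ℝ) (x : Torus d) :
    F (gx L x) = ∑ k : Gr d L, F k * Chi (fun _ => L) (fun j => (k j : ℕ)) x :=
  (sum_mul_Chi (fun _ => L) F x).symm

lemma measurable_comp_gx (F : Gr d L → ℝ) : Measurable fun x : Torus d => F (gx L x) := by
  simp only [comp_gx F]
  exact Finset.measurable_sum _ fun k _ => (measurable_Chi _ _).const_mul _

lemma integrable_comp_gx (F : Gr d L → ℝ) : Integrable (fun x : Torus d => F (gx L x)) (μT d) := by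
  obtain ⟨M, hM⟩ : ∃ M, ∀ k, |F k| ≤ M :=
    ⟨∑ k, |F k|, fun k => Finset.single_le_sum (f := fun k => |F k|) (fun _ _ => abs_nonneg _)
      (Finset.mem_univ k)⟩
  refine Integrable.of_bound (C := M) (measurable_comp_gx F).aestronglyMeasurable ?_
  filter_upwards with x
  exact hM _

/-- The integral of a function of the cell is the average over the grid. -/
lemma integral_comp_gx (F : Gr d L → ℝ) :
    ∫ x : Torus d, F (gx L x) ∂(μT d) = (∑ k, F k) / 2 ^ (d * L) := by
  simp only [comp_gx F]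
  rw [integral_finsetSum]
  · rw [Finset.sum_div]
    refine Finset.sum_congr rfl fun k _ => ?_
    rw [integral_const_mul, integral_Chi _ _ (fun j => (k j).2)]
    simp only [Finset.sum_const, Finset.card_univ, Fintype.card_fin, smul_eq_mul]
    rw [mul_one_div]
  · intro k _
    refine Integrable.const_mul ?_ _
    refine Integrable.of_bound (C := 1) (measurable_Chi _ _).aestronglyMeasurable ?_
    filter_upwards with x
    rw [Real.norm_of_nonneg (Chi_nonneg _ _ _)]
    exact Chi_le_one _ _ _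

/-- Parseval on the grid. -/
lemma sum_fn_sq (hH : SpecHaar) (c : Gr d L → ℝ) :
    ∑ x, fn c x ^ 2 = 2 ^ (d * L) * ∑ k, c k ^ 2 := by
  have h1 := (hH d L).1
  have h2 : ∀ x : Gr d L, fn c x ^ 2 = ∑ k, ∑ k', c k * c k' * (hh k x * hh k' x) := by
    intro x
    unfold fn
    rw [sq, Finset.sum_mul_sum]
    refine Finset.sum_congr rfl fun k _ => Finset.sum_congr rfl fun k' _ => ?_
    ring
  simp only [h2]
  rw [Finset.sum_comm, Finset.mul_sum]
  refine Finset.sum_congr rfl fun k _ => ?_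
  rw [Finset.sum_comm]
  have h3 : ∀ k' : Gr d L, ∑ x, c k * c k' * (hh k x * hh k' x) =
      if k = k' then c k * c k' * 2 ^ (d * L) else 0 := by
    intro k'
    rw [← Finset.mul_sum, h1 k k']
    split_ifs <;> simp
  simp only [h3]
  rw [Finset.sum_ite_eq]
  simp only [Finset.mem_univ, if_true]
  ring

end ParsM

open ParsM

theorem specPars (hH : SpecHaar) : SpecPars := by
  intro d L c
  have hm : Measurable (fun x : Torus d => fn c (gx L x)) := measurable_comp_gx (fn c)
  refine ⟨hm, ?_⟩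
  have hmem : MemLp (fun x : Torus d => fn c (gx L x)) 2 (μT d) := by
    refine MemLp.of_bound hm.aestronglyMeasurable (∑ k, |fn c k|) ?_
    filter_upwards with x
    exact Finset.single_le_sum (f := fun k => |fn c k|) (fun _ _ => abs_nonneg _)
      (Finset.mem_univ _)
  rw [hmem.eLpNorm_eq_integral_rpow_norm (by norm_num) (by norm_num)]
  congr 1
  have h1 : ∀ x : Torus d, ‖fn c (gx L x)‖ ^ (2 : ℝ≥0∞).toReal = (fun k => fn c k ^ 2) (gx L x) := by
    intro x
    simp
  simp only [h1]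
  rw [integral_comp_gx (fun k => fn c k ^ 2), sum_fn_sq hH c]
  rw [Real.sqrt_eq_rpow]
  have h2 : (2 : ℝ) ^ (d * L) * ∑ k, c k ^ 2 = (∑ k, c k ^ 2) * 2 ^ (d * L) := by ring
  rw [h2, mul_div_assoc, div_self (by positivity), mul_one]
  simp

theorem specCts : SpecCts := by
  intro d L c η hη
  have hm : Measurable (fun x : Torus d => fn c (gx L x)) := measurable_comp_gx (fn c)
  have hmem : MemLp (fun x : Torus d => fn c (gx L x)) 2 (μT d) := by
    refine MemLp.of_bound hm.aestronglyMeasurable (∑ k, |fn c k|) ?_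
    filter_upwards with x
    exact Finset.single_le_sum (f := fun k => |fn c k|) (fun _ _ => abs_nonneg _)
      (Finset.mem_univ _)
  obtain ⟨g, hg, _⟩ := hmem.exists_boundedContinuous_eLpNorm_sub_le (by norm_num)
    (ε := ENNReal.ofReal η) (by simpa using hη)
  exact ⟨g.toContinuousMap, hg⟩

end

end Pool.Agent.MP_bc5265.S
end

section
/-!
APP: approximation of a smooth function by its averages over the cells.
-/
set_option linter.unusedSectionVars false

open MeasureTheory Finset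
open scoped ENNReal fwdDiff

namespace Pool.Agent.MP_bc5265.S

noncomputable section

namespace AppM

open ParsM

variable {d : ℕ}

/-! ### Averages over cells -/

/-- The Haar sum is the average over the cell. -/
lemma fn_cf (hH : SpecHaar) (g : C(Torus d, ℝ)) (L : ℕ) (X : Gr d L) :
    fn (cf (g : Torus d → ℝ) L) X =
      ∫ y, g y * (if gx L y = X then (2 : ℝ) ^ (d * L) else 0) ∂(μT d) := by
  have h2 := (hH d L).2.1
  have hint : ∀ k : Gr d L, Integrable (fun y => g y * hh k (gx L y)) (μT d) := by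
    intro k
    refine (integrable_comp_gx (hh k)).bdd_mul (c := ‖g‖)
      g.continuous.aestronglyMeasurable ?_
    filter_upwards with x
    exact g.norm_coe_le_norm x
  unfold fn cf
  have h3 : ∀ k : Gr d L, (∫ y, g y * hh k (gx L y) ∂(μT d)) * hh k X =
      ∫ y, g y * hh k (gx L y) * hh k X ∂(μT d) := fun k => (integral_mul_const _ _).symm
  simp only [h3]
  rw [← integral_finsetSum]
  · refine integral_congr_ae ?_
    filter_upwards with y
    rw [← h2 (gx L y) X, Finset.mul_sum]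
    refine Finset.sum_congr rfl fun k _ => ?_
    ring
  · intro k _
    exact (hint k).mul_const _

/-- The weight has integral one. -/
lemma integral_weight (L : ℕ) (X : Gr d L) :
    ∫ y : Torus d, (if gx L y = X then (2 : ℝ) ^ (d * L) else 0) ∂(μT d) = 1 := by
  have h := integral_comp_gx (fun k : Gr d L => if k = X then (2 : ℝ) ^ (d * L) else 0)
  rw [h]
  simp

/-- Averages are close if the function varies little on the cell. -/
lemma abs_sub_le (hH : SpecHaar) (g : C(Torus d, ℝ)) (L : ℕ) (x : Torus d) (δ : ℝ)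
    (hδ : ∀ y, gx L y = gx L x → |g x - g y| ≤ δ) :
    |g x - fn (cf (g : Torus d → ℝ) L) (gx L x)| ≤ δ := by
  have hw : Integrable (fun y : Torus d => if gx L y = gx L x then (2 : ℝ) ^ (d * L) else 0)
      (μT d) := integrable_comp_gx (fun k : Gr d L => if k = gx L x then (2 : ℝ) ^ (d * L) else 0)
  have hgw : Integrable (fun y : Torus d => g y * (if gx L y = gx L x then (2 : ℝ) ^ (d * L)
      else 0)) (μT d) := by
    refine hw.bdd_mul (c := ‖g‖) g.continuous.aestronglyMeasurable ?_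
    filter_upwards with x
    exact g.norm_coe_le_norm x
  rw [fn_cf hH]
  have h1 : g x = ∫ y : Torus d, g x * (if gx L y = gx L x then (2 : ℝ) ^ (d * L) else 0)
      ∂(μT d) := by
    rw [integral_const_mul, integral_weight, mul_one]
  have h2 : g x - ∫ y, g y * (if gx L y = gx L x then (2 : ℝ) ^ (d * L) else 0) ∂(μT d) =
      ∫ y : Torus d, (g x - g y) * (if gx L y = gx L x then (2 : ℝ) ^ (d * L) else 0)
        ∂(μT d) := by
    conv_lhs => rw [h1]
    rw [← integral_sub (hw.const_mul _) hgw]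
    refine integral_congr_ae ?_
    filter_upwards with y
    ring
  rw [h2]
  have h3 : ∀ y : Torus d, ‖(g x - g y) * (if gx L y = gx L x then (2 : ℝ) ^ (d * L) else 0)‖ ≤
      δ * (if gx L y = gx L x then (2 : ℝ) ^ (d * L) else 0) := by
    intro y
    split_ifs with h
    · rw [norm_mul, Real.norm_eq_abs, Real.norm_of_nonneg (by positivity)]
      exact mul_le_mul_of_nonneg_right (hδ y h) (by positivity)
    · simp
  refine (norm_integral_le_of_norm_le (hw.const_mul δ) (Filter.Eventually.of_forall h3)).trans ?_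
  rw [integral_const_mul, integral_weight, mul_one]

/-- Every point of the circle is given by its coordinate. -/
lemma coe_uc (a : Circ) : ((2 * Real.pi * uc a : ℝ) : Circ) = a := by
  induction a using QuotientAddGroup.induction_on with
  | H y =>
    have h1 : 2 * Real.pi * uc ((y : ℝ) : Circ) = y - ⌊y / (2 * Real.pi)⌋ • (2 * Real.pi) := by
      rw [uc_coe]
      have h2 : Int.fract (y / (2 * Real.pi)) = y / (2 * Real.pi) - ⌊y / (2 * Real.pi)⌋ := rfl
      rw [h2, mul_sub, zsmul_eq_mul]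
      have hpi : (2 * Real.pi) ≠ 0 := Real.two_pi_pos.ne'
      rw [mul_div_cancel₀ _ hpi]
      ring
    show ((2 * Real.pi * uc ((y : ℝ) : Circ) : ℝ) : Circ) = ((y : ℝ) : Circ)
    rw [h1, AddCircle.coe_sub, AddCircle.coe_zsmul, AddCircle.coe_period, smul_zero, sub_zero]

lemma dist_circ (L : ℕ) (a b : Circ) (h : E L a = E L b) :
    dist a b ≤ 2 * Real.pi / 2 ^ L := by
  have h1 := (E_eq_iff L (E L a) a).1 rfl
  have h2 := (E_eq_iff L (E L b) b).1 rfl
  rw [← h] at h2
  have hp : (0 : ℝ) < 2 ^ L := by positivity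
  have h3 : |uc a - uc b| ≤ 1 / 2 ^ L := by
    rw [abs_le]
    constructor
    · rw [neg_le_iff_add_nonneg, ← mul_le_mul_iff_right₀ hp]
      have : (2 : ℝ) ^ L * (uc a - uc b + 1 / 2 ^ L) = 2 ^ L * uc a - 2 ^ L * uc b + 1 := by
        field_simp
      rw [this]
      linarith [h1.1, h2.2]
    · rw [← mul_le_mul_iff_right₀ hp]
      have : (2 : ℝ) ^ L * (1 / 2 ^ L) = 1 := by field_simp
      rw [this]
      linarith [h1.2, h2.1]
  rw [dist_eq_norm]
  have h4 : a - b = ((2 * Real.pi * (uc a - uc b) : ℝ) : Circ) := by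
    rw [mul_sub, AddCircle.coe_sub, coe_uc, coe_uc]
  rw [h4]
  refine QuotientAddGroup.norm_mk_le_norm.trans ?_
  rw [Real.norm_eq_abs, abs_mul, abs_of_pos Real.two_pi_pos, div_eq_mul_one_div]
  exact mul_le_mul_of_nonneg_left h3 Real.two_pi_pos.le

lemma dist_of_gx (L : ℕ) (x y : Torus d) (h : gx L y = gx L x) :
    dist x y ≤ 2 * Real.pi / 2 ^ L := by
  have hp : (0 : ℝ) ≤ 2 * Real.pi / 2 ^ L := by positivity
  rw [dist_pi_le_iff hp]
  intro j
  apply dist_circ
  have := congrFun h j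
  have h2 := congrArg Fin.val this
  exact h2.symm

/-- Convergence of the averages. -/
lemma exists_close (hH : SpecHaar) (g : C(Torus d, ℝ)) (x : Torus d) (δ : ℝ) (hδ : 0 < δ)
    (L : ℕ) : ∃ L', L ≤ L' ∧ |g x - fn (cf (g : Torus d → ℝ) L') (gx L' x)| ≤ δ := by
  have hu : UniformContinuous (g : Torus d → ℝ) :=
    CompactSpace.uniformContinuous_of_continuous g.continuous
  rw [Metric.uniformContinuous_iff] at hu
  obtain ⟨η, hη, hη2⟩ := hu δ hδ
  have ht : Filter.Tendsto (fun L' : ℕ => 2 * Real.pi / (2 : ℝ) ^ L') Filter.atTop (nhds 0) :=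
    tendsto_const_nhds.div_atTop (tendsto_pow_atTop_atTop_of_one_lt (by norm_num))
  obtain ⟨L', hL1, hL2⟩ := ((ht.eventually_lt_const hη).and
    (Filter.eventually_ge_atTop L)).exists
  refine ⟨L', hL2, abs_sub_le hH g L' x δ fun y hy => ?_⟩
  have := hη2 ((dist_of_gx L' x y hy).trans_lt hL1)
  rw [Real.dist_eq] at this
  exact this.le

/-! ### Comparison of two grids -/

lemma lv_le_iff (k L : ℕ) : lv k ≤ L ↔ k < 2 ^ L := by
  unfold lv
  split_ifs with h
  · subst h; simp
  · rw [Nat.add_one_le_iff, Nat.log_lt_iff_lt_pow (by norm_num) h]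

lemma hg_coarse {L L' : ℕ} (h : L ≤ L') (k x' : ℕ) (hk : k < 2 ^ L) :
    hg L' k x' = hg L k (x' / 2 ^ (L' - L)) := by
  unfold hg
  by_cases h0 : k = 0
  · simp [h0]
  · rw [if_neg h0, if_neg h0]
    have h1 : Nat.log 2 k < L := (Nat.log_lt_iff_lt_pow (by norm_num) h0).2 hk
    have h2 : x' / 2 ^ (L' - L) / 2 ^ (L - Nat.log 2 k - 1) =
        x' / 2 ^ (L' - Nat.log 2 k - 1) := by
      rw [Nat.div_div_eq_div_mul, ← pow_add]
      congr 2
      omega
    rw [h2]

/-- Inclusion of the coarse indices. -/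
def inc {L L' : ℕ} (h : L ≤ L') (k : Gr d L) : Gr d L' :=
  fun j => Fin.castLE (Nat.pow_le_pow_right (by norm_num) h) (k j)

lemma inc_injective {L L' : ℕ} (h : L ≤ L') : Function.Injective (inc (d := d) h) := by
  intro k k' hk
  funext j
  have := congrFun hk j
  exact Fin.castLE_injective _ this

lemma hh_inc {L L' : ℕ} (h : L ≤ L') (k : Gr d L) (x : Torus d) :
    hh (inc h k) (gx L' x) = hh k (gx L x) := by
  unfold hh
  refine Finset.prod_congr rfl fun j _ => ?_
  have h1 : ((inc h k j : Fin (2 ^ L')) : ℕ) = k j := rfl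
  rw [h1, hg_coarse h _ _ (k j).2]
  congr 1
  have h2 := E_div L (L' - L) (x j)
  rw [Nat.add_sub_cancel' h] at h2
  exact h2

lemma cf_inc {L L' : ℕ} (h : L ≤ L') (g : Torus d → ℝ) (k : Gr d L) :
    cf g L' (inc h k) = cf g L k := by
  unfold cf
  simp only [hh_inc h]

/-- Splitting of the fine sum. -/
lemma fn_split {L L' : ℕ} (h : L ≤ L') (g : Torus d → ℝ) (x : Torus d) :
    fn (cf g L') (gx L' x) = fn (cf g L) (gx L x) +
      ∑ k : Gr d L' with ∃ j, 2 ^ L ≤ (k j : ℕ), cf g L' k * hh k (gx L' x) := by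
  unfold fn
  rw [← Finset.sum_filter_add_sum_filter_not univ (fun k : Gr d L' => ∃ j, 2 ^ L ≤ (k j : ℕ)),
    add_comm]
  congr 1
  have h1 : (univ.filter fun k : Gr d L' => ¬ ∃ j, 2 ^ L ≤ (k j : ℕ)) =
      univ.image (inc (d := d) h) := by
    ext k
    simp only [mem_filter, mem_univ, true_and, mem_image]
    constructor
    · intro hk
      push Not at hk
      refine ⟨fun j => ⟨k j, hk j⟩, ?_⟩
      funext j
      rfl
    · rintro ⟨k', rfl⟩
      push Not
      intro j
      exact (k' j).2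
  rw [h1, Finset.sum_image (fun a _ b _ hab => inc_injective h hab)]
  refine Finset.sum_congr rfl fun k _ => ?_
  rw [cf_inc, hh_inc]

/-- Geometric sums over levels. -/
lemma sum_levels (d L L' : ℕ) (q : ℝ) (hq0 : 0 < q) (hq1 : q < 1) :
    ∑ s ∈ (Fintype.piFinset fun _ : Fin d => range (L' + 1)) with ∃ j, L < s j, q ^ tot s ≤
      d * q ^ (L + 1) / (1 - q) ^ d := by
  have h1q : 0 < 1 - q := by linarith
  have hgeo : ∀ n : ℕ, ∑ i ∈ range n, q ^ i ≤ 1 / (1 - q) := by
    intro n
    rw [geom_sum_eq hq1.ne]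
    have : (q ^ n - 1) / (q - 1) = (1 - q ^ n) / (1 - q) := by
      rw [← neg_div_neg_eq]; ring
    rw [this]
    refine div_le_div_of_nonneg_right ?_ h1q.le
    have := pow_pos hq0 n
    linarith
  have hgeo2 : ∑ i ∈ (range (L' + 1)) with L < i, q ^ i ≤ q ^ (L + 1) / (1 - q) := by
    have hsub : (range (L' + 1)).filter (fun i => L < i) ⊆
        (range (L' + 1)).image (fun i => L + 1 + i) := by
      intro i hi
      simp only [mem_filter, mem_range] at hi
      simp only [mem_image, mem_range]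
      exact ⟨i - (L + 1), by omega, by omega⟩
    refine (Finset.sum_le_sum_of_subset_of_nonneg hsub fun i _ _ => by positivity).trans ?_
    rw [Finset.sum_image (fun a _ b _ hab => by simpa using hab)]
    simp only [pow_add q (L + 1)]
    rw [← Finset.mul_sum, div_eq_mul_one_div]
    exact mul_le_mul_of_nonneg_left (hgeo _) (by positivity)
  -- union over the coordinate
  have hone : ∀ j : Fin d, ∑ s ∈ (Fintype.piFinset fun _ : Fin d => range (L' + 1)) with L < s j,
      q ^ tot s ≤ q ^ (L + 1) / (1 - q) ^ d := by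
    intro j
    have h2 : (Fintype.piFinset fun _ : Fin d => range (L' + 1)).filter (fun s => L < s j) =
        Fintype.piFinset (fun i : Fin d => if i = j then (range (L' + 1)).filter (fun a => L < a)
          else range (L' + 1)) := by
      ext s
      simp only [mem_filter, Fintype.mem_piFinset]
      constructor
      · rintro ⟨h3, h4⟩ i
        by_cases hij : i = j
        · subst hij
          simp only [if_true, mem_filter]
          exact ⟨h3 i, h4⟩
        · simp only [hij, if_false]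
          exact h3 i
      · intro h3
        constructor
        · intro i
          have := h3 i
          by_cases hij : i = j
          · subst hij
            simp only [if_true, mem_filter] at this
            exact this.1
          · simpa only [hij, if_false] using this
        · have := h3 j
          simp only [if_true, mem_filter] at this
          exact this.2
    rw [h2]
    have h5 : ∀ s : Fin d → ℕ, q ^ tot s = ∏ i, q ^ s i := by
      intro s
      unfold tot
      rw [Finset.prod_pow_eq_pow_sum]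
    simp only [h5]
    rw [← Finset.prod_univ_sum (fun i : Fin d => if i = j then (range (L' + 1)).filter
      (fun a => L < a) else range (L' + 1)) (fun _ a => q ^ a)]
    rw [← Finset.mul_prod_erase univ _ (mem_univ j)]
    simp only [if_true]
    have h6 : ∏ i ∈ univ.erase j, ∑ a ∈ (if i = j then (range (L' + 1)).filter (fun a => L < a)
        else range (L' + 1)), q ^ a ≤ (1 / (1 - q)) ^ (d - 1) := by
      have h7 : ∏ i ∈ univ.erase j, ∑ a ∈ (if i = j then (range (L' + 1)).filter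
          (fun a => L < a) else range (L' + 1)), q ^ a =
          ∏ i ∈ univ.erase j, ∑ a ∈ range (L' + 1), q ^ a := by
        refine Finset.prod_congr rfl fun i hi => ?_
        rw [if_neg (Finset.mem_erase.1 hi).1]
      rw [h7, Finset.prod_const, Finset.card_erase_of_mem (mem_univ j), Finset.card_univ,
        Fintype.card_fin]
      exact pow_le_pow_left₀ (Finset.sum_nonneg fun i _ => by positivity) (hgeo _) _
    have hd : 0 < d := Fin.pos j
    refine (mul_le_mul hgeo2 h6 (Finset.prod_nonneg fun i _ => Finset.sum_nonneg fun a _ => by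
      positivity) (by positivity)).trans (le_of_eq ?_)
    obtain ⟨d', rfl⟩ : ∃ d', d = d' + 1 := ⟨d - 1, by omega⟩
    rw [Nat.add_sub_cancel, one_div, inv_pow]
    field_simp
    ring
  rw [Finset.sum_filter]
  have h8 : ∀ s : Fin d → ℕ, (if ∃ j, L < s j then q ^ tot s else 0) ≤
      ∑ j : Fin d, (if L < s j then q ^ tot s else 0) := by
    intro s
    split_ifs with hs
    · obtain ⟨j, hj⟩ := hs
      have h9 : (if L < s j then q ^ tot s else 0) ≤
          ∑ j : Fin d, (if L < s j then q ^ tot s else 0) :=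
        Finset.single_le_sum (f := fun j : Fin d => if L < s j then q ^ tot s else 0)
          (fun i _ => by split_ifs <;> positivity) (mem_univ j)
      rwa [if_pos hj] at h9
    · exact Finset.sum_nonneg fun i _ => by split_ifs <;> positivity
  refine (Finset.sum_le_sum fun s _ => h8 s).trans ?_
  rw [Finset.sum_comm]
  have h10 : ∀ j ∈ (univ : Finset (Fin d)), ∑ s ∈ Fintype.piFinset fun _ : Fin d =>
      range (L' + 1), (if L < s j then q ^ tot s else 0) ≤ q ^ (L + 1) / (1 - q) ^ d := by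
    intro j _
    rw [← Finset.sum_filter]
    exact hone j
  refine (Finset.sum_le_sum h10).trans (le_of_eq ?_)
  rw [Finset.sum_const, Finset.card_univ, Fintype.card_fin, nsmul_eq_mul]
  ring

/-- The part of the fine sum with a high level is small. -/
lemma high_part (hH : SpecHaar) {p r : ℝ} (hp : 1 ≤ p) (hr : 1 / p < r) {C : ℝ} (hC : 0 < C)
    {L L' : ℕ} (c : Gr d L' → ℝ) (hc : BlockBd p r C c) (X : Gr d L') :
    |∑ k : Gr d L' with ∃ j, 2 ^ L ≤ (k j : ℕ), c k * hh k X| ≤
      C * (d * ((2 : ℝ) ^ (-(r - 1 / p))) ^ (L + 1) / (1 - (2 : ℝ) ^ (-(r - 1 / p))) ^ d) := by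
  obtain ⟨_, _, h3, _⟩ := hH d L'
  have hp0 : 0 < p := by linarith
  set q : ℝ := (2 : ℝ) ^ (-(r - 1 / p)) with hq
  have hq0 : 0 < q := by positivity
  have hq1 : q < 1 := Real.rpow_lt_one_of_one_lt_of_neg (by norm_num) (by linarith)
  have hmaps : ∀ k ∈ (univ : Finset (Gr d L')).filter (fun k => ∃ j, 2 ^ L ≤ (k j : ℕ)),
      lvs k ∈ (Fintype.piFinset fun _ : Fin d => range (L' + 1)).filter
        (fun s => ∃ j, L < s j) := by
    intro k hk
    simp only [mem_filter, mem_univ, true_and] at hk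
    obtain ⟨j, hj⟩ := hk
    simp only [mem_filter, Fintype.mem_piFinset, mem_range]
    refine ⟨fun i => ?_, j, ?_⟩
    · have := (lv_le_iff (k i) L').2 (k i).2
      show lv (k i) < L' + 1
      omega
    · by_contra hcon
      have := (lv_le_iff (k j) L).1 (not_lt.1 hcon)
      omega
  rw [← Finset.sum_fiberwise_of_maps_to hmaps]
  refine (Finset.abs_sum_le_sum_abs _ _).trans ?_
  have hblock : ∀ s ∈ (Fintype.piFinset fun _ : Fin d => range (L' + 1)).filter
      (fun s => ∃ j, L < s j),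
      |∑ k ∈ (univ : Finset (Gr d L')).filter (fun k => ∃ j, 2 ^ L ≤ (k j : ℕ)) with
        lvs k = s, c k * hh k X| ≤ C * q ^ tot s := by
    intro s hs
    simp only [mem_filter] at hs
    obtain ⟨_, j, hj⟩ := hs
    have heq : ((univ : Finset (Gr d L')).filter (fun k => ∃ j, 2 ^ L ≤ (k j : ℕ))).filter
        (fun k => lvs k = s) = univ.filter (fun k : Gr d L' => lvs k = s) := by
      ext k
      simp only [mem_filter, mem_univ, true_and, and_iff_right_iff_imp]
      intro hk
      refine ⟨j, ?_⟩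
      by_contra hcon
      have h5 := (lv_le_iff (k j) L).2 (not_le.1 hcon)
      have h6 : lv (k j) = s j := congrFun hk j
      omega
    rw [heq]
    refine h3 s X c (C * q ^ tot s) (by positivity) fun k hk => ?_
    have h7 := hc s
    have h8 : (Real.sqrt (Ns s) * |c k|) ^ p ≤ ∑ k with lvs k = s, (Real.sqrt (Ns s) * |c k|) ^ p :=
      Finset.single_le_sum (f := fun k => (Real.sqrt (Ns s) * |c k|) ^ p)
        (fun i _ => by positivity) (by simp [hk])
    have h9 := h8.trans h7
    have hNs : (Ns s : ℝ) ≤ (2 : ℝ) ^ (tot s : ℝ) := by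
      rw [Real.rpow_natCast]
      unfold Ns tot
      push_cast
      rw [← Finset.prod_pow_eq_pow_sum]
      exact Finset.prod_le_prod (fun i _ => by positivity) fun i _ =>
        pow_le_pow_right₀ (by norm_num) (Nat.sub_le _ _)
    have h10 : (Real.sqrt (Ns s) * |c k|) ^ p ≤ (C * q ^ tot s) ^ p := by
      refine h9.trans ?_
      have h11 : C * q ^ tot s = (2 : ℝ) ^ ((tot s : ℝ) / p) * (C * (2 : ℝ) ^ (-(r * tot s))) := by
        rw [hq, ← Real.rpow_natCast, ← Real.rpow_mul (by norm_num)]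
        rw [mul_left_comm, ← Real.rpow_add (by norm_num)]
        congr 2
        ring
      have h12 : ((2 : ℝ) ^ ((tot s : ℝ) / p) * (C * (2 : ℝ) ^ (-(r * tot s)))) ^ p =
          (2 : ℝ) ^ (tot s : ℝ) * (C * (2 : ℝ) ^ (-(r * tot s))) ^ p := by
        rw [Real.mul_rpow (by positivity) (by positivity), ← Real.rpow_mul (by norm_num),
          div_mul_cancel₀ _ hp0.ne']
      rw [h11, h12]
      exact mul_le_mul_of_nonneg_right hNs (by positivity)
    exact (Real.rpow_le_rpow_iff (by positivity) (by positivity) hp0).1 h10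
  refine (Finset.sum_le_sum hblock).trans ?_
  rw [← Finset.mul_sum]
  exact mul_le_mul_of_nonneg_left (sum_levels d L L' q hq0 hq1) hC.le

end AppM

open AppM

theorem specApp (hH : SpecHaar) (hB : SpecBlk) : SpecApp := by
  intro d p r hp hr
  have hp0 : 0 < p := by linarith
  have hr0 : 0 < r := lt_trans (by positivity) hr
  obtain ⟨C, hC, hblk⟩ := hB d p r hp hr0
  set q : ℝ := (2 : ℝ) ^ (-(r - 1 / p)) with hq
  have hq0 : 0 < q := by positivity
  have hq1 : q < 1 := Real.rpow_lt_one_of_one_lt_of_neg (by norm_num) (by linarith)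
  refine ⟨fun L => C * (d * q ^ (L + 1) / (1 - q) ^ d), ?_, ?_⟩
  · have h1 : Filter.Tendsto (fun L : ℕ => q ^ (L + 1)) Filter.atTop (nhds 0) :=
      (tendsto_pow_atTop_nhds_zero_of_lt_one hq0.le hq1).comp (Filter.tendsto_add_atTop_nat 1)
    have h2 := ((h1.const_mul (d : ℝ)).div_const ((1 - q) ^ d)).const_mul C
    simpa using h2
  · intro g hg L x
    refine le_of_forall_pos_le_add fun δ hδ => ?_
    obtain ⟨L', hL, hclose⟩ := exists_close hH g x δ hδ L
    have h1 := fn_split hL (g : Torus d → ℝ) x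
    have h2 := high_part hH hp hr hC (L := L) (cf (g : Torus d → ℝ) L') (hblk g hg L') (gx L' x)
    rw [← hq] at h2
    have h3 : g x - fn (cf (g : Torus d → ℝ) L) (gx L x) =
        (g x - fn (cf (g : Torus d → ℝ) L') (gx L' x)) +
        ∑ k : Gr d L' with ∃ j, 2 ^ L ≤ (k j : ℕ),
          cf (g : Torus d → ℝ) L' k * hh k (gx L' x) := by
      rw [h1]; ring
    rw [h3]
    refine (abs_add_le _ _).trans ?_
    linarith

end

end Pool.Agent.MP_bc5265.S
end

section
/-! Haar functions on the grid. -/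
set_option autoImplicit false

open Finset

namespace Pool.Agent.MP_bc5265.S

namespace HaarM

theorem sum_range_two_mul (n : ℕ) (F : ℕ → ℝ) :
    ∑ x ∈ range (2 * n), F x = ∑ y ∈ range n, (F (2 * y) + F (2 * y + 1)) := by
  induction n with
  | zero => simp
  | succ n ih =>
    rw [sum_range_succ, ← ih, show 2 * (n + 1) = 2 * n + 1 + 1 by ring, sum_range_succ,
      sum_range_succ]
    ring

theorem log_lt {L k : ℕ} (hk : k ≠ 0) (h : k < 2 ^ L) : Nat.log 2 k < L :=
  Nat.log_lt_of_lt_pow hk h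

/-- Haar functions of lower level on the finer grid. -/
theorem hg_succ {L k : ℕ} (h : k < 2 ^ L) (x : ℕ) : hg (L + 1) k x = hg L k (x / 2) := by
  by_cases hk : k = 0
  · simp [hg, hk]
  have hl := log_lt hk h
  have h1 : L + 1 - Nat.log 2 k - 1 = (L - Nat.log 2 k - 1) + 1 := by omega
  have h2 : x / 2 ^ (L + 1 - Nat.log 2 k - 1) = x / 2 / 2 ^ (L - Nat.log 2 k - 1) := by
    rw [h1, Nat.pow_succ', Nat.div_div_eq_div_mul]
  unfold hg
  rw [if_neg hk, if_neg hk, h2]

theorem log_top {L k : ℕ} (h : 2 ^ L ≤ k) (h' : k < 2 ^ (L + 1)) : Nat.log 2 k = L :=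
  (Nat.log_eq_iff (Or.inr ⟨by norm_num, by
    have := Nat.pos_of_ne_zero (pow_ne_zero L (two_ne_zero (α := ℕ))); omega⟩)).2 ⟨h, h'⟩

/-- Haar functions of the highest level, even points. -/
theorem hg_even {L k : ℕ} (h : 2 ^ L ≤ k) (h' : k < 2 ^ (L + 1)) (y : ℕ) :
    hg (L + 1) k (2 * y) = if y = k - 2 ^ L then Real.sqrt (2 ^ L) else 0 := by
  have hp : 0 < 2 ^ L := by positivity
  have hk : k ≠ 0 := by omega
  unfold hg
  rw [if_neg hk, log_top h h', show L + 1 - L - 1 = 0 by omega, pow_zero, Nat.div_one]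
  by_cases hy : y = k - 2 ^ L
  · rw [if_pos (by omega), if_pos hy]
  · rw [if_neg (by omega), if_neg (by omega), if_neg hy]

/-- Haar functions of the highest level, odd points. -/
theorem hg_odd {L k : ℕ} (h : 2 ^ L ≤ k) (h' : k < 2 ^ (L + 1)) (y : ℕ) :
    hg (L + 1) k (2 * y + 1) = if y = k - 2 ^ L then -Real.sqrt (2 ^ L) else 0 := by
  have hp : 0 < 2 ^ L := by positivity
  have hk : k ≠ 0 := by omega
  unfold hg
  rw [if_neg hk, log_top h h', show L + 1 - L - 1 = 0 by omega, pow_zero, Nat.div_one]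
  by_cases hy : y = k - 2 ^ L
  · rw [if_neg (by omega), if_pos (by omega), if_pos hy]
  · rw [if_neg (by omega), if_neg (by omega), if_neg hy]

/-- Orthogonality in dimension one. -/
theorem orth (L : ℕ) : ∀ k k' : ℕ, k < 2 ^ L → k' < 2 ^ L →
    ∑ x ∈ range (2 ^ L), hg L k x * hg L k' x = if k = k' then (2 : ℝ) ^ L else 0 := by
  induction L with
  | zero =>
    intro k k' hk hk'
    have h1 : k = 0 := by simpa using hk
    have h2 : k' = 0 := by simpa using hk'
    subst h1; subst h2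
    simp [hg]
  | succ L ih =>
    intro k k' hk hk'
    rw [Nat.pow_succ', sum_range_two_mul]
    have hdiv : ∀ y : ℕ, (2 * y) / 2 = y ∧ (2 * y + 1) / 2 = y := fun y => by omega
    have hsq : Real.sqrt (2 ^ L) * Real.sqrt (2 ^ L) = 2 ^ L :=
      Real.mul_self_sqrt (by positivity)
    rcases lt_or_ge k (2 ^ L) with h | h <;> rcases lt_or_ge k' (2 ^ L) with h' | h'
    · have h1 : ∀ y ∈ range (2 ^ L), hg (L + 1) k (2 * y) * hg (L + 1) k' (2 * y) +
          hg (L + 1) k (2 * y + 1) * hg (L + 1) k' (2 * y + 1) =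
          2 * (hg L k y * hg L k' y) := by
        intro y _
        rw [hg_succ h, hg_succ h, hg_succ h', hg_succ h', (hdiv y).1, (hdiv y).2]
        ring
      rw [sum_congr rfl h1, ← mul_sum, ih k k' h h', pow_succ]
      split_ifs <;> ring
    · rw [if_neg (by omega)]
      refine sum_eq_zero fun y _ => ?_
      rw [hg_succ h, hg_succ h, (hdiv y).1, (hdiv y).2, hg_even h' hk', hg_odd h' hk']
      split_ifs <;> ring
    · rw [if_neg (by omega)]
      refine sum_eq_zero fun y _ => ?_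
      rw [hg_succ h', hg_succ h', (hdiv y).1, (hdiv y).2, hg_even h hk, hg_odd h hk]
      split_ifs <;> ring
    · have h1 : ∀ y ∈ range (2 ^ L), hg (L + 1) k (2 * y) * hg (L + 1) k' (2 * y) +
          hg (L + 1) k (2 * y + 1) * hg (L + 1) k' (2 * y + 1) =
          if y = k - 2 ^ L then (if k = k' then (2 : ℝ) ^ (L + 1) else 0) else 0 := by
        intro y _
        rw [hg_even h hk, hg_odd h hk, hg_even h' hk', hg_odd h' hk']
        by_cases hy : y = k - 2 ^ L
        · by_cases hkk : k = k'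
          · subst hkk
            simp only [if_pos hy, if_true]
            rw [neg_mul_neg, hsq, pow_succ]
            ring
          · rw [if_pos hy, if_pos hy, if_pos hy, if_neg hkk, if_neg (by omega), if_neg (by omega)]
            ring
        · rw [if_neg hy, if_neg hy, if_neg hy]
          ring
      rw [sum_congr rfl h1, sum_ite_eq']
      have hp : 2 * 2 ^ L = 2 ^ (L + 1) := (Nat.pow_succ').symm
      rw [if_pos (mem_range.2 (by omega))]

variable {d L : ℕ}

theorem orth_tensor (k k' : Gr d L) :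
    ∑ x, hh k x * hh k' x = if k = k' then (2 : ℝ) ^ (d * L) else 0 := by
  have h1 : ∀ x : Gr d L, hh k x * hh k' x = ∏ j, hg L (k j) (x j) * hg L (k' j) (x j) := by
    intro x
    unfold hh
    rw [prod_mul_distrib]
  simp_rw [h1]
  have h2 := prod_univ_sum (fun _ : Fin d => (univ : Finset (Fin (2 ^ L))))
    (fun j (x : Fin (2 ^ L)) => hg L (k j) x * hg L (k' j) x)
  rw [Fintype.piFinset_univ] at h2
  rw [← h2]
  have h3 : ∀ j : Fin d, ∑ x : Fin (2 ^ L), hg L (k j) x * hg L (k' j) x =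
      if k j = k' j then (2 : ℝ) ^ L else 0 := by
    intro j
    have h4 := orth L (k j) (k' j) (k j).2 (k' j).2
    rw [Finset.sum_range] at h4
    rw [h4]
    simp only [Fin.ext_iff]
  simp_rw [h3]
  rw [prod_ite_zero]
  by_cases hk : k = k'
  · subst hk
    simp only [implies_true, if_true, prod_const, card_univ, Fintype.card_fin]
    rw [← pow_mul, mul_comm]
  · rw [if_neg hk, if_neg]
    intro h
    exact hk (funext fun j => h j (mem_univ j))

theorem orth_dual (x x' : Gr d L) :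
    ∑ k, hh k x * hh k x' = if x = x' then (2 : ℝ) ^ (d * L) else 0 := by
  classical
  let A : Matrix (Gr d L) (Gr d L) ℝ := fun k x => ((2 : ℝ) ^ (d * L))⁻¹ * hh k x
  let B : Matrix (Gr d L) (Gr d L) ℝ := fun x k => hh k x
  have hc : (2 : ℝ) ^ (d * L) ≠ 0 := by positivity
  have hAB : A * B = 1 := by
    ext k k'
    rw [Matrix.mul_apply, Matrix.one_apply]
    have h1 : ∀ x, A k x * B x k' = ((2 : ℝ) ^ (d * L))⁻¹ * (hh k x * hh k' x) := fun x => by
      simp only [A, B]; ring
    simp_rw [h1]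
    rw [← mul_sum, orth_tensor]
    split_ifs
    · exact inv_mul_cancel₀ hc
    · exact mul_zero _
  have hBA : B * A = 1 := mul_eq_one_comm.1 hAB
  have h2 := congrFun (congrFun hBA x) x'
  rw [Matrix.mul_apply, Matrix.one_apply] at h2
  have h1 : ∀ k, B x k * A k x' = ((2 : ℝ) ^ (d * L))⁻¹ * (hh k x * hh k x') := fun k => by
    simp only [A, B]; ring
  simp_rw [h1] at h2
  rw [← mul_sum] at h2
  have h3 : ∑ k, hh k x * hh k x' =
      (2 : ℝ) ^ (d * L) * (((2 : ℝ) ^ (d * L))⁻¹ * ∑ k, hh k x * hh k x') := by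
    rw [mul_inv_cancel_left₀ hc]
  rw [h3, h2]
  split_ifs
  · exact mul_one _
  · exact mul_zero _

/-- Size of a Haar function. -/
theorem abs_hg_le (L k x : ℕ) : |hg L k x| ≤ Real.sqrt ((2 : ℝ) ^ (lv k - 1)) := by
  unfold hg lv
  split_ifs with h1 h2 h3
  · simp
  · rw [Nat.add_sub_cancel, abs_of_nonneg (Real.sqrt_nonneg _)]
  · rw [Nat.add_sub_cancel, abs_neg, abs_of_nonneg (Real.sqrt_nonneg _)]
  · simp

/-- Haar functions with the same level have disjoint supports. -/
theorem hg_disj {L k k' x : ℕ} (h : lv k = lv k') (h1 : hg L k x ≠ 0) (h2 : hg L k' x ≠ 0) :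
    k = k' := by
  unfold lv at h
  by_cases hk : k = 0
  · by_cases hk' : k' = 0
    · rw [hk, hk']
    · rw [if_pos hk, if_neg hk'] at h
      omega
  by_cases hk' : k' = 0
  · rw [if_neg hk, if_pos hk'] at h
    omega
  rw [if_neg hk, if_neg hk'] at h
  have hl : Nat.log 2 k = Nat.log 2 k' := by omega
  have hp := Nat.pow_log_le_self 2 hk
  have hp' := Nat.pow_log_le_self 2 hk'
  unfold hg at h1 h2
  rw [if_neg hk] at h1
  rw [if_neg hk'] at h2
  rw [← hl] at h2 hp'
  have e1 : x / 2 ^ (L - Nat.log 2 k - 1) = 2 * (k - 2 ^ Nat.log 2 k) ∨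
      x / 2 ^ (L - Nat.log 2 k - 1) = 2 * (k - 2 ^ Nat.log 2 k) + 1 := by
    by_contra hcon
    push Not at hcon
    rw [if_neg hcon.1, if_neg hcon.2] at h1
    exact h1 rfl
  have e2 : x / 2 ^ (L - Nat.log 2 k - 1) = 2 * (k' - 2 ^ Nat.log 2 k) ∨
      x / 2 ^ (L - Nat.log 2 k - 1) = 2 * (k' - 2 ^ Nat.log 2 k) + 1 := by
    by_contra hcon
    push Not at hcon
    rw [if_neg hcon.1, if_neg hcon.2] at h2
    exact h2 rfl
  omega

theorem abs_hh_le (k x : Gr d L) : |hh k x| ≤ Real.sqrt (Ns (lvs k)) := by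
  unfold hh Ns lvs
  rw [abs_prod]
  push_cast
  rw [Real.sqrt_prod _ (fun i _ => by positivity)]
  exact prod_le_prod (fun j _ => abs_nonneg _) fun j _ => abs_hg_le _ _ _

theorem hh_disj {k k' x : Gr d L} (h : lvs k = lvs k') (h1 : hh k x ≠ 0) (h2 : hh k' x ≠ 0) :
    k = k' := by
  funext j
  unfold hh at h1 h2
  rw [prod_ne_zero_iff] at h1 h2
  exact Fin.ext (hg_disj (congrFun h j) (h1 j (mem_univ j)) (h2 j (mem_univ j)))

theorem block_le (s : Fin d → ℕ) (x : Gr d L) (c : Gr d L → ℝ) (M : ℝ) (hM : 0 ≤ M)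
    (h : ∀ k, lvs k = s → Real.sqrt (Ns s) * |c k| ≤ M) :
    |∑ k with lvs k = s, c k * hh k x| ≤ M := by
  by_cases h0 : ∃ k : Gr d L, lvs k = s ∧ hh k x ≠ 0
  · obtain ⟨k0, hk0, hk1⟩ := h0
    rw [sum_eq_single_of_mem k0 (by simp [hk0])]
    · rw [abs_mul]
      refine le_trans ?_ (h k0 hk0)
      rw [mul_comm]
      refine mul_le_mul_of_nonneg_right ?_ (abs_nonneg _)
      rw [← hk0]
      exact abs_hh_le _ _
    · intro k hk hne
      rw [mem_filter] at hk
      have : hh k x = 0 := by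
        by_contra hcon
        exact hne (hh_disj (hk.2.trans hk0.symm) hcon hk1)
      rw [this, mul_zero]
  · push Not at h0
    rw [sum_eq_zero, abs_zero]
    · exact hM
    · intro k hk
      rw [mem_filter] at hk
      rw [h0 k hk.2, mul_zero]

theorem card_lv (L t : ℕ) : (univ.filter fun k : Fin (2 ^ L) => lv k = t).card ≤ 2 ^ (t - 1) := by
  rcases Nat.eq_zero_or_pos t with rfl | ht
  · simp only [Nat.zero_sub, pow_zero]
    rw [card_le_one]
    intro a ha b hb
    rw [mem_filter] at ha hb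
    have h0 : ∀ k : ℕ, lv k = 0 → k = 0 := by
      intro k hk
      unfold lv at hk
      by_contra hne
      rw [if_neg hne] at hk
      omega
    exact Fin.ext ((h0 _ ha.2).trans (h0 _ hb.2).symm)
  · obtain ⟨a, rfl⟩ : ∃ a, t = a + 1 := ⟨t - 1, by omega⟩
    rw [Nat.add_sub_cancel]
    have h1 : (Ico (2 ^ a) (2 ^ (a + 1))).card = 2 ^ a := by
      rw [Nat.card_Ico, pow_succ]
      omega
    rw [← h1]
    refine card_le_card_of_injOn (fun k => (k : ℕ)) ?_ (fun _ _ _ _ h => Fin.ext h)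
    intro k hk
    have hk' : lv k = a + 1 := by simpa using hk
    rw [mem_coe, mem_Ico]
    unfold lv at hk'
    by_cases hk0 : (k : ℕ) = 0
    · rw [if_pos hk0] at hk'
      omega
    · rw [if_neg hk0] at hk'
      have hlog : Nat.log 2 (k : ℕ) = a := by omega
      exact (Nat.log_eq_iff (Or.inr ⟨by norm_num, hk0⟩)).1 hlog

theorem card_lvs (s : Fin d → ℕ) : (univ.filter fun k : Gr d L => lvs k = s).card ≤ Ns s := by
  have h1 : (univ.filter fun k : Gr d L => lvs k = s) ⊆
      Fintype.piFinset fun j => univ.filter fun k : Fin (2 ^ L) => lv k = s j := by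
    intro k hk
    rw [mem_filter] at hk
    rw [Fintype.mem_piFinset]
    intro j
    rw [mem_filter]
    exact ⟨mem_univ _, congrFun hk.2 j⟩
  refine (card_le_card h1).trans ?_
  rw [Fintype.card_piFinset]
  unfold Ns
  exact prod_le_prod' fun j _ => card_lv L (s j)

end HaarM

open HaarM in
theorem specHaar : SpecHaar := by
  intro d L
  exact ⟨orth_tensor, orth_dual, block_le, card_lvs⟩

end Pool.Agent.MP_bc5265.S
end

section
/-! Marchaud inequality: from differences of order `l` to differences of order 1. -/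
set_option autoImplicit false

open Finset MeasureTheory
open scoped ENNReal fwdDiff

namespace Pool.Agent.MP_bc5265.S

namespace MarchM

noncomputable section

section Abs

variable {V : Type} [AddCommGroup V] [Module ℝ V]

/-- Seminorms as functions. -/
structure SN (N : V → ℝ) : Prop where
  add : ∀ u v, N (u + v) ≤ N u + N v
  smul : ∀ (c : ℝ) (v : V), N (c • v) = |c| * N v

variable {N : V → ℝ}

theorem SN.zero (h : SN N) : N 0 = 0 := by
  have := h.smul 0 0
  simpa using this

theorem SN.neg (h : SN N) (v : V) : N (-v) = N v := by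
  have := h.smul (-1) v
  simpa using this

theorem SN.nonneg (h : SN N) (v : V) : 0 ≤ N v := by
  have h1 := h.add v (-v)
  rw [h.neg, add_neg_cancel, h.zero] at h1
  linarith

theorem SN.sub (h : SN N) (u v : V) : N (u - v) ≤ N u + N v := by
  have h1 := h.add u (-v)
  rwa [h.neg, ← sub_eq_add_neg] at h1

theorem SN.sum (h : SN N) {β : Type*} (s : Finset β) (f : β → V) :
    N (∑ i ∈ s, f i) ≤ ∑ i ∈ s, N (f i) := by
  classical
  induction s using Finset.induction_on with
  | empty => simp [h.zero]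
  | insert a s ha ih =>
    rw [sum_insert ha, sum_insert ha]
    exact (h.add _ _).trans (by linarith)

theorem pow_bound (_h : SN N) (T : Module.End ℝ V) (b : ℝ) (hb : 0 ≤ b)
    (hT : ∀ v, N (T v) ≤ b * N v) (i : ℕ) (v : V) : N ((T ^ i) v) ≤ b ^ i * N v := by
  induction i with
  | zero => simp
  | succ i ih =>
    rw [pow_succ', Module.End.mul_apply]
    refine (hT _).trans ?_
    rw [pow_succ']
    rw [mul_assoc]
    exact mul_le_mul_of_nonneg_left ih hb

theorem step_ineq (h : SN N) (T : Module.End ℝ V) (hT : ∀ v, N (T v) ≤ N v) (k : ℕ) (hk : 1 ≤ k)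
    (G : V) :
    2 ^ k * N (((T - 1) ^ k) G) ≤
      N (((T * T - 1) ^ k) G) + k * 2 ^ (k - 1) * N (((T - 1) ^ (k + 1)) G) := by
  set y : Module.End ℝ V := (2 : ℝ) • 1 with hy
  have hc : Commute (T + 1) y := by
    rw [hy]
    exact (Commute.one_right _).smul_right _
  have hxy : T + 1 - y = T - 1 := by
    rw [hy]
    ext v
    simp only [LinearMap.sub_apply, LinearMap.add_apply, Module.End.one_apply,
      LinearMap.smul_apply]
    module
  have h1 := hc.geom_sum₂_mul k
  rw [hxy] at h1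
  have hyp : ∀ (i : ℕ) (w : V), (y ^ i) w = (2 : ℝ) ^ i • w := by
    intro i w
    rw [hy, smul_pow, one_pow]
    simp
  have h2 : (T * T - 1) ^ k = (T + 1) ^ k * (T - 1) ^ k := by
    have h3 : T * T - 1 = (T + 1) * (T - 1) := by noncomm_ring
    have h4 : Commute (T + 1) (T - 1) := by
      have : Commute T T := Commute.refl _
      exact ((this.sub_right (Commute.one_right _)).add_left
        ((Commute.one_left _)))
    rw [h3, h4.mul_pow]
  set R : Module.End ℝ V := ∑ i ∈ range k, (T + 1) ^ i * y ^ (k - 1 - i) with hR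
  have h5 : (T + 1) ^ k = R * (T - 1) + y ^ k := by
    rw [h1]; abel
  have h6 : ((T * T - 1) ^ k) G = R (((T - 1) ^ (k + 1)) G) + (2 : ℝ) ^ k • ((T - 1) ^ k) G := by
    have e1 : (R * (T - 1) * (T - 1) ^ k) G = R (((T - 1) ^ (k + 1)) G) := by
      rw [mul_assoc, ← pow_succ', Module.End.mul_apply]
    have e2 : (y ^ k * (T - 1) ^ k) G = (2 : ℝ) ^ k • ((T - 1) ^ k) G := by
      rw [Module.End.mul_apply, hyp]
    rw [h2, h5, add_mul, LinearMap.add_apply, e1, e2]
  have h7 : (2 : ℝ) ^ k • ((T - 1) ^ k) G =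
      ((T * T - 1) ^ k) G - R (((T - 1) ^ (k + 1)) G) := by
    rw [h6]; abel
  have hT1 : ∀ v, N ((T + 1) v) ≤ 2 * N v := by
    intro v
    rw [LinearMap.add_apply, Module.End.one_apply]
    have := h.add (T v) v
    have := hT v
    linarith
  have h8 : ∀ w, N (R w) ≤ k * 2 ^ (k - 1) * N w := by
    intro w
    rw [hR, LinearMap.sum_apply]
    refine (h.sum _ _).trans ?_
    have h9 : ∀ i ∈ range k, N (((T + 1) ^ i * y ^ (k - 1 - i)) w) ≤ 2 ^ (k - 1) * N w := by
      intro i hi
      rw [Module.End.mul_apply, hyp]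
      refine (pow_bound h (T + 1) 2 (by norm_num) hT1 i _).trans ?_
      rw [h.smul, abs_of_pos (by positivity), ← mul_assoc, ← pow_add]
      rw [mem_range] at hi
      rw [show i + (k - 1 - i) = k - 1 by omega]
    refine (sum_le_sum h9).trans ?_
    rw [sum_const, card_range, nsmul_eq_mul]
    exact le_of_eq (by ring)
  have h10 := h.smul (2 ^ k) (((T - 1) ^ k) G)
  rw [abs_of_pos (by positivity)] at h10
  rw [← h10, h7]
  refine (h.sub _ _).trans ?_
  have := h8 (((T - 1) ^ (k + 1)) G)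
  linarith

/-- Differences. -/
def Df (T : Module.End ℝ V) (k : ℕ) : Module.End ℝ V := (T - 1) ^ k

theorem Df_apply (T : Module.End ℝ V) (k : ℕ) (G : V) : Df T k G = ((T - 1) ^ k) G := rfl

theorem step_ineq' (h : SN N) (T : Module.End ℝ V) (hT : ∀ v, N (T v) ≤ N v) (k : ℕ)
    (hk : 1 ≤ k) (G : V) :
    2 ^ k * N (Df T k G) ≤ N (Df (T * T) k G) + k * 2 ^ (k - 1) * N (Df T (k + 1) G) :=
  step_ineq h T hT k hk G

/-- One step of the Marchaud inequality. -/
theorem march_one (h : SN N) (T : ℝ → Module.End ℝ V) (hT2 : ∀ t, T (2 * t) = T t * T t)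
    (hT : ∀ t v, N (T t v) ≤ N v) (k : ℕ) (hk : 1 ≤ k) (r : ℝ) (_hr : 0 < r) (hr1 : r < 1)
    (G : V) (B : ℝ) (hB : 0 ≤ B)
    (hG : ∀ t, N (Df (T t) (k + 1) G) ≤ B * |t| ^ r) (t : ℝ) :
    N (Df (T t) k G) ≤ (k / 2 / (1 - 2 ^ r / 2 ^ k)) * B * |t| ^ r := by
  set φ : ℝ → ℝ := fun t => N (Df (T t) k G) with hφ
  have h2k : (0 : ℝ) < 2 ^ k := by positivity
  have h1 : ∀ t, φ t ≤ (2 ^ k)⁻¹ * φ (2 * t) + k / 2 * B * |t| ^ r := by
    intro t
    have h2 := step_ineq' h (T t) (hT t) k hk G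
    rw [← hT2] at h2
    have h3 := hG t
    have h4 : (2 : ℝ) ^ k = 2 * 2 ^ (k - 1) := by
      rw [← pow_succ', Nat.sub_add_cancel hk]
    have h5 : φ t = (2 ^ k)⁻¹ * (2 ^ k * φ t) := by
      rw [inv_mul_cancel_left₀ h2k.ne']
    rw [h5]
    have h6 : (2 ^ k)⁻¹ * (2 ^ k * φ t) ≤ (2 ^ k)⁻¹ * (φ (2 * t) +
        k * 2 ^ (k - 1) * (B * |t| ^ r)) := by
      refine mul_le_mul_of_nonneg_left (h2.trans ?_) (by positivity)
      have : (k : ℝ) * 2 ^ (k - 1) * N (Df (T t) (k + 1) G) ≤
          k * 2 ^ (k - 1) * (B * |t| ^ r) :=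
        mul_le_mul_of_nonneg_left h3 (by positivity)
      simp only [hφ]
      linarith
    refine h6.trans (le_of_eq ?_)
    rw [mul_add]
    congr 1
    rw [h4]
    have : (2 : ℝ) ^ (k - 1) ≠ 0 := by positivity
    field_simp
  set ρ : ℝ := 2 ^ r / 2 ^ k with hρ
  have hρ0 : 0 ≤ ρ := by positivity
  have hρ1 : ρ < 1 := by
    rw [hρ, div_lt_one h2k]
    have h3 : (2 : ℝ) ^ r < 2 ^ (1 : ℝ) :=
      Real.rpow_lt_rpow_of_exponent_lt (by norm_num) hr1
    rw [Real.rpow_one] at h3
    have h4 : (2 : ℝ) ^ 1 ≤ 2 ^ k := pow_le_pow_right₀ (by norm_num) hk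
    linarith [pow_one (2 : ℝ)]
  have h3 : ∀ (n : ℕ) (t : ℝ), φ t ≤ ((2 ^ k)⁻¹) ^ n * φ (2 ^ n * t) +
      k / 2 * B * |t| ^ r * ∑ i ∈ range n, ρ ^ i := by
    intro n
    induction n with
    | zero => intro t; simp
    | succ n ih =>
      intro t
      refine (h1 t).trans ?_
      have h4 := ih (2 * t)
      have h5 : |2 * t| ^ r = 2 ^ r * |t| ^ r := by
        rw [abs_mul, abs_of_pos (by norm_num : (0 : ℝ) < 2),
          Real.mul_rpow (by norm_num) (abs_nonneg _)]
      rw [h5] at h4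
      have h6 : (2 ^ k)⁻¹ * φ (2 * t) ≤ (2 ^ k)⁻¹ * (((2 ^ k)⁻¹) ^ n * φ (2 ^ n * (2 * t)) +
          k / 2 * B * (2 ^ r * |t| ^ r) * ∑ i ∈ range n, ρ ^ i) :=
        mul_le_mul_of_nonneg_left h4 (by positivity)
      rw [geom_sum_succ, pow_succ (2 : ℝ) n, mul_assoc (2 ^ n : ℝ) 2 t]
      refine (add_le_add_left h6 _).trans (le_of_eq ?_)
      generalize ∑ i ∈ range n, ρ ^ i = S
      rw [hρ, pow_succ', div_eq_mul_inv ((2 : ℝ) ^ r)]
      ring
  have h4 : ∀ n : ℕ, φ t ≤ ((2 ^ k)⁻¹) ^ n * (2 ^ k * N G) +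
      k / 2 * B * |t| ^ r * (1 - ρ)⁻¹ := by
    intro n
    refine (h3 n t).trans (add_le_add ?_ ?_)
    · refine mul_le_mul_of_nonneg_left ?_ (by positivity)
      refine pow_bound h _ 2 (by norm_num) (fun v => ?_) k G
      rw [LinearMap.sub_apply, Module.End.one_apply]
      have := h.sub (T (2 ^ n * t) v) v
      have := hT (2 ^ n * t) v
      linarith
    · refine mul_le_mul_of_nonneg_left ?_ (by positivity)
      have h5 := Summable.sum_le_tsum (range n) (fun i _ => pow_nonneg hρ0 i)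
        (summable_geometric_of_lt_one hρ0 hρ1)
      rwa [tsum_geometric_of_lt_one hρ0 hρ1] at h5
  have h5 : Filter.Tendsto (fun n : ℕ => ((2 ^ k : ℝ)⁻¹) ^ n * (2 ^ k * N G) +
      k / 2 * B * |t| ^ r * (1 - ρ)⁻¹) Filter.atTop
      (nhds (0 * (2 ^ k * N G) + k / 2 * B * |t| ^ r * (1 - ρ)⁻¹)) := by
    refine Filter.Tendsto.add_const _ (Filter.Tendsto.mul_const _ ?_)
    refine tendsto_pow_atTop_nhds_zero_of_lt_one (by positivity) ?_
    rw [inv_lt_one₀ h2k]
    exact one_lt_pow₀ (by norm_num) (by omega)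
  have h6 := ge_of_tendsto' h5 h4
  refine h6.trans (le_of_eq ?_)
  rw [zero_mul, zero_add, div_eq_mul_inv (k / 2 : ℝ)]
  ring

/-- From order `l` to order 1. -/
theorem march_all (r : ℝ) (hr : 0 < r) (hr1 : r < 1) (l : ℕ) (hl : 1 ≤ l) :
    ∃ C : ℝ, 1 ≤ C ∧ ∀ (V : Type) [AddCommGroup V] [Module ℝ V] (N : V → ℝ), SN N →
      ∀ (T : ℝ → Module.End ℝ V), (∀ t, T (2 * t) = T t * T t) → (∀ t v, N (T t v) ≤ N v) →
      ∀ (G : V) (B : ℝ), 0 ≤ B → (∀ t, N (Df (T t) l G) ≤ B * |t| ^ r) →
      ∀ t, N (Df (T t) 1 G) ≤ C * B * |t| ^ r := by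
  induction l, hl using Nat.le_induction with
  | base =>
    exact ⟨1, le_refl _, fun V _ _ N _ T _ _ G B _ h t => by rw [one_mul]; exact h t⟩
  | succ l hl ih =>
    obtain ⟨C, hC, h⟩ := ih
    have hρ1 : (2 : ℝ) ^ r / 2 ^ l < 1 := by
      rw [div_lt_one (by positivity)]
      have h3 : (2 : ℝ) ^ r < 2 ^ (1 : ℝ) :=
        Real.rpow_lt_rpow_of_exponent_lt (by norm_num) hr1
      rw [Real.rpow_one] at h3
      have h4 : (2 : ℝ) ^ 1 ≤ 2 ^ l := pow_le_pow_right₀ (by norm_num) hl
      linarith [pow_one (2 : ℝ)]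
    have hq : 0 ≤ (l / 2 / (1 - 2 ^ r / 2 ^ l) : ℝ) := by
      have : 0 < 1 - (2 : ℝ) ^ r / 2 ^ l := by linarith
      positivity
    refine ⟨max 1 (C * (l / 2 / (1 - 2 ^ r / 2 ^ l))), le_max_left _ _, ?_⟩
    intro V _ _ N hN T hT2 hT G B hB hG t
    have h1 := march_one hN T hT2 hT l hl r hr hr1 G B hB hG
    have h2 := h V N hN T hT2 hT G ((l / 2 / (1 - 2 ^ r / 2 ^ l)) * B) (by positivity) h1 t
    refine h2.trans ?_
    rw [← mul_assoc]
    refine mul_le_mul_of_nonneg_right (mul_le_mul_of_nonneg_right (le_max_right _ _) hB)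
      (by positivity)

end Abs

section Conc

variable {𝕜 : Type} [RCLike 𝕜] {d : ℕ}

/-- Translation of continuous functions on the torus. -/
def Tr (h : Torus d) : Module.End ℝ C(Torus d, 𝕜) where
  toFun f := ⟨fun x => f (x + h), f.continuous.comp (continuous_id.add continuous_const)⟩
  map_add' f g := by ext x; rfl
  map_smul' c f := by ext x; rfl

theorem Tr_apply (h : Torus d) (f : C(Torus d, 𝕜)) (x : Torus d) : Tr h f x = f (x + h) := rfl

theorem Tr_mul (h h' : Torus d) : (Tr h * Tr h' : Module.End ℝ C(Torus d, 𝕜)) = Tr (h + h') := by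
  ext f x
  rw [Module.End.mul_apply, Tr_apply, Tr_apply, Tr_apply, add_assoc]

theorem Tr_comm (h h' : Torus d) : Commute (Tr h : Module.End ℝ C(Torus d, 𝕜)) (Tr h') := by
  show Tr h * Tr h' = Tr h' * Tr h
  rw [Tr_mul, Tr_mul, add_comm]

/-- Translation in one variable. -/
def Tj (j : Fin d) (t : ℝ) : Module.End ℝ C(Torus d, 𝕜) := Tr (Pi.single j (t : Circ))

theorem Tj_two (j : Fin d) (t : ℝ) :
    (Tj j (2 * t) : Module.End ℝ C(Torus d, 𝕜)) = Tj j t * Tj j t := by
  unfold Tj
  rw [Tr_mul, ← Pi.single_add, show (2 * t) = t + t from two_mul t]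
  rfl

theorem comm_pow (i j : Fin d) (s t : ℝ) (a b : ℕ) :
    Commute (Df (Tj i s : Module.End ℝ C(Torus d, 𝕜)) a) (Df (Tj j t) b) := by
  unfold Df
  refine Commute.pow_pow ?_ a b
  have h : Commute (Tj i s : Module.End ℝ C(Torus d, 𝕜)) (Tj j t) := Tr_comm _ _
  exact (h.sub_right (Commute.one_right _)).sub_left (Commute.one_left _)

theorem coe_pow (j : Fin d) (t : ℝ) (l : ℕ) (f : C(Torus d, 𝕜)) :
    ⇑(Df (Tj j t) l f) = diff l j t (f : Torus d → 𝕜) := by
  unfold diff Df
  induction l with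
  | zero => rfl
  | succ l ih =>
    rw [pow_succ', Module.End.mul_apply, Function.iterate_succ_apply', ← ih]
    rfl

/-- The norm. -/
def NN (p : ℝ≥0∞) (f : C(Torus d, 𝕜)) : ℝ := (eLpNorm (f : Torus d → 𝕜) p (μT d)).toReal

theorem fin (p : ℝ≥0∞) (f : C(Torus d, 𝕜)) : eLpNorm (f : Torus d → 𝕜) p (μT d) ≠ ⊤ := by
  have h1 : MemLp (f : Torus d → 𝕜) p (μT d) :=
    MemLp.of_bound f.continuous.aestronglyMeasurable ‖f‖
      (Filter.Eventually.of_forall fun x => f.norm_coe_le_norm x)
  exact h1.2.ne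

theorem isSN (p : ℝ≥0∞) (hp : 1 ≤ p) : SN (NN p : C(Torus d, 𝕜) → ℝ) where
  add u v := by
    unfold NN
    rw [← ENNReal.toReal_add (fin p u) (fin p v)]
    refine ENNReal.toReal_mono (ENNReal.add_ne_top.2 ⟨fin p u, fin p v⟩) ?_
    exact eLpNorm_add_le u.continuous.aestronglyMeasurable v.continuous.aestronglyMeasurable hp
  smul c v := by
    unfold NN
    have h1 : ⇑(c • v) = c • (v : Torus d → 𝕜) := rfl
    rw [h1, eLpNorm_const_smul, ENNReal.toReal_mul]
    simp

theorem NN_Tr (p : ℝ≥0∞) (h : Torus d) (f : C(Torus d, 𝕜)) : NN p (Tr h f) = NN p f := by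
  unfold NN
  have h1 := eLpNorm_comp_measurePreserving (p := p) (μ := μT d) (ν := μT d)
    (g := (f : Torus d → 𝕜)) f.continuous.aestronglyMeasurable
    (measurePreserving_add_right (μT d) h)
  rw [← h1]
  rfl

/-- Mixed differences of continuous functions along a list of variables. -/
def FF (l : ℕ) (t : Fin d → ℝ) (L : List (Fin d)) (f : C(Torus d, 𝕜)) : C(Torus d, 𝕜) :=
  L.foldr (fun j g => Df (Tj j (t j)) l g) f

theorem coe_FF (l : ℕ) (t : Fin d → ℝ) (L : List (Fin d)) (f : C(Torus d, 𝕜)) :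
    ⇑(FF l t L f) = L.foldr (fun j g => diff l j (t j) g) (f : Torus d → 𝕜) := by
  unfold FF
  induction L with
  | nil => rfl
  | cons j L ih =>
    rw [List.foldr_cons, List.foldr_cons, coe_pow, ih]

theorem FF_comm (l a : ℕ) (t : Fin d → ℝ) (L : List (Fin d)) (j : Fin d) (s : ℝ)
    (f : C(Torus d, 𝕜)) :
    FF l t L (Df (Tj j s) a f) = Df (Tj j s) a (FF l t L f) := by
  unfold FF
  induction L with
  | nil => rfl
  | cons i L ih =>
    rw [List.foldr_cons, List.foldr_cons, ih, ← Module.End.mul_apply, ← Module.End.mul_apply,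
      (comm_pow i j (t i) s l a).eq]

theorem FF_congr (l : ℕ) (t s : Fin d → ℝ) (L : List (Fin d)) (h : ∀ i ∈ L, t i = s i)
    (f : C(Torus d, 𝕜)) : FF l t L f = FF l s L f := by
  unfold FF
  induction L with
  | nil => rfl
  | cons i L ih =>
    rw [List.foldr_cons, List.foldr_cons, ih fun i hi => h i (List.mem_cons_of_mem _ hi),
      h i List.mem_cons_self]

theorem main (r : ℝ) (l : ℕ) (p : ℝ≥0∞) (hp : 1 ≤ p) (C : ℝ) (hC : 1 ≤ C)
    (hM : ∀ (V : Type) [AddCommGroup V] [Module ℝ V] (N : V → ℝ), SN N →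
      ∀ (T : ℝ → Module.End ℝ V), (∀ t, T (2 * t) = T t * T t) → (∀ t v, N (T t v) ≤ N v) →
      ∀ (G : V) (B : ℝ), 0 ≤ B → (∀ t, N (Df (T t) l G) ≤ B * |t| ^ r) →
      ∀ t, N (Df (T t) 1 G) ≤ C * B * |t| ^ r) (L : List (Fin d)) :
    L.Nodup → ∀ (f : C(Torus d, 𝕜)) (B : ℝ), 0 ≤ B →
      (∀ t : Fin d → ℝ, NN p (FF l t L f) ≤ B * (L.map fun i => |t i| ^ r).prod) →
      ∀ t : Fin d → ℝ, NN p (FF 1 t L f) ≤ C ^ L.length * B * (L.map fun i => |t i| ^ r).prod := by
  induction L with
  | nil =>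
    intro _ f B hB h t
    simpa [FF] using h t
  | cons j L ih =>
    intro hnd f B hB h t
    have hj : j ∉ L := (List.nodup_cons.1 hnd).1
    have hL : L.Nodup := (List.nodup_cons.1 hnd).2
    have hprod : ∀ s : Fin d → ℝ, 0 ≤ (L.map fun i => |s i| ^ r).prod := by
      intro s
      refine List.prod_nonneg ?_
      intro a ha
      rw [List.mem_map] at ha
      obtain ⟨i, _, rfl⟩ := ha
      positivity
    have h1 : ∀ s : Fin d → ℝ,
        NN p (FF l s L (Df (Tj j (t j)) 1 f)) ≤
          (C * B * |t j| ^ r) * (L.map fun i => |s i| ^ r).prod := by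
      intro s
      rw [FF_comm]
      have h2 : ∀ τ : ℝ, NN p (Df (Tj j τ) l (FF l s L f)) ≤
          (B * (L.map fun i => |s i| ^ r).prod) * |τ| ^ r := by
        intro τ
        have h3 := h (Function.update s j τ)
        have h4 : FF l (Function.update s j τ) (j :: L) f =
            Df (Tj j τ) l (FF l s L f) := by
          have h5 : FF l (Function.update s j τ) (j :: L) f =
              Df (Tj j (Function.update s j τ j)) l
                (FF l (Function.update s j τ) L f) := rfl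
          rw [h5, Function.update_self]
          congr 1
          refine FF_congr l _ _ L (fun i hi => ?_) f
          have : i ≠ j := fun hij => hj (hij ▸ hi)
          rw [Function.update_of_ne this]
        have h6 : ((j :: L).map fun i => |Function.update s j τ i| ^ r).prod =
            |τ| ^ r * (L.map fun i => |s i| ^ r).prod := by
          rw [List.map_cons, List.prod_cons, Function.update_self]
          congr 2
          refine List.map_congr_left fun i hi => ?_
          have : i ≠ j := fun hij => hj (hij ▸ hi)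
          rw [Function.update_of_ne this]
        rw [h4, h6] at h3
        refine h3.trans (le_of_eq (by ring))
      have h7 := hM C(Torus d, 𝕜) (NN p) (isSN p hp) (Tj j) (Tj_two j)
        (fun τ v => (NN_Tr p _ v).le) (FF l s L f) (B * (L.map fun i => |s i| ^ r).prod)
        (mul_nonneg hB (hprod s)) h2 (t j)
      refine h7.trans (le_of_eq (by ring))
    have h8 := ih hL (Df (Tj j (t j)) 1 f) (C * B * |t j| ^ r)
      (by positivity) h1 t
    have h9 : FF 1 t (j :: L) f = FF 1 t L (Df (Tj j (t j)) 1 f) := by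
      rw [FF_comm]
      rfl
    rw [h9]
    refine h8.trans (le_of_eq ?_)
    rw [List.map_cons, List.prod_cons, List.length_cons, pow_succ]
    ring

end Conc

end

end MarchM

open MarchM in
theorem specMarch : SpecMarch := by
  intro 𝕜 _ d l r p hl hr hr1 hp
  obtain ⟨C, hC, hM⟩ := march_all r hr hr1 l hl
  have hp' : (1 : ℝ≥0∞) ≤ ENNReal.ofReal p := by
    rw [← ENNReal.ofReal_one]
    exact ENNReal.ofReal_le_ofReal hp
  refine ⟨C ^ d, by positivity, ?_⟩
  intro f hf e t
  have hcoe : ∀ (l' : ℕ) (t : Fin d → ℝ), mixedDiff l' e t (f : Torus d → 𝕜) =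
      ⇑(FF l' t (e.sort (· ≤ ·)) f) := by
    intro l' t
    rw [coe_FF]
    rfl
  have hprod : ∀ t : Fin d → ℝ, ((e.sort (· ≤ ·)).map fun i => |t i| ^ r).prod =
      ∏ j ∈ e, |t j| ^ r := by
    intro t
    rw [← List.prod_toFinset _ (e.sort_nodup (· ≤ ·)), e.sort_toFinset]
  have h1 : ∀ t : Fin d → ℝ, NN (ENNReal.ofReal p) (FF l t (e.sort (· ≤ ·)) f) ≤
      1 * ((e.sort (· ≤ ·)).map fun i => |t i| ^ r).prod := by
    intro t
    rw [hprod, one_mul]
    unfold NN
    rw [← hcoe]
    refine ENNReal.toReal_le_of_le_ofReal (by positivity) ?_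
    by_cases he : e.Nonempty
    · exact hf.2 e he t
    · rw [not_nonempty_iff_eq_empty] at he
      subst he
      simpa [mixedDiff] using hf.1
  have h2 := main r l (ENNReal.ofReal p) hp' C hC hM (e.sort (· ≤ ·)) (e.sort_nodup (· ≤ ·)) f 1
    zero_le_one h1 t
  rw [hcoe, ENNReal.le_ofReal_iff_toReal_le (fin _ _) (by positivity)]
  refine h2.trans ?_
  rw [hprod, mul_one]
  refine mul_le_mul_of_nonneg_right ?_ (by positivity)
  refine pow_le_pow_right₀ hC ?_
  rw [e.length_sort]
  exact (card_le_univ e).trans (by rw [Fintype.card_fin])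

end Pool.Agent.MP_bc5265.S
end

section
/-!
REIM: real and imaginary parts.
-/
set_option linter.unusedSectionVars false

open MeasureTheory Finset
open scoped ENNReal fwdDiff

namespace Pool.Agent.MP_bc5265.S

noncomputable section

namespace ReImM

variable {𝕜 : Type} [RCLike 𝕜] {d : ℕ}

/-- Differences commute with additive maps. -/
lemma diff_comp (φ : 𝕜 →+ ℝ) (l : ℕ) (j : Fin d) (t : ℝ) : ∀ f : Torus d → 𝕜,
    diff l j t (fun x => φ (f x)) = fun x => φ (diff l j t f x) := by
  unfold diff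
  induction l with
  | zero => intro f; rfl
  | succ l ih =>
    intro f
    rw [Function.iterate_succ_apply, Function.iterate_succ_apply]
    have h1 : fwdDiff (Pi.single j (t : Circ) : Torus d) (fun x => φ (f x)) =
        fun x => φ (fwdDiff (Pi.single j (t : Circ) : Torus d) f x) := by
      funext x
      simp [fwdDiff]
    rw [h1, ih]

lemma mixedDiff_comp (φ : 𝕜 →+ ℝ) (l : ℕ) (e : Finset (Fin d)) (t : Fin d → ℝ)
    (f : Torus d → 𝕜) :
    mixedDiff l e t (fun x => φ (f x)) = fun x => φ (mixedDiff l e t f x) := by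
  unfold mixedDiff
  induction e.sort (· ≤ ·) with
  | nil => rfl
  | cons j L ih => rw [List.foldr_cons, ih, diff_comp]; rfl

lemma good_of (φ : 𝕜 →+ ℝ) (hφ : ∀ z, |φ z| ≤ ‖z‖) (p r B : ℝ) (f : C(Torus d, 𝕜))
    (hf : ∀ (e : Finset (Fin d)) (t : Fin d → ℝ),
      eLpNorm (mixedDiff 1 e t (f : Torus d → 𝕜)) (ENNReal.ofReal p) (μT d) ≤
        ENNReal.ofReal (B * ∏ j ∈ e, |t j| ^ r))
    (g : C(Torus d, ℝ)) (hg : ∀ x, g x = φ (f x)) : Good p r B g := by
  intro e t
  have h1 : (g : Torus d → ℝ) = fun x => φ (f x) := funext hg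
  rw [h1, mixedDiff_comp]
  refine (eLpNorm_mono fun x => ?_).trans (hf e t)
  exact hφ _

end ReImM

theorem specReIm : SpecReIm := by
  intro 𝕜 _ d p r B f hf
  exact ⟨fun g hg => ReImM.good_of (RCLike.re : 𝕜 →+ ℝ) RCLike.abs_re_le_norm p r B f hf g hg,
    fun g hg => ReImM.good_of (RCLike.im : 𝕜 →+ ℝ) RCLike.abs_im_le_norm p r B f hf g hg⟩

end

end Pool.Agent.MP_bc5265.S
end

section
/-!
# UP: the upper bound, from the estimate on the grid
-/
set_option linter.unusedSectionVars false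

open MeasureTheory Finset
open scoped ENNReal fwdDiff

namespace Pool.Agent.MP_bc5265.S

noncomputable section

namespace UpM

variable {d L : ℕ}

lemma fn_smul (a : ℝ) (c : Gr d L → ℝ) (X : Gr d L) : fn (fun k => a * c k) X = a * fn c X := by
  unfold fn
  rw [Finset.mul_sum]
  exact Finset.sum_congr rfl fun k _ => by ring

lemma fn_sum {m : ℕ} (v : Fin m → ℝ) (A : Fin m → Gr d L → ℝ) (X : Gr d L) :
    fn (fun k => ∑ i, v i * A i k) X = ∑ i, v i * fn (A i) X := by
  unfold fn
  simp only [Finset.sum_mul, Finset.mul_sum]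
  rw [Finset.sum_comm]
  exact Finset.sum_congr rfl fun i _ => Finset.sum_congr rfl fun k _ => by ring

lemma fn_sub (c c' : Gr d L → ℝ) (X : Gr d L) : fn (fun k => c k - c' k) X = fn c X - fn c' X := by
  unfold fn
  rw [← Finset.sum_sub_distrib]
  exact Finset.sum_congr rfl fun k _ => by ring

lemma blockBd_scale (p r B : ℝ) (hB : 0 < B) (c : Gr d L → ℝ) (h : BlockBd p r B c) :
    BlockBd p r 1 (fun k => B⁻¹ * c k) := by
  intro s
  have h1 := h s
  have e1 : ∀ k : Gr d L, (Real.sqrt (Ns s) * |B⁻¹ * c k|) ^ p =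
      (B⁻¹) ^ p * (Real.sqrt (Ns s) * |c k|) ^ p := by
    intro k
    rw [abs_mul, abs_of_pos (inv_pos.2 hB), ← Real.mul_rpow (by positivity) (by positivity)]
    congr 1
    ring
  simp only [e1]
  rw [← Finset.mul_sum]
  refine (mul_le_mul_of_nonneg_left h1 (by positivity)).trans (le_of_eq ?_)
  rw [mul_left_comm, ← Real.mul_rpow (by positivity) (by positivity), one_mul]
  congr 2
  field_simp

lemma good_scale (p r B : ℝ) (hB : 0 < B) (g g' : C(Torus d, ℝ)) (h : Good p r B g)
    (hg' : ∀ x, g' x = B⁻¹ * g x) : Good p r 1 g' := by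
  intro e t
  have h1 := h e t
  have e0 : (g' : Torus d → ℝ) = ∑ _b ∈ ({()} : Finset Unit), B⁻¹ • (g : Torus d → ℝ) := by
    funext x
    simp [hg']
  have e1 : mixedDiff 1 e t (g' : Torus d → ℝ) = B⁻¹ • mixedDiff 1 e t (g : Torus d → ℝ) := by
    rw [e0, mixedDiff_sum (𝕜 := ℝ) 1 e t ({()} : Finset Unit) (fun _ => B⁻¹) (fun _ => g)]
    simp
  rw [e1, eLpNorm_const_smul, Real.enorm_of_nonneg (inv_nonneg.2 hB.le)]
  refine (mul_le_mul_right h1 _).trans (le_of_eq ?_)
  rw [← ENNReal.ofReal_mul (inv_nonneg.2 hB.le)]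
  congr 1
  field_simp

/-- Bound at the points, from level zero. -/
lemma abs_fn_zero (p r B : ℝ) (hp : 0 < p) (hB : 0 < B) (c : Gr d 0 → ℝ) (h : BlockBd p r B c)
    (X : Gr d 0) : |fn c X| ≤ B := by
  have h1 := h (fun _ => 0)
  have e1 : Ns (fun _ : Fin d => 0) = 1 := by simp [Ns]
  have e2 : tot (fun _ : Fin d => 0) = 0 := by simp [tot]
  rw [e1, e2] at h1
  simp only [Nat.cast_one, Real.sqrt_one, one_mul, CharP.cast_eq_zero, mul_zero, neg_zero,
    Real.rpow_zero, mul_one] at h1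
  have huniq : ∀ k : Gr d 0, k = X := by
    intro k
    funext j
    apply Fin.ext
    have h2 := (k j).2
    have h3 := (X j).2
    simp only [pow_zero] at h2 h3
    omega
  have hlv : lvs X = fun _ => 0 := by
    funext j
    have h3 := (X j).2
    simp only [pow_zero] at h3
    unfold lvs lv
    rw [if_pos (by omega)]
  have h4 : |c X| ^ p ≤ B ^ p := by
    refine le_trans ?_ h1
    exact Finset.single_le_sum (f := fun k => |c k| ^ p) (fun _ _ => by positivity)
      (Finset.mem_filter.2 ⟨Finset.mem_univ X, hlv⟩)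
  have h5 : |c X| ≤ B := (Real.rpow_le_rpow_iff (abs_nonneg _) hB.le hp).1 h4
  have h6 : fn c X = c X := by
    unfold fn
    rw [Finset.sum_eq_single_of_mem X (Finset.mem_univ X) (fun b _ hb => absurd (huniq b) hb)]
    have h7 : hh X X = 1 := by
      unfold hh
      refine Finset.prod_eq_one fun j _ => ?_
      have h3 := (X j).2
      simp only [pow_zero] at h3
      unfold hg
      rw [if_pos (by omega)]
    rw [h7, mul_one]
  rw [h6]
  exact h5

lemma rate_pos (d : ℕ) (r : ℝ) {m : ℕ} (hm : 2 ≤ m) : 0 < rate d r m := by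
  unfold rate
  have h1 : (1 : ℝ) < m := by exact_mod_cast hm
  have h2 : 0 < Real.log m := Real.log_pos h1
  positivity

lemma norm_le_re_im {𝕜 : Type} [RCLike 𝕜] (z : 𝕜) :
    ‖z‖ ≤ |RCLike.re z| + |RCLike.im z| := by
  have h1 := RCLike.norm_sq_eq_def (z := z)
  have h2 : ‖z‖ ^ 2 ≤ (|RCLike.re z| + |RCLike.im z|) ^ 2 := by
    rw [h1]
    nlinarith [abs_nonneg (RCLike.re z), abs_nonneg (RCLike.im z), sq_abs (RCLike.re z),
      sq_abs (RCLike.im z), mul_nonneg (abs_nonneg (RCLike.re z)) (abs_nonneg (RCLike.im z))]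
  exact le_of_sq_le_sq h2 (by positivity)

/-- The real case. -/
lemma real_case (hPars : SpecPars) (p r C2 C3 R η εL ε0 : ℝ) (hp : 0 < p)
    (hC2 : 0 < C2) (hC3 : 0 < C3) (hR : 0 ≤ R) (hη : 0 ≤ η) {m : ℕ}
    (X : Fin m → Gr d L) (A : Fin m → Gr d L → ℝ) (x : Fin m → Torus d) (ψ : Fin m → C(Torus d, ℝ))
    (hx : ∀ i, gx L (x i) = X i)
    (h1 : ∀ c : Gr d L → ℝ, BlockBd p r 1 c →
      Real.sqrt (∑ k, (c k - ∑ i, fn c (X i) * A i k) ^ 2) ≤ C3 * R)
    (h2 : ∀ (v : Fin m → ℝ) (M : ℝ), (∀ i, |v i| ≤ M) →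
      Real.sqrt (∑ k, (∑ i, v i * A i k) ^ 2) ≤ C3 * M)
    (hψ : ∀ i, eLpNorm (fun y : Torus d => fn (A i) (gx L y) - ψ i y) 2 (μT d) ≤
      ENNReal.ofReal η)
    (g : C(Torus d, ℝ)) (hb : BlockBd p r C2 (cf (g : Torus d → ℝ) L))
    (hb0 : BlockBd p r C2 (cf (g : Torus d → ℝ) 0))
    (hε : ∀ y, |g y - fn (cf (g : Torus d → ℝ) L) (gx L y)| ≤ εL)
    (hε0 : ∀ y, |g y - fn (cf (g : Torus d → ℝ) 0) (gx 0 y)| ≤ ε0) :
    eLpNorm (fun y => g y - ∑ i, g (x i) * ψ i y) 2 (μT d) ≤
      ENNReal.ofReal (εL + C2 * (C3 * R) + C3 * εL + m * ((C2 + ε0) * η)) := by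
  set c : Gr d L → ℝ := cf (g : Torus d → ℝ) L with hc
  have hεL0 : 0 ≤ εL := (abs_nonneg _).trans (hε 0)
  have hε00 : 0 ≤ ε0 := (abs_nonneg _).trans (hε0 0)
  have hgb : ∀ y, |g y| ≤ C2 + ε0 := by
    intro y
    have h3 := abs_fn_zero p r C2 hp hC2 _ hb0 (gx 0 y)
    have h4 := hε0 y
    rw [abs_le] at h3 h4 ⊢
    constructor <;> linarith [h3.1, h3.2, h4.1, h4.2]
  let v : Fin m → ℝ := fun i => fn c (X i) - g (x i)
  let T1 : Torus d → ℝ := fun y => g y - fn c (gx L y)
  let T2 : Torus d → ℝ := fun y => fn (fun k => c k - ∑ i, fn c (X i) * A i k) (gx L y)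
  let T3 : Torus d → ℝ := fun y => fn (fun k => ∑ i, v i * A i k) (gx L y)
  let T4 : Torus d → ℝ := ∑ i, g (x i) • fun y => (fn (A i) (gx L y) - ψ i y)
  have hsum : (fun y => g y - ∑ i, g (x i) * ψ i y) = T1 + T2 + T3 + T4 := by
    funext y
    simp only [T1, T2, T3, T4, Pi.add_apply, Finset.sum_apply, Pi.smul_apply, smul_eq_mul,
      fn_sub, fn_sum, v]
    simp only [mul_sub, sub_mul, Finset.sum_sub_distrib]
    ring
  have hm1 : Measurable (fun y : Torus d => fn c (gx L y)) := (hPars d L c).1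
  have hT1 : AEStronglyMeasurable T1 (μT d) :=
    (g.continuous.measurable.sub hm1).aestronglyMeasurable
  have hT2 : AEStronglyMeasurable T2 (μT d) := (hPars d L _).1.aestronglyMeasurable
  have hT3 : AEStronglyMeasurable T3 (μT d) := (hPars d L _).1.aestronglyMeasurable
  have hTi : ∀ i, AEStronglyMeasurable (fun y : Torus d => (fn (A i) (gx L y) - ψ i y)) (μT d) :=
    fun i => ((hPars d L (A i)).1.sub (ψ i).continuous.measurable).aestronglyMeasurable
  have hT4 : AEStronglyMeasurable T4 (μT d) :=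
    Finset.aestronglyMeasurable_sum _ fun i _ => (hTi i).const_smul _
  have hn1 : eLpNorm T1 2 (μT d) ≤ ENNReal.ofReal εL := by
    refine (eLpNorm_le_of_ae_bound (C := εL) (by filter_upwards with y; exact hε y)).trans ?_
    simp
  have hn2 : eLpNorm T2 2 (μT d) ≤ ENNReal.ofReal (C2 * (C3 * R)) := by
    refine (le_of_eq (hPars d L _).2).trans (ENNReal.ofReal_le_ofReal ?_)
    have h3 := h1 _ (blockBd_scale p r C2 hC2 c hb)
    have h4 : ∀ k, c k - ∑ i, fn c (X i) * A i k =
        C2 * ((fun k => C2⁻¹ * c k) k - ∑ i, fn (fun k => C2⁻¹ * c k) (X i) * A i k) := by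
      intro k
      simp only [fn_smul]
      rw [mul_sub, Finset.mul_sum]
      congr 1
      · field_simp
      · refine Finset.sum_congr rfl fun i _ => ?_
        field_simp
    simp only [h4, mul_pow]
    rw [← Finset.mul_sum, Real.sqrt_mul (by positivity), Real.sqrt_sq hC2.le]
    exact mul_le_mul_of_nonneg_left h3 hC2.le
  have hn3 : eLpNorm T3 2 (μT d) ≤ ENNReal.ofReal (C3 * εL) := by
    refine (le_of_eq (hPars d L _).2).trans (ENNReal.ofReal_le_ofReal ?_)
    refine h2 v εL fun i => ?_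
    simp only [v]
    rw [← hx i, abs_sub_comm]
    exact hε (x i)
  have hn4 : eLpNorm T4 2 (μT d) ≤ ENNReal.ofReal (m * ((C2 + ε0) * η)) := by
    refine (eLpNorm_sum_le (fun i _ => (hTi i).const_smul _) (by norm_num)).trans ?_
    have h3 : ∀ i ∈ (Finset.univ : Finset (Fin m)),
        eLpNorm (g (x i) • fun y : Torus d => (fn (A i) (gx L y) - ψ i y)) 2 (μT d) ≤
          ENNReal.ofReal ((C2 + ε0) * η) := by
      intro i _
      rw [eLpNorm_const_smul, ENNReal.ofReal_mul (by positivity)]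
      refine mul_le_mul' ?_ (hψ i)
      rw [← ofReal_norm, Real.norm_eq_abs]
      exact ENNReal.ofReal_le_ofReal (hgb _)
    refine (Finset.sum_le_sum h3).trans (le_of_eq ?_)
    rw [Finset.sum_const, nsmul_eq_mul, Finset.card_univ, Fintype.card_fin,
      ENNReal.ofReal_mul (Nat.cast_nonneg m), ENNReal.ofReal_natCast]
  rw [hsum]
  calc eLpNorm (T1 + T2 + T3 + T4) 2 (μT d)
      ≤ eLpNorm T1 2 (μT d) + eLpNorm T2 2 (μT d) + eLpNorm T3 2 (μT d) +
          eLpNorm T4 2 (μT d) := by
        refine (eLpNorm_add_le ((hT1.add hT2).add hT3) hT4 (by norm_num)).trans ?_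
        refine add_le_add ?_ le_rfl
        refine (eLpNorm_add_le (hT1.add hT2) hT3 (by norm_num)).trans ?_
        refine add_le_add ?_ le_rfl
        exact eLpNorm_add_le hT1 hT2 (by norm_num)
    _ ≤ ENNReal.ofReal εL + ENNReal.ofReal (C2 * (C3 * R)) + ENNReal.ofReal (C3 * εL) +
          ENNReal.ofReal (m * ((C2 + ε0) * η)) :=
        add_le_add (add_le_add (add_le_add hn1 hn2) hn3) hn4
    _ = _ := by
        rw [← ENNReal.ofReal_add (by positivity) (by positivity),
          ← ENNReal.ofReal_add (by positivity) (by positivity),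
          ← ENNReal.ofReal_add (by positivity) (by positivity)]

end UpM

open UpM

theorem specUp (hCore : SpecCore) (hMarch : SpecMarch) (hReIm : SpecReIm) (hBlk : SpecBlk)
    (hApp : SpecApp) (hPars : SpecPars) (hPts : SpecPts) (hCts : SpecCts) : SpecUp := by
  intro 𝕜 _ d l p r hd hl hp hpr hr
  have hr0 : 0 < r := lt_trans (by positivity) hpr
  have hp0 : 0 < p := by linarith
  obtain ⟨C1, hC1, hM⟩ := hMarch 𝕜 d l r p hl hr0 (by linarith) (by linarith)
  obtain ⟨C2, hC2, hB⟩ := hBlk d p r (by linarith) hr0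
  obtain ⟨C3, hC3, hC⟩ := hCore d p r hd hp hpr hr
  obtain ⟨ε, hε, hA⟩ := hApp d p r (by linarith) hpr
  -- the constant
  set D : ℝ := 2 * (C1 * (2 + C2 * C3 + C3)) with hD
  have hD0 : 0 < D := by positivity
  obtain ⟨S, hS0, hS⟩ : ∃ S : ℝ, 0 < S ∧ ∀ m : ℕ, 2 ≤ m → m < 8 → 1 ≤ S * rate d r m := by
    have h1 : ∀ m : ℕ, 0 ≤ (if 2 ≤ m then 1 / rate d r m else 0) := by
      intro m
      split_ifs with h
      · exact (one_div_pos.2 (rate_pos d r h)).le
      · exact le_rfl
    refine ⟨1 + ∑ m ∈ range 8, (if 2 ≤ m then 1 / rate d r m else 0), ?_, ?_⟩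
    · have := Finset.sum_nonneg (s := range 8) fun m _ => h1 m
      linarith
    · intro m hm hm8
      have h2 := Finset.single_le_sum (s := range 8)
        (f := fun m => (if 2 ≤ m then 1 / rate d r m else 0)) (fun m _ => h1 m)
        (Finset.mem_range.2 hm8)
      simp only [hm, if_true] at h2
      have h3 := rate_pos d r hm
      have h4 : 1 / rate d r m * rate d r m = 1 := by field_simp
      nlinarith
  refine ⟨D + S, by positivity, ?_⟩
  intro m hm
  have hR0 := rate_pos d r hm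
  set R := rate d r m with hR
  rcases lt_or_ge m 8 with hm8 | hm8
  · -- few points
    unfold samplingNumber
    refine (iInf_le _ (fun _ => 0)).trans ((iInf_le _ (fun _ => 0)).trans ?_)
    refine iSup₂_le fun f hf => ?_
    have h1 : (fun y => f y - ∑ i : Fin m, f 0 * (0 : C(Torus d, 𝕜)) y) = (f : Torus d → 𝕜) := by
      funext y
      simp
    rw [h1]
    have h2 : (2 : ℝ≥0∞) ≤ ENNReal.ofReal p := by
      rw [show (2 : ℝ≥0∞) = ENNReal.ofReal 2 by simp]
      exact ENNReal.ofReal_le_ofReal hp.le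
    refine (eLpNorm_le_eLpNorm_of_exponent_le h2 f.continuous.aestronglyMeasurable).trans ?_
    refine hf.1.trans ?_
    rw [← ENNReal.ofReal_one]
    refine ENNReal.ofReal_le_ofReal ?_
    have h3 := hS m hm hm8
    have h4 : 0 ≤ D * R := by positivity
    rw [add_mul]
    linarith
  · -- many points
    obtain ⟨L, hL⟩ : ∃ L, ε L ≤ R := by
      have h1 := hε.eventually (gt_mem_nhds hR0)
      obtain ⟨L, hL⟩ := h1.exists
      exact ⟨L, hL.le⟩
    obtain ⟨X, A, h1, h2⟩ := hC m L hm8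
    choose x hx using fun i => hPts d L (X i)
    set K : ℝ := C2 + max (ε 0) 0 with hK
    have hK0 : 0 < K := by positivity
    have hm0 : (0 : ℝ) < m := by
      have : 0 < m := by omega
      exact_mod_cast this
    set η : ℝ := R / (m * K) with hη
    have hη0 : 0 < η := by positivity
    choose ψ hψ using fun i => hCts d L (A i) η hη0
    have hreal : ∀ g : C(Torus d, ℝ), Good p r 1 g →
        eLpNorm (fun y => g y - ∑ i, g (x i) * ψ i y) 2 (μT d) ≤
          ENNReal.ofReal ((2 + C2 * C3 + C3) * R) := by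
      intro g hg
      have h3 := real_case hPars p r C2 C3 R η (ε L) (ε 0) hp0 hC2 hC3 hR0.le hη0.le X A x ψ hx h1
        h2 hψ g (hB g hg L) (hB g hg 0) (hA g hg L) (hA g hg 0)
      refine h3.trans (ENNReal.ofReal_le_ofReal ?_)
      have h4 : m * ((C2 + ε 0) * η) ≤ m * (K * η) := by
        refine mul_le_mul_of_nonneg_left ?_ hm0.le
        refine mul_le_mul_of_nonneg_right ?_ hη0.le
        rw [hK]
        have := le_max_left (ε 0) 0
        linarith
      have h5 : m * (K * η) = R := by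
        rw [hη]
        field_simp
      have h6 : C3 * ε L ≤ C3 * R := mul_le_mul_of_nonneg_left hL hC3.le
      nlinarith
    have hscaled : ∀ u : C(Torus d, ℝ), Good p r C1 u →
        eLpNorm (fun y => u y - ∑ i, u (x i) * ψ i y) 2 (μT d) ≤
          ENNReal.ofReal (C1 * ((2 + C2 * C3 + C3) * R)) := by
      intro u hu
      let g : C(Torus d, ℝ) := C1⁻¹ • u
      have hg' : ∀ y, g y = C1⁻¹ * u y := fun y => by simp [g]
      have h3 := hreal g (good_scale p r C1 hC1 u g hu hg')
      have h4 : (fun y => u y - ∑ i, u (x i) * ψ i y) =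
          C1 • fun y => (g y - ∑ i, g (x i) * ψ i y) := by
        funext y
        simp only [Pi.smul_apply, smul_eq_mul, hg', mul_sub, Finset.mul_sum]
        congr 1
        · field_simp
        · refine Finset.sum_congr rfl fun i _ => ?_
          field_simp
      rw [h4, eLpNorm_const_smul, Real.enorm_of_nonneg hC1.le, ENNReal.ofReal_mul hC1.le]
      exact mul_le_mul_right h3 _
    unfold samplingNumber
    let ψ' : Fin m → C(Torus d, 𝕜) := fun i =>
      ⟨fun y => ((ψ i y : ℝ) : 𝕜), RCLike.continuous_ofReal.comp (ψ i).continuous⟩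
    refine (iInf_le _ x).trans ((iInf_le _ ψ').trans ?_)
    refine iSup₂_le fun f hf => ?_
    let u : C(Torus d, ℝ) := ⟨fun y => RCLike.re (f y), RCLike.continuous_re.comp f.continuous⟩
    let v : C(Torus d, ℝ) := ⟨fun y => RCLike.im (f y), RCLike.continuous_im.comp f.continuous⟩
    have hf1 := hM f hf
    have hu : Good p r C1 u := (hReIm 𝕜 d p r C1 f hf1).1 u fun _ => rfl
    have hv : Good p r C1 v := (hReIm 𝕜 d p r C1 f hf1).2 v fun _ => rfl
    have h3 := hscaled u hu
    have h4 := hscaled v hv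
    have hpt : ∀ y, ‖f y - ∑ i, f (x i) * ψ' i y‖ ≤
        ((fun y => ‖u y - ∑ i, u (x i) * ψ i y‖) + fun y => ‖v y - ∑ i, v (x i) * ψ i y‖) y := by
      intro y
      refine (norm_le_re_im _).trans (le_of_eq ?_)
      simp only [Pi.add_apply, Real.norm_eq_abs]
      congr 2
      · simp [u, ψ']
      · simp [v, ψ']
    refine (eLpNorm_mono_real hpt).trans ?_
    have hcu : Continuous (fun y => u y - ∑ i, u (x i) * ψ i y) :=
      u.continuous.sub (continuous_finsetSum _ fun i _ => continuous_const.mul (ψ i).continuous)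
    have hcv : Continuous (fun y => v y - ∑ i, v (x i) * ψ i y) :=
      v.continuous.sub (continuous_finsetSum _ fun i _ => continuous_const.mul (ψ i).continuous)
    refine (eLpNorm_add_le hcu.norm.aestronglyMeasurable hcv.norm.aestronglyMeasurable
      (by norm_num)).trans ?_
    rw [eLpNorm_norm, eLpNorm_norm]
    refine (add_le_add h3 h4).trans ?_
    rw [← ENNReal.ofReal_add (by positivity) (by positivity)]
    refine ENNReal.ofReal_le_ofReal ?_
    have h5 : 0 ≤ S * R := by positivity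
    rw [add_mul, hD]
    nlinarith

end

end Pool.Agent.MP_bc5265.S
end

section
/-!
# Region `R_2`, module APX: uniform approximation by cell averages
-/
set_option linter.unusedSectionVars false

open MeasureTheory Finset Matrix
open scoped ENNReal

namespace Pool.Agent.MP_bc5265.R2

open Pool.Agent.MP_bc5265.S

noncomputable section

namespace APXM

/-- the small representative of a step -/
theorem exists_rep (t : ℝ) : ∃ s : ℝ, (s : Circ) = (t : Circ) ∧ |s| ≤ Real.pi ∧ |s| ≤ |t| := by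
  have hpi := Real.two_pi_pos
  refine ⟨t - 2 * Real.pi * round (t / (2 * Real.pi)), ?_, ?_, ?_⟩
  · have h : 2 * Real.pi * (round (t / (2 * Real.pi)) : ℝ) =
        round (t / (2 * Real.pi)) • (2 * Real.pi) := by
      rw [zsmul_eq_mul, mul_comm]
    rw [h, AddCircle.coe_sub, AddCircle.coe_zsmul, AddCircle.coe_period, smul_zero, sub_zero]
  · have h := abs_sub_round (t / (2 * Real.pi))
    have e : t - 2 * Real.pi * round (t / (2 * Real.pi)) =
        2 * Real.pi * (t / (2 * Real.pi) - round (t / (2 * Real.pi))) := by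
      field_simp
    rw [e, abs_mul, abs_of_pos hpi]
    nlinarith
  · have h := round_le (t / (2 * Real.pi)) 0
    have e : t - 2 * Real.pi * round (t / (2 * Real.pi)) =
        2 * Real.pi * (t / (2 * Real.pi) - round (t / (2 * Real.pi))) := by
      field_simp
    have e2 : t = 2 * Real.pi * (t / (2 * Real.pi)) := by field_simp
    rw [e, abs_mul, abs_of_pos hpi]
    conv_rhs => rw [e2, abs_mul, abs_of_pos hpi]
    rw [Int.cast_zero, sub_zero] at h
    exact mul_le_mul_of_nonneg_left h hpi.le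

theorem mixedDiff_congr {d : ℕ} (l : ℕ) (e : Finset (Fin d)) (t s : Fin d → ℝ)
    (h : ∀ j, (t j : Circ) = (s j : Circ)) (f : Torus d → ℝ) :
    mixedDiff l e t f = mixedDiff l e s f := by
  unfold mixedDiff
  have e1 : (fun (j : Fin d) (g : Torus d → ℝ) => diff l j (t j) g) =
      fun j g => diff l j (s j) g := by
    funext j g
    unfold diff
    rw [h j]
  rw [e1]

theorem mixedDiff_smul {d : ℕ} (l : ℕ) (e : Finset (Fin d)) (t : Fin d → ℝ) (c : ℝ)
    (f : Torus d → ℝ) : mixedDiff l e t (c • f) = c • mixedDiff l e t f :=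
  ReImM.mixedDiff_comp (𝕜 := ℝ) (AddMonoidHom.mulLeft c) l e t f

/-- smaller smoothness -/
theorem mem_small {d l : ℕ} {p r r' : ℝ} (hr' : 0 < r') (hrr : r' < r) (g : C(Torus d, ℝ))
    (hg : g ∈ HClass ℝ d l r (ENNReal.ofReal p)) :
    (((Real.pi ^ (r - r')) ^ d)⁻¹ • g) ∈ HClass ℝ d l r' (ENNReal.ofReal p) := by
  have hpi1 : (1 : ℝ) ≤ Real.pi := by linarith [Real.pi_gt_three]
  have hb1 : 1 ≤ Real.pi ^ (r - r') := Real.one_le_rpow hpi1 (by linarith)
  set D : ℝ := (Real.pi ^ (r - r')) ^ d with hD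
  have hD1 : 1 ≤ D := one_le_pow₀ hb1
  have hDp : 0 < D := by linarith
  have hDi : D⁻¹ ≤ 1 := inv_le_one_of_one_le₀ hD1
  obtain ⟨g1, g2⟩ := hg
  refine ⟨?_, ?_⟩
  · show eLpNorm (D⁻¹ • (g : Torus d → ℝ)) _ _ ≤ 1
    rw [eLpNorm_const_smul, Real.enorm_of_nonneg (inv_nonneg.2 hDp.le)]
    calc ENNReal.ofReal D⁻¹ * eLpNorm (g : Torus d → ℝ) (ENNReal.ofReal p) (μT d)
        ≤ 1 * 1 := mul_le_mul' (ENNReal.ofReal_le_one.2 hDi) g1
      _ = 1 := one_mul 1
  · intro e he t
    choose s hs1 hs2 hs3 using fun j => exists_rep (t j)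
    show eLpNorm (mixedDiff l e t (D⁻¹ • (g : Torus d → ℝ))) _ _ ≤ _
    rw [mixedDiff_smul, mixedDiff_congr l e t s (fun j => (hs1 j).symm), eLpNorm_const_smul,
      Real.enorm_of_nonneg (inv_nonneg.2 hDp.le)]
    refine (mul_le_mul_right (g2 e he s) _).trans ?_
    rw [← ENNReal.ofReal_mul (inv_nonneg.2 hDp.le)]
    refine ENNReal.ofReal_le_ofReal ?_
    have h1 : ∏ j ∈ e, |s j| ^ r ≤ ∏ j ∈ e, (Real.pi ^ (r - r') * |t j| ^ r') := by
      refine Finset.prod_le_prod (fun j _ => by positivity) fun j _ => ?_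
      have e1 : |s j| ^ r = |s j| ^ (r - r') * |s j| ^ r' := by
        rw [← Real.rpow_add_of_nonneg (abs_nonneg _) (by linarith) hr'.le]
        congr 1
        ring
      rw [e1]
      exact mul_le_mul (Real.rpow_le_rpow (abs_nonneg _) (hs2 j) (by linarith))
        (Real.rpow_le_rpow (abs_nonneg _) (hs3 j) hr'.le) (by positivity) (by positivity)
    have h2 : ∏ j ∈ e, (Real.pi ^ (r - r') * |t j| ^ r') ≤ D * ∏ j ∈ e, |t j| ^ r' := by
      rw [Finset.prod_mul_distrib, Finset.prod_const]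
      refine mul_le_mul_of_nonneg_right ?_ (Finset.prod_nonneg fun j _ => by positivity)
      refine pow_le_pow_right₀ hb1 ?_
      simpa using Finset.card_le_univ e
    have h3 : D⁻¹ * ∏ j ∈ e, |s j| ^ r ≤ D⁻¹ * (D * ∏ j ∈ e, |t j| ^ r') :=
      mul_le_mul_of_nonneg_left (h1.trans h2) (inv_nonneg.2 hDp.le)
    rwa [← mul_assoc, inv_mul_cancel₀ hDp.ne', one_mul] at h3

end APXM

open APXM in
/-- **APX** -/
theorem specAPX : SpecAPX := by
  intro d l p r hp hpr hrl
  have hp0 : 0 < p := by linarith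
  have hp1 : 1 / p < 1 := by
    rw [div_lt_one hp0]
    exact hp
  have hr0 : 0 < r := lt_trans (by positivity) hpr
  have hl : 1 ≤ l := by
    have : (0 : ℝ) < l := hr0.trans hrl
    exact_mod_cast this
  set r' : ℝ := (1 / p + min r 1) / 2 with hr'
  have hm : 1 / p < min r 1 := lt_min hpr hp1
  have h1 : 1 / p < r' := by rw [hr']; linarith
  have h2 : r' < min r 1 := by rw [hr']; linarith
  have h3 : r' < r := h2.trans_le (min_le_left _ _)
  have h4 : r' < 1 := h2.trans_le (min_le_right _ _)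
  have h5 : 0 < r' := lt_trans (by positivity) h1
  obtain ⟨C', hC', hM⟩ := specMarch ℝ d l r' p hl h5 h4 hp.le
  obtain ⟨ε, hε, hA⟩ := specApp specHaar specBlk d p r' hp.le h1
  set D : ℝ := (Real.pi ^ (r - r')) ^ d with hD
  have hDp : 0 < D := by positivity
  refine ⟨fun L => (C' * D) * ε L, by simpa using hε.const_mul (C' * D), ?_⟩
  intro g hg L x
  have m1 := mem_small h5 h3 g hg
  rw [← hD] at m1
  have m2 : Good p r' C' (D⁻¹ • g) := fun e t => hM _ m1 e t
  have m3 : Good p r' 1 (C'⁻¹ • (D⁻¹ • g)) :=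
    UpM.good_scale p r' C' hC' (D⁻¹ • g) (C'⁻¹ • (D⁻¹ • g)) m2 fun x => rfl
  have m4 := hA _ m3 L x
  rw [AppM.fn_cf specHaar] at m4
  have e1 : ∀ y : Torus d, (C'⁻¹ • (D⁻¹ • g) : C(Torus d, ℝ)) y = C'⁻¹ * (D⁻¹ * g y) :=
    fun y => rfl
  have e2 : ∫ y, (C'⁻¹ • (D⁻¹ • g) : C(Torus d, ℝ)) y *
      (if gx L y = gx L x then (2 : ℝ) ^ (d * L) else 0) ∂(μT d) =
      C'⁻¹ * (D⁻¹ * avc (g : Torus d → ℝ) L (gx L x)) := by
    unfold avc
    rw [← integral_const_mul, ← integral_const_mul]
    refine integral_congr_ae (Filter.Eventually.of_forall fun y => ?_)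
    show (C'⁻¹ • (D⁻¹ • g) : C(Torus d, ℝ)) y * _ = _
    rw [e1]
    ring
  rw [e1, e2] at m4
  have e3 : C'⁻¹ * (D⁻¹ * g x) - C'⁻¹ * (D⁻¹ * avc (g : Torus d → ℝ) L (gx L x)) =
      (C' * D)⁻¹ * (g x - avc (g : Torus d → ℝ) L (gx L x)) := by
    rw [mul_inv]
    ring
  rw [e3, abs_mul, abs_of_pos (inv_pos.2 (mul_pos hC' hDp))] at m4
  show _ ≤ (C' * D) * ε L
  have hCD := mul_pos hC' hDp
  calc |g x - avc (g : Torus d → ℝ) L (gx L x)|
      = (C' * D) * ((C' * D)⁻¹ * |g x - avc (g : Torus d → ℝ) L (gx L x)|) := by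
        rw [← mul_assoc, mul_inv_cancel₀ hCD.ne', one_mul]
    _ ≤ (C' * D) * ε L := mul_le_mul_of_nonneg_left m4 hCD.le

end

end Pool.Agent.MP_bc5265.R2
end

section
/-!
CLA: the class after the Smolyak operator.
-/
set_option linter.unusedSectionVars false

open MeasureTheory Finset Matrix
open scoped ENNReal

namespace Pool.Agent.MP_bc5265.R2

open Pool.Agent.MP_bc5265.S

namespace CLAM

variable {d : ℕ}

/-- the tensor differences -/
noncomputable def TT (L b : ℕ) (s : Fin d → ℕ) : MG d L :=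
  tens fun j => JM L b (s j + 1) - JM L b (s j)

theorem sum_TT (hTEN : SpecTEN) (hJOP : SpecJOP) (L b m : ℕ) (hm : L + 1 ≤ m) :
    ∑ s ∈ box d m, TT L b s = (1 : MG d L) := by
  obtain ⟨-, h2, h3, -⟩ := hTEN d L
  have h := h3 (fun _ => range m) (fun _ k => JM L b (k + 1) - JM L b k)
  have h4 : (∑ k ∈ range m, (JM L b (k + 1) - JM L b k)) = (1 : M1 L) := by
    rw [Finset.sum_range_sub, (hJOP b).1 L m (by omega) (by omega)]
    show (1 : M1 L) - 0 = 1
    rw [sub_zero]
  rw [h4, h2] at h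
  exact h.symm

theorem SB_eq (L b n m : ℕ) (hm : n + 1 ≤ m) :
    (SB L b n : MG d L) = ∑ s ∈ (box d m).filter (fun s => ∑ j, s j ≤ n), TT L b s := by
  unfold SB
  apply Finset.sum_congr
  · ext s
    simp only [Finset.mem_filter, box, Fintype.mem_piFinset, Finset.mem_range]
    constructor
    · rintro ⟨h1, h2⟩
      exact ⟨fun j => lt_of_lt_of_le (h1 j) hm, h2⟩
    · rintro ⟨h1, h2⟩
      refine ⟨fun j => ?_, h2⟩
      have := Finset.single_le_sum (f := s) (fun _ _ => Nat.zero_le _) (Finset.mem_univ j)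
      omega
  · intro s _
    rfl

theorem sub_SB (hTEN : SpecTEN) (hJOP : SpecJOP) (L b n m : ℕ) (hm : n + 1 ≤ m) (hm' : L + 1 ≤ m)
    (F : Gr d L → ℝ) :
    F - SB L b n *ᵥ F = ∑ s ∈ (box d m).filter (fun s => ¬ ∑ j, s j ≤ n), TT L b s *ᵥ F := by
  have h1 := sum_TT (d := d) hTEN hJOP L b m hm'
  rw [← Finset.sum_filter_add_sum_filter_not (box d m) (fun s => ∑ j, s j ≤ n),
    ← SB_eq L b n m hm] at h1
  have h4 : F = SB L b n *ᵥ F +
      (∑ s ∈ (box d m).filter (fun s => ¬ ∑ j, s j ≤ n), TT L b s : MG d L) *ᵥ F := by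
    rw [← Matrix.add_mulVec, h1, Matrix.one_mulVec]
  rw [← Matrix.sum_mulVec]
  exact sub_eq_of_eq_add' h4

/-- the geometric sum -/
theorem geo (x : ℝ) (hx0 : 0 < x) (hx1 : x < 1) (v : Fin d → ℕ) :
    ∑ s ∈ Fintype.piFinset (fun j => range (v j + 1)), x ^ (∑ j, (v j - s j)) ≤
      (1 / (1 - x)) ^ d := by
  have h1 : ∀ s : Fin d → ℕ, x ^ (∑ j, (v j - s j)) = ∏ j, x ^ (v j - s j) := fun s =>
    (Finset.prod_pow_eq_pow_sum _ _ _).symm
  simp only [h1]
  rw [← Finset.prod_univ_sum (fun j => range (v j + 1)) (fun j k => x ^ (v j - k))]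
  have h2 : ∀ j : Fin d, ∑ k ∈ range (v j + 1), x ^ (v j - k) ≤ 1 / (1 - x) := by
    intro j
    have h3 : ∑ k ∈ range (v j + 1), x ^ (v j - k) = ∑ k ∈ range (v j + 1), x ^ k := by
      rw [← Finset.sum_range_reflect]
      apply Finset.sum_congr rfl
      intro k hk
      rw [Finset.mem_range] at hk
      congr 1
      omega
    rw [h3, geom_sum_eq hx1.ne, ← neg_div_neg_eq, neg_sub, neg_sub]
    apply div_le_div_of_nonneg_right _ (by linarith)
    have : 0 ≤ x ^ (v j + 1) := by positivity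
    linarith
  calc ∏ j, ∑ k ∈ range (v j + 1), x ^ (v j - k) ≤ ∏ _j : Fin d, (1 / (1 - x)) := by
        refine Finset.prod_le_prod (fun j _ => Finset.sum_nonneg fun k _ => by positivity)
          fun j _ => h2 j
    _ = (1 / (1 - x)) ^ d := by simp

end CLAM

open CLAM in
theorem specCLA (hTVS : SpecTVS) (hTEN : SpecTEN) (hJOP : SpecJOP) (hNRM : SpecNRM) : SpecCLA := by
  intro d l b p r ρ hp hρ hρ1 hρr hl
  obtain ⟨C, hC, hT⟩ := hTVS d l b p r hp (lt_of_lt_of_le hρ hρr) hl
  set x : ℝ := (2 : ℝ) ^ (-(1 - ρ)) with hx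
  have hx0 : 0 < x := by positivity
  have hx1 : x < 1 := Real.rpow_lt_one_of_one_lt_of_neg (by norm_num) (by linarith)
  have hx2 : 0 < 1 - x := by linarith
  refine ⟨C * (1 / (1 - x)) ^ d, by positivity, ?_⟩
  intro n L F hbL hF v
  set m := (L + 1) + (n + 1) + ∑ j, v j with hm
  have hmn : n + 1 ≤ m := by omega
  have hmL : L + 1 ≤ m := by omega
  have : Nonempty (Fin (2 ^ L)) := ⟨⟨0, by positivity⟩⟩
  obtain ⟨-, hn0, -, -, -, hns, -, -, -⟩ := hNRM (Gr d L) p hp
  have hE : Et L v *ᵥ (F - SB L b n *ᵥ F) =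
      ∑ s ∈ (box d m).filter (fun s => ¬ ∑ j, s j ≤ n), Et L v *ᵥ (TT L b s *ᵥ F) := by
    rw [sub_SB hTEN hJOP L b n m hmn hmL F, Matrix.mulVec_sum]
  have hz : ∀ s : Fin d → ℕ, (¬ ∀ j, s j ≤ v j) → Et L v *ᵥ (TT L b s *ᵥ F) = 0 := fun s hs =>
    (hT L F s v hbL hF).1 hs
  have hE2 : Et L v *ᵥ (F - SB L b n *ᵥ F) =
      ∑ s ∈ (Fintype.piFinset (fun j => range (v j + 1))).filter (fun s => ¬ ∑ j, s j ≤ n),
        Et L v *ᵥ (TT L b s *ᵥ F) := by
    rw [hE]
    symm
    apply Finset.sum_subset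
    · intro s hs
      rw [Finset.mem_filter, Fintype.mem_piFinset] at hs
      rw [Finset.mem_filter, box, Fintype.mem_piFinset]
      refine ⟨fun j => ?_, hs.2⟩
      have h1 := hs.1 j
      have h2 := Finset.single_le_sum (f := v) (fun _ _ => Nat.zero_le _) (Finset.mem_univ j)
      rw [Finset.mem_range] at h1 ⊢
      omega
    · intro s hs hs'
      apply hz
      intro hsv
      apply hs'
      rw [Finset.mem_filter] at hs ⊢
      refine ⟨Fintype.mem_piFinset.2 fun j => ?_, hs.2⟩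
      rw [Finset.mem_range]
      have := hsv j
      omega
  constructor
  · intro hv
    rw [hE2]
    apply Finset.sum_eq_zero
    intro s hs
    exfalso
    rw [Finset.mem_filter, Fintype.mem_piFinset] at hs
    apply hs.2
    refine le_trans (Finset.sum_le_sum fun j _ => ?_) hv
    have := hs.1 j
    rw [Finset.mem_range] at this
    omega
  · intro hv
    rw [hE2]
    refine (hns _ _ _).trans ?_
    have hterm : ∀ s ∈ (Fintype.piFinset (fun j => range (v j + 1))).filter
        (fun s => ¬ ∑ j, s j ≤ n), nrm p (Et L v *ᵥ (TT L b s *ᵥ F)) ≤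
        C * (2 : ℝ) ^ (-(r * n)) * (2 : ℝ) ^ (-(ρ * (((∑ j, v j : ℕ) : ℝ) - (n : ℝ)))) *
          x ^ (∑ j, (v j - s j)) := by
      intro s hs
      rw [Finset.mem_filter, Fintype.mem_piFinset] at hs
      have hsv : ∀ j, s j ≤ v j := by
        intro j
        have := hs.1 j
        rw [Finset.mem_range] at this
        omega
      have hsn : (n : ℝ) ≤ ((∑ j, s j : ℕ) : ℝ) := by
        have : n ≤ ∑ j, s j := by omega
        exact_mod_cast this
      refine ((hT L F s v hbL hF).2 hsv).trans ?_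
      have hsum : ((∑ j, (v j - s j) : ℕ) : ℝ) = ((∑ j, v j : ℕ) : ℝ) - ((∑ j, s j : ℕ) : ℝ) := by
        rw [← Nat.cast_sub (Finset.sum_le_sum fun j _ => hsv j)]
        congr 1
        exact (Finset.sum_tsub_distrib _ fun j _ => hsv j)
      have hxp : x ^ (∑ j, (v j - s j)) =
          (2 : ℝ) ^ (-(1 - ρ) * (((∑ j, v j : ℕ) : ℝ) - ((∑ j, s j : ℕ) : ℝ))) := by
        rw [← Real.rpow_natCast, hsum, hx, ← Real.rpow_mul (by norm_num)]
      rw [hxp, mul_assoc, mul_assoc, ← Real.rpow_add (by norm_num), ← Real.rpow_add (by norm_num),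
        ← Real.rpow_add (by norm_num)]
      apply mul_le_mul_of_nonneg_left _ hC.le
      apply Real.rpow_le_rpow_of_exponent_le (by norm_num)
      set A : ℝ := ((∑ j, v j : ℕ) : ℝ)
      set B : ℝ := ((∑ j, s j : ℕ) : ℝ)
      nlinarith
    refine (Finset.sum_le_sum hterm).trans ?_
    rw [← Finset.mul_sum]
    have hg := geo x hx0 hx1 v
    have hsub : ∑ s ∈ (Fintype.piFinset (fun j => range (v j + 1))).filter
        (fun s => ¬ ∑ j, s j ≤ n), x ^ (∑ j, (v j - s j)) ≤ (1 / (1 - x)) ^ d :=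
      (Finset.sum_le_sum_of_subset_of_nonneg (Finset.filter_subset _ _)
        fun s _ _ => by positivity).trans hg
    calc _ ≤ C * (2 : ℝ) ^ (-(r * n)) * (2 : ℝ) ^ (-(ρ * (((∑ j, v j : ℕ) : ℝ) - (n : ℝ)))) *
          (1 / (1 - x)) ^ d := mul_le_mul_of_nonneg_left hsub (by positivity)
      _ = _ := by ring

end Pool.Agent.MP_bc5265.R2
end

section
/-!
# JOP: the interpolation operators
-/
set_option linter.unusedSectionVars false

open MeasureTheory Finset Matrix
open scoped ENNReal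

namespace Pool.Agent.MP_bc5265.R2

open Pool.Agent.MP_bc5265.S

noncomputable section

namespace JOPM

/-- offset in the cell, in units of the node distance -/
def off (L b k x : ℕ) : ℝ :=
  ((x : ℝ) - ((x / 2 ^ (L - k) * 2 ^ (L - k) : ℕ) : ℝ)) / 2 ^ (L - k - b)

/-- point of the axis -/
def pt (L n : ℕ) : Fin (2 ^ L) := ⟨n % 2 ^ L, Nat.mod_lt _ (by positivity)⟩

theorem pt_val {L n : ℕ} (h : n < 2 ^ L) : ((pt L n : Fin (2 ^ L)) : ℕ) = n := Nat.mod_eq_of_lt h

theorem JM_succ (L b k : ℕ) (h : k + b ≤ L) (x y : Fin (2 ^ L)) :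
    JM L b (k + 1) x y = ∑ i ∈ range (2 ^ b),
      if (y : ℕ) = (x : ℕ) / 2 ^ (L - k) * 2 ^ (L - k) + i * 2 ^ (L - k - b) then
        lg b i (off L b k x) else 0 := by
  have e : JM L b (k + 1) = fun (x y : Fin (2 ^ L)) => ∑ i ∈ range (2 ^ b),
        if (y : ℕ) = (x : ℕ) / 2 ^ (L - k) * 2 ^ (L - k) + i * 2 ^ (L - k - b) then
          lg b i ((((x : ℕ) : ℝ) - (((x : ℕ) / 2 ^ (L - k) * 2 ^ (L - k) : ℕ) : ℝ)) /
            2 ^ (L - k - b)) else 0 := if_pos h
  exact congrFun (congrFun e x) y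

theorem JM_big (L b k : ℕ) (h : ¬ k + b ≤ L) : JM L b (k + 1) = 1 := by
  exact if_neg h

theorem cell_pow (L b k : ℕ) (h : k + b ≤ L) : 2 ^ (L - k) = 2 ^ b * 2 ^ (L - k - b) := by
  rw [← pow_add]
  congr 1
  omega

theorem base_lt (L b k : ℕ) (h : k + b ≤ L) (x : Fin (2 ^ L)) (i : ℕ) (hi : i < 2 ^ b) :
    (x : ℕ) / 2 ^ (L - k) * 2 ^ (L - k) + i * 2 ^ (L - k - b) < 2 ^ L := by
  have h1 : i * 2 ^ (L - k - b) < 2 ^ (L - k) := by
    rw [cell_pow L b k h]
    exact Nat.mul_lt_mul_of_pos_right hi (by positivity)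
  have h2 : (2 : ℕ) ^ L = 2 ^ k * 2 ^ (L - k) := by
    rw [← pow_add]
    congr 1
    omega
  have h3 : (x : ℕ) / 2 ^ (L - k) < 2 ^ k := by
    rw [Nat.div_lt_iff_lt_mul (by positivity), ← h2]
    exact x.2
  have h4 : (x : ℕ) / 2 ^ (L - k) * 2 ^ (L - k) + 2 ^ (L - k) ≤ 2 ^ L := by
    have : ((x : ℕ) / 2 ^ (L - k) + 1) * 2 ^ (L - k) ≤ 2 ^ k * 2 ^ (L - k) :=
      Nat.mul_le_mul_right _ h3
    rw [← h2, add_mul, one_mul] at this
    exact this
  omega

theorem off_eq (L b k x : ℕ) : off L b k x = ((x % 2 ^ (L - k) : ℕ) : ℝ) / 2 ^ (L - k - b) := by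
  unfold off
  congr 1
  have h : (x : ℝ) = ((x / 2 ^ (L - k) * 2 ^ (L - k) : ℕ) : ℝ) + ((x % 2 ^ (L - k) : ℕ) : ℝ) := by
    rw [← Nat.cast_add]
    congr 1
    rw [mul_comm]
    exact (Nat.div_add_mod x (2 ^ (L - k))).symm
  linarith

theorem off_bounds (L b k x : ℕ) (h : k + b ≤ L) : 0 ≤ off L b k x ∧ off L b k x ≤ 2 ^ b := by
  rw [off_eq]
  refine ⟨by positivity, ?_⟩
  rw [div_le_iff₀ (by positivity)]
  have h1 : x % 2 ^ (L - k) < 2 ^ (L - k) := Nat.mod_lt _ (by positivity)
  rw [cell_pow L b k h] at h1 ⊢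
  have h2 : ((x % (2 ^ b * 2 ^ (L - k - b)) : ℕ) : ℝ) < ((2 ^ b * 2 ^ (L - k - b) : ℕ) : ℝ) :=
    Nat.cast_lt.2 h1
  push_cast at h2 ⊢
  exact h2.le

/-- `JM` does nothing in the nodes -/
theorem node (hLAG : SpecLAG) (L b k : ℕ) (h : k + b ≤ L) (x y : Fin (2 ^ L))
    (hx : 2 ^ (L - k - b) ∣ (x : ℕ)) : JM L b (k + 1) x y = (1 : M1 L) x y := by
  rw [JM_succ L b k h, Matrix.one_apply]
  have hdm : 2 ^ (L - k - b) ∣ (x : ℕ) % 2 ^ (L - k) := by
    rw [Nat.dvd_mod_iff]
    · exact hx
    · rw [cell_pow L b k h]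
      exact dvd_mul_left _ _
  obtain ⟨i0, hi0⟩ := hdm
  have hpos : 0 < 2 ^ (L - k - b) := by positivity
  have hlt : i0 < 2 ^ b := by
    have h1 : (x : ℕ) % 2 ^ (L - k) < 2 ^ (L - k) := Nat.mod_lt _ (by positivity)
    rw [hi0, cell_pow L b k h, mul_comm (2 ^ b)] at h1
    exact lt_of_mul_lt_mul_left h1 (Nat.zero_le _)
  have hoff : off L b k x = (i0 : ℝ) := by
    rw [off_eq, hi0]
    push_cast
    field_simp
  have hxe : (x : ℕ) = (x : ℕ) / 2 ^ (L - k) * 2 ^ (L - k) + i0 * 2 ^ (L - k - b) := by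
    have h1 := Nat.div_add_mod (x : ℕ) (2 ^ (L - k))
    rw [hi0] at h1
    rw [mul_comm i0, mul_comm ((x : ℕ) / 2 ^ (L - k))]
    exact h1.symm
  have hterm : ∀ i ∈ range (2 ^ b), (if (y : ℕ) = (x : ℕ) / 2 ^ (L - k) * 2 ^ (L - k) +
      i * 2 ^ (L - k - b) then lg b i (off L b k x) else 0) =
      if i = i0 then (if x = y then (1 : ℝ) else 0) else 0 := by
    intro i hi
    rw [hoff, (hLAG b).1 i i0 (Finset.mem_range.1 hi) hlt]
    by_cases hii : i = i0
    · subst hii
      rw [if_pos rfl, if_pos rfl, ← hxe]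
      by_cases hxy : x = y
      · rw [if_pos hxy, if_pos (by rw [hxy])]
      · rw [if_neg hxy, if_neg (fun e => hxy (Fin.ext e.symm))]
    · rw [if_neg hii, if_neg hii]
      split_ifs <;> rfl
  rw [Finset.sum_congr rfl hterm, Finset.sum_ite_eq' , if_pos (Finset.mem_range.2 hlt)]

/-- support of the rows -/
theorem supp (L b k : ℕ) (h : k + b ≤ L) (x y : Fin (2 ^ L)) (hne : JM L b (k + 1) x y ≠ 0) :
    2 ^ (L - k - b) ∣ (y : ℕ) := by
  rw [JM_succ L b k h] at hne
  obtain ⟨i, -, hi⟩ := Finset.exists_ne_zero_of_sum_ne_zero hne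
  have h1 : (y : ℕ) = (x : ℕ) / 2 ^ (L - k) * 2 ^ (L - k) + i * 2 ^ (L - k - b) := by
    by_contra hc
    exact hi (if_neg hc)
  rw [h1, cell_pow L b k h]
  exact dvd_add (dvd_mul_of_dvd_right (dvd_mul_left _ _) _) (dvd_mul_left _ _)

theorem JM_sum (L b k : ℕ) (h : k + b ≤ L) (x : Fin (2 ^ L)) (f : Fin (2 ^ L) → ℝ) :
    ∑ y, JM L b (k + 1) x y * f y = ∑ i ∈ range (2 ^ b), lg b i (off L b k x) *
      f (pt L ((x : ℕ) / 2 ^ (L - k) * 2 ^ (L - k) + i * 2 ^ (L - k - b))) := by
  simp_rw [JM_succ L b k h, Finset.sum_mul]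
  rw [Finset.sum_comm]
  refine Finset.sum_congr rfl fun i hi => ?_
  have hlt := base_lt L b k h x i (Finset.mem_range.1 hi)
  have h1 : ∀ y : Fin (2 ^ L), ((if (y : ℕ) = (x : ℕ) / 2 ^ (L - k) * 2 ^ (L - k) +
      i * 2 ^ (L - k - b) then lg b i (off L b k x) else 0) * f y) =
      if y = pt L ((x : ℕ) / 2 ^ (L - k) * 2 ^ (L - k) + i * 2 ^ (L - k - b)) then
        lg b i (off L b k x) *
          f (pt L ((x : ℕ) / 2 ^ (L - k) * 2 ^ (L - k) + i * 2 ^ (L - k - b))) else 0 := by
    intro y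
    by_cases hy : (y : ℕ) = (x : ℕ) / 2 ^ (L - k) * 2 ^ (L - k) + i * 2 ^ (L - k - b)
    · have hy' : y = pt L ((x : ℕ) / 2 ^ (L - k) * 2 ^ (L - k) + i * 2 ^ (L - k - b)) :=
        Fin.ext (by rw [pt_val hlt]; exact hy)
      rw [if_pos hy, if_pos hy', ← hy']
    · have hy' : ¬ y = pt L ((x : ℕ) / 2 ^ (L - k) * 2 ^ (L - k) + i * 2 ^ (L - k - b)) :=
        fun e => hy (by rw [e, pt_val hlt])
      rw [if_neg hy, if_neg hy', zero_mul]
  rw [Finset.sum_congr rfl fun y _ => h1 y, Finset.sum_ite_eq', if_pos (Finset.mem_univ _)]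

/-- `lg b i` composed with an affine map is reproduced -/
theorem repro_aff (hLAG : SpecLAG) (b i : ℕ) (hi : i < 2 ^ b) (s t y : ℝ) :
    ∑ j ∈ range (2 ^ b), lg b j y * lg b i (s * (j : ℝ) + t) = lg b i (s * y + t) := by
  obtain ⟨P, hP, hPe⟩ := (hLAG b).2.1 i hi
  have hQ : (P.comp (Polynomial.C s * Polynomial.X + Polynomial.C t)).natDegree < 2 ^ b := by
    refine lt_of_le_of_lt (Polynomial.natDegree_comp_le) ?_
    refine lt_of_le_of_lt (Nat.mul_le_mul_left _ Polynomial.natDegree_linear_le) ?_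
    rw [mul_one]
    exact hP
  have h := (hLAG b).2.2.1 _ hQ y
  have he : ∀ z : ℝ, (P.comp (Polynomial.C s * Polynomial.X + Polynomial.C t)).eval z =
      lg b i (s * z + t) := by
    intro z
    rw [Polynomial.eval_comp]
    simp only [Polynomial.eval_add, Polynomial.eval_mul, Polynomial.eval_C, Polynomial.eval_X]
    exact hPe _
  simp only [he] at h
  exact h

/-- a lower level node point has the same cell of the higher level -/
theorem same_cell (L b a c : ℕ) (hac : c ≤ a) (ha : a + b ≤ L) (x i : ℕ) (hi : i < 2 ^ b) :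
    (x / 2 ^ (L - a) * 2 ^ (L - a) + i * 2 ^ (L - a - b)) / 2 ^ (L - c) = x / 2 ^ (L - c) := by
  have h1 : i * 2 ^ (L - a - b) < 2 ^ (L - a) := by
    rw [cell_pow L b a ha]
    exact Nat.mul_lt_mul_of_pos_right hi (by positivity)
  have h2 : (2 : ℕ) ^ (L - c) = 2 ^ (L - a) * 2 ^ (a - c) := by
    rw [← pow_add]
    congr 1
    omega
  rw [h2, ← Nat.div_div_eq_div_mul, ← Nat.div_div_eq_div_mul]
  congr 1
  rw [add_comm, Nat.add_mul_div_right _ _ (by positivity), Nat.div_eq_of_lt h1, zero_add]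

/-- the product for `a > c` -/
theorem prod_gt (hLAG : SpecLAG) (L b a c : ℕ) (hac : c ≤ a) (ha : a + b ≤ L)
    (x z : Fin (2 ^ L)) :
    ∑ y, JM L b (a + 1) x y * JM L b (c + 1) y z = JM L b (c + 1) x z := by
  have hc : c + b ≤ L := by omega
  rw [JM_sum L b a ha x (fun y => JM L b (c + 1) y z), JM_succ L b c hc x z]
  have hτa : (0 : ℝ) < 2 ^ (L - a - b) := by positivity
  have hτc : (0 : ℝ) < 2 ^ (L - c - b) := by positivity
  -- the offset of the level `c` is an affine function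
  have hoff : ∀ n : ℕ, n / 2 ^ (L - c) = (x : ℕ) / 2 ^ (L - c) →
      off L b c n = ((n : ℝ) - (((x : ℕ) / 2 ^ (L - c) * 2 ^ (L - c) : ℕ) : ℝ)) /
        2 ^ (L - c - b) := by
    intro n hn
    unfold off
    rw [hn]
  have hval : ∀ i ∈ range (2 ^ b), JM L b (c + 1) (pt L ((x : ℕ) / 2 ^ (L - a) * 2 ^ (L - a) +
      i * 2 ^ (L - a - b))) z = ∑ k ∈ range (2 ^ b),
      if (z : ℕ) = (x : ℕ) / 2 ^ (L - c) * 2 ^ (L - c) + k * 2 ^ (L - c - b) then
        lg b k ((2 ^ (L - a - b) / 2 ^ (L - c - b)) * (i : ℝ) +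
          ((((x : ℕ) / 2 ^ (L - a) * 2 ^ (L - a) : ℕ) : ℝ) -
            (((x : ℕ) / 2 ^ (L - c) * 2 ^ (L - c) : ℕ) : ℝ)) / 2 ^ (L - c - b)) else 0 := by
    intro i hi
    have hi' := Finset.mem_range.1 hi
    have hlt := base_lt L b a ha x i hi'
    have hcell := same_cell L b a c hac ha x i hi'
    rw [JM_succ L b c hc, pt_val hlt, hcell, hoff _ hcell]
    refine Finset.sum_congr rfl fun k _ => ?_
    congr 2
    push_cast
    field_simp
    ring
  rw [Finset.sum_congr rfl fun i hi => by rw [hval i hi]]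
  simp_rw [Finset.mul_sum]
  rw [Finset.sum_comm]
  refine Finset.sum_congr rfl fun k hk => ?_
  by_cases hz : (z : ℕ) = (x : ℕ) / 2 ^ (L - c) * 2 ^ (L - c) + k * 2 ^ (L - c - b)
  · simp only [if_pos hz]
    rw [repro_aff hLAG b k (Finset.mem_range.1 hk)]
    congr 1
    unfold off
    field_simp
    ring
  · simp only [if_neg hz, mul_zero, Finset.sum_const_zero]

theorem row_sum (hLAG : SpecLAG) (b : ℕ) : ∃ C : ℝ, 0 < C ∧
    ∀ (L k : ℕ) (x : Fin (2 ^ L)), ∑ y, |JM L b k x y| ≤ C := by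
  obtain ⟨C, hC, hb⟩ := (hLAG b).2.2.2
  refine ⟨2 ^ b * C + 1, by positivity, fun L k x => ?_⟩
  have hone : ∑ y, |(1 : M1 L) x y| = 1 := by
    have : ∀ y, |(1 : M1 L) x y| = if x = y then 1 else 0 := by
      intro y
      rw [Matrix.one_apply]
      split_ifs <;> simp
    rw [Finset.sum_congr rfl fun y _ => this y, Finset.sum_ite_eq, if_pos (Finset.mem_univ _)]
  rcases k with _ | k
  · have : ∀ y, |JM L b 0 x y| = 0 := fun y => by
      show |(0 : M1 L) x y| = 0
      simp
    rw [Finset.sum_congr rfl fun y _ => this y]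
    simp
    positivity
  · by_cases h : k + b ≤ L
    · have h1 : ∀ y, |JM L b (k + 1) x y| ≤ ∑ i ∈ range (2 ^ b),
          if (y : ℕ) = (x : ℕ) / 2 ^ (L - k) * 2 ^ (L - k) + i * 2 ^ (L - k - b) then C else 0 := by
        intro y
        rw [JM_succ L b k h]
        refine (Finset.abs_sum_le_sum_abs _ _).trans (Finset.sum_le_sum fun i hi => ?_)
        obtain ⟨o1, o2⟩ := off_bounds L b k x h
        split_ifs
        · exact (hb i (Finset.mem_range.1 hi) _ _ o1 o2 o1 o2).1
        · rw [abs_zero]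
      have h2 : ∑ y : Fin (2 ^ L), ∑ i ∈ range (2 ^ b),
          (if (y : ℕ) = (x : ℕ) / 2 ^ (L - k) * 2 ^ (L - k) + i * 2 ^ (L - k - b) then C else 0) ≤
          2 ^ b * C := by
        rw [Finset.sum_comm]
        have h3 : ∀ i ∈ range (2 ^ b), ∑ y : Fin (2 ^ L),
          (if (y : ℕ) = (x : ℕ) / 2 ^ (L - k) * 2 ^ (L - k) + i * 2 ^ (L - k - b) then C else 0) ≤
          C := by
          intro i hi
          have hlt := base_lt L b k h x i (Finset.mem_range.1 hi)
          have h4 : ∀ y : Fin (2 ^ L), (if (y : ℕ) = (x : ℕ) / 2 ^ (L - k) * 2 ^ (L - k) +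
              i * 2 ^ (L - k - b) then C else 0) =
              if y = pt L ((x : ℕ) / 2 ^ (L - k) * 2 ^ (L - k) + i * 2 ^ (L - k - b)) then
                C else 0 := by
            intro y
            by_cases hy : (y : ℕ) = (x : ℕ) / 2 ^ (L - k) * 2 ^ (L - k) + i * 2 ^ (L - k - b)
            · rw [if_pos hy, if_pos (Fin.ext (by rw [pt_val hlt]; exact hy))]
            · rw [if_neg hy, if_neg fun e => hy (by rw [e, pt_val hlt])]
          rw [Finset.sum_congr rfl fun y _ => h4 y, Finset.sum_ite_eq',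
            if_pos (Finset.mem_univ _)]
        refine (Finset.sum_le_sum h3).trans (le_of_eq ?_)
        rw [Finset.sum_const, Finset.card_range, nsmul_eq_mul]
        push_cast
        ring
      exact ((Finset.sum_le_sum fun y _ => h1 y).trans h2).trans (by linarith)
    · rw [JM_big L b k h, hone]
      have : 0 ≤ 2 ^ b * C := by positivity
      linarith

end JOPM

open JOPM in
theorem specJOP (hLAG : SpecLAG) : SpecJOP := by
  intro b
  refine ⟨fun L k hk h => ?_, fun L a c => ?_, fun L j k h => ?_, row_sum hLAG b⟩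
  · obtain ⟨k, rfl⟩ : ∃ m, k = m + 1 := ⟨k - 1, by omega⟩
    by_cases hb : k + b ≤ L
    · ext x y
      refine node hLAG L b k hb x y ?_
      have : L - k - b = 0 := by omega
      rw [this, pow_zero]
      exact one_dvd _
    · exact JM_big L b k hb
  · rcases a with _ | a
    · rw [Nat.zero_min]
      show (0 : M1 L) * _ = (0 : M1 L)
      exact zero_mul _
    rcases c with _ | c
    · rw [Nat.min_zero]
      show _ * (0 : M1 L) = (0 : M1 L)
      exact mul_zero _
    by_cases ha : a + b ≤ L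
    · by_cases hc : c + b ≤ L
      · ext x z
        rw [Matrix.mul_apply]
        rcases Nat.lt_or_ge c a with hlt | hge
        · rw [Nat.min_eq_right (by omega)]
          exact prod_gt hLAG L b a c hlt.le ha x z
        · rw [Nat.min_eq_left (by omega)]
          have h1 : ∀ y, JM L b (a + 1) x y * JM L b (c + 1) y z =
              JM L b (a + 1) x y * (1 : M1 L) y z := by
            intro y
            by_cases h0 : JM L b (a + 1) x y = 0
            · rw [h0, zero_mul, zero_mul]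
            · rw [node hLAG L b c hc y z]
              refine dvd_trans (pow_dvd_pow 2 ?_) (supp L b a ha x y h0)
              omega
          rw [Finset.sum_congr rfl fun y _ => h1 y, ← Matrix.mul_apply, mul_one]
      · rw [JM_big L b c hc, mul_one]
        congr 1
        omega
    · rw [JM_big L b a ha, one_mul]
      rcases Nat.lt_or_ge (a + 1) (c + 1) with hlt | hge
      · have hc : ¬ c + b ≤ L := by omega
        rw [Nat.min_eq_left hlt.le, JM_big L b c hc, JM_big L b a ha]
      · rw [Nat.min_eq_right hge]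
  · rcases j with _ | j
    · show (0 : M1 L) * _ = (0 : M1 L)
      exact zero_mul _
    by_cases hb : k + b ≤ L
    · ext x z
      rw [Matrix.mul_apply]
      have h1 : ∀ y, IM L (j + 1) x y * JM L b (k + 1) y z =
          IM L (j + 1) x y * (1 : M1 L) y z := by
        intro y
        by_cases h0 : IM L (j + 1) x y = 0
        · rw [h0, zero_mul, zero_mul]
        · rw [node hLAG L b k hb y z]
          have hy : (y : ℕ) = (x : ℕ) / 2 ^ (L - j) * 2 ^ (L - j) := by
            by_contra hne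
            exact h0 (if_neg hne)
          rw [hy]
          exact dvd_mul_of_dvd_right (pow_dvd_pow 2 (by omega)) _
      rw [Finset.sum_congr rfl fun y _ => h1 y, ← Matrix.mul_apply, mul_one]
    · rw [JM_big L b k hb, mul_one]

end

end Pool.Agent.MP_bc5265.R2
end

section
/-!
# Module LPT: the Littlewood-Paley inequality on the torus
-/
set_option autoImplicit false
set_option linter.unusedSectionVars false

open MeasureTheory Finset Matrix
open scoped ENNReal

namespace Pool.Agent.MP_bc5265.R2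

open Pool.Agent.MP_bc5265.S Pool.Agent.MP_bc5265

namespace LPTM

noncomputable section

/-- The sign of the half of the cell of level `s` which contains `x`. -/
def sgm (L s x : ℕ) : ℝ := if x / 2 ^ (L - (s + 1)) % 2 = 0 then 1 else -1

lemma sgm_sq (L s x : ℕ) : sgm L s x ^ 2 = 1 := by
  unfold sgm
  split_ifs <;> norm_num

lemma axis (L s : ℕ) (hs : s + 1 ≤ L) (x : Fin (2 ^ L)) (z : Circ) :
    (EM L (s + 1 + 1) - EM L (s + 1)) x ⟨E L z, E_lt _ _⟩ =
      sgm L s x / 2 ^ (L - s) * Ha s ((x : ℕ) / 2 ^ (L - s)) z := by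
  obtain ⟨m, hm⟩ : ∃ m, L = s + 1 + m := ⟨L - (s + 1), by omega⟩
  have e1 : L - (s + 1) = m := by omega
  have e2 : L - s = m + 1 := by omega
  have e3 : E L z / 2 ^ m = E (s + 1) z := by
    rw [hm]
    exact E_div (s + 1) m z
  have e4 : ∀ a : ℕ, a / 2 ^ (m + 1) = a / 2 ^ m / 2 := by
    intro a
    rw [pow_succ, Nat.div_div_eq_div_mul]
  rw [Matrix.sub_apply]
  simp only [EM, sgm, Ha, e1, e2, e4, e3]
  generalize (x : ℕ) / 2 ^ m = A
  generalize E (s + 1) z = B
  have hp : (0 : ℝ) < 2 ^ m := by positivity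
  by_cases h1 : A = B
  · subst h1
    simp only [if_true]
    by_cases h2 : A % 2 = 0
    · have h3 : A = 2 * (A / 2) := by omega
      rw [if_pos h2, if_pos h3, pow_succ]
      field_simp
      norm_num
    · have h3 : ¬ A = 2 * (A / 2) := by omega
      have h4 : A = 2 * (A / 2) + 1 := by omega
      rw [if_neg h2, if_neg h3, if_pos h4, pow_succ]
      field_simp
      norm_num
  · rw [if_neg h1]
    by_cases h0 : A / 2 = B / 2
    · rw [if_pos h0]
      by_cases h2 : A % 2 = 0
      · have h3 : ¬ B = 2 * (A / 2) := by omega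
        have h4 : B = 2 * (A / 2) + 1 := by omega
        rw [if_pos h2, if_neg h3, if_pos h4]
        ring
      · have h3 : B = 2 * (A / 2) := by omega
        rw [if_neg h2, if_pos h3]
        ring
    · have h3 : ¬ B = 2 * (A / 2) := by omega
      have h4 : ¬ B = 2 * (A / 2) + 1 := by omega
      rw [if_neg h0, if_neg h3, if_neg h4]
      ring

variable {d : ℕ}

/-- The Haar differences of the cell averages. -/
lemma coeff (n L : ℕ) (hL : L = n + 1) (s : Fin d → ℕ) (hs : ∑ j, s j = n) (F : Torus d → ℝ)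
    (hF : Integrable F (μT d)) (X : Gr d L) :
    (Dt L (fun j => s j + 1) *ᵥ avc F L) X =
      (∏ j, sgm L (s j) (X j)) * (2 ^ n * ∫ x, F x * Haf s
          (fun j => (X j : ℕ) / 2 ^ (L - s j)) x ∂(μT d)) := by
  have hsn : ∀ j, s j ≤ n := fun j => by
    rw [← hs]
    exact Finset.single_le_sum (fun _ _ => Nat.zero_le _) (Finset.mem_univ j)
  have hint : ∀ w : Gr d L → ℝ, Integrable (fun z : Torus d => F z * w (gx L z)) (μT d) := by
    intro w
    obtain ⟨M, hM⟩ : ∃ M, ∀ k, |w k| ≤ M :=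
      ⟨∑ k, |w k|, fun k => Finset.single_le_sum (f := fun k => |w k|)
        (fun _ _ => abs_nonneg _) (Finset.mem_univ k)⟩
    have h := hF.bdd_mul (c := M) (ParsM.measurable_comp_gx w).aestronglyMeasurable
      (Filter.Eventually.of_forall fun x => hM _)
    refine h.congr (Filter.Eventually.of_forall fun x => ?_)
    exact mul_comm _ _
  have h1 : (Dt L (fun j => s j + 1) *ᵥ avc F L) X =
      ∫ z, F z * (2 ^ (d * L) * Dt L (fun j => s j + 1) X (gx L z)) ∂(μT d) := by
    unfold avc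
    simp only [Matrix.mulVec, dotProduct]
    have h2 : ∀ Y : Gr d L, Dt L (fun j => s j + 1) X Y *
        ∫ y, F y * (if gx L y = Y then (2 : ℝ) ^ (d * L) else 0) ∂(μT d) =
        ∫ y, F y * (Dt L (fun j => s j + 1) X Y * (if gx L y = Y then (2 : ℝ) ^ (d * L)
          else 0)) ∂(μT d) := by
      intro Y
      rw [← integral_const_mul]
      refine integral_congr_ae (Filter.Eventually.of_forall fun y => ?_)
      show _ = _
      ring
    simp only [h2]
    rw [← integral_finsetSum]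
    · refine integral_congr_ae (Filter.Eventually.of_forall fun y => ?_)
      show ∑ Y : Gr d L, F y * (Dt L (fun j => s j + 1) X Y * (if gx L y = Y then
        (2 : ℝ) ^ (d * L) else 0)) = _
      rw [← Finset.mul_sum]
      congr 1
      rw [Finset.sum_eq_single (gx L y)]
      · rw [if_pos rfl]
        ring
      · intro Y _ hY
        rw [if_neg (Ne.symm hY), mul_zero]
      · intro h
        exact absurd (Finset.mem_univ _) h
    · intro Y _
      exact hint (fun k => Dt L (fun j => s j + 1) X Y * (if k = Y then (2 : ℝ) ^ (d * L)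
        else 0))
  have h3 : ∀ z : Torus d, 2 ^ (d * L) * Dt L (fun j => s j + 1) X (gx L z) =
      (∏ j, sgm L (s j) (X j)) * 2 ^ n * Haf s (fun j => (X j : ℕ) / 2 ^ (L - s j)) z := by
    intro z
    have h4 : Dt L (fun j => s j + 1) X (gx L z) =
        ∏ j, (sgm L (s j) (X j) / 2 ^ (L - s j) * Ha (s j) ((X j : ℕ) / 2 ^ (L - s j)) (z j)) := by
      unfold Dt tens
      refine Finset.prod_congr rfl fun j _ => ?_
      have := hsn j
      exact axis L (s j) (by omega) (X j) (z j)
    rw [h4, Finset.prod_mul_distrib, Finset.prod_div_distrib]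
    have h5 : (∏ j, (2 : ℝ) ^ (L - s j)) * 2 ^ n = 2 ^ (d * L) := by
      rw [← hs, ← Finset.prod_pow_eq_pow_sum, ← Finset.prod_mul_distrib]
      have h6 : ∀ j : Fin d, (2 : ℝ) ^ (L - s j) * 2 ^ (s j) = 2 ^ L := by
        intro j
        rw [← pow_add]
        congr 1
        have := hsn j
        omega
      simp only [h6, Finset.prod_const, Finset.card_univ, Fintype.card_fin]
      rw [← pow_mul, mul_comm]
    have h7 : (0 : ℝ) < ∏ j, (2 : ℝ) ^ (L - s j) :=
      Finset.prod_pos fun j _ => by positivity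
    unfold Haf
    rw [← h5]
    field_simp
  rw [h1]
  simp only [h3]
  rw [← mul_assoc, ← integral_const_mul]
  refine integral_congr_ae (Filter.Eventually.of_forall fun y => ?_)
  show _ = _
  ring

/-- Jensen's inequality for the cell averages. -/
lemma jensen (L : ℕ) (q : ℝ) (hq : 1 < q) (F : Torus d → ℝ)
    (hF : MemLp F (ENNReal.ofReal q) (μT d)) (X : Gr d L) :
    |avc F L X| ^ q ≤ 2 ^ (d * L) *
      ∫ y, |F y| ^ q * (if gx L y = X then (1 : ℝ) else 0) ∂(μT d) := by
  have hq0 : 0 < q := by linarith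
  have hFi : Integrable F (μT d) := hF.integrable (by
    rw [← ENNReal.ofReal_one]
    exact ENNReal.ofReal_le_ofReal hq.le)
  have hFq : Integrable (fun y => |F y| ^ q) (μT d) := by
    have h := hF.integrable_norm_rpow (by simpa using hq0) ENNReal.ofReal_ne_top
    rw [ENNReal.toReal_ofReal hq0.le] at h
    exact h
  set t : Set (Torus d) := {y | gx L y = X} with ht
  have hmt : MeasurableSet t := by
    have h := ParsM.measurable_comp_gx (fun k : Gr d L => if k = X then (1 : ℝ) else 0)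
    have h2 : t = (fun y : Torus d => (if gx L y = X then (1 : ℝ) else 0)) ⁻¹' {1} := by
      ext y
      simp [ht]
    rw [h2]
    exact h (measurableSet_singleton 1)
  have hind : ∀ (f : Torus d → ℝ) (c : ℝ), ∫ y, f y * (if gx L y = X then c else 0) ∂(μT d) =
      c * ∫ y in t, f y ∂(μT d) := by
    intro f c
    rw [← integral_indicator hmt, ← integral_const_mul]
    refine integral_congr_ae (Filter.Eventually.of_forall fun y => ?_)
    show f y * (if gx L y = X then c else 0) = c * t.indicator f y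
    by_cases hy : gx L y = X
    · rw [if_pos hy, Set.indicator_of_mem (show y ∈ t from hy)]
      ring
    · rw [if_neg hy, Set.indicator_of_notMem (show y ∉ t from hy)]
      ring
  have hmeas : (μT d).real t = 1 / 2 ^ (d * L) := by
    have h := ParsM.integral_comp_gx (fun k : Gr d L => if k = X then (1 : ℝ) else 0)
    have h2 := hind (fun _ => 1) 1
    simp only [one_mul, setIntegral_const, smul_eq_mul, mul_one] at h2
    rw [← h2, h]
    simp
  have hpos : 0 < (μT d).real t := by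
    rw [hmeas]
    positivity
  have hne : (μT d) t ≠ 0 := by
    intro h0
    rw [Measure.real, h0] at hpos
    simp at hpos
  have hav : ∀ f : Torus d → ℝ, ⨍ y in t, f y ∂(μT d) = 2 ^ (d * L) * ∫ y in t, f y ∂(μT d) := by
    intro f
    rw [setAverage_eq, hmeas, smul_eq_mul]
    simp
  have hJ := (convexOn_rpow hq.le).map_set_average_le
    (continuousOn_id.rpow_const fun x _ => Or.inr hq0.le) isClosed_Ici hne
    (measure_ne_top _ _) (f := fun y => |F y|)
    (Filter.Eventually.of_forall fun y => Set.mem_Ici.2 (abs_nonneg _))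
    hFi.abs.integrableOn hFq.integrableOn
  have h1 : |avc F L X| ≤ ⨍ y in t, |F y| ∂(μT d) := by
    unfold avc
    rw [hind F, hav, abs_mul, abs_of_pos (by positivity : (0 : ℝ) < 2 ^ (d * L))]
    exact mul_le_mul_of_nonneg_left abs_integral_le_integral_abs (by positivity)
  rw [hind (fun y => |F y| ^ q) 1, one_mul, ← hav]
  exact (Real.rpow_le_rpow (abs_nonneg _) h1 hq0.le).trans hJ

end

end LPTM

/-- Module LPT. -/
theorem specLPT (hLPG : SpecLPG) : SpecLPT := by
  intro q d hq hq2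
  obtain ⟨C, hC, hG⟩ := hLPG q d hq hq2
  refine ⟨C, hC, ?_⟩
  intro n B _ lv hlv hsum F hF
  classical
  have hq0 : 0 < q := by linarith
  have hFi : Integrable F (μT d) := hF.integrable (by
    rw [← ENNReal.ofReal_one]
    exact ENNReal.ofReal_le_ofReal hq.le)
  have hFq : Integrable (fun y => |F y| ^ q) (μT d) := by
    have h := hF.integrable_norm_rpow (by simpa using hq0) ENNReal.ofReal_ne_top
    rw [ENNReal.toReal_ofReal hq0.le] at h
    exact h
  have h1 : ∀ X : Gr d (n + 1), (∑ b, (2 ^ n * ∫ x, F x * Haf (lv b)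
      (fun j => (X j : ℕ) / 2 ^ (n + 1 - lv b j)) x ∂(μT d)) ^ 2) ≤
      ∑ t ∈ box d (n + 1 + 1), ((Dt (n + 1) t *ᵥ avc F (n + 1)) X) ^ 2 := by
    intro X
    have h2 : ∀ b, (2 ^ n * ∫ x, F x * Haf (lv b)
        (fun j => (X j : ℕ) / 2 ^ (n + 1 - lv b j)) x ∂(μT d)) ^ 2 =
        ((Dt (n + 1) (fun j => lv b j + 1) *ᵥ avc F (n + 1)) X) ^ 2 := by
      intro b
      rw [LPTM.coeff n (n + 1) rfl (lv b) (hsum b) F hFi X,
        mul_pow (∏ j, LPTM.sgm (n + 1) (lv b j) (X j)), ← Finset.prod_pow]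
      simp only [LPTM.sgm_sq, Finset.prod_const_one, one_mul]
    simp only [h2]
    have hinj : Function.Injective (fun b => (fun j => lv b j + 1 : Fin d → ℕ)) := by
      intro b b' h
      apply hlv
      funext j
      have := congrFun h j
      simpa using this
    rw [← Finset.sum_image (s := Finset.univ) (g := fun b => (fun j => lv b j + 1 : Fin d → ℕ))
      (f := fun t => ((Dt (n + 1) t *ᵥ avc F (n + 1)) X) ^ 2) (fun a _ b _ h => hinj h)]
    refine Finset.sum_le_sum_of_subset_of_nonneg ?_ (fun _ _ _ => sq_nonneg _)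
    intro t ht
    rw [Finset.mem_image] at ht
    obtain ⟨b, -, rfl⟩ := ht
    unfold box
    rw [Fintype.mem_piFinset]
    intro j
    rw [Finset.mem_range]
    have : lv b j ≤ n := by
      rw [← hsum b]
      exact Finset.single_le_sum (f := lv b) (fun _ _ => Nat.zero_le _) (Finset.mem_univ j)
    omega
  have h3 : ∑ X : Gr d (n + 1), |avc F (n + 1) X| ^ q ≤
      2 ^ (d * (n + 1)) * ∫ x, |F x| ^ q ∂(μT d) := by
    refine (Finset.sum_le_sum fun X _ => LPTM.jensen (n + 1) q hq F hF X).trans (le_of_eq ?_)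
    rw [← Finset.mul_sum, ← integral_finsetSum]
    · congr 1
      refine integral_congr_ae (Filter.Eventually.of_forall fun y => ?_)
      show ∑ X : Gr d (n + 1), |F y| ^ q * (if gx (n + 1) y = X then (1 : ℝ) else 0) = _
      rw [← Finset.mul_sum]
      simp
    · intro X _
      have h := hFq.bdd_mul (c := 1) (ParsM.measurable_comp_gx (fun k : Gr d (n + 1) =>
        if k = X then (1 : ℝ) else 0)).aestronglyMeasurable
        (Filter.Eventually.of_forall fun x => by
          show ‖(if gx (n + 1) x = X then (1 : ℝ) else 0)‖ ≤ 1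
          split_ifs <;> simp)
      refine h.congr (Filter.Eventually.of_forall fun x => ?_)
      exact mul_comm _ _
  calc ∑ X : Gr d (n + 1), (∑ b, (2 ^ n * ∫ x, F x * Haf (lv b)
          (fun j => (X j : ℕ) / 2 ^ (n + 1 - lv b j)) x ∂(μT d)) ^ 2) ^ (q / 2)
      ≤ ∑ X : Gr d (n + 1), (∑ t ∈ box d (n + 1 + 1),
        ((Dt (n + 1) t *ᵥ avc F (n + 1)) X) ^ 2) ^ (q / 2) :=
        Finset.sum_le_sum fun X _ => Real.rpow_le_rpow
          (Finset.sum_nonneg fun _ _ => sq_nonneg _) (h1 X) (by positivity)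
    _ ≤ C * ∑ X : Gr d (n + 1), |avc F (n + 1) X| ^ q := hG (n + 1) (avc F (n + 1))
    _ ≤ C * (2 ^ (d * (n + 1)) * ∫ x, |F x| ^ q ∂(μT d)) :=
        mul_le_mul_of_nonneg_left h3 hC.le
    _ = _ := by ring

end Pool.Agent.MP_bc5265.R2
end

section
/-!
# Module LSN: linear numbers are at most sampling numbers
-/
set_option autoImplicit false

open MeasureTheory
open scoped ENNReal

namespace Pool.Agent.MP_bc5265.R2

open Pool.Agent.MP_bc5265

/-- Module LSN. -/
theorem specLSN : SpecLSN := by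
  intro 𝕜 _ d m F q
  unfold samplingNumber
  refine le_iInf fun x => le_iInf fun ψ => ?_
  let Λ : Fin m → (C(Torus d, 𝕜) →ₗ[𝕜] 𝕜) := fun i =>
    { toFun := fun f => f (x i), map_add' := fun _ _ => rfl, map_smul' := fun _ _ => rfl }
  have hψ : ∀ i, MemLp (ψ i : Torus d → 𝕜) q (μT d) := by
    intro i
    refine MemLp.of_bound (ψ i).continuous.aestronglyMeasurable ‖ψ i‖ ?_
    filter_upwards with y
    exact (ψ i).norm_coe_le_norm y
  unfold linearNumber
  exact iInf_le_of_le Λ (iInf_le_of_le (fun i => (ψ i : Torus d → 𝕜)) (iInf_le_of_le hψ le_rfl))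

end Pool.Agent.MP_bc5265.R2
end

section
/-!
# Region `R_2`, module MEM: the test functions are in the class, `ℓ_p` normalisation
-/
set_option linter.unusedSectionVars false

open MeasureTheory Finset
open scoped ENNReal fwdDiff

namespace Pool.Agent.MP_bc5265.R2

open Pool.Agent.MP_bc5265.S Pool.Agent.MP_bc5265

noncomputable section

namespace MEMM

theorem eLpNorm_G' {d : ℕ} (s : Fin d → ℕ) (a : (∀ j, Fin (2 ^ s j)) → ℝ) {p : ℝ} (hp : 1 ≤ p)
    (ha : ∑ k, |a k| ^ p ≤ 2 ^ (∑ j, s j)) :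
    eLpNorm (G s a) (ENNReal.ofReal p) (μT d) ≤ 1 := by
  have hp0 : 0 < p := by linarith
  have hle : ∀ k, |a k| ≤ ∑ k, |a k| := fun k =>
    Finset.single_le_sum (f := fun k => |a k|) (fun _ _ => abs_nonneg _) (Finset.mem_univ k)
  have hmem : MemLp (G s a) (ENNReal.ofReal p) (μT d) := by
    refine MemLp.of_bound (measurable_G s a).aestronglyMeasurable (∑ k, |a k|) ?_
    filter_upwards with x
    have hG0 : 0 ≤ G s a x := abs_nonneg _
    rw [Real.norm_of_nonneg hG0]
    exact hle _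
  rw [hmem.eLpNorm_eq_integral_rpow_norm (by simpa using hp0) ENNReal.ofReal_ne_top,
    ENNReal.toReal_ofReal hp0.le, ← ENNReal.ofReal_one]
  refine ENNReal.ofReal_le_ofReal ?_
  have h1 : ∀ x, ‖G s a x‖ ^ p =
      ∑ k : ∀ j, Fin (2 ^ s j), |a k| ^ p * Chi s (fun j => (k j : ℕ)) x := by
    intro x
    have hG0 : 0 ≤ G s a x := abs_nonneg _
    rw [sum_mul_Chi s (fun k => |a k| ^ p) x, Real.norm_of_nonneg hG0]
    rfl
  have h3 : ∫ x, ‖G s a x‖ ^ p ∂(μT d) ≤ 1 := by
    simp only [h1]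
    rw [integral_finsetSum]
    · have h2 : ∀ k : ∀ j, Fin (2 ^ s j),
          ∫ x, |a k| ^ p * Chi s (fun j => (k j : ℕ)) x ∂(μT d) =
            |a k| ^ p * (1 / 2 ^ (∑ j, s j)) := by
        intro k
        rw [integral_const_mul, integral_Chi s _ (fun j => (k j).2)]
      rw [Finset.sum_congr rfl fun k _ => h2 k, ← Finset.sum_mul, mul_one_div,
        div_le_one (by positivity)]
      exact ha
    · intro k _
      refine Integrable.of_bound (C := |a k| ^ p) ?_ ?_
      · exact ((measurable_Chi _ _).const_mul _).aestronglyMeasurable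
      · filter_upwards with x
        rw [Real.norm_of_nonneg (mul_nonneg (by positivity) (Chi_nonneg _ _ _))]
        exact mul_le_of_le_one_right (by positivity) (Chi_le_one _ _ _)
  exact Real.rpow_le_one (integral_nonneg fun x => by positivity) h3 (by positivity)

theorem block_bound' {d : ℕ} (l : ℕ) (C : ℝ) (hC : DiffBound l C) (e : Finset (Fin d)) (t : Fin d → ℝ)
    (s : Fin d → ℕ) (a : (∀ j, Fin (2 ^ s j)) → ℝ) {p : ℝ} (hp : 1 ≤ p)
    (ha : ∑ k, |a k| ^ p ≤ 2 ^ (∑ j, s j)) :
    eLpNorm (mixedDiff l e t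
      (∑ k : ∀ j, Fin (2 ^ s j), a k • (Phi s (fun j => (k j : ℕ)) : Torus d → ℝ)))
      (ENNReal.ofReal p) (μT d) ≤
      ENNReal.ofReal ((∏ j ∈ e, (C * (min 1 (2 ^ s j * |t j|)) ^ l)) * ((l : ℝ) + 1) ^ d) := by
  have hp1 : (1 : ℝ≥0∞) ≤ ENNReal.ofReal p := by
    rw [← ENNReal.ofReal_one]
    exact ENNReal.ofReal_le_ofReal (by linarith)
  set A : ℝ := ∏ j ∈ e, (C * (min 1 (2 ^ s j * |t j|)) ^ l) with hA
  have hC0 : 0 ≤ C := by linarith [hC.1]
  have hA0 : 0 ≤ A := by
    refine Finset.prod_nonneg fun j _ => mul_nonneg hC0 (pow_nonneg ?_ _)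
    exact le_min zero_le_one (by positivity)
  set R := Fintype.piFinset (fun j : Fin d => if j ∈ e then Finset.range (l + 1) else {0}) with hR
  have hcard : (R.card : ℝ) ≤ ((l : ℝ) + 1) ^ d := by
    have h1 : R.card ≤ (l + 1) ^ d := by
      rw [hR, Fintype.card_piFinset]
      refine (Finset.prod_le_pow_card _ _ (l + 1) fun j _ => ?_).trans (by simp)
      split_ifs <;> simp
    exact_mod_cast h1
  let v : (Fin d → ℕ) → Torus d := fun r j => ((r j * t j : ℝ) : Circ)
  have h1 : ∀ x, ‖mixedDiff l e t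
      (∑ k : ∀ j, Fin (2 ^ s j), a k • (Phi s (fun j => (k j : ℕ)) : Torus d → ℝ)) x‖ ≤
      (A • ∑ r ∈ R, fun x => G s a (x + v r)) x := by
    intro x
    rw [Real.norm_eq_abs, Pi.smul_apply, Finset.sum_apply, smul_eq_mul]
    exact block_pointwise l C hC e t s a x
  refine (eLpNorm_mono_real h1).trans ?_
  rw [eLpNorm_const_smul]
  have hAe : ‖A‖ₑ = ENNReal.ofReal A := Real.enorm_of_nonneg hA0
  rw [hAe]
  have hmp : ∀ r, MeasurePreserving (fun x : Torus d => x + v r) (μT d) (μT d) :=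
    fun r => measurePreserving_add_right (μT d) (v r)
  have h2 : eLpNorm (∑ r ∈ R, fun x => G s a (x + v r)) (ENNReal.ofReal p) (μT d) ≤
      ENNReal.ofReal (((l : ℝ) + 1) ^ d) := by
    refine (eLpNorm_sum_le ?_ hp1).trans ?_
    · intro r _
      exact ((measurable_G s a).comp (hmp r).measurable).aestronglyMeasurable
    · have h3 : ∀ r ∈ R, eLpNorm (fun x => G s a (x + v r)) (ENNReal.ofReal p) (μT d) ≤ 1 := by
        intro r _
        have h4 := eLpNorm_comp_measurePreserving (p := ENNReal.ofReal p)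
          (measurable_G s a).aestronglyMeasurable (hmp r)
        exact (le_of_eq h4).trans (eLpNorm_G' s a hp ha)
      refine (Finset.sum_le_sum h3).trans ?_
      rw [Finset.sum_const, nsmul_eq_mul, mul_one, ← ENNReal.ofReal_natCast]
      exact ENNReal.ofReal_le_ofReal hcard
  refine (mul_le_mul_right h2 _).trans (le_of_eq ?_)
  rw [← ENNReal.ofReal_mul hA0]

end MEMM

open MEMM in
/-- **MEM** -/
theorem specMEM : SpecMEM := by
  intro l r d hr hl
  obtain ⟨C, hC⟩ := exists_diffBound l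
  obtain ⟨D0, hD00, hD0⟩ := sum_geom r hr
  obtain ⟨D1, hD10, hD1⟩ := sum_step r l hr hl
  set D : ℝ := max D0 (max D1 1) with hD
  have hDpos : 0 < D := lt_of_lt_of_le hD00 (le_max_left _ _)
  have hC0 : 0 < C := by linarith [hC.1]
  set K : ℝ := C ^ d * ((l : ℝ) + 1) ^ d * D ^ d with hK
  have hK0 : 0 < K := by positivity
  refine ⟨1 / K, by positivity, ?_⟩
  intro B _ lev n hinj hsum p hp a ha e t
  have hp1 : (1 : ℝ≥0∞) ≤ ENNReal.ofReal p := by
    rw [← ENNReal.ofReal_one]
    exact ENNReal.ofReal_le_ofReal (by linarith)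
  set c : ℝ := 1 / K * (2 ^ n) ^ (-r) with hc
  have hc0 : 0 ≤ c := by positivity
  unfold ftest
  rw [mixedDiff_add_sum, eLpNorm_const_smul, Real.enorm_of_nonneg hc0]
  have hm0 : ∀ (s : Fin d → ℕ) j, 0 ≤ min 1 (2 ^ s j * |t j|) :=
    fun s j => le_min zero_le_one (by positivity)
  -- triangle inequality
  have h1 : eLpNorm (∑ b, mixedDiff l e t
      (∑ k : ∀ j, Fin (2 ^ lev b j), a ⟨b, k⟩ • (Phi (lev b) (fun j => (k j : ℕ)) : Torus d → ℝ)))
      (ENNReal.ofReal p) (μT d) ≤
      ENNReal.ofReal (∑ b, (∏ j ∈ e, (C * (min 1 (2 ^ lev b j * |t j|)) ^ l)) * ((l : ℝ) + 1) ^ d) := by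
    refine (eLpNorm_sum_le ?_ hp1).trans ?_
    · intro b _
      rw [mixedDiff_sum]
      have hmeas : ∀ k : ∀ j, Fin (2 ^ lev b j), Measurable
          (mixedDiff l e t (Phi (lev b) (fun j => (k j : ℕ)) : Torus d → ℝ)) := by
        intro k
        have h2 : (Phi (lev b) (fun j => (k j : ℕ)) : Torus d → ℝ) =
          fun x => ∏ i, (Ps (lev b i) (k i) : Circ → ℝ) (x i) := rfl
        rw [h2, mixedDiff_prod l e t (fun i => (Ps (lev b i) (k i) : Circ → ℝ))]
        refine Finset.measurable_prod _ fun i _ => ?_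
        have h3 : ∀ (m : ℕ) (f : Circ → ℝ), Continuous f → ∀ u : Circ,
            Continuous ((fwdDiff u)^[m] f) := by
          intro m
          induction m with
          | zero => intro f hf u; exact hf
          | succ m ih =>
            intro f hf u
            rw [Function.iterate_succ_apply]
            apply ih
            exact (hf.comp (continuous_id.add continuous_const)).sub hf
        split_ifs with hi
        · exact (h3 l _ (Ps _ _).continuous _).measurable.comp (measurable_pi_apply i)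
        · exact (Ps _ _).continuous.measurable.comp (measurable_pi_apply i)
      exact Finset.aestronglyMeasurable_sum _ fun k _ =>
        (hmeas k).aestronglyMeasurable.const_smul _
    · rw [ENNReal.ofReal_sum_of_nonneg]
      · refine Finset.sum_le_sum fun b _ => ?_
        exact block_bound' l C hC e t (lev b) (fun k => a ⟨b, k⟩) hp (by
          rw [hsum b]
          exact ha b)
      · intro b _
        have : 0 ≤ ∏ j ∈ e, (C * (min 1 (2 ^ lev b j * |t j|)) ^ l) :=
          Finset.prod_nonneg fun j _ => mul_nonneg hC0.le (pow_nonneg (hm0 _ _) _)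
        positivity
  refine (mul_le_mul_right h1 _).trans ?_
  rw [← ENNReal.ofReal_mul hc0]
  refine ENNReal.ofReal_le_ofReal ?_
  -- the sum over the levels
  let F : (Fin d → ℕ) → ℝ := fun s =>
    ∏ j, (((2 : ℝ) ^ s j) ^ (-r) * (if j ∈ e then (min 1 (2 ^ s j * |t j|)) ^ l else 1))
  have hF0 : ∀ s, 0 ≤ F s := by
    intro s
    refine Finset.prod_nonneg fun j _ => ?_
    have := hm0 s j
    split_ifs <;> positivity
  have hFsum : ∑ b, F (lev b) ≤ D ^ d * ∏ j ∈ e, |t j| ^ r := by
    classical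
    have e1 : ∑ b, F (lev b) = ∑ s ∈ Finset.univ.image lev, F s := by
      rw [Finset.sum_image]
      intro x _ y _ h
      exact hinj h
    rw [e1]
    have e2 : Finset.univ.image lev ⊆ Fintype.piFinset (fun _ : Fin d => range (n + 1)) := by
      intro s hs
      rw [Finset.mem_image] at hs
      obtain ⟨b, -, rfl⟩ := hs
      rw [Fintype.mem_piFinset]
      intro j
      rw [Finset.mem_range, ← hsum b]
      have := Finset.single_le_sum (f := fun j => lev b j) (fun _ _ => Nat.zero_le _)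
        (Finset.mem_univ j)
      exact Nat.lt_succ_of_le this
    refine (Finset.sum_le_sum_of_subset_of_nonneg e2 fun s _ _ => hF0 s).trans ?_
    have e3 := (Finset.prod_univ_sum (fun _ : Fin d => range (n + 1))
      (fun j (q : ℕ) => ((2 : ℝ) ^ q) ^ (-r) *
        (if j ∈ e then (min 1 (2 ^ q * |t j|)) ^ l else 1))).symm
    refine (le_of_eq e3).trans ?_
    have e4 : D ^ d * ∏ j ∈ e, |t j| ^ r = ∏ j, (D * if j ∈ e then |t j| ^ r else 1) := by
      rw [Finset.prod_mul_distrib, Finset.prod_const, Finset.card_univ, Fintype.card_fin,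
        Finset.prod_ite_mem, Finset.univ_inter]
    rw [e4]
    refine Finset.prod_le_prod (fun j _ => ?_) fun j _ => ?_
    · refine Finset.sum_nonneg fun q _ => ?_
      have : 0 ≤ min 1 (2 ^ q * |t j|) := le_min zero_le_one (by positivity)
      split_ifs <;> positivity
    · by_cases hj : j ∈ e
      · simp only [hj, if_true]
        refine (hD1 (n + 1) (t j)).trans ?_
        refine mul_le_mul_of_nonneg_right ?_ (by positivity)
        exact (le_max_left _ _).trans (le_max_right _ _)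
      · simp only [hj, if_false, mul_one]
        exact (hD0 (n + 1)).trans (le_max_left _ _)
  have hterm : ∀ b, c * ((∏ j ∈ e, (C * (min 1 (2 ^ lev b j * |t j|)) ^ l)) * ((l : ℝ) + 1) ^ d) ≤
      1 / K * (C ^ d * ((l : ℝ) + 1) ^ d * F (lev b)) := by
    intro b
    have e2 : ((2 : ℝ) ^ n) ^ (-r) = ∏ j, ((2 : ℝ) ^ lev b j) ^ (-r) := by
      rw [← hsum b, ← Finset.prod_pow_eq_pow_sum, ← Real.finsetProd_rpow]
      intro i _
      positivity
    have e3 : F (lev b) = ((2 : ℝ) ^ n) ^ (-r) * ∏ j ∈ e, (min 1 (2 ^ lev b j * |t j|)) ^ l := by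
      simp only [F]
      rw [Finset.prod_mul_distrib, e2, Finset.prod_ite_mem, Finset.univ_inter]
    have e4 : ∏ j ∈ e, (C * (min 1 (2 ^ lev b j * |t j|)) ^ l) ≤
        C ^ d * ∏ j ∈ e, (min 1 (2 ^ lev b j * |t j|)) ^ l := by
      rw [Finset.prod_mul_distrib, Finset.prod_const]
      refine mul_le_mul_of_nonneg_right ?_ (Finset.prod_nonneg fun j _ => pow_nonneg (hm0 _ _) _)
      refine pow_le_pow_right₀ hC.1 ?_
      simpa using Finset.card_le_univ e
    calc c * ((∏ j ∈ e, (C * (min 1 (2 ^ lev b j * |t j|)) ^ l)) * ((l : ℝ) + 1) ^ d)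
        ≤ c * ((C ^ d * ∏ j ∈ e, (min 1 (2 ^ lev b j * |t j|)) ^ l) * ((l : ℝ) + 1) ^ d) := by
          refine mul_le_mul_of_nonneg_left ?_ hc0
          exact mul_le_mul_of_nonneg_right e4 (by positivity)
      _ = _ := by rw [hc, e3]; ring
  rw [Finset.mul_sum]
  refine (Finset.sum_le_sum fun b _ => hterm b).trans ?_
  rw [← Finset.mul_sum, ← Finset.mul_sum]
  calc 1 / K * (C ^ d * ((l : ℝ) + 1) ^ d * ∑ b, F (lev b))
      ≤ 1 / K * (C ^ d * ((l : ℝ) + 1) ^ d * (D ^ d * ∏ j ∈ e, |t j| ^ r)) := by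
        refine mul_le_mul_of_nonneg_left ?_ (by positivity)
        exact mul_le_mul_of_nonneg_left hFsum (by positivity)
    _ = (1 / K * K) * ∏ j ∈ e, |t j| ^ r := by rw [hK]; ring
    _ = _ := by rw [one_div_mul_cancel hK0.ne', one_mul]

end

end Pool.Agent.MP_bc5265.R2
end

section
/-!
REI: real and imaginary parts of the elements of the class.
-/
set_option linter.unusedSectionVars false

open MeasureTheory Finset Matrix
open scoped ENNReal

namespace Pool.Agent.MP_bc5265.R2

open Pool.Agent.MP_bc5265.S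

namespace REIM

variable {𝕜 : Type} [RCLike 𝕜] {d : ℕ}

theorem mem_of (φ : 𝕜 →+ ℝ) (hφ : ∀ z, |φ z| ≤ ‖z‖) (l : ℕ) (r : ℝ) (p : ℝ≥0∞) (f : C(Torus d, 𝕜))
    (hf : f ∈ HClass 𝕜 d l r p) (g : C(Torus d, ℝ)) (hg : ∀ x, g x = φ (f x)) :
    g ∈ HClass ℝ d l r p := by
  have h1 : (g : Torus d → ℝ) = fun x => φ (f x) := funext hg
  refine ⟨?_, fun e he t => ?_⟩
  · rw [h1]
    exact (eLpNorm_mono fun x => hφ _).trans hf.1
  · rw [h1, S.ReImM.mixedDiff_comp]
    exact (eLpNorm_mono fun x => hφ _).trans (hf.2 e he t)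

end REIM

theorem specREI : SpecREI := by
  intro 𝕜 _ d l r p f hf
  refine ⟨⟨fun x => RCLike.re (f x), RCLike.continuous_re.comp f.continuous⟩,
    ⟨fun x => RCLike.im (f x), RCLike.continuous_im.comp f.continuous⟩,
    REIM.mem_of (RCLike.re : 𝕜 →+ ℝ) RCLike.abs_re_le_norm l r p f hf _ fun _ => rfl,
    REIM.mem_of (RCLike.im : 𝕜 →+ ℝ) RCLike.abs_im_le_norm l r p f hf _ fun _ => rfl, fun x => ?_⟩
  exact (RCLike.re_add_im (f x)).symm

end Pool.Agent.MP_bc5265.R2
end

section
/-!
# Region `R_2`, module WTS: the weights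
-/
set_option linter.unusedSectionVars false

open MeasureTheory Finset Matrix
open scoped ENNReal

namespace Pool.Agent.MP_bc5265.R2

open Pool.Agent.MP_bc5265.S Pool.Agent.MP_bc5265

noncomputable section

namespace WTSM

/-- the concave function -/
def ph (t : ℝ) : ℝ := if t ≤ 1 then t else 1 + Real.log t

theorem ph_nonneg {t : ℝ} (ht : 0 ≤ t) : 0 ≤ ph t := by
  unfold ph
  split_ifs with h
  · exact ht
  · have := Real.log_nonneg (not_le.1 h).le
    linarith

theorem ph_le {s t : ℝ} : ph s ≤ ph t + (s - t) / max 1 t := by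
  rcases le_or_gt t 1 with ht | ht
  · rw [max_eq_left ht, div_one]
    unfold ph
    rw [if_pos ht]
    split_ifs with h
    · linarith
    · have := Real.log_le_sub_one_of_pos (show 0 < s by linarith [not_le.1 h])
      linarith
  · have ht0 : 0 < t := by linarith
    rw [max_eq_right ht.le]
    unfold ph
    rw [if_neg (not_le.2 ht)]
    have e : (s - t) / t = s / t - 1 := by field_simp
    rw [e]
    split_ifs with h
    · have h1 := Real.one_sub_inv_le_log_of_pos ht0
      have h2 : s * (1 - t⁻¹) ≤ 1 * (1 - t⁻¹) :=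
        mul_le_mul_of_nonneg_right h (by
          have : t⁻¹ ≤ 1 := inv_le_one_of_one_le₀ ht.le
          linarith)
      have h3 : s / t = s * t⁻¹ := div_eq_mul_inv _ _
      nlinarith
    · have hs1 : 0 < s := by linarith [not_le.1 h]
      have h1 := Real.log_le_sub_one_of_pos (div_pos hs1 ht0)
      rw [Real.log_div hs1.ne' ht0.ne'] at h1
      linarith

theorem sum_upd {I : Type} [Fintype I] [DecidableEq I] (f : I → ℕ → ℝ) (j : I → ℕ) (i : I)
    (a : ℕ) : ∑ x, f x (Function.update j i a x) = ∑ x, f x (j x) + (f i a - f i (j i)) := by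
  rw [← Finset.add_sum_erase univ (fun x => f x (Function.update j i a x)) (mem_univ i),
    ← Finset.add_sum_erase univ (fun x => f x (j x)) (mem_univ i)]
  have h : ∑ x ∈ univ.erase i, f x (Function.update j i a x) = ∑ x ∈ univ.erase i, f x (j x) :=
    Finset.sum_congr rfl fun x hx => by rw [Function.update_of_ne (Finset.ne_of_mem_erase hx)]
  rw [h]
  simp only [Function.update_self]
  ring

end WTSM

open WTSM in
/-- **WTS** -/
theorem specWTS (hRKB : SpecRKB) : SpecWTS := by
  intro I J _ _ _ Y Z T hT hJ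
  classical
  let γ : (I → ℕ) → I → ℝ := fun j k => ∑ i, (1 / 2 : ℝ) ^ (j i) * T i k ^ 2
  let Ψ : (I → ℕ) → ℝ := fun j => ∑ k, ph (γ j k) + 7 * ∑ i, (j i : ℝ)
  have hγ0 : ∀ j k, 0 ≤ γ j k := fun j k => Finset.sum_nonneg fun i _ => by positivity
  have hph0 : ∀ j, 0 ≤ ∑ k, ph (γ j k) := fun j =>
    Finset.sum_nonneg fun k _ => ph_nonneg (hγ0 j k)
  obtain ⟨N, hN⟩ := exists_nat_gt (Ψ 0)
  let box : Finset (I → ℕ) := Fintype.piFinset fun _ : I => range (N + 1)
  have hbox : ∀ j : I → ℕ, j ∈ box ↔ ∀ i, j i < N + 1 := fun j => by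
    show j ∈ Fintype.piFinset _ ↔ _
    rw [Fintype.mem_piFinset]
    simp only [mem_range]
  have h0 : (0 : I → ℕ) ∈ box := (hbox 0).2 fun i => Nat.succ_pos N
  obtain ⟨j, hj, hmin⟩ := Finset.exists_min_image box Ψ ⟨0, h0⟩
  -- the minimum is not on the boundary of the box
  have hlt : ∀ i, j i < N := by
    intro i
    by_contra hcon
    have h1 : (N : ℝ) ≤ (j i : ℝ) := by exact_mod_cast not_lt.1 hcon
    have h2 : (j i : ℝ) ≤ ∑ i, (j i : ℝ) :=
      Finset.single_le_sum (f := fun i => (j i : ℝ)) (fun _ _ => Nat.cast_nonneg _) (mem_univ i)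
    have h3 : Ψ j ≤ Ψ 0 := hmin 0 h0
    have h4 : Ψ j = ∑ k, ph (γ j k) + 7 * ∑ i, (j i : ℝ) := rfl
    have h5 := hph0 j
    have h6 : (0 : ℝ) ≤ N := Nat.cast_nonneg _
    linarith
  -- the rows
  let R : I → ℝ := fun i => ∑ k, (1 / 2 : ℝ) ^ (j i) * T i k ^ 2 * (1 / max 1 (γ j k))
  -- comparison
  have hcmp : ∀ (i : I) (a : ℕ), a < N + 1 → 0 ≤
      ((1 / 2 : ℝ) ^ a - (1 / 2 : ℝ) ^ (j i)) * (∑ k, T i k ^ 2 * (1 / max 1 (γ j k))) +
        7 * ((a : ℝ) - j i) := by
    intro i a ha
    have hmem : Function.update j i a ∈ box := by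
      rw [hbox]
      intro x
      by_cases hx : x = i
      · subst hx
        rw [Function.update_self]
        exact ha
      · rw [Function.update_of_ne hx]
        exact (hlt x).trans (Nat.lt_succ_self N)
    have h1 : Ψ j ≤ Ψ (Function.update j i a) := hmin _ hmem
    have h2 : ∀ k, γ (Function.update j i a) k =
        γ j k + ((1 / 2 : ℝ) ^ a * T i k ^ 2 - (1 / 2 : ℝ) ^ (j i) * T i k ^ 2) := fun k =>
      sum_upd (fun x n => (1 / 2 : ℝ) ^ n * T x k ^ 2) j i a
    have h3 : ∑ x, ((Function.update j i a x : ℕ) : ℝ) = ∑ x, (j x : ℝ) + ((a : ℝ) - j i) :=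
      sum_upd (fun _ n => (n : ℝ)) j i a
    have h4 : ∀ k, ph (γ (Function.update j i a) k) ≤ ph (γ j k) +
        ((1 / 2 : ℝ) ^ a - (1 / 2 : ℝ) ^ (j i)) * (T i k ^ 2 * (1 / max 1 (γ j k))) := by
      intro k
      refine (ph_le (t := γ j k)).trans (le_of_eq ?_)
      rw [h2 k]
      ring
    have h5 : ∑ k, ph (γ (Function.update j i a) k) ≤ ∑ k, ph (γ j k) +
        ((1 / 2 : ℝ) ^ a - (1 / 2 : ℝ) ^ (j i)) * ∑ k, T i k ^ 2 * (1 / max 1 (γ j k)) := by
      refine (Finset.sum_le_sum fun k _ => h4 k).trans (le_of_eq ?_)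
      rw [Finset.sum_add_distrib, Finset.mul_sum]
    have h6 : Ψ j = ∑ k, ph (γ j k) + 7 * ∑ i, (j i : ℝ) := rfl
    have h7 : Ψ (Function.update j i a) = ∑ k, ph (γ (Function.update j i a) k) +
        7 * ∑ x, ((Function.update j i a x : ℕ) : ℝ) := rfl
    rw [h3] at h7
    linarith
  have hR : ∀ i, R i = (1 / 2 : ℝ) ^ (j i) * ∑ k, T i k ^ 2 * (1 / max 1 (γ j k)) := by
    intro i
    show ∑ k, _ = _
    rw [Finset.mul_sum]
    exact Finset.sum_congr rfl fun k _ => by ring
  have hR14 : ∀ i, R i ≤ 14 := by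
    intro i
    have h1 := hcmp i (j i + 1) (Nat.succ_lt_succ (hlt i))
    rw [hR i]
    rw [pow_succ] at h1
    push_cast at h1
    nlinarith
  have hR7 : ∀ i, j i ≠ 0 → 7 ≤ R i := by
    intro i hi
    obtain ⟨a, ha⟩ : ∃ a, j i = a + 1 := ⟨j i - 1, by omega⟩
    have h1 := hcmp i a (by have := hlt i; omega)
    rw [hR i]
    rw [ha, pow_succ] at h1 ⊢
    push_cast at h1
    nlinarith
  have hmax : ∀ k, 0 < max 1 (γ j k) := fun k => lt_max_of_lt_left one_pos
  -- the column sums
  have hcol : ∀ k, ∑ i, (1 / 2 : ℝ) ^ (j i) * T i k ^ 2 * (1 / max 1 (γ j k)) =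
      γ j k / max 1 (γ j k) := by
    intro k
    rw [← Finset.sum_mul, mul_one_div]
  have hcol1 : ∀ k, γ j k / max 1 (γ j k) ≤ 1 := fun k =>
    (div_le_one (hmax k)).2 (le_max_right _ _)
  have hcol0 : ∀ k, 0 ≤ γ j k / max 1 (γ j k) := fun k => div_nonneg (hγ0 j k) (hmax k).le
  have htot : ∑ i, R i = ∑ k, γ j k / max 1 (γ j k) := by
    show ∑ i, ∑ k, _ = _
    rw [Finset.sum_comm]
    exact Finset.sum_congr rfl fun k _ => hcol k
  set D : ℝ := (Fintype.card I : ℝ) with hD
  have htotD : ∑ i, R i ≤ D := by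
    rw [htot]
    refine (Finset.sum_le_sum fun k _ => hcol1 k).trans (le_of_eq ?_)
    rw [Finset.sum_const, Finset.card_univ, nsmul_eq_mul, mul_one]
  have hR0 : ∀ i, 0 ≤ R i := fun i => Finset.sum_nonneg fun k _ => by
    have := hmax k
    positivity
  let I1 : Finset I := univ.filter fun i => j i = 0
  let K0 : Finset I := univ.filter fun k => γ j k ≤ 1
  have hI1 : 7 * ((I1ᶜ.card : ℕ) : ℝ) ≤ D := by
    calc 7 * ((I1ᶜ.card : ℕ) : ℝ) = ∑ i ∈ I1ᶜ, (7 : ℝ) := by
          rw [Finset.sum_const, nsmul_eq_mul, mul_comm]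
      _ ≤ ∑ i ∈ I1ᶜ, R i := Finset.sum_le_sum fun i hi => hR7 i fun h => by
          rw [Finset.mem_compl] at hi
          exact hi (Finset.mem_filter.2 ⟨mem_univ _, h⟩)
      _ ≤ ∑ i, R i := Finset.sum_le_sum_of_subset_of_nonneg (subset_univ _) fun i _ _ => hR0 i
      _ ≤ D := htotD
  have hK0 : ((I1 ∩ K0).card : ℝ) - Fintype.card J ≤ ∑ k ∈ K0, γ j k := by
    refine (hRKB I J Y Z I1 K0).trans ?_
    rw [Finset.sum_comm]
    refine Finset.sum_le_sum fun k _ => ?_
    calc ∑ i ∈ I1, ((if i = k then (1 : ℝ) else 0) - ∑ x, Y i x * Z x k) ^ 2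
        = ∑ i ∈ I1, (1 / 2 : ℝ) ^ (j i) * T i k ^ 2 := by
          refine Finset.sum_congr rfl fun i hi => ?_
          rw [(Finset.mem_filter.1 hi).2, pow_zero, one_mul, hT]
      _ ≤ _ := Finset.sum_le_sum_of_subset_of_nonneg (subset_univ _) fun i _ _ => by positivity
  have hcards : (K0.card : ℝ) ≤ ((I1 ∩ K0).card : ℝ) + ((I1ᶜ.card : ℕ) : ℝ) := by
    have h1 : K0 ⊆ (I1 ∩ K0) ∪ I1ᶜ := by
      intro k hk
      by_cases h : k ∈ I1
      · exact Finset.mem_union_left _ (Finset.mem_inter.2 ⟨h, hk⟩)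
      · exact Finset.mem_union_right _ (Finset.mem_compl.2 h)
    exact_mod_cast (Finset.card_le_card h1).trans (Finset.card_union_le _ _)
  have hsplit : ∑ k, γ j k / max 1 (γ j k) = ∑ k ∈ K0, γ j k + ((K0ᶜ.card : ℕ) : ℝ) := by
    rw [← Finset.sum_add_sum_compl K0]
    congr 1
    · refine Finset.sum_congr rfl fun k hk => ?_
      rw [max_eq_left (Finset.mem_filter.1 hk).2, div_one]
    · rw [Finset.card_eq_sum_ones]
      push_cast
      refine Finset.sum_congr rfl fun k hk => ?_
      have h1 : 1 < γ j k := by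
        by_contra h
        rw [Finset.mem_compl] at hk
        exact hk (Finset.mem_filter.2 ⟨mem_univ _, not_lt.1 h⟩)
      rw [max_eq_right h1.le, div_self (by linarith)]
  have hKc : ((K0ᶜ.card : ℕ) : ℝ) = D - K0.card := by
    rw [Finset.card_compl, Nat.cast_sub (Finset.card_le_univ _)]
  have hJ' : 4 * (Fintype.card J : ℝ) ≤ D := by
    rw [hD]
    exact_mod_cast hJ
  have hD0 : 0 ≤ D := Nat.cast_nonneg _
  refine ⟨fun i => (1 / 2 : ℝ) ^ (j i), fun k => 1 / max 1 (γ j k), fun i => ⟨by positivity,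
    pow_le_one₀ (by norm_num) (by norm_num)⟩, fun k => ⟨(one_div_pos.2 (hmax k)).le, ?_⟩,
    fun k => ?_, fun i => ?_, ?_⟩
  · exact (div_le_one (hmax k)).2 (le_max_left _ _)
  · show ∑ i, (1 / 2 : ℝ) ^ (j i) * T i k ^ 2 * (1 / max 1 (γ j k)) ≤ 1
    rw [hcol k]
    exact hcol1 k
  · exact hR14 i
  · show D / 2 ≤ ∑ i, R i
    rw [htot, hsplit, hKc]
    linarith

end

end Pool.Agent.MP_bc5265.R2
end
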