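import Pool.Agent.Lib.MP_bc5265_an.R2.SpecB
import Mathlib
import Pool.Agent.Lib.MP_bc5265_an.R2.SpecA
import Pool.Agent.Lib.MP_bc5265_an.S.Blk

section
/-!
# Row 230, CON (helper70): contractions
-/
set_option linter.unusedSectionVars false

open MeasureTheory Finset Matrix
open scoped ENNReal

namespace Pool.Agent.MP_bc5265.R2

open Pool.Agent.MP_bc5265.S

namespace CONM

/-- a matrix with row sums and column sums `≤ 1` (absolute values) is a contraction -/
theorem contr {X : Type} [Fintype X] (p : ℝ) (hp : 1 ≤ p) (A : Matrix X X ℝ)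
    (hr : ∀ x, ∑ y, |A x y| ≤ 1) (hc : ∀ y, ∑ x, |A x y| ≤ 1) (g : X → ℝ) :
    nrm p (A *ᵥ g) ≤ nrm p g := by
  have hp0 : 0 < p := by linarith
  have key : ∀ x, |(A *ᵥ g) x| ^ p ≤ ∑ y, |A x y| * |g y| ^ p := by
    intro x
    have h1 : |(A *ᵥ g) x| ≤ ∑ y, |A x y| * |g y| := by
      have h2 : (A *ᵥ g) x = ∑ y, A x y * g y := rfl
      rw [h2]
      calc |∑ y, A x y * g y| ≤ ∑ y, |A x y * g y| := Finset.abs_sum_le_sum_abs _ _
        _ = ∑ y, |A x y| * |g y| := Finset.sum_congr rfl fun y _ => abs_mul _ _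
    have h3 := Real.inner_le_weight_mul_Lp_of_nonneg (Finset.univ : Finset X) hp
      (fun y => |A x y|) (fun y => |g y|) (fun y => abs_nonneg _) (fun y => abs_nonneg _)
    have hS0 : 0 ≤ ∑ y, |A x y| := Finset.sum_nonneg fun y _ => abs_nonneg _
    have hT0 : 0 ≤ ∑ y, |A x y| * |g y| ^ p :=
      Finset.sum_nonneg fun y _ => mul_nonneg (abs_nonneg _) (Real.rpow_nonneg (abs_nonneg _) _)
    have hpi : p⁻¹ ≤ 1 := inv_le_one_of_one_le₀ hp
    have h4 : (∑ y, |A x y|) ^ (1 - p⁻¹) ≤ 1 :=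
      Real.rpow_le_one hS0 (hr x) (by linarith)
    have h5 : (∑ y, |A x y|) ^ (1 - p⁻¹) * (∑ y, |A x y| * |g y| ^ p) ^ p⁻¹ ≤
        (∑ y, |A x y| * |g y| ^ p) ^ p⁻¹ := by
      have := mul_le_mul_of_nonneg_right h4 (Real.rpow_nonneg hT0 p⁻¹)
      linarith
    have h6 : |(A *ᵥ g) x| ≤ (∑ y, |A x y| * |g y| ^ p) ^ p⁻¹ := h1.trans (h3.trans h5)
    calc |(A *ᵥ g) x| ^ p ≤ ((∑ y, |A x y| * |g y| ^ p) ^ p⁻¹) ^ p :=
          Real.rpow_le_rpow (abs_nonneg _) h6 hp0.le
      _ = ∑ y, |A x y| * |g y| ^ p := by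
          rw [← Real.rpow_mul hT0, inv_mul_cancel₀ hp0.ne', Real.rpow_one]
  have hsum : ∑ x, |(A *ᵥ g) x| ^ p ≤ ∑ y, |g y| ^ p := by
    calc ∑ x, |(A *ᵥ g) x| ^ p ≤ ∑ x, ∑ y, |A x y| * |g y| ^ p :=
          Finset.sum_le_sum fun x _ => key x
      _ = ∑ y, ∑ x, |A x y| * |g y| ^ p := Finset.sum_comm
      _ = ∑ y, (∑ x, |A x y|) * |g y| ^ p :=
          Finset.sum_congr rfl fun y _ => (Finset.sum_mul _ _ _).symm
      _ ≤ ∑ y, 1 * |g y| ^ p := Finset.sum_le_sum fun y _ =>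
          mul_le_mul_of_nonneg_right (hc y) (Real.rpow_nonneg (abs_nonneg _) _)
      _ = ∑ y, |g y| ^ p := Finset.sum_congr rfl fun y _ => one_mul _
  unfold nrm mom
  apply Real.rpow_le_rpow
  · exact div_nonneg (Finset.sum_nonneg fun y _ => Real.rpow_nonneg (abs_nonneg _) _)
      (Nat.cast_nonneg _)
  · exact div_le_div_of_nonneg_right hsum (Nat.cast_nonneg _)
  · positivity

end CONM

theorem specCON (hNRM : SpecNRM) (hTEN : SpecTEN) (hOPS : SpecOPS) : SpecCON := by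
  intro d L p hp
  obtain ⟨-, -, t3, -, t5, t6⟩ := hTEN d L
  obtain ⟨-, -, -, -, -, o6, o7, -⟩ := hOPS L
  refine ⟨?_, ?_, ?_⟩
  · intro a g
    apply CONM.contr p hp
    · intro x
      have h := t5 (fun j => EM L (a j)) (fun _ => 1) (fun j x => o6 (a j) x) x
      simpa using h
    · intro y
      have h := t6 (fun j => EM L (a j)) (fun _ => 1) (fun j y => o7 (a j) y) y
      simpa using h
  · intro a c g
    obtain ⟨B, hB⟩ : ∃ B : Fin d → ℕ → M1 L,
        B = fun j k => if k = 0 then EM L (a j) else - EM L (c j) := ⟨_, rfl⟩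
    have h1 : (tens fun j => EM L (a j) - EM L (c j) : MG d L) =
        ∑ k ∈ Fintype.piFinset (fun _ : Fin d => range 2), tens fun j => B j (k j) := by
      rw [← t3]
      congr 1
      funext j
      rw [Finset.sum_range_succ, Finset.sum_range_one, hB]
      simp [sub_eq_add_neg]
    have h2 : ∀ k : Fin d → ℕ, nrm p ((tens fun j => B j (k j)) *ᵥ g) ≤ nrm p g := by
      intro k
      apply CONM.contr p hp
      · intro x
        have h := t5 (fun j => B j (k j)) (fun _ => 1) (fun j x => by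
          rw [hB]
          by_cases h0 : k j = 0
          · simp only [h0, if_true]
            exact o6 (a j) x
          · simp only [h0, if_false, Matrix.neg_apply, abs_neg]
            exact o6 (c j) x) x
        simpa using h
      · intro y
        have h := t6 (fun j => B j (k j)) (fun _ => 1) (fun j y => by
          rw [hB]
          by_cases h0 : k j = 0
          · simp only [h0, if_true]
            exact o7 (a j) y
          · simp only [h0, if_false, Matrix.neg_apply, abs_neg]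
            exact o7 (c j) y) y
        simpa using h
    rw [h1, Matrix.sum_mulVec]
    have h3 := (hNRM (Gr d L) p hp).2.2.2.2.2.1 (Fin d → ℕ)
      (Fintype.piFinset (fun _ : Fin d => range 2)) (fun k => (tens fun j => B j (k j)) *ᵥ g)
    refine h3.trans ?_
    calc ∑ k ∈ Fintype.piFinset (fun _ : Fin d => range 2), nrm p ((tens fun j => B j (k j)) *ᵥ g)
        ≤ ∑ _k ∈ Fintype.piFinset (fun _ : Fin d => range 2), nrm p g :=
          Finset.sum_le_sum fun k _ => h2 k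
      _ = 2 ^ d * nrm p g := by
          rw [Finset.sum_const, Fintype.card_piFinset]
          simp
  · intro A C hA g M hM x
    have hM0 : 0 ≤ M := (abs_nonneg _).trans (hM x)
    have h2 : (A *ᵥ g) x = ∑ y, A x y * g y := rfl
    rw [h2]
    calc |∑ y, A x y * g y| ≤ ∑ y, |A x y * g y| := Finset.abs_sum_le_sum_abs _ _
      _ = ∑ y, |A x y| * |g y| := Finset.sum_congr rfl fun y _ => abs_mul _ _
      _ ≤ ∑ y, |A x y| * M := Finset.sum_le_sum fun y _ =>
          mul_le_mul_of_nonneg_left (hM y) (abs_nonneg _)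
      _ = (∑ y, |A x y|) * M := (Finset.sum_mul _ _ _).symm
      _ ≤ C * M := mul_le_mul_of_nonneg_right (hA x) hM0

end Pool.Agent.MP_bc5265.R2
end

section
/-!
# Region `R_2`, module DEC (decompositions on the grid)
-/
open MeasureTheory Finset Matrix
open scoped ENNReal

namespace Pool.Agent.MP_bc5265.R2

open Pool.Agent.MP_bc5265.S

namespace DECM

theorem tel {A : Type*} [AddCommGroup A] (f : ℕ → A) (a n : ℕ) (h : a ≤ n) :
    ∑ k ∈ Ico a n, (f (k + 1) - f k) = f n - f a := by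
  induction n, h using Nat.le_induction with
  | base => simp
  | succ n hn ih =>
    rw [Finset.sum_Ico_succ_top hn, ih]
    abel

theorem EM0 (L : ℕ) : EM L 0 = 0 := rfl
theorem IM0 (L : ℕ) : IM L 0 = 0 := rfl

end DECM

open DECM in
theorem specDEC (hTEN : SpecTEN) (hOPS : SpecOPS) : SpecDEC := by
  intro d L
  obtain ⟨t1, t2, t3, t4, _, _⟩ := hTEN d L
  obtain ⟨o1, _, o3, o4, _⟩ := hOPS L
  have hone : (tens (fun _ : Fin d => (1 : M1 L))) = 1 := t2
  refine ⟨?_, ?_, ?_, ?_, ?_, ?_, ?_⟩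
  · intro m hm
    have h := t3 (fun _ => range m) (fun _ k => EM L (k + 1) - EM L k)
    unfold box Dt
    rw [← h, ← hone]
    congr 1
    funext j
    rw [Finset.sum_range_sub, EM0, sub_zero, (o4 m hm).1]
  · intro m hm
    have h := t3 (fun _ => range m) (fun _ k => IM L (k + 1) - IM L k)
    unfold box Et
    rw [← h, ← hone]
    congr 1
    funext j
    rw [Finset.sum_range_sub, IM0, sub_zero, (o4 m hm).2]
  · intro t v j hj
    unfold Dt Et
    rw [t1]
    apply t4 _ j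
    rw [sub_mul, mul_sub, mul_sub, o3 _ _ (by omega), o3 _ _ (by omega), o3 _ _ (by omega),
      o3 _ _ (by omega)]
    simp
  · intro a w
    have h := t3 (fun j => Ico (a j) (a j + w)) (fun _ k => EM L (k + 1) - EM L k)
    unfold Dt
    rw [← h]
    congr 1
    funext j
    rw [tel (fun k => EM L k) (a j) (a j + w) (by omega)]
  · intro a m hm ha
    have h := t3 (fun j => Ico (a j) m) (fun _ k => IM L (k + 1) - IM L k)
    unfold Et
    rw [← h]
    congr 1
    funext j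
    rw [tel (fun k => IM L k) (a j) m (ha j), (o4 m hm).2]
  · intro a w
    refine ⟨?_, ?_, ?_⟩
    · rw [t1]
      congr 1
      funext j
      rw [mul_sub, mul_one, sub_mul, o3 _ _ (by omega), o3 _ _ le_rfl]
      simp
    · rw [t1]
      congr 1
      funext j
      rw [sub_mul, o1, o1, min_self, min_eq_left (by omega)]
    · rw [t1]
      congr 1
      funext j
      rw [mul_sub, sub_mul, sub_mul, o1, o1, o1, o1, min_self, min_self,
        min_eq_left (by omega : a j ≤ a j + w), min_eq_right (by omega : a j ≤ a j + w)]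
      simp
  · intro v j hj
    refine ⟨?_, ?_⟩
    · apply t4 _ j
      rw [(o4 _ (by omega)).2, (o4 _ (by omega)).2, sub_self]
    · apply t4 _ j
      rw [(o4 _ (by omega)).1, (o4 _ (by omega)).1, sub_self]

end Pool.Agent.MP_bc5265.R2
end

section
/-!
# DN1: discrete norms over a coarse grid, one coordinate
-/
set_option linter.unusedSectionVars false

open MeasureTheory Finset Matrix

namespace Pool.Agent.MP_bc5265.R2

namespace DN1M

/-! ### norms -/

/-- unnormalised `ℓ_p` norm over `S × Y` -/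
noncomputable def nm (p : ℝ) {X Y : Type} [Fintype Y] (S : Finset X) (F : X → Y → ℝ) : ℝ :=
  (∑ z ∈ S ×ˢ (univ : Finset Y), |F z.1 z.2| ^ p) ^ (1 / p)

section norms

variable {p : ℝ} {X Y : Type} [Fintype Y] (S : Finset X)

theorem nm_nonneg (F : X → Y → ℝ) : 0 ≤ nm p S F := by
  unfold nm
  exact Real.rpow_nonneg (sum_nonneg fun z _ => Real.rpow_nonneg (abs_nonneg _) _) _

theorem nm_add (hp : 1 ≤ p) (F G : X → Y → ℝ) : nm p S (F + G) ≤ nm p S F + nm p S G :=
  Real.Lp_add_le _ (fun z : X × Y => F z.1 z.2) (fun z => G z.1 z.2) hp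

theorem nm_pow (hp : 1 ≤ p) (F : X → Y → ℝ) :
    nm p S F ^ p = ∑ x ∈ S, ∑ y, |F x y| ^ p := by
  unfold nm
  rw [← Real.rpow_mul (sum_nonneg fun z _ => Real.rpow_nonneg (abs_nonneg _) _),
    one_div_mul_cancel (by positivity), Real.rpow_one, sum_product]

theorem nm_eq (F : X → Y → ℝ) :
    nm p S F = (∑ x ∈ S, ∑ y, |F x y| ^ p) ^ (1 / p) := by
  unfold nm
  rw [sum_product]

theorem nm_smul (hp : 1 ≤ p) (c : ℝ) (F : X → Y → ℝ) :
    nm p S (c • F) = |c| * nm p S F := by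
  unfold nm
  have h : ∀ z : X × Y, |(c • F) z.1 z.2| ^ p = |c| ^ p * |F z.1 z.2| ^ p := by
    intro z
    rw [Pi.smul_apply, Pi.smul_apply, smul_eq_mul, abs_mul,
      Real.mul_rpow (abs_nonneg _) (abs_nonneg _)]
  simp_rw [h]
  rw [← mul_sum, Real.mul_rpow (Real.rpow_nonneg (abs_nonneg _) _)
    (sum_nonneg fun z _ => Real.rpow_nonneg (abs_nonneg _) _),
    ← Real.rpow_mul (abs_nonneg _), mul_one_div_cancel (by positivity), Real.rpow_one]

theorem nm_zero (hp : 1 ≤ p) : nm p S (0 : X → Y → ℝ) = 0 := by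
  have := nm_smul S hp 0 (0 : X → Y → ℝ)
  simpa using this

theorem nm_sum (hp : 1 ≤ p) {ι : Type} (s : Finset ι) (F : ι → X → Y → ℝ) :
    nm p S (∑ i ∈ s, F i) ≤ ∑ i ∈ s, nm p S (F i) := by
  classical
  induction s using Finset.induction_on with
  | empty => simp [nm_zero S hp]
  | insert i s hi ih =>
    rw [sum_insert hi, sum_insert hi]
    exact (nm_add S hp _ _).trans (by gcongr)

theorem nm_neg (hp : 1 ≤ p) (F : X → Y → ℝ) : nm p S (-F) = nm p S F := by
  have := nm_smul S hp (-1) F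
  rw [neg_one_smul] at this
  simpa using this

theorem nm_sub (hp : 1 ≤ p) (F G : X → Y → ℝ) : nm p S (F - G) ≤ nm p S F + nm p S G := by
  rw [sub_eq_add_neg]
  exact (nm_add S hp _ _).trans (by rw [nm_neg S hp])

theorem nm_le (hp : 1 ≤ p) (F : X → Y → ℝ) (B : ℝ) (hB : 0 ≤ B)
    (h : ∑ x ∈ S, ∑ y, |F x y| ^ p ≤ B ^ p) : nm p S F ≤ B := by
  rw [nm_eq]
  have hp0 : p ≠ 0 := by positivity
  calc (∑ x ∈ S, ∑ y, |F x y| ^ p) ^ (1 / p) ≤ (B ^ p) ^ (1 / p) :=
        Real.rpow_le_rpow (sum_nonneg fun x _ => sum_nonneg fun y _ =>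
          Real.rpow_nonneg (abs_nonneg _) _) h (by positivity)
    _ = B := by
        rw [← Real.rpow_mul hB, mul_one_div_cancel hp0, Real.rpow_one]

end norms

/-! ### shifts -/

section shifts

variable {L : ℕ} {Y : Type} [Fintype Y]

/-- cyclic shift of a point -/
def shp (L : ℕ) (x : Fin (2 ^ L)) (s : ℕ) : Fin (2 ^ L) :=
  ⟨((x : ℕ) + s) % 2 ^ L, Nat.mod_lt _ (by positivity)⟩

theorem SM_mul (s : ℕ) (F : Matrix (Fin (2 ^ L)) Y ℝ) (x : Fin (2 ^ L)) (y : Y) :
    (SM L s * F) x y = F (shp L x s) y := by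
  rw [Matrix.mul_apply, Finset.sum_eq_single (shp L x s)]
  · simp [SM, shp]
  · intro z _ hz
    have : ¬ ((z : ℕ) = ((x : ℕ) + s) % 2 ^ L) := fun h => hz (Fin.ext h)
    simp [SM, this]
  · simp

theorem SM_add (s t : ℕ) : SM L s * SM L t = SM L (s + t) := by
  ext x y
  rw [SM_mul]
  unfold SM shp
  simp only
  rw [Nat.mod_add_mod, add_assoc]

theorem SM_zero : SM L 0 = 1 := by
  ext x y
  unfold SM
  rw [add_zero, Nat.mod_eq_of_lt x.2, Matrix.one_apply]
  by_cases h : x = y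
  · simp [h]
  · rw [if_neg h, if_neg (fun h' => h (Fin.ext h'.symm))]

theorem SM_pow (s : ℕ) : (SM L 1) ^ s = SM L s := by
  induction s with
  | zero => rw [pow_zero, SM_zero]
  | succ s ih => rw [pow_succ, ih, SM_add]

open Polynomial in
/-- action of polynomials in the shift -/
noncomputable def act (P : ℝ[X]) (F : Matrix (Fin (2 ^ L)) Y ℝ) : Matrix (Fin (2 ^ L)) Y ℝ :=
  (aeval (SM L 1 : M1 L) P) * F

open Polynomial

theorem act_add (P Q : ℝ[X]) (F : Matrix (Fin (2 ^ L)) Y ℝ) :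
    act (P + Q) F = act P F + act Q F := by
  unfold act; rw [map_add, Matrix.add_mul]

theorem act_sub (P Q : ℝ[X]) (F : Matrix (Fin (2 ^ L)) Y ℝ) :
    act (P - Q) F = act P F - act Q F := by
  unfold act; rw [map_sub, Matrix.sub_mul]

theorem act_mul (P Q : ℝ[X]) (F : Matrix (Fin (2 ^ L)) Y ℝ) :
    act (P * Q) F = act P (act Q F) := by
  unfold act; rw [map_mul, Matrix.mul_assoc]

theorem act_C_mul (c : ℝ) (P : ℝ[X]) (F : Matrix (Fin (2 ^ L)) Y ℝ) :
    act (C c * P) F = c • act P F := by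
  unfold act
  rw [map_mul, aeval_C, Algebra.algebraMap_eq_smul_one, smul_mul_assoc, one_mul,
    Matrix.smul_mul]

theorem act_one (F : Matrix (Fin (2 ^ L)) Y ℝ) : act 1 F = F := by
  unfold act; rw [map_one, Matrix.one_mul]

theorem act_sum {ι : Type} (s : Finset ι) (P : ι → ℝ[X]) (F : Matrix (Fin (2 ^ L)) Y ℝ) :
    act (∑ i ∈ s, P i) F = ∑ i ∈ s, act (P i) F := by
  unfold act
  rw [map_sum, Matrix.sum_mul]

theorem act_X_pow (s : ℕ) (F : Matrix (Fin (2 ^ L)) Y ℝ) (x : Fin (2 ^ L)) (y : Y) :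
    act (X ^ s) F x y = F (shp L x s) y := by
  unfold act
  rw [map_pow, aeval_X, SM_pow, SM_mul]

theorem act_DM (l t : ℕ) (F : Matrix (Fin (2 ^ L)) Y ℝ) :
    act ((X ^ t - 1) ^ l) F = DM L l t * F := by
  unfold act DM
  rw [map_pow, map_sub, map_pow, aeval_X, map_one, SM_pow]

end shifts

open Polynomial in
/-- averaged shift -/
noncomputable def avp (a h : ℕ) : ℝ[X] := C (1 / (h : ℝ)) * ∑ θ ∈ range h, X ^ (a * θ)

open Polynomial in
/-- the operator `S` -/
noncomputable def Pj (l h : ℕ) : ℝ[X] :=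
  ∑ a ∈ range l, C ((-1 : ℝ) ^ a * (l.choose (a + 1))) * avp (a + 1) h

open Polynomial in
theorem one_sub_Pj (l h : ℕ) (hh : 0 < h) :
    (1 : ℝ[X]) - Pj l h =
      C ((-1 : ℝ) ^ l * (1 / (h : ℝ))) * ∑ θ ∈ range h, ((X : ℝ[X]) ^ θ - 1) ^ l := by
  have hh' : (h : ℝ) ≠ 0 := by positivity
  have e1 : ∀ θ : ℕ, C ((-1 : ℝ) ^ l) * ((X : ℝ[X]) ^ θ - 1) ^ l =
      1 - ∑ a ∈ range l, C ((-1 : ℝ) ^ a * (l.choose (a + 1))) * X ^ ((a + 1) * θ) := by
    intro θ
    have e2 : C ((-1 : ℝ) ^ l) * ((X : ℝ[X]) ^ θ - 1) ^ l = (-(X ^ θ) + 1) ^ l := by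
      rw [map_pow, map_neg, map_one, ← mul_pow]
      congr 1
      ring
    rw [e2, add_pow, sum_range_succ']
    rw [add_comm]
    rw [sub_eq_add_neg, ← sum_neg_distrib]
    congr 1
    · simp
    · refine sum_congr rfl fun a _ => ?_
      rw [one_pow, mul_one, map_mul, map_pow, map_neg, map_one, map_natCast]
      rw [neg_pow ((X : ℝ[X]) ^ θ), ← pow_mul, pow_succ, mul_comm θ (a + 1)]
      ring
  rw [map_mul, mul_comm (C ((-1 : ℝ) ^ l)), mul_assoc, mul_sum]
  simp_rw [e1]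
  rw [sum_sub_distrib, mul_sub]
  congr 1
  · rw [sum_const, card_range, nsmul_eq_mul, mul_one, ← map_natCast C h, ← map_mul,
      one_div_mul_cancel hh', map_one]
  · unfold Pj avp
    rw [sum_comm, mul_sum]
    refine sum_congr rfl fun a _ => ?_
    rw [← mul_sum]
    ring

theorem Pj_top (l : ℕ) (hl : 1 ≤ l) : Pj l 1 = 1 := by
  have h := one_sub_Pj l 1 one_pos
  rw [range_one, sum_singleton, pow_zero, sub_self, zero_pow (by omega), mul_zero] at h
  exact (sub_eq_zero.1 h).symm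

section bounds

variable {L : ℕ} {Y : Type} [Fintype Y] {p : ℝ}

theorem full_bound (hp : 1 ≤ p) (l h : ℕ) (hh : 0 < h) (F : Matrix (Fin (2 ^ L)) Y ℝ) (B : ℝ)
    (hB : ∀ θ < h, nm p univ (DM L l θ * F) ≤ B) :
    nm p univ (act (1 - Pj l h) F) ≤ B := by
  rw [one_sub_Pj l h hh, act_C_mul, act_sum]
  have e : nm p univ (((-1 : ℝ) ^ l * (1 / (h : ℝ))) •
      ∑ θ ∈ range h, act (((Polynomial.X : Polynomial ℝ) ^ θ - 1) ^ l) F) =
      (1 / (h : ℝ)) * nm p univ (∑ θ ∈ range h,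
        act (((Polynomial.X : Polynomial ℝ) ^ θ - 1) ^ l) F) := by
    have := nm_smul (p := p) (univ : Finset (Fin (2 ^ L))) hp ((-1 : ℝ) ^ l * (1 / (h : ℝ)))
      (∑ θ ∈ range h, act (((Polynomial.X : Polynomial ℝ) ^ θ - 1) ^ l) F)
    refine this.trans ?_
    rw [abs_mul, abs_pow, abs_neg, abs_one, one_pow, one_mul, abs_of_nonneg (by positivity)]
  refine e.trans_le ?_
  have hh' : (0 : ℝ) < h := by exact_mod_cast hh
  rw [one_div_mul_eq_div, div_le_iff₀ hh']
  refine (nm_sum _ hp _ _).trans ?_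
  refine (sum_le_sum (g := fun _ => B) fun θ hθ => ?_).trans ?_
  · rw [act_DM]
    exact hB θ (mem_range.1 hθ)
  · rw [sum_const, card_range, nsmul_eq_mul, mul_comm]

/-- coarse grid -/
def cg (L k : ℕ) : Finset (Fin (2 ^ L)) :=
  univ.filter (fun x : Fin (2 ^ L) => 2 ^ (L - k) ∣ (x : ℕ))

theorem count (k a h : ℕ) (ha : 1 ≤ a) (hh : h ≤ 2 ^ (L - k))
    (g : Fin (2 ^ L) → ℝ) (hg : ∀ x, 0 ≤ g x) :
    ∑ x ∈ cg L k, ∑ θ ∈ range h, g (shp L x (a * θ)) ≤ a * ∑ w, g w := by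
  rw [← sum_product', ← sum_fiberwise (cg L k ×ˢ range h) (fun q => shp L q.1 (a * q.2)),
    mul_sum]
  refine sum_le_sum fun w _ => ?_
  set S := (cg L k ×ˢ range h).filter (fun q => shp L q.1 (a * q.2) = w) with hS
  have h1 : ∑ q ∈ S, g (shp L q.1 (a * q.2)) = S.card * g w := by
    rw [← nsmul_eq_mul, ← sum_const]
    refine sum_congr rfl fun q hq => ?_
    rw [hS, mem_filter] at hq
    rw [hq.2]
  rw [h1]
  refine mul_le_mul_of_nonneg_right ?_ (hg w)
  have hHM : 2 ^ (L - k) ∣ 2 ^ L := pow_dvd_pow _ (Nat.sub_le _ _)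
  have key : ∀ q ∈ S, (a * q.2) % 2 ^ (L - k) = (w : ℕ) % 2 ^ (L - k) ∧
      2 ^ (L - k) ∣ (q.1 : ℕ) ∧ q.2 < h ∧ ((q.1 : ℕ) + a * q.2) % 2 ^ L = w := by
    intro q hq
    rw [hS, mem_filter, mem_product, cg, mem_filter, mem_range] at hq
    obtain ⟨⟨⟨-, h2⟩, h3⟩, h4⟩ := hq
    have h5 : ((q.1 : ℕ) + a * q.2) % 2 ^ L = w := congrArg Fin.val h4
    refine ⟨?_, h2, h3, h5⟩
    rw [← h5, Nat.mod_mod_of_dvd _ hHM]
    obtain ⟨c, hc⟩ := h2
    rw [hc, Nat.mul_add_mod]
  have hcard : S.card ≤ (range a).card := by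
    refine card_le_card_of_injOn (fun q => (a * q.2) / 2 ^ (L - k)) ?_ ?_
    · intro q hq
      obtain ⟨-, -, h3, -⟩ := key q hq
      rw [coe_range, Set.mem_Iio]
      refine Nat.div_lt_of_lt_mul ?_
      rw [mul_comm]
      exact Nat.mul_lt_mul_of_pos_right (lt_of_lt_of_le h3 hh) (by omega)
    · intro q hq q' hq' hqq
      obtain ⟨h1, h2, h3, h4⟩ := key q hq
      obtain ⟨h1', h2', h3', h4'⟩ := key q' hq'
      have e1 : a * q.2 = a * q'.2 := by
        rw [← Nat.div_add_mod (a * q.2) (2 ^ (L - k)), ← Nat.div_add_mod (a * q'.2) (2 ^ (L - k)),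
          h1, h1']
        have : a * q.2 / 2 ^ (L - k) = a * q'.2 / 2 ^ (L - k) := hqq
        rw [this]
      have e2 : q.2 = q'.2 := Nat.eq_of_mul_eq_mul_left (by omega) e1
      have e3 : ((q.1 : ℕ) + a * q.2) ≡ ((q'.1 : ℕ) + a * q.2) [MOD 2 ^ L] := by
        unfold Nat.ModEq
        rw [h4, e1, h4']
      have e4 : (q.1 : ℕ) ≡ q'.1 [MOD 2 ^ L] := Nat.ModEq.add_right_cancel' _ e3
      have e5 : (q.1 : ℕ) = q'.1 := Nat.ModEq.eq_of_lt_of_lt e4 q.1.2 q'.1.2
      exact Prod.ext (Fin.ext e5) e2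
  rw [card_range] at hcard
  exact_mod_cast hcard

theorem coarse_av (hp : 1 ≤ p) (k a h : ℕ) (ha : 1 ≤ a) (hh0 : 0 < h)
    (hh : h ≤ 2 ^ (L - k)) (G : Matrix (Fin (2 ^ L)) Y ℝ) :
    nm p (cg L k) (act (avp a h) G) ≤ ((a : ℝ) / h) ^ (1 / p) * nm p univ G := by
  have hh' : (0 : ℝ) < h := by exact_mod_cast hh0
  have e1 : ∀ x y, act (avp a h) G x y = ∑ θ ∈ range h, (1 / (h : ℝ)) * G (shp L x (a * θ)) y := by
    intro x y
    unfold avp
    rw [act_C_mul, act_sum, Matrix.smul_apply, Matrix.sum_apply, smul_eq_mul, mul_sum]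
    refine sum_congr rfl fun θ _ => ?_
    rw [act_X_pow]
  have e2 : ∀ x y, |act (avp a h) G x y| ^ p ≤
      ∑ θ ∈ range h, (1 / (h : ℝ)) * |G (shp L x (a * θ)) y| ^ p := by
    intro x y
    rw [e1]
    refine (Real.rpow_le_rpow (abs_nonneg _) (abs_sum_le_sum_abs _ _) (by positivity)).trans ?_
    have e3 : ∀ θ, |1 / (h : ℝ) * G (shp L x (a * θ)) y| = 1 / (h : ℝ) * |G (shp L x (a * θ)) y| := by
      intro θ
      rw [abs_mul, abs_of_nonneg (by positivity)]
    simp_rw [e3]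
    refine Real.rpow_arith_mean_le_arith_mean_rpow _ _ _ ?_ ?_ ?_ hp
    · intro i _; positivity
    · rw [sum_const, card_range, nsmul_eq_mul, mul_one_div_cancel hh'.ne']
    · intro i _; exact abs_nonneg _
  have e4 : ∑ x ∈ cg L k, ∑ y, |act (avp a h) G x y| ^ p ≤
      (a : ℝ) / h * ∑ x, ∑ y, |G x y| ^ p := by
    calc ∑ x ∈ cg L k, ∑ y, |act (avp a h) G x y| ^ p
        ≤ ∑ x ∈ cg L k, ∑ y, ∑ θ ∈ range h, (1 / (h : ℝ)) * |G (shp L x (a * θ)) y| ^ p :=
          sum_le_sum fun x _ => sum_le_sum fun y _ => e2 x y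
      _ = ∑ y, (1 / (h : ℝ)) * ∑ x ∈ cg L k, ∑ θ ∈ range h, |G (shp L x (a * θ)) y| ^ p := by
          rw [sum_comm]
          refine sum_congr rfl fun y _ => ?_
          rw [mul_sum]
          refine sum_congr rfl fun x _ => ?_
          rw [mul_sum]
      _ ≤ ∑ y, (1 / (h : ℝ)) * (a * ∑ x, |G x y| ^ p) := by
          refine sum_le_sum fun y _ => ?_
          refine mul_le_mul_of_nonneg_left ?_ (by positivity)
          exact count k a h ha hh (fun x => |G x y| ^ p)
            (fun x => Real.rpow_nonneg (abs_nonneg _) _)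
      _ = (a : ℝ) / h * ∑ x, ∑ y, |G x y| ^ p := by
          rw [sum_comm (s := (univ : Finset (Fin (2 ^ L)))), mul_sum]
          refine sum_congr rfl fun y _ => ?_
          ring
  have e5 : nm p univ G = (∑ x, ∑ y, |G x y| ^ p) ^ (1 / p) := nm_eq _ _
  have hn : 0 ≤ ∑ x, ∑ y, |G x y| ^ p := sum_nonneg fun x _ => sum_nonneg fun y _ =>
          Real.rpow_nonneg (abs_nonneg _) _
  have e6 : ((a : ℝ) / h) ^ (1 / p) * nm p univ G =
      ((a : ℝ) / h * ∑ x, ∑ y, |G x y| ^ p) ^ (1 / p) := by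
    rw [e5, ← Real.mul_rpow (by positivity) hn]
  refine ((nm_eq (p := p) (cg L k) (act (avp a h) G)).trans_le ?_).trans_eq e6.symm
  exact Real.rpow_le_rpow (sum_nonneg fun x _ => sum_nonneg fun y _ =>
          Real.rpow_nonneg (abs_nonneg _) _) e4 (by positivity)

/-- the constant -/
noncomputable def Cl (l : ℕ) (p : ℝ) : ℝ :=
  ∑ a ∈ range l, (l.choose (a + 1) : ℝ) * ((a + 1 : ℕ) : ℝ) ^ (1 / p)

theorem Cl_nonneg (l : ℕ) (p : ℝ) : 0 ≤ Cl l p :=
  sum_nonneg fun a _ => by positivity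

theorem coarse_Pj (hp : 1 ≤ p) (l k h : ℕ) (hh0 : 0 < h)
    (hh : h ≤ 2 ^ (L - k)) (G : Matrix (Fin (2 ^ L)) Y ℝ) :
    nm p (cg L k) (act (Pj l h) G) ≤ Cl l p * ((1 : ℝ) / h) ^ (1 / p) * nm p univ G := by
  unfold Pj Cl
  rw [act_sum, sum_mul, sum_mul]
  refine (nm_sum _ hp _ _).trans (sum_le_sum fun a _ => ?_)
  rw [act_C_mul]
  have := nm_smul (p := p) (cg L k) hp ((-1 : ℝ) ^ a * (l.choose (a + 1))) (act (avp (a + 1) h) G)
  refine this.trans_le ?_
  rw [abs_mul, abs_pow, abs_neg, abs_one, one_pow, one_mul, abs_of_nonneg (by positivity),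
    mul_assoc, mul_assoc]
  refine mul_le_mul_of_nonneg_left ?_ (by positivity)
  have h2 := coarse_av hp k (a + 1) h (by omega) hh0 hh G
  refine h2.trans_eq ?_
  rw [← mul_assoc, ← Real.mul_rpow (by positivity) (by positivity)]
  congr 2
  ring

end bounds

section final

variable {L : ℕ} {Y : Type} [Fintype Y] {p : ℝ}

theorem two_rpow_mul (a b : ℝ) : (2 : ℝ) ^ a * (2 : ℝ) ^ b = (2 : ℝ) ^ (a + b) :=
  (Real.rpow_add two_pos a b).symm

theorem two_div_pow (hp : 1 ≤ p) (n : ℕ) : ((2 : ℝ) ^ ((n : ℝ) / p)) ^ p = 2 ^ n := by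
  rw [← Real.rpow_mul two_pos.le, div_mul_cancel₀ _ (by positivity), Real.rpow_natCast]

theorem pw (i : ℕ) (hi : i ≤ L) :
    ((1 : ℝ) / ((2 ^ (L - i) : ℕ) : ℝ)) ^ (1 / p) * (2 : ℝ) ^ ((L : ℝ) / p) =
      (2 : ℝ) ^ ((i : ℝ) / p) := by
  have h1 : (1 : ℝ) / ((2 ^ (L - i) : ℕ) : ℝ) = (2 : ℝ) ^ ((i : ℝ) - L) := by
    push_cast
    rw [← Real.rpow_natCast, Nat.cast_sub hi, one_div, ← Real.rpow_neg two_pos.le]
    congr 1
    ring
  rw [h1, ← Real.rpow_mul two_pos.le, two_rpow_mul]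
  congr 1
  ring

theorem step_bound (hp : 1 ≤ p) (l k : ℕ) (F : Matrix (Fin (2 ^ L)) Y ℝ) (Nd : ℕ → ℝ)
    (hD : ∀ i t : ℕ, k ≤ i → i ≤ L → t ≤ 2 ^ (L - i) →
      nm p univ (DM L l t * F) ≤ (2 : ℝ) ^ ((L : ℝ) / p) * Nd i) (hNd : ∀ i, 0 ≤ Nd i)
    (i : ℕ) (hki : k ≤ i) (hi : i < L) :
    nm p (cg L k) (act (Pj l (2 ^ (L - (i + 1))) - Pj l (2 ^ (L - i))) F) ≤
      3 * Cl l p * (2 : ℝ) ^ ((i : ℝ) / p) * Nd i := by
  have hpow : 2 ^ (L - (i + 1)) ≤ 2 ^ (L - i) := Nat.pow_le_pow_right (by omega) (by omega)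
  have hA : nm p univ (act (1 - Pj l (2 ^ (L - i))) F) ≤ (2 : ℝ) ^ ((L : ℝ) / p) * Nd i :=
    full_bound hp l _ (by positivity) F _ fun θ hθ => hD i θ hki hi.le hθ.le
  have hB : nm p univ (act (1 - Pj l (2 ^ (L - (i + 1)))) F) ≤ (2 : ℝ) ^ ((L : ℝ) / p) * Nd i :=
    full_bound hp l _ (by positivity) F _ fun θ hθ => hD i θ hki hi.le (hθ.le.trans hpow)
  have e : Pj l (2 ^ (L - (i + 1))) - Pj l (2 ^ (L - i)) =
      Pj l (2 ^ (L - (i + 1))) * (1 - Pj l (2 ^ (L - i))) -
        Pj l (2 ^ (L - i)) * (1 - Pj l (2 ^ (L - (i + 1)))) := by ring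
  rw [e, act_sub, act_mul, act_mul]
  refine (nm_sub (p := p) (cg L k) hp _ _).trans ?_
  have hC := Cl_nonneg l p
  have hC1 : nm p (cg L k) (act (Pj l (2 ^ (L - (i + 1)))) (act (1 - Pj l (2 ^ (L - i))) F)) ≤
      2 * (Cl l p * (2 : ℝ) ^ ((i : ℝ) / p) * Nd i) := by
    refine (coarse_Pj hp l k _ (by positivity)
      (Nat.pow_le_pow_right (by omega) (by omega)) _).trans ?_
    calc Cl l p * ((1 : ℝ) / ((2 ^ (L - (i + 1)) : ℕ) : ℝ)) ^ (1 / p) *
          nm p univ (act (1 - Pj l (2 ^ (L - i))) F)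
        ≤ Cl l p * ((1 : ℝ) / ((2 ^ (L - (i + 1)) : ℕ) : ℝ)) ^ (1 / p) *
          ((2 : ℝ) ^ ((L : ℝ) / p) * Nd i) :=
          mul_le_mul_of_nonneg_left hA (by positivity)
      _ = Cl l p * (((1 : ℝ) / ((2 ^ (L - (i + 1)) : ℕ) : ℝ)) ^ (1 / p) *
          (2 : ℝ) ^ ((L : ℝ) / p)) * Nd i := by ring
      _ = Cl l p * (2 : ℝ) ^ (((i + 1 : ℕ) : ℝ) / p) * Nd i := by rw [pw (i + 1) hi]
      _ ≤ Cl l p * (2 * (2 : ℝ) ^ ((i : ℝ) / p)) * Nd i := by
          have h2 : (2 : ℝ) ^ (((i + 1 : ℕ) : ℝ) / p) ≤ 2 * (2 : ℝ) ^ ((i : ℝ) / p) := by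
            have h3 : ((i + 1 : ℕ) : ℝ) / p = 1 / p + (i : ℝ) / p := by push_cast; ring
            rw [h3, ← two_rpow_mul]
            refine mul_le_mul_of_nonneg_right ?_ (by positivity)
            calc (2 : ℝ) ^ (1 / p) ≤ (2 : ℝ) ^ (1 : ℝ) :=
                  Real.rpow_le_rpow_of_exponent_le one_le_two (by
                    rw [div_le_one (by positivity)]; exact hp)
              _ = 2 := Real.rpow_one 2
          exact mul_le_mul_of_nonneg_right (mul_le_mul_of_nonneg_left h2 hC) (hNd i)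
      _ = 2 * (Cl l p * (2 : ℝ) ^ ((i : ℝ) / p) * Nd i) := by ring
  have hC2 : nm p (cg L k) (act (Pj l (2 ^ (L - i))) (act (1 - Pj l (2 ^ (L - (i + 1)))) F)) ≤
      Cl l p * (2 : ℝ) ^ ((i : ℝ) / p) * Nd i := by
    refine (coarse_Pj hp l k _ (by positivity)
      (Nat.pow_le_pow_right (by omega) (by omega)) _).trans ?_
    calc Cl l p * ((1 : ℝ) / ((2 ^ (L - i) : ℕ) : ℝ)) ^ (1 / p) *
          nm p univ (act (1 - Pj l (2 ^ (L - (i + 1)))) F)
        ≤ Cl l p * ((1 : ℝ) / ((2 ^ (L - i) : ℕ) : ℝ)) ^ (1 / p) *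
          ((2 : ℝ) ^ ((L : ℝ) / p) * Nd i) :=
          mul_le_mul_of_nonneg_left hB (by positivity)
      _ = Cl l p * (((1 : ℝ) / ((2 ^ (L - i) : ℕ) : ℝ)) ^ (1 / p) *
          (2 : ℝ) ^ ((L : ℝ) / p)) * Nd i := by ring
      _ = Cl l p * (2 : ℝ) ^ ((i : ℝ) / p) * Nd i := by rw [pw i hi.le]
  linarith

theorem partial_bound (hp : 1 ≤ p) (l k : ℕ) (F : Matrix (Fin (2 ^ L)) Y ℝ) (N : ℝ) (Nd : ℕ → ℝ)
    (hk : k ≤ L) (hF : nm p univ F ≤ (2 : ℝ) ^ ((L : ℝ) / p) * N)
    (hD : ∀ i t : ℕ, k ≤ i → i ≤ L → t ≤ 2 ^ (L - i) →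
      nm p univ (DM L l t * F) ≤ (2 : ℝ) ^ ((L : ℝ) / p) * Nd i) (hNd : ∀ i, 0 ≤ Nd i)
    (m : ℕ) (hm : k + m ≤ L) :
    nm p (cg L k) (act (Pj l (2 ^ (L - (k + m)))) F) ≤
      Cl l p * (2 : ℝ) ^ ((k : ℝ) / p) * N +
        ∑ i ∈ Ico k (k + m), 3 * Cl l p * (2 : ℝ) ^ ((i : ℝ) / p) * Nd i := by
  induction m with
  | zero =>
    rw [add_zero, Ico_self, sum_empty, add_zero]
    refine (coarse_Pj hp l k _ (by positivity) le_rfl _).trans ?_
    have hC := Cl_nonneg l p
    calc Cl l p * ((1 : ℝ) / ((2 ^ (L - k) : ℕ) : ℝ)) ^ (1 / p) * nm p univ F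
        ≤ Cl l p * ((1 : ℝ) / ((2 ^ (L - k) : ℕ) : ℝ)) ^ (1 / p) *
          ((2 : ℝ) ^ ((L : ℝ) / p) * N) :=
          mul_le_mul_of_nonneg_left hF (by positivity)
      _ = Cl l p * (((1 : ℝ) / ((2 ^ (L - k) : ℕ) : ℝ)) ^ (1 / p) *
          (2 : ℝ) ^ ((L : ℝ) / p)) * N := by ring
      _ = Cl l p * (2 : ℝ) ^ ((k : ℝ) / p) * N := by rw [pw k hk]
  | succ m ih =>
    have ih' := ih (by omega)
    have e : Pj l (2 ^ (L - (k + (m + 1)))) = Pj l (2 ^ (L - (k + m))) +
        (Pj l (2 ^ (L - (k + m + 1))) - Pj l (2 ^ (L - (k + m)))) := by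
      rw [← add_assoc k m 1]; ring
    rw [e, act_add, ← add_assoc k m 1, sum_Ico_succ_top (by omega)]
    refine (nm_add (p := p) (cg L k) hp _ _).trans ?_
    have hs := step_bound hp l k F Nd hD hNd (k + m) (by omega) (by omega)
    rw [← add_assoc]
    exact add_le_add ih' hs

end final

end DN1M

open DN1M in
theorem specDN1 : SpecDN1 := by
  intro l p hp
  have hp0 : 0 < p := by positivity
  rcases Nat.eq_zero_or_pos l with hl | hl
  · subst hl
    refine ⟨1, one_pos, ?_⟩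
    intro L k Y _ F N Nd hk hN hNd hF hD
    have h1 := hD L 0 hk le_rfl (Nat.zero_le _)
    have e : ∀ x y, ∑ z, DM L 0 0 x z * F z y = F x y := by
      intro x y
      unfold DM
      simp [Matrix.one_apply]
    simp_rw [e] at h1
    have hs : (2 : ℝ) ^ (((L : ℝ) - k) / p) * Nd L ≤
        ∑ i ∈ Icc k L, (2 : ℝ) ^ (((i : ℝ) - k) / p) * Nd i :=
      single_le_sum (f := fun i : ℕ => (2 : ℝ) ^ (((i : ℝ) - k) / p) * Nd i)
        (fun i _ => mul_nonneg (by positivity) (hNd i)) (mem_Icc.2 ⟨hk, le_rfl⟩)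
    calc ∑ x ∈ univ.filter (fun x : Fin (2 ^ L) => 2 ^ (L - k) ∣ (x : ℕ)), ∑ y, |F x y| ^ p
        ≤ ∑ x, ∑ y, |F x y| ^ p :=
          sum_le_sum_of_subset_of_nonneg (filter_subset _ _) fun x _ _ =>
            sum_nonneg fun y _ => Real.rpow_nonneg (abs_nonneg _) _
      _ ≤ 2 ^ L * Nd L ^ p := h1
      _ = 2 ^ k * ((2 : ℝ) ^ (((L : ℝ) - k) / p) * Nd L) ^ p := by
          rw [Real.mul_rpow (by positivity) (hNd L), ← mul_assoc]
          congr 1
          rw [← Real.rpow_mul two_pos.le, div_mul_cancel₀ _ hp0.ne', ← Real.rpow_natCast,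
            ← Real.rpow_natCast, two_rpow_mul]
          congr 1
          ring
      _ ≤ 2 ^ k * (1 * (N + ∑ i ∈ Icc k L, (2 : ℝ) ^ (((i : ℝ) - k) / p) * Nd i)) ^ p := by
          refine mul_le_mul_of_nonneg_left ?_ (by positivity)
          refine Real.rpow_le_rpow (mul_nonneg (by positivity) (hNd L)) ?_ hp0.le
          linarith
  · refine ⟨3 * Cl l p + 1, by have := Cl_nonneg l p; linarith, ?_⟩
    intro L k Y _ (F : Matrix (Fin (2 ^ L)) Y ℝ) N Nd hk hN hNd hF hD
    have hC := Cl_nonneg l p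
    have hF' : nm p univ F ≤ (2 : ℝ) ^ ((L : ℝ) / p) * N := by
      refine nm_le _ hp _ _ (by positivity) ?_
      rw [Real.mul_rpow (by positivity) hN, two_div_pow hp]
      exact hF
    have hD' : ∀ i t : ℕ, k ≤ i → i ≤ L → t ≤ 2 ^ (L - i) →
        nm p univ (DM L l t * F) ≤ (2 : ℝ) ^ ((L : ℝ) / p) * Nd i := by
      intro i t h1 h2 h3
      refine nm_le _ hp _ _ (mul_nonneg (by positivity) (hNd i)) ?_
      rw [Real.mul_rpow (by positivity) (hNd i), two_div_pow hp]
      exact hD i t h1 h2 h3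
    have h1 := partial_bound hp l k F N Nd hk hF' hD' hNd (L - k) (by omega)
    have e1 : k + (L - k) = L := by omega
    rw [e1, Nat.sub_self, pow_zero, Pj_top l hl, act_one] at h1
    set X := N + ∑ i ∈ Icc k L, (2 : ℝ) ^ (((i : ℝ) - k) / p) * Nd i with hX
    have hsum0 : 0 ≤ ∑ i ∈ Icc k L, (2 : ℝ) ^ (((i : ℝ) - k) / p) * Nd i :=
      sum_nonneg fun i _ => mul_nonneg (by positivity) (hNd i)
    have hX0 : 0 ≤ X := by rw [hX]; linarith
    have h2 : ∑ i ∈ Ico k L, 3 * Cl l p * (2 : ℝ) ^ ((i : ℝ) / p) * Nd i ≤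
        3 * Cl l p * (2 : ℝ) ^ ((k : ℝ) / p) *
          ∑ i ∈ Icc k L, (2 : ℝ) ^ (((i : ℝ) - k) / p) * Nd i := by
      rw [mul_sum]
      refine (sum_le_sum_of_subset_of_nonneg (Ico_subset_Icc_self) fun i _ _ => ?_).trans_eq ?_
      · exact mul_nonneg (by positivity) (hNd i)
      · refine sum_congr rfl fun i _ => ?_
        have h3 : (2 : ℝ) ^ ((i : ℝ) / p) = (2 : ℝ) ^ ((k : ℝ) / p) *
            (2 : ℝ) ^ (((i : ℝ) - k) / p) := by
          rw [two_rpow_mul]
          congr 1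
          ring
        rw [h3]
        ring
    have h4 : nm p (cg L k) F ≤ (2 : ℝ) ^ ((k : ℝ) / p) * ((3 * Cl l p + 1) * X) := by
      refine h1.trans ?_
      have h5 : Cl l p * (2 : ℝ) ^ ((k : ℝ) / p) * N ≤
          3 * Cl l p * (2 : ℝ) ^ ((k : ℝ) / p) * N := by
        have : 0 ≤ Cl l p * (2 : ℝ) ^ ((k : ℝ) / p) * N := by positivity
        linarith
      have h6 : 0 ≤ (2 : ℝ) ^ ((k : ℝ) / p) * X := by positivity
      calc Cl l p * (2 : ℝ) ^ ((k : ℝ) / p) * N +
            ∑ i ∈ Ico k L, 3 * Cl l p * (2 : ℝ) ^ ((i : ℝ) / p) * Nd i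
          ≤ 3 * Cl l p * (2 : ℝ) ^ ((k : ℝ) / p) * N + 3 * Cl l p * (2 : ℝ) ^ ((k : ℝ) / p) *
          ∑ i ∈ Icc k L, (2 : ℝ) ^ (((i : ℝ) - k) / p) * Nd i := add_le_add h5 h2
        _ = 3 * Cl l p * ((2 : ℝ) ^ ((k : ℝ) / p) * X) := by rw [hX]; ring
        _ ≤ (2 : ℝ) ^ ((k : ℝ) / p) * ((3 * Cl l p + 1) * X) := by nlinarith
    have h7 := Real.rpow_le_rpow (nm_nonneg _ _) h4 hp0.le
    rw [Real.mul_rpow (by positivity) (by positivity), two_div_pow hp] at h7
    exact (nm_pow (cg L k) hp F).symm.trans_le h7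

end Pool.Agent.MP_bc5265.R2
end

section
set_option linter.unusedSectionVars false

open MeasureTheory Finset Matrix
open scoped ENNReal

namespace Pool.Agent.MP_bc5265.R2

open Pool.Agent.MP_bc5265.S

theorem specDTG (hDEC : SpecDEC) (hCON : SpecCON) (hLAY : SpecLAY) (hSER : SpecSER)
    (hNRM : SpecNRM) : SpecDTG := by
  intro d p ρ hd hp hρ
  set x : ℝ := (2 : ℝ) ^ (-ρ) with hx
  have hx0 : 0 ≤ x := by rw [hx]; positivity
  have hx1 : x < 1 := by
    rw [hx]; exact Real.rpow_lt_one_of_one_lt_of_neg (by norm_num) (by linarith)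
  obtain ⟨CS, hCS, hser⟩ := hSER (d - 1) x hx0 hx1
  refine ⟨2 ^ d * CS * 2 ^ (d - 1), by positivity, ?_⟩
  intro n L β g t hβ hGG
  obtain ⟨hD1, hD2, hD3, -⟩ := hDEC d L
  obtain ⟨-, hC2, -⟩ := hCON d L p hp
  obtain ⟨-, hn0, -, -, -, hnsum, -⟩ := hNRM (Gr d L) p hp
  set T : ℕ := ∑ j, t j with hT
  set m0 : ℕ := max (n + 1) T with hm0
  have hm0n : n + 1 ≤ m0 := le_max_left _ _
  have hm0T : T ≤ m0 := le_max_right _ _
  set s : Finset (Fin d → ℕ) := (box d (L + 1)).filter fun v => (∀ j, t j ≤ v j) ∧ m0 ≤ ∑ j, v j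
    with hs
  have h1 : Dt L t *ᵥ g = ∑ v ∈ s, Dt L t *ᵥ (Et L v *ᵥ g) := by
    have e1 : Dt L t *ᵥ g = ∑ v ∈ box d (L + 1), Dt L t *ᵥ (Et L v *ᵥ g) := by
      calc Dt L t *ᵥ g = Dt L t *ᵥ ((∑ v ∈ box d (L + 1), Et L v) *ᵥ g) := by
            rw [hD2 (L + 1) le_rfl, Matrix.one_mulVec]
        _ = _ := by
            rw [Matrix.sum_mulVec, Matrix.mulVec_sum]
    rw [e1, hs, sum_filter]
    refine sum_congr rfl fun v hv => ?_
    split_ifs with hc
    · rfl
    · by_cases h2 : ∀ j, t j ≤ v j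
      · have h3 : ∑ j, v j < m0 := by
          by_contra h4
          exact hc ⟨h2, by omega⟩
        have h4 : T ≤ ∑ j, v j := sum_le_sum fun j _ => h2 j
        have h5 : ∑ j, v j ≤ n := by
          rw [hm0] at h3
          rcases lt_max_iff.mp h3 with h6 | h6 <;> omega
        rw [(hGG v).1 h5, Matrix.mulVec_zero]
      · push Not at h2
        obtain ⟨j, hj⟩ := h2
        rw [Matrix.mulVec_mulVec, hD3 t v j hj, Matrix.zero_mulVec]
  have h2 : ∀ v ∈ s, nrm p (Dt L t *ᵥ (Et L v *ᵥ g)) ≤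
      2 ^ d * (β * (2 : ℝ) ^ (-(ρ * (((∑ j, v j : ℕ) : ℝ) - (n : ℝ))))) := by
    intro v hv
    rw [hs, mem_filter] at hv
    have h3 := hC2 (fun j => t j + 1) t (Et L v *ᵥ g)
    refine h3.trans (mul_le_mul_of_nonneg_left ?_ (by positivity))
    exact (hGG v).2 (by omega)
  have h3 : nrm p (Dt L t *ᵥ g) ≤
      ∑ v ∈ s, 2 ^ d * (β * (2 : ℝ) ^ (-(ρ * (((∑ j, v j : ℕ) : ℝ) - (n : ℝ))))) := by
    rw [h1]
    exact (hnsum _ s _).trans (sum_le_sum h2)
  set J : ℕ := d * (L + 1) + 1 with hJ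
  have hmap : ∀ v ∈ s, ∑ j, v j - m0 ∈ range J := by
    intro v hv
    rw [hs, mem_filter] at hv
    have h4 : ∑ j, v j ≤ ∑ _j : Fin d, (L + 1) := by
      refine sum_le_sum fun j _ => ?_
      have := (Fintype.mem_piFinset.mp hv.1) j
      rw [mem_range] at this
      omega
    rw [sum_const, card_univ, Fintype.card_fin, smul_eq_mul] at h4
    rw [mem_range]
    omega
  set h : ℕ := m0 - T + 1 with hh
  have h4 : ∑ v ∈ s, 2 ^ d * (β * (2 : ℝ) ^ (-(ρ * (((∑ j, v j : ℕ) : ℝ) - (n : ℝ))))) ≤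
      2 ^ d * β * (2 : ℝ) ^ (-(ρ * ((m0 : ℝ) - n))) * (CS * (h : ℝ) ^ (d - 1)) := by
    rw [← sum_fiberwise_of_maps_to hmap]
    have h5 : ∀ i ∈ range J, ∑ v ∈ s with ∑ j, v j - m0 = i,
        2 ^ d * (β * (2 : ℝ) ^ (-(ρ * (((∑ j, v j : ℕ) : ℝ) - (n : ℝ))))) ≤
        2 ^ d * β * (2 : ℝ) ^ (-(ρ * ((m0 : ℝ) - n))) * (((h : ℝ) + i + 1) ^ (d - 1) * x ^ i) := by
      intro i _
      have h6 : ∀ v ∈ s.filter (fun v => ∑ j, v j - m0 = i),
          2 ^ d * (β * (2 : ℝ) ^ (-(ρ * (((∑ j, v j : ℕ) : ℝ) - (n : ℝ))))) =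
          2 ^ d * β * (2 : ℝ) ^ (-(ρ * ((m0 : ℝ) - n))) * x ^ i := by
        intro v hv
        rw [mem_filter, hs, mem_filter] at hv
        have h7 : ∑ j, v j = m0 + i := by
          have := hv.1.2.2
          have := hv.2
          omega
        have h8 : x ^ i = (2 : ℝ) ^ (-ρ * (i : ℝ)) := by
          rw [hx, ← Real.rpow_natCast, ← Real.rpow_mul (by norm_num)]
        rw [h7, h8, mul_assoc (2 ^ d), mul_assoc (2 ^ d), mul_assoc β,
          ← Real.rpow_add (by norm_num)]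
        congr 3
        push_cast
        ring
      rw [sum_congr rfl h6, sum_const, nsmul_eq_mul]
      have h7 : (s.filter (fun v => ∑ j, v j - m0 = i)).card ≤ (m0 + i - T + 1) ^ (d - 1) := by
        refine le_trans (card_le_card ?_) (hLAY d (L + 1) (m0 + i) t hd (by omega))
        intro v hv
        rw [mem_filter, hs, mem_filter] at hv
        rw [mem_filter]
        refine ⟨hv.1.1, hv.1.2.1, ?_⟩
        have := hv.1.2.2
        have := hv.2
        omega
      have h8 : ((s.filter (fun v => ∑ j, v j - m0 = i)).card : ℝ) ≤ ((h : ℝ) + i + 1) ^ (d - 1) := by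
        have h9 : (m0 + i - T + 1) ^ (d - 1) ≤ (h + i + 1) ^ (d - 1) :=
          Nat.pow_le_pow_left (by omega) _
        exact_mod_cast h7.trans h9
      calc _ ≤ ((h : ℝ) + i + 1) ^ (d - 1) *
            (2 ^ d * β * (2 : ℝ) ^ (-(ρ * ((m0 : ℝ) - n))) * x ^ i) :=
            mul_le_mul_of_nonneg_right h8 (by positivity)
        _ = _ := by ring
    refine (sum_le_sum h5).trans ?_
    rw [← mul_sum]
    exact mul_le_mul_of_nonneg_left (hser h J (by omega)) (by positivity)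
  have h5 := h3.trans h4
  constructor
  · intro hTn
    have hm : m0 = n + 1 := by rw [hm0]; exact max_eq_left (by omega)
    refine h5.trans ?_
    have h6 : (2 : ℝ) ^ (-(ρ * ((m0 : ℝ) - n))) ≤ 1 := by
      apply Real.rpow_le_one_of_one_le_of_nonpos (by norm_num)
      rw [hm]; push_cast; nlinarith
    have h7 : (h : ℝ) ^ (d - 1) ≤ 2 ^ (d - 1) * (((n - T : ℕ) : ℝ) + 1) ^ (d - 1) := by
      rw [← mul_pow]
      apply pow_le_pow_left₀ (by positivity)
      have : h ≤ 2 * (n - T + 1) := by omega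
      exact_mod_cast this
    calc _ ≤ 2 ^ d * β * 1 * (CS * (2 ^ (d - 1) * (((n - T : ℕ) : ℝ) + 1) ^ (d - 1))) := by
          gcongr
      _ = _ := by ring
  · intro hTn
    have hm : m0 = T := by rw [hm0]; exact max_eq_right (by omega)
    refine h5.trans ?_
    have hh1 : h = 1 := by omega
    rw [hh1, hm, Nat.cast_one, one_pow, mul_one]
    have h7 : (1 : ℝ) ≤ 2 ^ (d - 1) := one_le_pow₀ (by norm_num)
    calc _ = 2 ^ d * CS * 1 * β * (2 : ℝ) ^ (-(ρ * ((T : ℝ) - n))) := by ring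
      _ ≤ _ := by gcongr

end Pool.Agent.MP_bc5265.R2
end

section
/-!
# FDR: functionals annihilating polynomials are combinations of differences
-/
set_option linter.unusedSectionVars false

open MeasureTheory Finset Matrix

namespace Pool.Agent.MP_bc5265.R2

namespace FDRM

open Polynomial in
/-- discrete antiderivative of a polynomial -/
theorem exists_anti : ∀ (l : ℕ) (Q : ℝ[X]), Q.degree < (l : ℕ) →
    ∃ P : ℝ[X], P.degree < ((l + 1 : ℕ) : WithBot ℕ) ∧
      ∀ x : ℝ, P.eval (x + 1) - P.eval x = Q.eval x := by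
  intro l
  induction l with
  | zero =>
    intro Q hQ
    have h0 : Q = 0 := by
      rw [degree_lt_iff_coeff_zero] at hQ
      ext n
      simpa using hQ n (Nat.zero_le n)
    refine ⟨0, ?_, ?_⟩
    · simp
    · intro x; simp [h0]
  | succ l ih =>
    intro Q hQ
    set c : ℝ := Q.coeff l / (l + 1) with hc
    have hl : ((l : ℝ) + 1) ≠ 0 := by positivity
    have hcl : c * (l + 1) = Q.coeff l := by rw [hc]; field_simp
    obtain ⟨P, hP, hPe⟩ := ih (Q - C c * ((X + 1) ^ (l + 1) - X ^ (l + 1))) (by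
      rw [degree_lt_iff_coeff_zero] at hQ ⊢
      intro m hm
      rw [coeff_sub, coeff_C_mul, coeff_sub, coeff_X_add_one_pow, coeff_X_pow]
      rcases Nat.eq_or_lt_of_le hm with h | h
      · subst h
        rw [Nat.choose_succ_self_right]
        have : l ≠ l + 1 := by omega
        rw [if_neg this]
        push_cast
        linarith
      · rcases Nat.eq_or_lt_of_le (Nat.succ_le_of_lt h) with h' | h'
        · have h1 := hQ m (by omega)
          subst h'
          rw [h1]; simp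
        · rw [hQ m (by omega), Nat.choose_eq_zero_of_lt (by omega), if_neg (by omega)]
          simp)
    refine ⟨P + C c * X ^ (l + 1), ?_, ?_⟩
    · rw [degree_lt_iff_coeff_zero] at hP ⊢
      intro m hm
      rw [coeff_add, coeff_C_mul, coeff_X_pow, hP m (by omega), if_neg (by omega)]
      simp
    · intro x
      have := hPe x
      simp only [eval_sub, eval_mul, eval_C, eval_add, eval_pow, eval_X, eval_one] at this ⊢
      linarith

/-- Abel summation -/
theorem abel (lam F : ℕ → ℝ) (n : ℕ) :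
    ∑ μ ∈ range (n + 1), lam μ * F μ =
      (∑ μ ∈ range (n + 1), lam μ) * F n +
        ∑ μ ∈ range n, (-∑ ν ∈ range (μ + 1), lam ν) * (F (μ + 1) - F μ) := by
  induction n with
  | zero => simp
  | succ n ih =>
    rw [sum_range_succ, ih, sum_range_succ (fun μ => lam μ) (n + 1),
      sum_range_succ (fun μ => (-∑ ν ∈ range (μ + 1), lam ν) * (F (μ + 1) - F μ)) n]
    ring

theorem diff_eq (l : ℕ) (F : ℕ → ℝ) (μ : ℕ) :
    ∑ i ∈ range (l + 1), (-1 : ℝ) ^ (l - i) * (l.choose i) * F (μ + i) =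
      (fwdDiff 1)^[l] F μ := by
  rw [fwdDiff_iter_eq_sum_shift]
  refine sum_congr rfl fun i _ => ?_
  simp

end FDRM

open FDRM in
theorem specFDR : SpecFDR := by
  intro l
  induction l with
  | zero =>
    intro N lam _
    refine ⟨lam, fun F => ?_⟩
    simp
  | succ l ih =>
    intro N lam h
    rcases N with _ | n
    · exact ⟨fun _ => 0, fun F => by simp⟩
    · have h1 : ∑ μ ∈ range (n + 1), lam μ = 0 := by
        have := h 1 (by
          refine lt_of_le_of_lt Polynomial.degree_one_le ?_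
          exact_mod_cast Nat.succ_pos l)
        simpa using this
      obtain ⟨γ, hγ⟩ := ih n (fun μ => -∑ ν ∈ range (μ + 1), lam ν) (by
        intro Q hQ
        obtain ⟨P, hP, hPe⟩ := exists_anti l Q hQ
        have h2 := h P hP
        rw [abel, h1, zero_mul, zero_add] at h2
        rw [← h2]
        refine sum_congr rfl fun μ _ => ?_
        rw [← hPe μ]
        push_cast
        ring)
      refine ⟨γ, fun F => ?_⟩
      rw [abel, h1, zero_mul, zero_add]
      have h3 := hγ (fun μ => F (μ + 1) - F μ)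
      rw [h3]
      have hn : n + 1 - (l + 1) = n - l := by omega
      rw [hn]
      refine sum_congr rfl fun μ _ => ?_
      have h4 := diff_eq l (fun μ => F (μ + 1) - F μ) μ
      have h5 := diff_eq (l + 1) F μ
      rw [h4, h5, Function.iterate_succ_apply]
      rfl

end Pool.Agent.MP_bc5265.R2
end

section
/-!
GRD: cell averages of functions in the class are in the discrete class.
-/
set_option linter.unusedSectionVars false

open MeasureTheory Finset Matrix
open scoped ENNReal fwdDiff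

namespace Pool.Agent.MP_bc5265.R2

open Pool.Agent.MP_bc5265.S

noncomputable section

namespace GRDM

variable {d L : ℕ}

/-- the step -/
def stp (L t : ℕ) : ℝ := 2 * Real.pi * ((t : ℝ) / 2 ^ L)

lemma E_add (L t : ℕ) (y : Circ) : E L (y + ((stp L t : ℝ) : Circ)) = (E L y + t) % 2 ^ L := by
  induction y using QuotientAddGroup.induction_on with
  | H v =>
  have hT : (0 : ℝ) < 2 * Real.pi := Real.two_pi_pos
  have hb : (0 : ℝ) < 2 ^ L := by positivity
  set u := v / (2 * Real.pi) with hu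
  have h1 : uc ((v : Circ) + ((stp L t : ℝ) : Circ)) = Int.fract (u + t / 2 ^ L) := by
    have h2 : ((v : Circ) + ((stp L t : ℝ) : Circ)) = ((v + stp L t : ℝ) : Circ) := rfl
    rw [h2, uc_coe]
    congr 1
    unfold stp
    rw [hu]
    field_simp
  have h3 : uc (v : Circ) = Int.fract u := rfl
  set z : ℤ := ⌊u + t / 2 ^ L⌋ - ⌊u⌋ with hz
  have h4 : (2 : ℝ) ^ L * uc ((v : Circ) + ((stp L t : ℝ) : Circ)) =
      (2 : ℝ) ^ L * uc (v : Circ) + (((t : ℤ) - 2 ^ L * z : ℤ) : ℝ) := by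
    rw [h1, h3, hz]
    unfold Int.fract
    push_cast
    field_simp
    ring
  have hf : ∀ x : Circ, ((E L x : ℕ) : ℤ) = ⌊(2 : ℝ) ^ L * uc x⌋ := fun x =>
    Int.natCast_floor_eq_floor (mul_nonneg hb.le (uc_nonneg x))
  have h5 : ((E L ((v : Circ) + ((stp L t : ℝ) : Circ)) : ℕ) : ℤ) =
      (E L (v : Circ) : ℤ) + ((t : ℤ) - 2 ^ L * z) := by
    rw [hf, hf, h4, Int.floor_add_intCast]
  have h6 : (E L (v : Circ) + t) ≡ E L ((v : Circ) + ((stp L t : ℝ) : Circ)) [MOD 2 ^ L] := by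
    rw [Nat.modEq_iff_dvd]
    refine ⟨-z, ?_⟩
    rw [h5]
    push_cast
    ring
  have h7 : E L ((v : Circ) + ((stp L t : ℝ) : Circ)) < 2 ^ L := E_lt _ _
  have h8 := h6
  unfold Nat.ModEq at h8
  rw [Nat.mod_eq_of_lt h7] at h8
  exact h8.symm

/-- cyclic shift -/
def sh (L t : ℕ) (x : Fin (2 ^ L)) : Fin (2 ^ L) :=
  ⟨((x : ℕ) + t) % 2 ^ L, Nat.mod_lt _ (by positivity)⟩

lemma sh_inj (L t : ℕ) : Function.Injective (sh L t) := by
  intro x y h
  have h1 : ((x : ℕ) + t) % 2 ^ L = ((y : ℕ) + t) % 2 ^ L := congrArg Fin.val h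
  have h2 : (x : ℕ) ≡ (y : ℕ) [MOD 2 ^ L] := Nat.ModEq.add_right_cancel' t h1
  exact Fin.ext (Nat.ModEq.eq_of_lt_of_lt h2 x.2 y.2)

/-- shift in the coordinate `j` -/
def shj (j : Fin d) (t : ℕ) (X : Gr d L) : Gr d L := Function.update X j (sh L t (X j))

lemma shj_inj (j : Fin d) (t : ℕ) : Function.Injective (shj (L := L) j t) := by
  intro X Y h
  funext i
  have h1 := congrFun h i
  unfold shj at h1
  by_cases hi : i = j
  · subst hi
    rw [Function.update_self, Function.update_self] at h1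
    exact sh_inj L t h1
  · rw [Function.update_of_ne hi, Function.update_of_ne hi] at h1
    exact h1

/-- the vector of the shift -/
def av (d L : ℕ) (j : Fin d) (t : ℕ) : Torus d := Pi.single j ((stp L t : ℝ) : Circ)

lemma gx_add (j : Fin d) (t : ℕ) (y : Torus d) : gx L (y + av d L j t) = shj j t (gx L y) := by
  funext i
  apply Fin.ext
  unfold shj
  by_cases hi : i = j
  · subst hi
    rw [Function.update_self]
    show E L ((y + av d L i t) i) = (E L (y i) + t) % 2 ^ L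
    rw [← E_add]
    simp [av]
  · rw [Function.update_of_ne hi]
    show E L ((y + av d L j t) i) = E L (y i)
    simp [av, hi]

lemma measurable_gx : Measurable (gx (d := d) L) := by
  apply measurable_pi_lambda
  intro j
  have h1 : Measurable fun x : Torus d => E L (x j) := (measurable_E L).comp (measurable_pi_apply j)
  have h2 : (fun x : Torus d => gx L x j) = fun x =>
      (if h : E L (x j) < 2 ^ L then (⟨E L (x j), h⟩ : Fin (2 ^ L)) else ⟨0, by positivity⟩) := by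
    funext x
    rw [dif_pos (E_lt _ _)]
    rfl
  rw [h2]
  exact (measurable_from_nat (f := fun n : ℕ =>
    (if h : n < 2 ^ L then (⟨n, h⟩ : Fin (2 ^ L)) else ⟨0, by positivity⟩))).comp h1

/-- the weight of a cell -/
def wc (X : Gr d L) (y : Torus d) : ℝ := if gx L y = X then (2 : ℝ) ^ (d * L) else 0

lemma measurable_wc (X : Gr d L) : Measurable (wc X) :=
  Measurable.ite (measurable_gx (measurableSet_singleton X)) measurable_const measurable_const

lemma wc_bd (X : Gr d L) (y : Torus d) : |wc X y| ≤ 2 ^ (d * L) := by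
  unfold wc
  split_ifs
  · rw [abs_of_nonneg (by positivity)]
  · rw [abs_zero]
    positivity

lemma wc_shift (j : Fin d) (t : ℕ) (X : Gr d L) (y : Torus d) :
    wc (shj j t X) y = wc X (y - av d L j t) := by
  unfold wc
  have h := gx_add (L := L) j t (y - av d L j t)
  rw [sub_add_cancel] at h
  rw [h]
  by_cases hX : gx L (y - av d L j t) = X
  · rw [hX, if_pos rfl, if_pos rfl]
  · rw [if_neg hX, if_neg]
    intro h2
    exact hX (shj_inj j t h2)

lemma avc_shift (G : Torus d → ℝ) (j : Fin d) (t : ℕ) (X : Gr d L) :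
    avc (fun y => G (y + av d L j t)) L X = avc G L (shj j t X) := by
  show ∫ y, G (y + av d L j t) * wc X y ∂(μT d) = ∫ y, G y * wc (shj j t X) y ∂(μT d)
  rw [← integral_sub_right_eq_self (μ := μT d) (fun y => G (y + av d L j t) * wc X y)
    (av d L j t)]
  congr 1
  funext y
  rw [sub_add_cancel, wc_shift]

lemma avc_sub (F G : Torus d → ℝ) (hF : Continuous F) (hG : Continuous G) (X : Gr d L) :
    avc (fun y => F y - G y) L X = avc F L X - avc G L X := by
  show ∫ y, (F y - G y) * wc X y ∂(μT d) = ∫ y, F y * wc X y ∂(μT d) - ∫ y, G y * wc X y ∂(μT d)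
  rw [← integral_sub (BlkM.integrable_mul F hF _ (measurable_wc X) _ (wc_bd X))
    (BlkM.integrable_mul G hG _ (measurable_wc X) _ (wc_bd X))]
  congr 1
  funext y
  ring

/-- the operator `A` in the coordinate `j` -/
def io (j : Fin d) (A : M1 L) : MG d L := tens fun i => if i = j then A else 1

lemma fs (j : Fin d) (A : M1 L) (x y : Fin (2 ^ L)) :
    (fun i : Fin d => if i = j then A else (1 : M1 L)) j x y = A x y := by simp

lemma fn' (j i : Fin d) (hi : i ≠ j) (A : M1 L) (x y : Fin (2 ^ L)) :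
    (fun i : Fin d => if i = j then A else (1 : M1 L)) i x y = (1 : M1 L) x y := by simp [hi]

lemma io_apply (j : Fin d) (A : M1 L) (x y : Gr d L) :
    io j A x y = A (x j) (y j) * ∏ i ∈ univ.erase j, (1 : M1 L) (x i) (y i) := by
  unfold io tens
  rw [← Finset.mul_prod_erase univ _ (Finset.mem_univ j)]
  refine congrArg₂ (· * ·) (fs j A _ _) ?_
  apply Finset.prod_congr rfl
  intro i hi
  exact fn' j i (Finset.mem_erase.1 hi).1 A _ _

lemma io_sub (j : Fin d) (A B : M1 L) : io j (A - B) = io j A - io j B := by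
  ext x y
  rw [Matrix.sub_apply, io_apply, io_apply, io_apply, Matrix.sub_apply, sub_mul]

lemma io_one (hTEN : SpecTEN) (j : Fin d) : io j (1 : M1 L) = 1 := by
  have h := (hTEN d L).2.1
  rw [← h]
  unfold io
  congr 1
  funext i
  split_ifs <;> rfl

lemma io_mul (hTEN : SpecTEN) (j : Fin d) (A B : M1 L) : io j (A * B) = io j A * io j B := by
  unfold io
  rw [(hTEN d L).1]
  congr 1
  funext i
  split_ifs
  · rfl
  · rw [one_mul]

lemma io_pow (hTEN : SpecTEN) (j : Fin d) (A : M1 L) (l : ℕ) : io j (A ^ l) = io j A ^ l := by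
  induction l with
  | zero => rw [pow_zero, pow_zero, io_one hTEN]
  | succ l ih => rw [pow_succ, pow_succ, io_mul hTEN, ih]

lemma io_DM (hTEN : SpecTEN) (j : Fin d) (l t : ℕ) :
    io j (DM L l t) = (io j (SM L t) - 1) ^ l := by
  unfold DM
  rw [io_pow hTEN, io_sub, io_one hTEN]

lemma io_SM (j : Fin d) (t : ℕ) (F : Gr d L → ℝ) (X : Gr d L) :
    (io j (SM L t) *ᵥ F) X = F (shj j t X) := by
  have h1 : ∀ Y, io j (SM L t) X Y = if Y = shj j t X then 1 else 0 := by
    intro Y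
    unfold io tens
    by_cases hY : Y = shj j t X
    · rw [if_pos hY]
      apply Finset.prod_eq_one
      intro i _
      rw [hY]
      unfold shj
      by_cases hi : i = j
      · subst hi
        refine (fs i _ _ _).trans ?_
        rw [Function.update_self]
        unfold SM sh
        rw [if_pos rfl]
      · refine (fn' j i hi _ _ _).trans ?_
        rw [Function.update_of_ne hi, Matrix.one_apply_eq]
    · rw [if_neg hY]
      have : ∃ i, Y i ≠ shj j t X i := by
        by_contra hcon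
        push Not at hcon
        exact hY (funext hcon)
      obtain ⟨i, hi⟩ := this
      apply Finset.prod_eq_zero (Finset.mem_univ i)
      unfold shj at hi
      by_cases hij : i = j
      · subst hij
        rw [Function.update_self] at hi
        refine (fs i _ _ _).trans ?_
        unfold SM
        rw [if_neg]
        intro h
        exact hi (Fin.ext h)
      · rw [Function.update_of_ne hij] at hi
        refine (fn' j i hij _ _ _).trans ?_
        rw [Matrix.one_apply_ne (Ne.symm hi)]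
  show ∑ Y, io j (SM L t) X Y * F Y = _
  simp [h1]

lemma cont_fwd (a : Torus d) (G : Torus d → ℝ) (hG : Continuous G) : Continuous (fwdDiff a G) :=
  (hG.comp (continuous_id.add continuous_const)).sub hG

lemma cont_iter (a : Torus d) (l : ℕ) (G : Torus d → ℝ) (hG : Continuous G) :
    Continuous ((fwdDiff a)^[l] G) := by
  induction l with
  | zero => exact hG
  | succ l ih =>
    rw [Function.iterate_succ_apply']
    exact cont_fwd a _ ih

lemma avc_fwd (j : Fin d) (t : ℕ) (G : Torus d → ℝ) (hG : Continuous G) :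
    avc (fwdDiff (av d L j t) G) L = (io j (SM L t) - 1) *ᵥ avc G L := by
  funext X
  rw [Matrix.sub_mulVec, Matrix.one_mulVec, Pi.sub_apply, io_SM, ← avc_shift]
  exact avc_sub (fun y => G (y + av d L j t)) G (hG.comp (continuous_id.add continuous_const)) hG X

lemma avc_iter (j : Fin d) (t l : ℕ) (G : Torus d → ℝ) (hG : Continuous G) :
    avc ((fwdDiff (av d L j t))^[l] G) L = (io j (SM L t) - 1) ^ l *ᵥ avc G L := by
  induction l with
  | zero => rw [pow_zero, Matrix.one_mulVec]; rfl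
  | succ l ih =>
    rw [Function.iterate_succ_apply', avc_fwd j t _ (cont_iter _ l G hG), ih, pow_succ',
      Matrix.mulVec_mulVec]

lemma cont_foldr (l : ℕ) (t : Fin d → ℝ) (f : Torus d → ℝ) (hf : Continuous f)
    (Ls : List (Fin d)) : Continuous (Ls.foldr (fun j g => diff l j (t j) g) f) := by
  induction Ls with
  | nil => exact hf
  | cons j Ls ih => exact cont_iter _ l _ ih

lemma avc_foldr (hTEN : SpecTEN) (l : ℕ) (t : Fin d → ℕ) (G : Torus d → ℝ) (hG : Continuous G)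
    (Ls : List (Fin d)) (hnd : Ls.Nodup) :
    avc (Ls.foldr (fun j g => diff l j (stp L (t j)) g) G) L =
      (tens fun i => if i ∈ Ls then DM L l (t i) else 1) *ᵥ avc G L := by
  induction Ls with
  | nil =>
    simp only [List.foldr_nil, List.not_mem_nil, if_false]
    rw [(hTEN d L).2.1, Matrix.one_mulVec]
  | cons j Ls ih =>
    rw [List.nodup_cons] at hnd
    have h1 : avc ((j :: Ls).foldr (fun j g => diff l j (stp L (t j)) g) G) L =
        (io j (SM L (t j)) - 1) ^ l *ᵥ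
          avc (Ls.foldr (fun j g => diff l j (stp L (t j)) g) G) L :=
      avc_iter j (t j) l _ (cont_foldr l (fun j => stp L (t j)) G hG Ls)
    rw [h1, ih hnd.2, ← io_DM hTEN, Matrix.mulVec_mulVec]
    congr 1
    unfold io
    rw [(hTEN d L).1]
    congr 1
    funext i
    by_cases hi : i = j
    · subst hi
      simp [hnd.1]
    · simp [hi]

/-! ### Jensen -/

/-- the cell -/
def cell (X : Gr d L) : Set (Torus d) := {y | gx L y = X}

lemma meas_cell (X : Gr d L) : MeasurableSet (cell X) :=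
  measurable_gx (measurableSet_singleton X)

lemma cell_ind (X : Gr d L) (F : Torus d → ℝ) :
    ∫ y in cell X, F y ∂(μT d) = ∫ y, (if gx L y = X then F y else 0) ∂(μT d) := by
  classical
  rw [← integral_indicator (meas_cell X)]
  congr 1
  funext y
  rw [Set.indicator_apply]
  by_cases h : gx L y = X
  · rw [if_pos h, if_pos (show y ∈ cell X from h)]
  · rw [if_neg h, if_neg (show ¬ y ∈ cell X from h)]

lemma vol_cell (X : Gr d L) : ((μT d).restrict (cell X)).real Set.univ = 1 / 2 ^ (d * L) := by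
  have h1 := cell_ind X (fun _ => (1 : ℝ))
  have h2 : ∫ y in cell X, (1 : ℝ) ∂(μT d) = ((μT d).restrict (cell X)).real Set.univ := by
    simp
  rw [← h2, h1]
  have h3 := integral_Chi (fun _ : Fin d => L) (fun j => (X j : ℕ)) (fun j => (X j).2)
  have h4 : ∀ y : Torus d, Chi (fun _ : Fin d => L) (fun j => (X j : ℕ)) y =
      if gx L y = X then 1 else 0 := fun y => Chi_eq (fun _ => L) X y
  simp only [h4] at h3
  rw [h3]
  simp

lemma cell_bd (p : ℝ) (hp : 1 ≤ p) (H : Torus d → ℝ) (hH : Continuous H) (X : Gr d L) :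
    |avc H L X| ^ p ≤ 2 ^ (d * L) * ∫ y in cell X, |H y| ^ p ∂(μT d) := by
  obtain ⟨M, hM⟩ := isCompact_univ.exists_bound_of_continuousOn (f := H) hH.continuousOn
  have hM' : ∀ x, |H x| ≤ M := fun x => hM x (Set.mem_univ _)
  have h1 := BlkM.jensen ((μT d).restrict (cell X)) p hp H hH.measurable M hM'
  rw [vol_cell] at h1
  set N : ℝ := 2 ^ (d * L) with hN
  have hN0 : 0 < N := by positivity
  have h2 : avc H L X = N * ∫ y in cell X, H y ∂(μT d) := by
    rw [cell_ind, ← integral_const_mul]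
    show ∫ y, H y * (if gx L y = X then (2 : ℝ) ^ (d * L) else 0) ∂(μT d) = _
    congr 1
    funext y
    split_ifs
    · rw [hN]; ring
    · ring
  set I := ∫ y in cell X, |H y| ^ p ∂(μT d) with hI
  have hI0 : 0 ≤ I := integral_nonneg fun y => by positivity
  rw [h2, abs_mul, abs_of_pos hN0, Real.mul_rpow hN0.le (abs_nonneg _)]
  calc N ^ p * |∫ y in cell X, H y ∂(μT d)| ^ p ≤ N ^ p * ((1 / N) ^ (p - 1) * I) :=
        mul_le_mul_of_nonneg_left h1 (by positivity)
    _ = (N ^ p * (1 / N) ^ (p - 1)) * I := by ring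
    _ = N * I := by
        congr 1
        rw [one_div, Real.inv_rpow hN0.le, ← Real.rpow_neg hN0.le, ← Real.rpow_add hN0]
        have : p + -(p - 1) = 1 := by ring
        rw [this, Real.rpow_one]

lemma nrm_avc (p : ℝ) (hp : 1 ≤ p) (H : Torus d → ℝ) (hH : Continuous H) :
    nrm p (avc H L) ≤ (∫ y, |H y| ^ p ∂(μT d)) ^ (1 / p) := by
  obtain ⟨M, hM⟩ := isCompact_univ.exists_bound_of_continuousOn (f := H) hH.continuousOn
  have hM' : ∀ x, |H x| ≤ M := fun x => hM x (Set.mem_univ _)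
  have hp0 : 0 < p := by linarith
  have hint : ∀ X : Gr d L, Integrable (fun y => if gx L y = X then |H y| ^ p else 0) (μT d) := by
    intro X
    refine Integrable.of_bound (Measurable.ite (meas_cell X)
      ((measurable_norm.comp hH.measurable).pow_const p) measurable_const).aestronglyMeasurable
      (M ^ p) ?_
    filter_upwards with y
    have hM0 : 0 ≤ M := (abs_nonneg _).trans (hM' y)
    have hb : |H y| ^ p ≤ M ^ p := Real.rpow_le_rpow (abs_nonneg _) (hM' y) hp0.le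
    split_ifs
    · rw [Real.norm_of_nonneg (by positivity)]
      exact hb
    · rw [norm_zero]
      positivity
  have h1 : ∑ X : Gr d L, |avc H L X| ^ p ≤ 2 ^ (d * L) * ∫ y, |H y| ^ p ∂(μT d) := by
    refine (Finset.sum_le_sum fun X _ => cell_bd p hp H hH X).trans (le_of_eq ?_)
    rw [← Finset.mul_sum]
    congr 1
    simp only [cell_ind]
    rw [← integral_finsetSum _ fun X _ => hint X]
    congr 1
    funext y
    simp
  have hc : ((Fintype.card (Gr d L) : ℕ) : ℝ) = 2 ^ (d * L) := by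
    simp [← pow_mul, mul_comm]
  unfold nrm
  apply Real.rpow_le_rpow _ _ (by positivity)
  · unfold mom
    positivity
  · unfold mom
    rw [hc, div_le_iff₀ (by positivity), mul_comm _ ((2 : ℝ) ^ (d * L))]
    exact h1

lemma nrm_le (p : ℝ) (hp : 1 ≤ p) (H : Torus d → ℝ) (hH : Continuous H) (B : ℝ) (hB : 0 ≤ B)
    (h : eLpNorm H (ENNReal.ofReal p) (μT d) ≤ ENNReal.ofReal B) : nrm p (avc H L) ≤ B := by
  have hp0 : 0 < p := by linarith
  obtain ⟨M, hM⟩ := isCompact_univ.exists_bound_of_continuousOn (f := H) hH.continuousOn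
  have hmem : MemLp H (ENNReal.ofReal p) (μT d) := by
    refine MemLp.of_bound hH.aestronglyMeasurable M ?_
    filter_upwards with x
    exact hM x (Set.mem_univ _)
  have h4 : eLpNorm H (ENNReal.ofReal p) (μT d) = ENNReal.ofReal
      ((∫ x, |H x| ^ p ∂(μT d)) ^ (p⁻¹)) := by
    rw [hmem.eLpNorm_eq_integral_rpow_norm (by simpa using hp0) ENNReal.ofReal_ne_top,
      ENNReal.toReal_ofReal hp0.le]
    rfl
  rw [h4, ENNReal.ofReal_le_ofReal_iff hB] at h
  refine (nrm_avc p hp H hH).trans ?_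
  rw [one_div]
  exact h

end GRDM

open GRDM in
theorem specGRD (hTEN : SpecTEN) : SpecGRD := by
  intro d l L p r g hp hr hg e t
  have hpi : (1 : ℝ) ≤ 2 * Real.pi := by linarith [Real.pi_gt_three]
  have hpi0 : (0 : ℝ) < 2 * Real.pi := by linarith
  have hC : (1 : ℝ) ≤ (2 * Real.pi) ^ (r * d) := Real.one_le_rpow hpi (by positivity)
  set H : Torus d → ℝ := mixedDiff l e (fun j => stp L (t j)) (g : Torus d → ℝ) with hHdef
  have hHc : Continuous H := cont_foldr l (fun j => stp L (t j)) _ g.continuous _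
  have h1 : (tens fun j => if j ∈ e then DM L l (t j) else 1) *ᵥ avc (g : Torus d → ℝ) L =
      avc H L := by
    have h2 := avc_foldr (L := L) hTEN l t (g : Torus d → ℝ) g.continuous (e.sort (· ≤ ·))
      (Finset.sort_nodup _ _)
    simp only [Finset.mem_sort] at h2
    exact h2.symm
  rw [h1]
  have hP0 : 0 ≤ ∏ j ∈ e, ((t j : ℝ) / 2 ^ L) ^ r := Finset.prod_nonneg fun j _ => by positivity
  apply nrm_le p hp H hHc _ (by positivity)
  rcases e.eq_empty_or_nonempty with he | he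
  · subst he
    have h3 : H = (g : Torus d → ℝ) := by
      rw [hHdef]
      unfold mixedDiff
      simp
    rw [h3, Finset.prod_empty, mul_one]
    refine hg.1.trans ?_
    rw [← ENNReal.ofReal_one]
    exact ENNReal.ofReal_le_ofReal hC
  · refine (hg.2 e he (fun j => stp L (t j))).trans (ENNReal.ofReal_le_ofReal ?_)
    have h4 : ∀ j ∈ e, |stp L (t j)| ^ r = (2 * Real.pi) ^ r * ((t j : ℝ) / 2 ^ L) ^ r := by
      intro j _
      have : 0 ≤ stp L (t j) := by unfold stp; positivity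
      rw [abs_of_nonneg this]
      unfold stp
      rw [Real.mul_rpow hpi0.le (by positivity)]
    rw [Finset.prod_congr rfl h4, Finset.prod_mul_distrib, Finset.prod_const]
    apply mul_le_mul_of_nonneg_right _ hP0
    rw [← Real.rpow_natCast, ← Real.rpow_mul hpi0.le]
    apply Real.rpow_le_rpow_of_exponent_le hpi
    apply mul_le_mul_of_nonneg_left _ hr.le
    have := Finset.card_le_univ e
    rw [Fintype.card_fin] at this
    exact_mod_cast this

end

end Pool.Agent.MP_bc5265.R2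
end

section
/-!
# Region `R_2`, module JKB: kernel representation in one dimension
-/
set_option linter.unusedSectionVars false

open MeasureTheory Finset Matrix
open scoped ENNReal

namespace Pool.Agent.MP_bc5265.R2

open Pool.Agent.MP_bc5265.S

namespace JKBM

variable {L : ℕ}

/-- periodic extension -/
noncomputable def ex (F : Fin (2 ^ L) → ℝ) (n : ℕ) : ℝ := F ⟨n % 2 ^ L, Nat.mod_lt _ (by positivity)⟩

lemma ex_mod (F : Fin (2 ^ L) → ℝ) (n m : ℕ) : ex F (n % 2 ^ L + m) = ex F (n + m) := by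
  unfold ex
  congr 1
  apply Fin.ext
  simp [Nat.mod_add_mod]

lemma ex_fin (F : Fin (2 ^ L) → ℝ) (z : Fin (2 ^ L)) : ex F (z : ℕ) = F z := by
  unfold ex
  congr 1
  apply Fin.ext
  simp [Nat.mod_eq_of_lt z.2]

/-- left end point -/
def lep (L k n : ℕ) : ℕ := n / 2 ^ (L - k) * 2 ^ (L - k)

lemma lep_le (L k n : ℕ) : lep L k n ≤ n := Nat.div_mul_le_self _ _

/-- left end point -/
def lepf (k : ℕ) (x : Fin (2 ^ L)) : Fin (2 ^ L) := ⟨lep L k x, lt_of_le_of_lt (lep_le _ _ _) x.2⟩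

lemma IM_mulVec (k : ℕ) (F : Fin (2 ^ L) → ℝ) (x : Fin (2 ^ L)) :
    (IM L (k + 1) *ᵥ F) x = F (lepf k x) := by
  simp only [Matrix.mulVec, dotProduct, IM]
  rw [Finset.sum_eq_single (lepf k x)]
  · simp [lepf, lep]
  · intro y _ hy
    rw [if_neg, zero_mul]
    intro h
    exact hy (Fin.ext h)
  · intro h
    exact absurd (Finset.mem_univ _) h

lemma node_lt (b s : ℕ) (h : s + b ≤ L) (n : ℕ) (hn : n < 2 ^ L) (i : ℕ) (hi : i < 2 ^ b) :
    lep L s n + i * 2 ^ (L - s - b) < 2 ^ L := by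
  unfold lep
  have e1 : 2 ^ (L - s) = 2 ^ b * 2 ^ (L - s - b) := by rw [← pow_add]; congr 1; omega
  have e2 : 2 ^ L = 2 ^ s * 2 ^ (L - s) := by rw [← pow_add]; congr 1; omega
  have h1 : n / 2 ^ (L - s) < 2 ^ s := by
    rw [Nat.div_lt_iff_lt_mul (by positivity), ← e2]
    exact hn
  have h2 : i * 2 ^ (L - s - b) < 2 ^ (L - s) := by
    rw [e1]
    exact Nat.mul_lt_mul_of_pos_right hi (by positivity)
  calc n / 2 ^ (L - s) * 2 ^ (L - s) + i * 2 ^ (L - s - b)
      < n / 2 ^ (L - s) * 2 ^ (L - s) + 2 ^ (L - s) := by omega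
    _ = (n / 2 ^ (L - s) + 1) * 2 ^ (L - s) := by ring
    _ ≤ 2 ^ s * 2 ^ (L - s) := Nat.mul_le_mul_right _ h1
    _ = 2 ^ L := e2.symm

lemma JM_apply (b s : ℕ) (h : s + b ≤ L) (x y : Fin (2 ^ L)) :
    JM L b (s + 1) x y = ∑ i ∈ range (2 ^ b),
      if (y : ℕ) = lep L s x + i * 2 ^ (L - s - b) then
        lg b i ((((x : ℕ) : ℝ) - ((lep L s x : ℕ) : ℝ)) / 2 ^ (L - s - b)) else 0 := by
  have h1 : JM L b (s + 1) = if s + b ≤ L then (Matrix.of fun x y : Fin (2 ^ L) =>
      ∑ i ∈ range (2 ^ b), if (y : ℕ) = lep L s x + i * 2 ^ (L - s - b) then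
        lg b i ((((x : ℕ) : ℝ) - ((lep L s x : ℕ) : ℝ)) / 2 ^ (L - s - b)) else 0)
      else (1 : M1 L) := rfl
  rw [h1, if_pos h]
  rfl

lemma JM_mulVec (b s : ℕ) (h : s + b ≤ L) (F : Fin (2 ^ L) → ℝ) (x : Fin (2 ^ L)) :
    (JM L b (s + 1) *ᵥ F) x = ∑ i ∈ range (2 ^ b),
      lg b i ((((x : ℕ) : ℝ) - ((lep L s x : ℕ) : ℝ)) / 2 ^ (L - s - b)) *
        ex F (lep L s x + i * 2 ^ (L - s - b)) := by
  simp only [Matrix.mulVec, dotProduct, JM_apply b s h]
  simp_rw [Finset.sum_mul]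
  rw [Finset.sum_comm]
  refine Finset.sum_congr rfl fun i hi => ?_
  rw [Finset.mem_range] at hi
  have hlt := node_lt b s h x x.2 i hi
  rw [Finset.sum_eq_single (⟨lep L s x + i * 2 ^ (L - s - b), hlt⟩ : Fin (2 ^ L))]
  · rw [if_pos rfl]
    congr 1
    unfold ex
    congr 1
    apply Fin.ext
    simp [Nat.mod_eq_of_lt hlt]
  · intro y _ hy
    rw [if_neg, zero_mul]
    intro h'
    exact hy (Fin.ext h')
  · intro h'
    exact absurd (Finset.mem_univ _) h'

lemma SM_mulVec (t : ℕ) (F : Fin (2 ^ L) → ℝ) (x : Fin (2 ^ L)) :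
    (SM L t *ᵥ F) x = ex F (x + t) := by
  simp only [Matrix.mulVec, dotProduct, SM]
  rw [Finset.sum_eq_single (⟨((x : ℕ) + t) % 2 ^ L, Nat.mod_lt _ (by positivity)⟩ : Fin (2 ^ L))]
  · simp [ex]
  · intro y _ hy
    rw [if_neg, zero_mul]
    intro h
    exact hy (Fin.ext h)
  · intro h
    exact absurd (Finset.mem_univ _) h

lemma SM_pow_mulVec (t i : ℕ) (F : Fin (2 ^ L) → ℝ) (x : Fin (2 ^ L)) :
    ((SM L t) ^ i *ᵥ F) x = ex F (x + i * t) := by
  induction i generalizing F with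
  | zero => simp [ex_fin]
  | succ i ih =>
    rw [pow_succ, ← Matrix.mulVec_mulVec, ih]
    have : ex (SM L t *ᵥ F) ((x : ℕ) + i * t) = ex F (((x : ℕ) + i * t) % 2 ^ L + t) := by
      unfold ex
      rw [SM_mulVec]
      rfl
    rw [this, ex_mod]
    congr 1
    ring

lemma DM_mulVec (l t : ℕ) (F : Fin (2 ^ L) → ℝ) (x : Fin (2 ^ L)) :
    (DM L l t *ᵥ F) x = ∑ i ∈ range (l + 1), (-1 : ℝ) ^ (l - i) * (l.choose i) *
      ex F (x + i * t) := by
  unfold DM
  rw [sub_eq_add_neg, (Commute.one_right (SM L t)).neg_right.add_pow, Matrix.sum_mulVec,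
    Finset.sum_apply]
  refine Finset.sum_congr rfl fun i _ => ?_
  rw [← SM_pow_mulVec t i F x]
  have h1 : (SM L t) ^ i * (-1) ^ (l - i) * ((l.choose i : ℕ) : M1 L) =
      ((-1 : ℝ) ^ (l - i) * (l.choose i)) • (SM L t) ^ i := by
    have h2 : ((-1 : M1 L)) ^ (l - i) = ((-1 : ℝ) ^ (l - i)) • (1 : M1 L) := by
      rcases Nat.even_or_odd (l - i) with h | h
      · rw [h.neg_one_pow, h.neg_one_pow, one_smul]
      · rw [h.neg_one_pow, h.neg_one_pow, neg_smul, one_smul]
    have h3 : ((l.choose i : ℕ) : M1 L) = ((l.choose i : ℕ) : ℝ) • (1 : M1 L) := by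
      rw [Nat.cast_smul_eq_nsmul, nsmul_eq_mul, mul_one]
    rw [h2, h3, mul_smul_comm, mul_one, mul_smul_comm, mul_one, smul_smul, mul_comm]
  rw [h1, Matrix.smul_mulVec]
  rfl

lemma ex_lt (F : Fin (2 ^ L) → ℝ) (n : ℕ) (hn : n < 2 ^ L) : ex F n = F ⟨n, hn⟩ := by
  unfold ex
  congr 1
  apply Fin.ext
  simp [Nat.mod_eq_of_lt hn]

lemma div_node (b s : ℕ) (h : s + b ≤ L) (n i : ℕ) (hi : i < 2 ^ b) :
    (lep L s n + i * 2 ^ (L - s - b)) / 2 ^ (L - s) = n / 2 ^ (L - s) := by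
  have e1 : 2 ^ (L - s) = 2 ^ b * 2 ^ (L - s - b) := by rw [← pow_add]; congr 1; omega
  have h2 : i * 2 ^ (L - s - b) < 2 ^ (L - s) := by
    rw [e1]
    exact Nat.mul_lt_mul_of_pos_right hi (by positivity)
  unfold lep
  rw [add_comm, Nat.add_mul_div_right _ _ (by positivity), Nat.div_eq_of_lt h2, zero_add]

lemma lep_node (b s : ℕ) (h : s + b ≤ L) (n i : ℕ) (hi : i < 2 ^ b) :
    lep L s (lep L s n + i * 2 ^ (L - s - b)) = lep L s n := by
  have h1 := div_node b s h n i hi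
  rw [lep, h1, ← lep]

lemma lep_pred_node (b s : ℕ) (h : s + 1 + b ≤ L) (n i : ℕ) (hi : i < 2 ^ b) :
    lep L s (lep L (s + 1) n + i * 2 ^ (L - (s + 1) - b)) = lep L s n := by
  have h1 := div_node b (s + 1) h n i hi
  have e : 2 ^ (L - s) = 2 ^ (L - (s + 1)) * 2 := by rw [← pow_succ]; congr 1; omega
  have h2 : (lep L (s + 1) n + i * 2 ^ (L - (s + 1) - b)) / 2 ^ (L - s) = n / 2 ^ (L - s) := by
    rw [e, ← Nat.div_div_eq_div_mul, h1, Nat.div_div_eq_div_mul]
  rw [lep, h2, ← lep]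

lemma lep_split (s : ℕ) (h : s + 1 ≤ L) (n : ℕ) :
    lep L (s + 1) n = lep L s n + (n / 2 ^ (L - (s + 1)) % 2) * 2 ^ (L - (s + 1)) := by
  have e : 2 ^ (L - s) = 2 ^ (L - (s + 1)) * 2 := by rw [← pow_succ]; congr 1; omega
  unfold lep
  rw [e, ← Nat.div_div_eq_div_mul]
  set A := 2 ^ (L - (s + 1))
  set q := n / A
  have h1 := Nat.div_add_mod q 2
  calc q * A = (2 * (q / 2) + q % 2) * A := by rw [h1]
    _ = q / 2 * (A * 2) + q % 2 * A := by ring

lemma lep_lep (s v : ℕ) (h : s ≤ v) (n : ℕ) : lep L s (lep L v n) = lep L s n := by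
  have e : 2 ^ (L - s) = 2 ^ (L - v) * 2 ^ ((L - s) - (L - v)) := by
    rw [← pow_add]; congr 1; omega
  have h1 : lep L v n / 2 ^ (L - s) = n / 2 ^ (L - s) := by
    unfold lep
    rw [e, ← Nat.div_div_eq_div_mul, Nat.mul_div_cancel _ (by positivity),
      Nat.div_div_eq_div_mul]
  rw [lep, h1, ← lep]

/-- the values of `JM (s+1) F` in the nodes of its level -/
lemma JM_node (b s : ℕ) (h : s + b ≤ L)
    (hL1 : ∀ i j : ℕ, i < 2 ^ b → j < 2 ^ b → lg b i (j : ℝ) = if i = j then 1 else 0)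
    (F : Fin (2 ^ L) → ℝ) (n i : ℕ) (hi : i < 2 ^ b)
    (hz : lep L s n + i * 2 ^ (L - s - b) < 2 ^ L) :
    (JM L b (s + 1) *ᵥ F) ⟨lep L s n + i * 2 ^ (L - s - b), hz⟩ =
      ex F (lep L s n + i * 2 ^ (L - s - b)) := by
  rw [JM_mulVec b s h]
  simp only
  rw [lep_node b s h n i hi]
  have h1 : (((lep L s n + i * 2 ^ (L - s - b) : ℕ) : ℝ) - ((lep L s n : ℕ) : ℝ)) /
      2 ^ (L - s - b) = (i : ℝ) := by
    push_cast
    field_simp
    ring
  rw [h1, Finset.sum_eq_single i]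
  · rw [hL1 i i hi hi, if_pos rfl, one_mul]
  · intro k hk hki
    rw [hL1 k i (Finset.mem_range.mp hk) hi, if_neg hki, zero_mul]
  · intro h'
    exact absurd (Finset.mem_range.mpr hi) h'

/-- `u` in the nodes, `s = 0` -/
lemma u_zero (b : ℕ) (h : 0 + b ≤ L)
    (hL1 : ∀ i j : ℕ, i < 2 ^ b → j < 2 ^ b → lg b i (j : ℝ) = if i = j then 1 else 0)
    (F : Fin (2 ^ L) → ℝ) (n i : ℕ) (hn : n < 2 ^ L) (hi : i < 2 ^ b) :
    ex ((JM L b (0 + 1) - JM L b 0) *ᵥ F) (lep L 0 n + i * 2 ^ (L - 0 - b)) =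
      ex F (lep L 0 n + i * 2 ^ (L - 0 - b)) := by
  have hz := node_lt b 0 h n hn i hi
  rw [ex_lt _ _ hz, Matrix.sub_mulVec, Pi.sub_apply, JM_node b 0 h hL1 F n i hi hz]
  have h1 : JM L b 0 = 0 := rfl
  rw [h1, Matrix.zero_mulVec, Pi.zero_apply, sub_zero]

/-- `u` in the nodes, `s + 1` -/
lemma u_succ (b s : ℕ) (h : s + 1 + b ≤ L)
    (hL1 : ∀ i j : ℕ, i < 2 ^ b → j < 2 ^ b → lg b i (j : ℝ) = if i = j then 1 else 0)
    (F : Fin (2 ^ L) → ℝ) (n i : ℕ) (hn : n < 2 ^ L) (hi : i < 2 ^ b) :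
    ex ((JM L b (s + 1 + 1) - JM L b (s + 1)) *ᵥ F) (lep L (s + 1) n + i * 2 ^ (L - (s + 1) - b)) =
      ex F (lep L s n + (i + (n / 2 ^ (L - (s + 1)) % 2) * 2 ^ b) * 2 ^ (L - (s + 1) - b)) -
      ∑ k ∈ range (2 ^ b), lg b k (((i + (n / 2 ^ (L - (s + 1)) % 2) * 2 ^ b : ℕ) : ℝ) / 2) *
        ex F (lep L s n + (2 * k) * 2 ^ (L - (s + 1) - b)) := by
  have hz := node_lt b (s + 1) h n hn i hi
  have e1 : 2 ^ (L - (s + 1)) = 2 ^ b * 2 ^ (L - (s + 1) - b) := by
    rw [← pow_add]; congr 1; omega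
  have hzz : lep L (s + 1) n + i * 2 ^ (L - (s + 1) - b) =
      lep L s n + (i + (n / 2 ^ (L - (s + 1)) % 2) * 2 ^ b) * 2 ^ (L - (s + 1) - b) := by
    rw [lep_split s (by omega) n]
    nth_rewrite 2 [e1]
    ring
  rw [ex_lt _ _ hz, Matrix.sub_mulVec, Pi.sub_apply, JM_node b (s + 1) h hL1 F n i hi hz,
    JM_mulVec b s (by omega)]
  simp only
  rw [lep_pred_node b s h n i hi]
  set m := i + (n / 2 ^ (L - (s + 1)) % 2) * 2 ^ b with hm
  rw [hzz]
  congr 1
  refine Finset.sum_congr rfl fun k _ => ?_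
  have e2 : 2 ^ (L - s - b) = 2 * 2 ^ (L - (s + 1) - b) := by
    rw [← pow_succ']; congr 1; omega
  have h1 : (((lep L s n + m * 2 ^ (L - (s + 1) - b) : ℕ) : ℝ) - ((lep L s n : ℕ) : ℝ)) /
      2 ^ (L - s - b) = (m : ℝ) / 2 := by
    have e3 : (2 : ℝ) ^ (L - s - b) = 2 * 2 ^ (L - (s + 1) - b) := by exact_mod_cast e2
    rw [e3]
    push_cast
    field_simp
    ring
  rw [h1, e2]
  congr 2
  ring

/-- the coefficients with respect to the nodes of level `s` -/
lemma coef (b : ℕ)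
    (hJ2 : ∀ L a c : ℕ, JM L b a * JM L b c = JM L b (min a c))
    (hJ3 : ∀ L j k : ℕ, j ≤ k + b + 1 → IM L j * JM L b (k + 1) = IM L j)
    (C1 : ℝ) (hC1 : 0 < C1)
    (hL4 : ∀ i : ℕ, i < 2 ^ b → ∀ y y' : ℝ, 0 ≤ y → y ≤ 2 ^ b → 0 ≤ y' → y' ≤ 2 ^ b →
      |lg b i y| ≤ C1 ∧ |lg b i y - lg b i y'| ≤ C1 * |y - y'|)
    (L s v : ℕ) (hsv : s ≤ v) (h : s + b ≤ L) :
    ∃ a0 : Fin (2 ^ L) → ℕ → ℝ,
      (∀ x i, |a0 x i| ≤ (C1 * 2 ^ b + 1) * (2 : ℝ) ^ (-((v : ℝ) - s))) ∧
      ∀ (F : Fin (2 ^ L) → ℝ) (x : Fin (2 ^ L)),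
        (((IM L (v + 1) - IM L v) * (JM L b (s + 1) - JM L b s)) *ᵥ F) x =
          ∑ i ∈ range (2 ^ b), a0 x i *
            ex ((JM L b (s + 1) - JM L b s) *ᵥ F) (lep L s x + i * 2 ^ (L - s - b)) := by
  set C0 := C1 * 2 ^ b + 1 with hC0
  have hC0p : 0 < C0 := by positivity
  have hb1 : 0 ∈ range (2 ^ b) := Finset.mem_range.mpr (by positivity)
  rcases hsv.eq_or_lt with rfl | hlt
  · -- v = s
    refine ⟨fun _ i => if i = 0 then 1 else 0, ?_, ?_⟩
    · intro x i
      rw [sub_self, neg_zero, Real.rpow_zero, mul_one]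
      beta_reduce
      split_ifs
      · rw [abs_one, hC0]
        have : 0 ≤ C1 * 2 ^ b := by positivity
        linarith
      · rw [abs_zero]
        exact hC0p.le
    · intro F x
      have hz : IM L s * (JM L b (s + 1) - JM L b s) = 0 := by
        rw [mul_sub, hJ3 L s s (by omega)]
        rcases s with _ | s
        · have : IM L 0 = 0 := rfl
          rw [this, zero_mul, sub_zero]
        · rw [hJ3 L (s + 1) s (by omega), sub_self]
      rw [sub_mul, hz, sub_zero, ← Matrix.mulVec_mulVec, IM_mulVec, Finset.sum_eq_single 0]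
      · beta_reduce
        rw [if_pos rfl, one_mul, zero_mul, add_zero]
        exact (ex_fin _ (lepf s x)).symm
      · intro i _ hi
        beta_reduce
        rw [if_neg hi, zero_mul]
      · intro h'
        exact absurd hb1 h'
  · rcases le_or_gt v L with hvL | hvL
    · -- s < v ≤ L
      obtain ⟨w, rfl⟩ : ∃ w, v = w + 1 := ⟨v - 1, by omega⟩
      set τ : ℝ := 2 ^ (L - s - b) with hτ
      have hτ0 : 0 < τ := by positivity
      have hrange : ∀ (t : ℕ) (x : Fin (2 ^ L)), s ≤ t →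
          0 ≤ (((lep L t x : ℕ) : ℝ) - ((lep L s x : ℕ) : ℝ)) / τ ∧
          (((lep L t x : ℕ) : ℝ) - ((lep L s x : ℕ) : ℝ)) / τ ≤ 2 ^ b := by
        intro t x hst
        have h1 : lep L s x ≤ lep L t x := by
          have := lep_le L s (lep L t x)
          rwa [lep_lep s t hst] at this
        have h2 : lep L t x ≤ x := lep_le _ _ _
        have h3 : (x : ℕ) < lep L s x + 2 ^ (L - s) := by
          unfold lep
          have h4 := Nat.div_add_mod (x : ℕ) (2 ^ (L - s))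
          have h5 := Nat.mod_lt (x : ℕ) (show 0 < 2 ^ (L - s) by positivity)
          rw [mul_comm] at h4
          omega
        have h4 : (2 : ℝ) ^ (L - s) = 2 ^ b * τ := by
          rw [hτ, ← pow_add]; congr 1; omega
        have h5 : ((lep L s x : ℕ) : ℝ) ≤ ((lep L t x : ℕ) : ℝ) := by exact_mod_cast h1
        have h6 : ((lep L t x : ℕ) : ℝ) ≤ ((lep L s x : ℕ) : ℝ) + 2 ^ (L - s) := by
          have : lep L t x ≤ lep L s x + 2 ^ (L - s) := by omega
          exact_mod_cast this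
        constructor
        · apply div_nonneg (by linarith) hτ0.le
        · rw [div_le_iff₀ hτ0, ← h4]
          linarith
      refine ⟨fun x i => if i < 2 ^ b then
        lg b i ((((lep L (w + 1) x : ℕ) : ℝ) - ((lep L s x : ℕ) : ℝ)) / τ) -
        lg b i ((((lep L w x : ℕ) : ℝ) - ((lep L s x : ℕ) : ℝ)) / τ) else 0, ?_, ?_⟩
      · intro x i
        have hpos : 0 ≤ C0 * (2 : ℝ) ^ (-(((w + 1 : ℕ) : ℝ) - s)) := by positivity
        beta_reduce
        split_ifs with hi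
        · obtain ⟨y1, y2⟩ := hrange (w + 1) x (by omega)
          obtain ⟨y3, y4⟩ := hrange w x (by omega)
          refine (hL4 i hi _ _ y1 y2 y3 y4).2.trans ?_
          have e1 : (((lep L (w + 1) x : ℕ) : ℝ) - ((lep L s x : ℕ) : ℝ)) / τ -
              (((lep L w x : ℕ) : ℝ) - ((lep L s x : ℕ) : ℝ)) / τ =
              ((((x : ℕ) / 2 ^ (L - (w + 1)) % 2 : ℕ) : ℝ) * 2 ^ (L - (w + 1))) / τ := by
            rw [← sub_div]
            congr 1
            rw [lep_split w (by omega) x]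
            push_cast
            ring
          have e2 : (2 : ℝ) ^ (L - (w + 1)) / τ = 2 ^ b * (2 : ℝ) ^ (-(((w + 1 : ℕ) : ℝ) - s)) := by
            rw [div_eq_iff hτ0.ne', hτ, ← Real.rpow_natCast 2 (L - (w + 1)),
              ← Real.rpow_natCast 2 b, ← Real.rpow_natCast 2 (L - s - b),
              ← Real.rpow_add (by norm_num), ← Real.rpow_add (by norm_num)]
            congr 1
            rw [Nat.cast_sub (by omega), Nat.cast_sub (by omega), Nat.cast_sub (by omega)]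
            push_cast
            ring
          have e3 : (((x : ℕ) / 2 ^ (L - (w + 1)) % 2 : ℕ) : ℝ) ≤ 1 := by
            have : (x : ℕ) / 2 ^ (L - (w + 1)) % 2 < 2 := Nat.mod_lt _ (by norm_num)
            have : (x : ℕ) / 2 ^ (L - (w + 1)) % 2 ≤ 1 := by omega
            exact_mod_cast this
          have e4 : (0 : ℝ) ≤ (((x : ℕ) / 2 ^ (L - (w + 1)) % 2 : ℕ) : ℝ) := Nat.cast_nonneg _
          rw [e1, mul_div_assoc, e2, abs_of_nonneg (by positivity)]
          set r := (2 : ℝ) ^ (-(((w + 1 : ℕ) : ℝ) - s))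
          have hr : 0 ≤ r := by positivity
          calc C1 * ((((x : ℕ) / 2 ^ (L - (w + 1)) % 2 : ℕ) : ℝ) * (2 ^ b * r))
              ≤ C1 * (1 * (2 ^ b * r)) := by gcongr
            _ = C1 * 2 ^ b * r := by ring
            _ ≤ C0 * r := by
                apply mul_le_mul_of_nonneg_right _ hr
                rw [hC0]; linarith
        · rw [abs_zero]
          exact hpos
      · intro F x
        set u := (JM L b (s + 1) - JM L b s) *ᵥ F with hu
        have hJu : JM L b (s + 1) *ᵥ u = u := by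
          rw [hu, Matrix.mulVec_mulVec, mul_sub, hJ2, hJ2]
          rw [min_self, min_eq_right (by omega : s ≤ s + 1)]
        have hval : ∀ t : ℕ, s ≤ t → u (lepf t x) = ∑ i ∈ range (2 ^ b),
            lg b i ((((lep L t x : ℕ) : ℝ) - ((lep L s x : ℕ) : ℝ)) / τ) *
              ex u (lep L s x + i * 2 ^ (L - s - b)) := by
          intro t hst
          nth_rewrite 1 [← hJu]
          rw [JM_mulVec b s h]
          have : lep L s ((lepf t x : Fin (2 ^ L)) : ℕ) = lep L s x := lep_lep s t hst x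
          rw [this]
          rfl
        rw [← Matrix.mulVec_mulVec, ← hu, Matrix.sub_mulVec, Pi.sub_apply, IM_mulVec, IM_mulVec,
          hval (w + 1) (by omega), hval w (by omega), ← Finset.sum_sub_distrib]
        refine Finset.sum_congr rfl fun i hi => ?_
        beta_reduce
        rw [if_pos (Finset.mem_range.mp hi)]
        ring
    · -- v > L
      obtain ⟨w, rfl⟩ : ∃ w, v = w + 1 := ⟨v - 1, by omega⟩
      refine ⟨fun _ _ => 0, ?_, ?_⟩
      · intro x i
        rw [abs_zero]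
        positivity
      · intro F x
        have h1 : lepf (w + 1) x = lepf w x := by
          apply Fin.ext
          have e1 : L - (w + 1) = 0 := by omega
          have e2 : L - w = 0 := by omega
          simp [lepf, lep, e1, e2]
        rw [← Matrix.mulVec_mulVec, Matrix.sub_mulVec, Pi.sub_apply, IM_mulVec, IM_mulVec, h1,
          sub_self]
        simp

end JKBM

open JKBM in
theorem specJKB (hLAG : SpecLAG) (hJOP : SpecJOP) (hFDR : SpecFDR) : SpecJKB := by
  intro b l hlb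
  obtain ⟨hL1, -, hL3, C1, hC1, hL4⟩ := hLAG b
  obtain ⟨-, hJ2, hJ3, -⟩ := hJOP b
  -- the functionals
  set lam : ℕ → ℕ → ℝ := fun m μ => (if μ = m then 1 else 0) -
    ∑ k ∈ range (2 ^ b), if μ = 2 * k then lg b k ((m : ℝ) / 2) else 0 with hlam
  have hlamG : ∀ m < 2 ^ (b + 1), ∀ G : ℕ → ℝ, ∑ μ ∈ range (2 ^ (b + 1)), lam m μ * G μ =
      G m - ∑ k ∈ range (2 ^ b), lg b k ((m : ℝ) / 2) * G (2 * k) := by
    intro m hm G
    simp only [hlam, sub_mul]
    rw [Finset.sum_sub_distrib]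
    congr 1
    · rw [Finset.sum_eq_single m]
      · rw [if_pos rfl, one_mul]
      · intro μ _ hμ
        rw [if_neg hμ, zero_mul]
      · intro h'
        exact absurd (Finset.mem_range.mpr hm) h'
    · simp_rw [Finset.sum_mul]
      rw [Finset.sum_comm]
      refine Finset.sum_congr rfl fun k hk => ?_
      rw [Finset.sum_eq_single (2 * k)]
      · rw [if_pos rfl]
      · intro μ _ hμ
        rw [if_neg hμ, zero_mul]
      · intro h'
        have : k < 2 ^ b := Finset.mem_range.mp hk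
        refine absurd (Finset.mem_range.mpr ?_) h'
        rw [pow_succ]
        omega
  have hFD : ∀ m : ℕ, ∃ γ : ℕ → ℝ, m < 2 ^ (b + 1) → ∀ G : ℕ → ℝ,
      G m - ∑ k ∈ range (2 ^ b), lg b k ((m : ℝ) / 2) * G (2 * k) =
      ∑ μ ∈ range (2 ^ (b + 1) - l), γ μ *
        ∑ i ∈ range (l + 1), (-1 : ℝ) ^ (l - i) * (l.choose i) * G (μ + i) := by
    intro m
    by_cases hm : m < 2 ^ (b + 1)
    · obtain ⟨γ, hγ⟩ := hFDR l (2 ^ (b + 1)) (lam m) (by
        intro P hP
        rw [hlamG m hm (fun μ => P.eval (μ : ℝ))]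
        set Q := P.comp (Polynomial.C 2 * Polynomial.X) with hQ
        have hPd : P.natDegree < 2 ^ b := by
          by_cases hP0 : P = 0
          · rw [hP0, Polynomial.natDegree_zero]
            positivity
          · rw [Polynomial.degree_eq_natDegree hP0] at hP
            have : P.natDegree < l := by exact_mod_cast hP
            omega
        have hQd : Q.natDegree < 2 ^ b := by
          refine lt_of_le_of_lt ?_ hPd
          rw [hQ]
          refine Polynomial.natDegree_comp_le.trans ?_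
          have : (Polynomial.C (2 : ℝ) * Polynomial.X).natDegree = 1 :=
            Polynomial.natDegree_C_mul_X _ (by norm_num)
          nlinarith
        have h1 := hL3 Q hQd ((m : ℝ) / 2)
        have h2 : ∀ y : ℝ, Q.eval y = P.eval (2 * y) := by
          intro y
          rw [hQ, Polynomial.eval_comp]
          simp
        simp_rw [h2] at h1
        have h3 : ∑ k ∈ range (2 ^ b), lg b k ((m : ℝ) / 2) * P.eval (((2 * k : ℕ) : ℕ) : ℝ) =
            P.eval (m : ℝ) := by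
          have e1 : (2 : ℝ) * ((m : ℝ) / 2) = m := by ring
          rw [e1] at h1
          rw [← h1]
          refine Finset.sum_congr rfl fun k _ => ?_
          push_cast
          rfl
        rw [h3, sub_self])
      refine ⟨γ, fun _ G => ?_⟩
      rw [← hlamG m hm G, hγ G]
    · exact ⟨0, fun h' => absurd h' hm⟩
  choose γ hγ using hFD
  set Γ := ∑ m ∈ range (2 ^ (b + 1)), ∑ μ ∈ range (2 ^ (b + 1)), |γ m μ| with hΓ
  have hΓ0 : 0 ≤ Γ := Finset.sum_nonneg fun _ _ => Finset.sum_nonneg fun _ _ => abs_nonneg _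
  have hγΓ : ∀ m < 2 ^ (b + 1), ∀ μ < 2 ^ (b + 1), |γ m μ| ≤ Γ := by
    intro m hm μ hμ
    calc |γ m μ| ≤ ∑ μ ∈ range (2 ^ (b + 1)), |γ m μ| :=
          Finset.single_le_sum (f := fun μ => |γ m μ|) (fun _ _ => abs_nonneg _)
            (Finset.mem_range.mpr hμ)
      _ ≤ Γ := Finset.single_le_sum (f := fun m => ∑ μ ∈ range (2 ^ (b + 1)), |γ m μ|)
            (fun _ _ => Finset.sum_nonneg fun _ _ => abs_nonneg _) (Finset.mem_range.mpr hm)
  set C0 := C1 * 2 ^ b + 1 with hC0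
  have hC0p : 0 < C0 := by positivity
  refine ⟨C0 + 2 ^ b * C0 * Γ, by positivity, ?_⟩
  intro L s v hsv h
  obtain ⟨a0, ha0, hrep⟩ := coef b hJ2 hJ3 C1 hC1 hL4 L s v hsv h
  set r := (2 : ℝ) ^ (-((v : ℝ) - s)) with hr
  have hr0 : 0 < r := by positivity
  rcases s with _ | s
  · -- s = 0
    refine ⟨fun x μ => if μ < 2 ^ b then a0 x μ else 0, ?_, ?_⟩
    · intro x μ
      have h1 : C0 * r ≤ (C0 + 2 ^ b * C0 * Γ) * r := by
        apply mul_le_mul_of_nonneg_right _ hr0.le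
        have : 0 ≤ 2 ^ b * C0 * Γ := by positivity
        linarith
      simp only
      split_ifs
      · exact (ha0 x μ).trans h1
      · rw [abs_zero]
        positivity
    · intro x y
      have hx := hrep (Pi.single y 1) x
      rw [Matrix.mulVec_single_one] at hx
      have e0 : (((IM L (v + 1) - IM L v) * (JM L b (0 + 1) - JM L b 0)).col y) x =
          ((IM L (v + 1) - IM L v) * (JM L b (0 + 1) - JM L b 0)) x y := rfl
      rw [e0] at hx
      rw [hx]
      have hsplit : ∑ μ ∈ range (2 ^ (b + 1)), (if μ < 2 ^ b then a0 x μ else 0) *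
          (if (0 : ℕ) = 0 then (1 : M1 L) else DM L l (2 ^ (L - 0 - b))) (nd L b 0 x μ) y =
          ∑ μ ∈ range (2 ^ b), a0 x μ * (1 : M1 L) (nd L b 0 x μ) y := by
        rw [if_pos rfl]
        symm
        refine Finset.sum_subset_zero_on_sdiff ?_ ?_ ?_
        · intro μ hμ
          rw [Finset.mem_range] at hμ ⊢
          rw [pow_succ]
          omega
        · intro μ hμ
          rw [Finset.mem_sdiff, Finset.mem_range, Finset.mem_range] at hμ
          rw [if_neg hμ.2, zero_mul]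
        · intro μ hμ
          rw [if_pos (Finset.mem_range.mp hμ)]
      rw [hsplit]
      refine Finset.sum_congr rfl fun i hi => ?_
      have hi' := Finset.mem_range.mp hi
      congr 1
      rw [u_zero b h hL1 _ x i x.2 hi']
      have e1 : (1 : M1 L) (nd L b 0 x i) y = (Pi.single y 1 : Fin (2 ^ L) → ℝ) (nd L b 0 x i) := by
        rw [Matrix.one_apply, Pi.single_apply]
      rw [e1]
      unfold ex nd
      congr 1
  · -- s + 1
    set τ := 2 ^ (L - (s + 1) - b) with hτ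
    set mm : Fin (2 ^ L) → ℕ → ℕ := fun x i => i + ((x : ℕ) / 2 ^ (L - (s + 1)) % 2) * 2 ^ b
      with hmm
    have hmmlt : ∀ x : Fin (2 ^ L), ∀ i < 2 ^ b, mm x i < 2 ^ (b + 1) := by
      intro x i hi
      simp only [hmm]
      have h1 : (x : ℕ) / 2 ^ (L - (s + 1)) % 2 < 2 := Nat.mod_lt _ (by norm_num)
      have h2 : (x : ℕ) / 2 ^ (L - (s + 1)) % 2 ≤ 1 := by omega
      have h3 : ((x : ℕ) / 2 ^ (L - (s + 1)) % 2) * 2 ^ b ≤ 1 * 2 ^ b := Nat.mul_le_mul_right _ h2
      rw [pow_succ]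
      omega
    refine ⟨fun x μ => if μ < 2 ^ (b + 1) - l then
      ∑ i ∈ range (2 ^ b), a0 x i * γ (mm x i) μ else 0, ?_, ?_⟩
    · intro x μ
      have h1 : 2 ^ b * C0 * Γ * r ≤ (C0 + 2 ^ b * C0 * Γ) * r := by
        apply mul_le_mul_of_nonneg_right _ hr0.le
        linarith
      simp only
      split_ifs with hμ
      · refine le_trans ?_ h1
        calc |∑ i ∈ range (2 ^ b), a0 x i * γ (mm x i) μ|
            ≤ ∑ i ∈ range (2 ^ b), |a0 x i * γ (mm x i) μ| := Finset.abs_sum_le_sum_abs _ _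
          _ ≤ ∑ _i ∈ range (2 ^ b), (C0 * r) * Γ := by
              refine Finset.sum_le_sum fun i hi => ?_
              rw [abs_mul]
              exact mul_le_mul (ha0 x i)
                (hγΓ _ (hmmlt x i (Finset.mem_range.mp hi)) μ (by omega)) (abs_nonneg _)
                (by positivity)
          _ = 2 ^ b * C0 * Γ * r := by
              rw [Finset.sum_const, Finset.card_range, nsmul_eq_mul]
              push_cast
              ring
      · rw [abs_zero]
        positivity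
    · intro x y
      have hx := hrep (Pi.single y 1) x
      rw [Matrix.mulVec_single_one] at hx
      have e0 : (((IM L (v + 1) - IM L v) * (JM L b (s + 1 + 1) - JM L b (s + 1))).col y) x =
          ((IM L (v + 1) - IM L v) * (JM L b (s + 1 + 1) - JM L b (s + 1))) x y := rfl
      rw [e0] at hx
      rw [hx]
      set F : Fin (2 ^ L) → ℝ := Pi.single y 1 with hF
      set G : ℕ → ℝ := fun n => ex F (lep L s x + n * τ) with hG
      -- the right side
      have hD : ∀ μ : ℕ, DM L l τ (nd L b (s + 1) x μ) y =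
          ∑ i ∈ range (l + 1), (-1 : ℝ) ^ (l - i) * (l.choose i) * G (μ + i) := by
        intro μ
        have e1 : DM L l τ (nd L b (s + 1) x μ) y = (DM L l τ *ᵥ F) (nd L b (s + 1) x μ) := by
          rw [hF, Matrix.mulVec_single_one]
          rfl
        rw [e1, DM_mulVec]
        refine Finset.sum_congr rfl fun i _ => ?_
        congr 1
        simp only [hG]
        have e2 : ((nd L b (s + 1) x μ : Fin (2 ^ L)) : ℕ) = (lep L s x + μ * τ) % 2 ^ L := by
          unfold nd lep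
          simp only [hτ, Nat.add_sub_cancel]
        rw [e2, ex_mod]
        congr 1
        ring
      have hsplit : ∑ μ ∈ range (2 ^ (b + 1)), (if μ < 2 ^ (b + 1) - l then
            ∑ i ∈ range (2 ^ b), a0 x i * γ (mm x i) μ else 0) *
          (if s + 1 = 0 then (1 : M1 L) else DM L l τ) (nd L b (s + 1) x μ) y =
          ∑ μ ∈ range (2 ^ (b + 1) - l), (∑ i ∈ range (2 ^ b), a0 x i * γ (mm x i) μ) *
            DM L l τ (nd L b (s + 1) x μ) y := by
        rw [if_neg (Nat.succ_ne_zero s)]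
        symm
        refine Finset.sum_subset_zero_on_sdiff ?_ ?_ ?_
        · intro μ hμ
          rw [Finset.mem_range] at hμ ⊢
          omega
        · intro μ hμ
          rw [Finset.mem_sdiff, Finset.mem_range, Finset.mem_range] at hμ
          rw [if_neg hμ.2, zero_mul]
        · intro μ hμ
          rw [if_pos (Finset.mem_range.mp hμ)]
      rw [hsplit]
      simp_rw [Finset.sum_mul]
      rw [Finset.sum_comm]
      refine Finset.sum_congr rfl fun i hi => ?_
      have hi' := Finset.mem_range.mp hi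
      rw [u_succ b s h hL1 F x i x.2 hi']
      have h1 := hγ (mm x i) (hmmlt x i hi') G
      have h2 : ex F (lep L s x + (i + (x : ℕ) / 2 ^ (L - (s + 1)) % 2 * 2 ^ b) * τ) -
          ∑ k ∈ range (2 ^ b), lg b k (((i + (x : ℕ) / 2 ^ (L - (s + 1)) % 2 * 2 ^ b : ℕ) : ℝ) / 2) *
            ex F (lep L s x + 2 * k * τ) =
          G (mm x i) - ∑ k ∈ range (2 ^ b), lg b k ((mm x i : ℝ) / 2) * G (2 * k) := rfl
      rw [h2, h1, Finset.mul_sum]
      refine Finset.sum_congr rfl fun μ _ => ?_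
      rw [hD μ]
      ring

end Pool.Agent.MP_bc5265.R2
end

section
/-!
# LAG: Lagrange polynomials
-/
set_option linter.unusedSectionVars false

open MeasureTheory Finset Matrix
open scoped ENNReal

namespace Pool.Agent.MP_bc5265.R2

open Pool.Agent.MP_bc5265.S

noncomputable section

namespace LAGM

/-- the nodes -/
def nod (j : ℕ) : ℝ := (j : ℝ)

theorem nod_inj (s : Set ℕ) : Set.InjOn nod s := fun _ _ _ _ h => Nat.cast_injective h

/-- the Lagrange polynomial -/
def LP (b i : ℕ) : Polynomial ℝ := Lagrange.basis (range (2 ^ b)) nod i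

theorem eval_LP (b i : ℕ) (y : ℝ) : (LP b i).eval y = lg b i y := by
  unfold LP Lagrange.basis lg
  rw [Polynomial.eval_prod]
  refine Finset.prod_congr rfl fun j _ => ?_
  simp only [Lagrange.basisDivisor, Polynomial.eval_mul, Polynomial.eval_C, Polynomial.eval_sub,
    Polynomial.eval_X, nod]
  rw [div_eq_mul_inv, mul_comm]

theorem lg_node (b i j : ℕ) (hi : i < 2 ^ b) (hj : j < 2 ^ b) :
    lg b i (j : ℝ) = if i = j then 1 else 0 := by
  rw [← eval_LP]
  split_ifs with h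
  · subst h
    exact Lagrange.eval_basis_self (v := nod) (nod_inj _) (Finset.mem_range.2 hi)
  · exact Lagrange.eval_basis_of_ne (v := nod) h (Finset.mem_range.2 hj)

theorem natDegree_LP (b i : ℕ) (hi : i < 2 ^ b) : (LP b i).natDegree < 2 ^ b := by
  unfold LP
  rw [Lagrange.natDegree_basis (nod_inj _) (Finset.mem_range.2 hi), Finset.card_range]
  have : 0 < 2 ^ b := by positivity
  omega

theorem repro (b : ℕ) (P : Polynomial ℝ) (hP : P.natDegree < 2 ^ b) (y : ℝ) :
    ∑ i ∈ range (2 ^ b), lg b i y * P.eval (i : ℝ) = P.eval y := by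
  have hdeg : P.degree < ((range (2 ^ b)).card : ℕ) := by
    rw [Finset.card_range]
    exact lt_of_le_of_lt Polynomial.degree_le_natDegree (Nat.cast_lt.2 hP)
  have h := Lagrange.eq_interpolate (v := nod) (nod_inj _) hdeg
  conv_rhs => rw [h]
  rw [Lagrange.interpolate_apply, Polynomial.eval_finsetSum]
  refine Finset.sum_congr rfl fun i _ => ?_
  rw [Polynomial.eval_mul, Polynomial.eval_C, mul_comm]
  congr 1
  exact (eval_LP b i y).symm

theorem poly_bound (P : Polynomial ℝ) (R : ℝ) : ∃ C : ℝ, 0 ≤ C ∧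
    ∀ y y' : ℝ, 0 ≤ y → y ≤ R → 0 ≤ y' → y' ≤ R →
      |P.eval y| ≤ C ∧ |P.eval y - P.eval y'| ≤ C * |y - y'| := by
  obtain ⟨C1, h1⟩ := (isCompact_Icc (a := (0 : ℝ)) (b := R)).exists_bound_of_continuousOn
    (f := fun y => P.eval y) P.continuous.continuousOn
  obtain ⟨C2, h2⟩ := (isCompact_Icc (a := (0 : ℝ)) (b := R)).exists_bound_of_continuousOn
    (f := fun y => (Polynomial.derivative P).eval y)
    (Polynomial.derivative P).continuous.continuousOn
  refine ⟨max (max C1 C2) 0, le_max_right _ _, fun y y' a1 a2 a3 a4 => ⟨?_, ?_⟩⟩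
  · exact (h1 y ⟨a1, a2⟩).trans ((le_max_left _ _).trans (le_max_left _ _))
  · have h3 := Convex.norm_image_sub_le_of_norm_deriv_le (f := fun y => P.eval y)
      (C := max (max C1 C2) 0) (s := Set.Icc 0 R) (x := y') (y := y)
      (fun x _ => P.differentiable.differentiableAt) (fun x hx => by
        rw [Polynomial.deriv]
        exact (h2 x hx).trans ((le_max_right _ _).trans (le_max_left _ _)))
      (convex_Icc 0 R) ⟨a3, a4⟩ ⟨a1, a2⟩
    exact h3

theorem lg_bound (b : ℕ) : ∃ C : ℝ, 0 < C ∧ ∀ i : ℕ, i < 2 ^ b → ∀ y y' : ℝ, 0 ≤ y →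
    y ≤ 2 ^ b → 0 ≤ y' → y' ≤ 2 ^ b → |lg b i y| ≤ C ∧ |lg b i y - lg b i y'| ≤ C * |y - y'| := by
  choose C hC0 hC using fun i => poly_bound (LP b i) (2 ^ b)
  have hS : 0 ≤ ∑ i ∈ range (2 ^ b), C i := Finset.sum_nonneg fun i _ => hC0 i
  refine ⟨1 + ∑ i ∈ range (2 ^ b), C i, by linarith, fun i hi y y' a1 a2 a3 a4 => ?_⟩
  have hi' : C i ≤ 1 + ∑ i ∈ range (2 ^ b), C i := by
    have := Finset.single_le_sum (f := C) (fun i _ => hC0 i) (Finset.mem_range.2 hi)
    linarith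
  obtain ⟨b1, b2⟩ := hC i y y' a1 a2 a3 a4
  rw [eval_LP, eval_LP] at b2
  rw [eval_LP] at b1
  exact ⟨b1.trans hi', b2.trans (mul_le_mul_of_nonneg_right hi' (abs_nonneg _))⟩

end LAGM

open LAGM in
theorem specLAG : SpecLAG := fun b =>
  ⟨fun i j hi hj => lg_node b i j hi hj,
    fun i hi => ⟨LP b i, natDegree_LP b i hi, fun y => eval_LP b i y⟩,
    fun P hP y => repro b P hP y, lg_bound b⟩

end

end Pool.Agent.MP_bc5265.R2
end

section
/-!
# RAT: choice of `n`
-/
set_option linter.unusedSectionVars false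

open MeasureTheory Finset Matrix
open scoped ENNReal

namespace Pool.Agent.MP_bc5265.R2

open Pool.Agent.MP_bc5265.S

noncomputable section

namespace RATM

/-- From `C * n^(d-1) * 2^n ≤ m` and `1 / C ≤ m`: `n ≤ 4 log m`. -/
lemma n_le_log (d n m : ℕ) (C : ℝ) (hn : 1 ≤ n) (hC : 0 < C) (hm : 1 ≤ m) (hCm : 1 / C ≤ m)
    (h : C * (n : ℝ) ^ (d - 1) * 2 ^ n ≤ m) : (n : ℝ) ≤ 4 * Real.log m := by
  have hm0 : (0 : ℝ) < m := by exact_mod_cast hm
  have h1 : (1 : ℝ) ≤ (n : ℝ) ^ (d - 1) := one_le_pow₀ (by exact_mod_cast hn)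
  have h2 : C * 2 ^ n ≤ m := by
    refine le_trans ?_ h
    have h3 : 0 < C * 2 ^ n := by positivity
    calc C * 2 ^ n = C * 2 ^ n * 1 := by ring
      _ ≤ C * 2 ^ n * (n : ℝ) ^ (d - 1) := by gcongr
      _ = _ := by ring
  have h4 : (2 : ℝ) ^ n ≤ m * m := by
    have h5 : (2 : ℝ) ^ n ≤ m / C := by rw [le_div_iff₀ hC]; linarith
    calc (2 : ℝ) ^ n ≤ m / C := h5
      _ = m * (1 / C) := by ring
      _ ≤ m * m := by gcongr
  have h6 : (n : ℝ) * Real.log 2 ≤ 2 * Real.log m := by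
    have h7 := Real.log_le_log (by positivity) h4
    rw [Real.log_pow, Real.log_mul hm0.ne' hm0.ne'] at h7
    linarith
  have h8 := Real.log_two_gt_d9
  have h9 : (0 : ℝ) ≤ n := Nat.cast_nonneg n
  nlinarith

end RATM

open RATM

theorem specRAT : SpecRAT := by
  intro d p r C hd hp hr hC
  obtain ⟨a, ha⟩ := exists_nat_ge (2 * C)
  obtain ⟨b, hb⟩ := exists_nat_ge (1 / C)
  set E : ℝ := ((d : ℝ) - 1) * (r + 1 / p) with hE
  have hd1 : (1 : ℝ) ≤ (d : ℝ) - 1 := by
    have : (2 : ℝ) ≤ d := by exact_mod_cast hd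
    linarith
  have hE0 : 0 < E := by
    have : 0 < r + 1 / p := by positivity
    rw [hE]
    exact mul_pos (by linarith) this
  set m0 : ℕ := 2 + a + b with hm0
  set C1 : ℝ := (C * 2 ^ d) ^ r * 4 ^ E with hC1
  set C2 : ℝ := (m0 : ℝ) ^ r * (1 / Real.log 2) ^ E with hC2
  have hlog2 : 0 < Real.log 2 := Real.log_pos one_lt_two
  have hC1p : 0 < C1 := by positivity
  have hm0p : (0 : ℝ) < m0 := by
    rw [hm0]; push_cast; positivity
  have hC2p : 0 < C2 := by positivity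
  refine ⟨m0, C1 + C2, by omega, by positivity, ?_, ?_⟩
  · intro m hm
    have hmm : (m0 : ℝ) ≤ m := by exact_mod_cast hm
    have hmp : (0 : ℝ) < m := by linarith
    have hm0' : (m0 : ℝ) = 2 + a + b := by rw [hm0]; push_cast; ring
    have ha0 : (0 : ℝ) ≤ a := Nat.cast_nonneg a
    have hb0 : (0 : ℝ) ≤ b := Nat.cast_nonneg b
    have hm1 : 1 ≤ m := by omega
    have hCm : 1 / C ≤ m := by linarith
    -- choice of `n`
    obtain ⟨n, hn1, hn2, hn3⟩ : ∃ n : ℕ, 1 ≤ n ∧ C * (n : ℝ) ^ (d - 1) * 2 ^ n ≤ m ∧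
        (m : ℝ) < C * ((n : ℝ) + 1) ^ (d - 1) * 2 ^ (n + 1) := by
      by_contra hcon
      push Not at hcon
      have hall : ∀ k : ℕ, C * ((k + 1 : ℕ) : ℝ) ^ (d - 1) * 2 ^ (k + 1) ≤ m := by
        intro k
        induction k with
        | zero =>
          simp only [zero_add, Nat.cast_one, one_pow, mul_one, pow_one]
          linarith
        | succ k ih =>
          have := hcon (k + 1) (by omega) ih
          simpa using this
      have h1 := n_le_log d (4 * m + 1) m C (by omega) hC hm1 hCm (hall (4 * m))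
      have h2 : Real.log m ≤ m - 1 := Real.log_le_sub_one_of_pos hmp
      push_cast at h1
      linarith
    refine ⟨n, hn1, hn2, ?_⟩
    have hnp : (0 : ℝ) < n := by exact_mod_cast hn1
    have hn1' : (1 : ℝ) ≤ n := by exact_mod_cast hn1
    have hnlog := n_le_log d n m C hn1 hC hm1 hCm hn2
    have hlogm : 0 ≤ Real.log m := Real.log_natCast_nonneg m
    -- upper bound for `m`
    have hmup : (m : ℝ) ≤ (C * 2 ^ d * (n : ℝ) ^ (d - 1)) * 2 ^ n := by
      refine hn3.le.trans ?_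
      have h1 : ((n : ℝ) + 1) ^ (d - 1) ≤ (2 * n) ^ (d - 1) := by
        gcongr
        linarith
      have h2 : (2 : ℝ) ^ d = 2 ^ (d - 1) * 2 := by
        rw [← pow_succ]; congr 1; omega
      calc C * ((n : ℝ) + 1) ^ (d - 1) * 2 ^ (n + 1)
          ≤ C * (2 * n) ^ (d - 1) * 2 ^ (n + 1) := by gcongr
        _ = _ := by rw [h2, mul_pow, pow_succ]; ring
    set X : ℝ := C * 2 ^ d * (n : ℝ) ^ (d - 1) with hX
    have hXp : 0 < X := by positivity
    have h1 : (2 : ℝ) ^ (-(r * n)) ≤ X ^ r * (m : ℝ) ^ (-r) := by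
      have e1 : (2 : ℝ) ^ (-(r * n)) = ((2 : ℝ) ^ n) ^ (-r) := by
        rw [← Real.rpow_natCast, ← Real.rpow_mul two_pos.le]
        congr 1
        ring
      have e2 : ((2 : ℝ) ^ n) ^ (-r) ≤ ((m : ℝ) / X) ^ (-r) := by
        refine Real.rpow_le_rpow_of_nonpos (by positivity) ?_ (by linarith)
        rw [div_le_iff₀ hXp]
        linarith
      rw [e1]
      refine e2.trans (le_of_eq ?_)
      rw [Real.div_rpow hmp.le hXp.le, Real.rpow_neg hXp.le, div_inv_eq_mul, mul_comm]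
    have h2 : X ^ r = (C * 2 ^ d) ^ r * (n : ℝ) ^ (((d : ℝ) - 1) * r) := by
      rw [hX, Real.mul_rpow (by positivity) (by positivity), ← Real.rpow_natCast (n : ℝ) (d - 1),
        ← Real.rpow_mul hnp.le]
      congr 3
      rw [Nat.cast_sub (by omega)]
      push_cast
      ring
    have h3 : (n : ℝ) ^ (((d : ℝ) - 1) * r) * (n : ℝ) ^ (((d : ℝ) - 1) / p) = (n : ℝ) ^ E := by
      rw [← Real.rpow_add hnp, hE]
      congr 1
      ring
    have h4 : (n : ℝ) ^ E ≤ 4 ^ E * Real.log m ^ E := by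
      rw [← Real.mul_rpow (by norm_num) hlogm]
      exact Real.rpow_le_rpow hnp.le hnlog hE0.le
    have hmr : 0 ≤ (m : ℝ) ^ (-r) := by positivity
    calc (2 : ℝ) ^ (-(r * n)) * (n : ℝ) ^ (((d : ℝ) - 1) / p)
        ≤ (X ^ r * (m : ℝ) ^ (-r)) * (n : ℝ) ^ (((d : ℝ) - 1) / p) := by gcongr
      _ = (C * 2 ^ d) ^ r * (m : ℝ) ^ (-r) *
          ((n : ℝ) ^ (((d : ℝ) - 1) * r) * (n : ℝ) ^ (((d : ℝ) - 1) / p)) := by rw [h2]; ring
      _ = (C * 2 ^ d) ^ r * (m : ℝ) ^ (-r) * (n : ℝ) ^ E := by rw [h3]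
      _ ≤ (C * 2 ^ d) ^ r * (m : ℝ) ^ (-r) * (4 ^ E * Real.log m ^ E) := by gcongr
      _ = C1 * rate2 d p r m := by
          rw [hC1]; unfold rate2; ring
      _ ≤ (C1 + C2) * rate2 d p r m := by
          have : 0 ≤ rate2 d p r m := by
            unfold rate2
            have := Real.rpow_nonneg hlogm (((d : ℝ) - 1) * (r + 1 / p))
            positivity
          nlinarith
  · intro m hm2 hmm
    have hm2' : (2 : ℝ) ≤ m := by exact_mod_cast hm2
    have hmp : (0 : ℝ) < m := by linarith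
    have hmm' : (m : ℝ) ≤ m0 := by exact_mod_cast hmm.le
    have hlog : Real.log 2 ≤ Real.log m := Real.log_le_log two_pos hm2'
    have h1 : Real.log 2 ^ E ≤ Real.log m ^ E := Real.rpow_le_rpow hlog2.le hlog hE0.le
    have h2 : (m0 : ℝ) ^ (-r) ≤ (m : ℝ) ^ (-r) :=
      Real.rpow_le_rpow_of_nonpos hmp hmm' (by linarith)
    have h3 : C2 * ((m0 : ℝ) ^ (-r) * Real.log 2 ^ E) = 1 := by
      rw [hC2, Real.rpow_neg hm0p.le, Real.div_rpow zero_le_one hlog2.le, Real.one_rpow]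
      have e1 : (m0 : ℝ) ^ r ≠ 0 := (Real.rpow_pos_of_pos hm0p r).ne'
      have e2 : Real.log 2 ^ E ≠ 0 := (Real.rpow_pos_of_pos hlog2 E).ne'
      field_simp
    have h4 : (m0 : ℝ) ^ (-r) * Real.log 2 ^ E ≤ rate2 d p r m := by
      unfold rate2
      have : 0 ≤ (m0 : ℝ) ^ (-r) := by positivity
      gcongr
    have h5 : 0 ≤ rate2 d p r m := le_trans (by positivity) h4
    calc (1 : ℝ) = C2 * ((m0 : ℝ) ^ (-r) * Real.log 2 ^ E) := h3.symm
      _ ≤ C2 * rate2 d p r m := by gcongr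
      _ ≤ (C1 + C2) * rate2 d p r m := by nlinarith

end

end Pool.Agent.MP_bc5265.R2
end

section
/-!
# Row 230, SMB (helper15): cost and maximum norm of the Smolyak operator
-/
set_option linter.unusedSectionVars false

open MeasureTheory Finset Matrix
open scoped ENNReal

namespace Pool.Agent.MP_bc5265.R2

open Pool.Agent.MP_bc5265.S

namespace SMBM

/-- column support of `JM` -/
theorem JM_supp (L b k : ℕ) (hk : k + b ≤ L) (x y : Fin (2 ^ L))
    (h : ¬ 2 ^ (L - k - b) ∣ (y : ℕ)) : JM L b (k + 1) x y = 0 := by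
  simp only [JM, if_pos hk]
  apply Finset.sum_eq_zero
  intro i _
  rw [if_neg]
  intro hy
  apply h
  rw [hy]
  apply dvd_add
  · apply dvd_mul_of_dvd_right
    exact pow_dvd_pow 2 (by omega)
  · exact dvd_mul_left _ _

theorem diff_supp (L b k : ℕ) (hk : k + b ≤ L) (x y : Fin (2 ^ L))
    (h : ¬ 2 ^ (L - k - b) ∣ (y : ℕ)) : (JM L b (k + 1) - JM L b k) x y = 0 := by
  rw [Matrix.sub_apply, JM_supp L b k hk x y h]
  cases k with
  | zero =>
    have : JM L b 0 = 0 := rfl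
    rw [this]; simp
  | succ k =>
    rw [JM_supp L b k (by omega) x y, sub_zero]
    intro h2
    apply h
    exact (pow_dvd_pow 2 (by omega)).trans h2

/-- the points used at the levels `s` -/
def pts (d L b : ℕ) (s : Fin d → ℕ) : Finset (Gr d L) :=
  Fintype.piFinset fun j => univ.filter fun y : Fin (2 ^ L) => 2 ^ (L - s j - b) ∣ (y : ℕ)

theorem card_mult (L k : ℕ) (hk : k ≤ L) :
    (univ.filter fun y : Fin (2 ^ L) => 2 ^ (L - k) ∣ (y : ℕ)).card ≤ 2 ^ k := by
  have h := Finset.card_le_card_of_injOn (s := univ.filter fun y : Fin (2 ^ L) => 2 ^ (L - k) ∣ (y : ℕ))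
    (t := range (2 ^ k)) (fun y : Fin (2 ^ L) => (y : ℕ) / 2 ^ (L - k)) ?_ ?_
  · simpa using h
  · intro y _
    rw [Finset.coe_range, Set.mem_Iio]
    rw [Nat.div_lt_iff_lt_mul (by positivity), ← pow_add]
    have : k + (L - k) = L := by omega
    rw [this]
    exact y.2
  · intro y hy z hz hyz
    have hy' : 2 ^ (L - k) ∣ (y : ℕ) := by simpa using hy
    have hz' : 2 ^ (L - k) ∣ (z : ℕ) := by simpa using hz
    apply Fin.ext
    have h1 : (y : ℕ) / 2 ^ (L - k) = (z : ℕ) / 2 ^ (L - k) := hyz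
    rw [← Nat.div_mul_cancel hy', ← Nat.div_mul_cancel hz', h1]

theorem card_pts (d L b : ℕ) (s : Fin d → ℕ) (hs : ∀ j, s j + b ≤ L) :
    (pts d L b s).card ≤ 2 ^ (∑ j, s j + d * b) := by
  unfold pts
  rw [Fintype.card_piFinset]
  have h : ∀ j : Fin d, (univ.filter fun y : Fin (2 ^ L) => 2 ^ (L - s j - b) ∣ (y : ℕ)).card ≤
      2 ^ (s j + b) := by
    intro j
    have := card_mult L (s j + b) (hs j)
    rwa [← Nat.sub_sub] at this
  refine (Finset.prod_le_prod' fun j _ => h j).trans ?_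
  rw [Finset.prod_pow_eq_pow_sum, Finset.sum_add_distrib]
  simp

theorem tens_supp (d L b : ℕ) (s : Fin d → ℕ) (hs : ∀ j, s j + b ≤ L) :
    Cols (tens fun j => JM L b (s j + 1) - JM L b (s j) : MG d L) (pts d L b s) := by
  intro x y hy
  unfold pts at hy
  rw [Fintype.mem_piFinset] at hy
  push Not at hy
  obtain ⟨j, hj⟩ := hy
  unfold tens
  apply Finset.prod_eq_zero (mem_univ j)
  apply diff_supp L b (s j) (hs j)
  simpa using hj

/-- the sum over the levels -/
theorem sum_levels (hLAY : SpecLAY) (d b n : ℕ) (hd : 1 ≤ d) (hn : 1 ≤ n) :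
    ∑ s ∈ (box d (n + 1)).filter (fun s => ∑ j, s j ≤ n), 2 ^ (∑ j, s j + d * b) ≤
      2 ^ (d + d * b) * (n ^ (d - 1) * 2 ^ n) := by
  have h1 : ∑ s ∈ (box d (n + 1)).filter (fun s => ∑ j, s j ≤ n), 2 ^ (∑ j, s j + d * b) =
      ∑ k ∈ range (n + 1), ∑ s ∈ ((box d (n + 1)).filter (fun s => ∑ j, s j ≤ n)).filter
        (fun s => ∑ j, s j = k), 2 ^ (∑ j, s j + d * b) := by
    symm
    apply Finset.sum_fiberwise_of_maps_to
    intro s hs
    rw [Finset.mem_filter] at hs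
    rw [Finset.mem_range]
    omega
  rw [h1]
  have h2 : ∀ k ∈ range (n + 1), ∑ s ∈ ((box d (n + 1)).filter (fun s => ∑ j, s j ≤ n)).filter
        (fun s => ∑ j, s j = k), 2 ^ (∑ j, s j + d * b) ≤ (n + 1) ^ (d - 1) * 2 ^ (k + d * b) := by
    intro k hk
    rw [Finset.mem_range] at hk
    have h3 : ∑ s ∈ ((box d (n + 1)).filter (fun s => ∑ j, s j ≤ n)).filter
        (fun s => ∑ j, s j = k), 2 ^ (∑ j, s j + d * b) =
        ∑ s ∈ ((box d (n + 1)).filter (fun s => ∑ j, s j ≤ n)).filter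
        (fun s => ∑ j, s j = k), 2 ^ (k + d * b) := by
      apply Finset.sum_congr rfl
      intro s hs
      rw [Finset.mem_filter] at hs
      rw [hs.2]
    rw [h3, Finset.sum_const, smul_eq_mul]
    apply Nat.mul_le_mul_right
    have h4 := hLAY d (n + 1) k (fun _ => 0) hd (by simp)
    refine (Finset.card_le_card ?_).trans (h4.trans ?_)
    · intro s hs
      simp only [Finset.mem_filter] at hs ⊢
      exact ⟨hs.1.1, fun j => Nat.zero_le _, hs.2⟩
    · apply Nat.pow_le_pow_left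
      simp only [Finset.sum_const_zero]
      omega
  refine (Finset.sum_le_sum h2).trans ?_
  rw [← Finset.mul_sum]
  have h5 : ∑ k ∈ range (n + 1), 2 ^ (k + d * b) ≤ 2 ^ (n + 1) * 2 ^ (d * b) := by
    have h6 : ∑ k ∈ range (n + 1), 2 ^ (k + d * b) = (∑ k ∈ range (n + 1), 2 ^ k) * 2 ^ (d * b) := by
      rw [Finset.sum_mul]
      exact Finset.sum_congr rfl fun k _ => pow_add _ _ _
    rw [h6]
    apply Nat.mul_le_mul_right
    exact (Nat.geomSum_lt (le_refl 2) (fun k hk => by simpa using hk)).le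
  have h7 : (n + 1) ^ (d - 1) ≤ 2 ^ (d - 1) * n ^ (d - 1) := by
    rw [← mul_pow]
    apply Nat.pow_le_pow_left
    omega
  calc (n + 1) ^ (d - 1) * ∑ k ∈ range (n + 1), 2 ^ (k + d * b)
      ≤ (2 ^ (d - 1) * n ^ (d - 1)) * (2 ^ (n + 1) * 2 ^ (d * b)) := Nat.mul_le_mul h7 h5
    _ = (2 ^ (d - 1) * 2) * 2 ^ (d * b) * (n ^ (d - 1) * 2 ^ n) := by ring
    _ = 2 ^ (d + d * b) * (n ^ (d - 1) * 2 ^ n) := by
        rw [← pow_succ, ← pow_add]
        congr 3
        omega

end SMBM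

open SMBM in
theorem specSMB (hJOP : SpecJOP) (hTEN : SpecTEN) (hLAY : SpecLAY) (hCON : SpecCON) :
    SpecSMB := by
  intro d b hd
  refine ⟨2 ^ (d + d * b), by positivity, fun n hn => ?_⟩
  obtain ⟨-, -, -, C, hC, hrow⟩ := hJOP b
  refine ⟨((box d (n + 1)).card : ℝ) * (2 * C) ^ d + 1, by positivity, fun L hL => ?_⟩
  refine ⟨((box d (n + 1)).filter (fun s => ∑ j, s j ≤ n)).biUnion (pts d L b), ?_, ?_, ?_⟩
  · have hle : ∀ s ∈ (box d (n + 1)).filter (fun s => ∑ j, s j ≤ n), ∀ j, s j + b ≤ L := by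
      intro s hs j
      rw [Finset.mem_filter] at hs
      have : s j ≤ ∑ j, s j := Finset.single_le_sum (fun i _ => Nat.zero_le _) (mem_univ j)
      omega
    have h1 : (((box d (n + 1)).filter (fun s => ∑ j, s j ≤ n)).biUnion (pts d L b)).card ≤
        2 ^ (d + d * b) * (n ^ (d - 1) * 2 ^ n) := by
      refine Finset.card_biUnion_le.trans ?_
      refine (Finset.sum_le_sum fun s hs => card_pts d L b s (hle s hs)).trans ?_
      exact sum_levels hLAY d b n hd hn
    have h2 : ((((box d (n + 1)).filter (fun s => ∑ j, s j ≤ n)).biUnion (pts d L b)).card : ℝ) ≤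
        ((2 ^ (d + d * b) * (n ^ (d - 1) * 2 ^ n) : ℕ) : ℝ) := by exact_mod_cast h1
    refine h2.trans (le_of_eq ?_)
    push_cast
    ring
  · intro x y hy
    unfold SB
    rw [Matrix.sum_apply]
    apply Finset.sum_eq_zero
    intro s hs
    apply tens_supp d L b s
    · intro j
      rw [Finset.mem_filter] at hs
      have : s j ≤ ∑ j, s j := Finset.single_le_sum (fun i _ => Nat.zero_le _) (mem_univ j)
      omega
    · intro hy2
      apply hy
      rw [Finset.mem_biUnion]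
      exact ⟨s, hs, hy2⟩
  · apply (hCON d L 1 le_rfl).2.2
    intro x
    obtain ⟨-, -, -, -, t5, -⟩ := hTEN d L
    have h1 : ∀ s : Fin d → ℕ, ∑ y, |(tens fun j => JM L b (s j + 1) - JM L b (s j) : MG d L) x y| ≤
        (2 * C) ^ d := by
      intro s
      have h := t5 (fun j => JM L b (s j + 1) - JM L b (s j)) (fun _ => 2 * C) (fun j z => by
        calc ∑ y, |(JM L b (s j + 1) - JM L b (s j)) z y|
            ≤ ∑ y, (|JM L b (s j + 1) z y| + |JM L b (s j) z y|) := by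
              apply Finset.sum_le_sum
              intro y _
              rw [Matrix.sub_apply]
              exact abs_sub _ _
          _ ≤ 2 * C := by
              rw [Finset.sum_add_distrib]
              have := hrow L (s j + 1) z
              have := hrow L (s j) z
              linarith) x
      simpa using h
    calc ∑ y, |(SB L b n : MG d L) x y|
        ≤ ∑ y, ∑ s ∈ (box d (n + 1)).filter (fun s => ∑ j, s j ≤ n),
            |(tens fun j => JM L b (s j + 1) - JM L b (s j) : MG d L) x y| := by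
          apply Finset.sum_le_sum
          intro y _
          unfold SB
          rw [Matrix.sum_apply]
          exact Finset.abs_sum_le_sum_abs _ _
      _ = ∑ s ∈ (box d (n + 1)).filter (fun s => ∑ j, s j ≤ n), ∑ y,
            |(tens fun j => JM L b (s j + 1) - JM L b (s j) : MG d L) x y| := Finset.sum_comm
      _ ≤ ∑ s ∈ (box d (n + 1)).filter (fun s => ∑ j, s j ≤ n), (2 * C) ^ d :=
          Finset.sum_le_sum fun s _ => h1 s
      _ = (((box d (n + 1)).filter (fun s => ∑ j, s j ≤ n)).card : ℝ) * (2 * C) ^ d := by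
          rw [Finset.sum_const, nsmul_eq_mul]
      _ ≤ ((box d (n + 1)).card : ℝ) * (2 * C) ^ d := by
          apply mul_le_mul_of_nonneg_right _ (by positivity)
          exact_mod_cast Finset.card_le_card (Finset.filter_subset _ _)
      _ ≤ ((box d (n + 1)).card : ℝ) * (2 * C) ^ d + 1 := by linarith

end Pool.Agent.MP_bc5265.R2
end

section
/-!
TVS: one term of the Smolyak decomposition.
-/
set_option linter.unusedSectionVars false

open MeasureTheory Finset Matrix
open scoped ENNReal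

namespace Pool.Agent.MP_bc5265.R2

open Pool.Agent.MP_bc5265.S

namespace TVSM

variable {d : ℕ}

theorem factor_zero (hJOP : SpecJOP) (b L s v : ℕ) (h : v < s) :
    (IM L (v + 1) - IM L v) * (JM L b (s + 1) - JM L b s) = 0 := by
  obtain ⟨-, -, h3, -⟩ := hJOP b
  obtain ⟨k, rfl⟩ : ∃ k, s = k + 1 := ⟨s - 1, by omega⟩
  rw [sub_mul, mul_sub, mul_sub, h3 L (v + 1) (k + 1) (by omega), h3 L (v + 1) k (by omega),
    h3 L v (k + 1) (by omega), h3 L v k (by omega)]
  simp

theorem fac_zero2 (hJOP : SpecJOP) (b L s : ℕ) (hb : b ≤ L) (h : L < s + b) :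
    JM L b (s + 1) - JM L b s = 0 := by
  obtain ⟨h1, -⟩ := hJOP b
  rw [h1 L (s + 1) (by omega) (by omega), h1 L s (by omega) (by omega), sub_self]

theorem fib (b L s μ : ℕ) (hs : s + b ≤ L) (z : Fin (2 ^ L)) :
    (univ.filter fun x : Fin (2 ^ L) => nd L b s x μ = z).card ≤ 2 ^ (L - s + 1) := by
  rcases Nat.eq_zero_or_pos s with rfl | hpos
  · refine (Finset.card_le_univ _).trans ?_
    rw [Fintype.card_fin]
    exact Nat.pow_le_pow_right (by norm_num) (by omega)
  set M := 2 ^ (L - (s - 1)) with hM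
  have hM0 : 0 < M := by positivity
  have hMe : M = 2 ^ (L - s + 1) := by
    rw [hM]
    congr 1
    omega
  rw [← hMe]
  rcases (univ.filter fun x : Fin (2 ^ L) => nd L b s x μ = z).eq_empty_or_nonempty with h0 | ⟨x0, hx0⟩
  · rw [h0, Finset.card_empty]
    exact Nat.zero_le _
  have hcell : ∀ x ∈ (univ.filter fun x : Fin (2 ^ L) => nd L b s x μ = z),
      (x : ℕ) / M = (x0 : ℕ) / M := by
    intro x hx
    have h1 : nd L b s x μ = nd L b s x0 μ :=
      ((Finset.mem_filter.1 hx).2).trans ((Finset.mem_filter.1 hx0).2).symm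
    have h2 := congrArg (fun y : Fin (2 ^ L) => (y : ℕ)) h1
    simp only [nd] at h2
    have h3 : ((x : ℕ) / M * M) ≡ ((x0 : ℕ) / M * M) [MOD 2 ^ L] :=
      Nat.ModEq.add_right_cancel' (μ * 2 ^ (L - s - b)) h2
    have h4 : (x : ℕ) / M * M < 2 ^ L := lt_of_le_of_lt (Nat.div_mul_le_self _ _) x.2
    have h5 : (x0 : ℕ) / M * M < 2 ^ L := lt_of_le_of_lt (Nat.div_mul_le_self _ _) x0.2
    have h6 := Nat.ModEq.eq_of_lt_of_lt h3 h4 h5
    exact Nat.eq_of_mul_eq_mul_right hM0 h6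
  rw [← Finset.card_range M]
  apply Finset.card_le_card_of_injOn (fun x : Fin (2 ^ L) => (x : ℕ) % M)
  · intro x _
    exact Finset.mem_coe.2 (Finset.mem_range.2 (Nat.mod_lt _ hM0))
  · intro x hx y hy hxy
    apply Fin.ext
    have h1 := hcell x hx
    have h2 := hcell y hy
    have h3 : (x : ℕ) % M = (y : ℕ) % M := hxy
    rw [← Nat.div_add_mod (x : ℕ) M, ← Nat.div_add_mod (y : ℕ) M, h1, h2, h3]

theorem nd_dvd (b L s μ : ℕ) (hs : s + b ≤ L) (x : Fin (2 ^ L)) :
    2 ^ (L - s - b) ∣ (nd L b s x μ : ℕ) := by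
  show 2 ^ (L - s - b) ∣ ((x : ℕ) / 2 ^ (L - (s - 1)) * 2 ^ (L - (s - 1)) +
    μ * 2 ^ (L - s - b)) % 2 ^ L
  rw [Nat.dvd_mod_iff (Nat.pow_dvd_pow 2 (by omega))]
  exact Nat.dvd_add ((Nat.pow_dvd_pow 2 (by omega)).mul_left _) (Nat.dvd_mul_left _ _)

/-- the nodes in all coordinates -/
def zz (L b : ℕ) (s μ : Fin d → ℕ) (x : Gr d L) : Gr d L := fun j => nd L b (s j) (x j) (μ j)

theorem fibd (b L : ℕ) (s μ : Fin d → ℕ) (hs : ∀ j, s j + b ≤ L) (z : Gr d L) :
    (univ.filter fun x : Gr d L => zz L b s μ x = z).card ≤ ∏ j, 2 ^ (L - s j + 1) := by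
  have h1 : (univ.filter fun x : Gr d L => zz L b s μ x = z) ⊆
      Fintype.piFinset (fun j => univ.filter fun x : Fin (2 ^ L) => nd L b (s j) x (μ j) = z j) := by
    intro x hx
    rw [Fintype.mem_piFinset]
    intro j
    exact Finset.mem_filter.2 ⟨Finset.mem_univ _, congrFun (Finset.mem_filter.1 hx).2 j⟩
  refine (Finset.card_le_card h1).trans ?_
  rw [Fintype.card_piFinset]
  exact Finset.prod_le_prod' fun j _ => fib b L (s j) (μ j) (hs j) (z j)

/-- the sum over the coarse points -/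
theorem coarse (b L : ℕ) (s μ : Fin d → ℕ) (hs : ∀ j, s j + b ≤ L) (G : Gr d L → ℝ) (p : ℝ) :
    ∑ x, |G (zz L b s μ x)| ^ p ≤ ((∏ j, 2 ^ (L - s j + 1) : ℕ) : ℝ) *
      ∑ x ∈ univ.filter (fun x : Gr d L => ∀ j : Fin d, 2 ^ (L - s j - b) ∣ (x j : ℕ)),
        |G x| ^ p := by
  classical
  set Z := univ.filter (fun x : Gr d L => ∀ j : Fin d, 2 ^ (L - s j - b) ∣ (x j : ℕ)) with hZ
  have hmap : ∀ x ∈ (univ : Finset (Gr d L)), zz L b s μ x ∈ Z := by
    intro x _
    exact Finset.mem_filter.2 ⟨Finset.mem_univ _, fun j => nd_dvd b L (s j) (μ j) (hs j) (x j)⟩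
  rw [← Finset.sum_fiberwise_of_maps_to hmap (fun x => |G (zz L b s μ x)| ^ p), Finset.mul_sum]
  apply Finset.sum_le_sum
  intro z _
  have h1 : ∀ x ∈ univ.filter (fun x : Gr d L => zz L b s μ x = z),
      |G (zz L b s μ x)| ^ p = |G z| ^ p := by
    intro x hx
    rw [(Finset.mem_filter.1 hx).2]
  rw [Finset.sum_congr rfl h1, Finset.sum_const, nsmul_eq_mul]
  apply mul_le_mul_of_nonneg_right _ (by positivity)
  exact_mod_cast fibd b L s μ hs z

/-- kernel representation in all coordinates -/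
theorem rep (L b N : ℕ) (s : Fin d → ℕ) (P D : Fin d → M1 L) (a : Fin d → Fin (2 ^ L) → ℕ → ℝ)
    (h : ∀ j x y, P j x y = ∑ μ ∈ range N, a j x μ * D j (nd L b (s j) x μ) y) (F : Gr d L → ℝ)
    (x : Gr d L) :
    (tens P *ᵥ F) x = ∑ μ ∈ Fintype.piFinset (fun _ : Fin d => range N),
      (∏ j, a j (x j) (μ j)) * (tens D *ᵥ F) (zz L b s μ x) := by
  have h1 : ∀ y : Gr d L, tens P x y = ∑ μ ∈ Fintype.piFinset (fun _ : Fin d => range N),
      (∏ j, a j (x j) (μ j)) * tens D (zz L b s μ x) y := by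
    intro y
    show ∏ j, P j (x j) (y j) = _
    simp only [h]
    rw [Finset.prod_univ_sum]
    apply Finset.sum_congr rfl
    intro μ _
    rw [Finset.prod_mul_distrib]
    rfl
  show ∑ y, tens P x y * F y = _
  simp only [h1, Finset.sum_mul]
  rw [Finset.sum_comm]
  apply Finset.sum_congr rfl
  intro μ _
  show _ = (∏ j, a j (x j) (μ j)) * ∑ y, tens D (zz L b s μ x) y * F y
  rw [Finset.mul_sum]
  apply Finset.sum_congr rfl
  intro y _
  ring

theorem mom_bd (L b N : ℕ) (p : ℝ) (hp : 1 ≤ p) (s : Fin d → ℕ) (hs : ∀ j, s j + b ≤ L)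
    (H G : Gr d L → ℝ) (A : ℝ) (hA : 0 ≤ A)
    (h : ∀ x, |H x| ≤ A * ∑ μ ∈ Fintype.piFinset (fun _ : Fin d => range N), |G (zz L b s μ x)|) :
    ∑ x, |H x| ^ p ≤ A ^ p * (((N ^ d : ℕ) : ℝ) ^ p * (((∏ j, 2 ^ (L - s j + 1) : ℕ) : ℝ) *
      ∑ x ∈ univ.filter (fun x : Gr d L => ∀ j : Fin d, 2 ^ (L - s j - b) ∣ (x j : ℕ)),
        |G x| ^ p)) := by
  have hp0 : 0 < p := by linarith
  set S0 := ∑ x ∈ univ.filter (fun x : Gr d L => ∀ j : Fin d, 2 ^ (L - s j - b) ∣ (x j : ℕ)),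
        |G x| ^ p with hS0
  have hS0n : 0 ≤ S0 := Finset.sum_nonneg fun _ _ => by positivity
  set Q := Fintype.piFinset (fun _ : Fin d => range N) with hQ
  have hcard : Q.card = N ^ d := by
    rw [hQ, Fintype.card_piFinset]
    simp
  have h1 : ∀ x, |H x| ^ p ≤ A ^ p * (((N ^ d : ℕ) : ℝ) ^ (p - 1) *
      ∑ μ ∈ Q, |G (zz L b s μ x)| ^ p) := by
    intro x
    have h2 := Real.rpow_sum_le_const_mul_sum_rpow Q (fun μ => G (zz L b s μ x)) hp
    rw [hcard] at h2
    calc |H x| ^ p ≤ (A * ∑ μ ∈ Q, |G (zz L b s μ x)|) ^ p :=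
          Real.rpow_le_rpow (abs_nonneg _) (h x) hp0.le
      _ = A ^ p * (∑ μ ∈ Q, |G (zz L b s μ x)|) ^ p :=
          Real.mul_rpow hA (Finset.sum_nonneg fun _ _ => abs_nonneg _)
      _ ≤ _ := mul_le_mul_of_nonneg_left h2 (by positivity)
  refine (Finset.sum_le_sum fun x _ => h1 x).trans ?_
  rw [← Finset.mul_sum, ← Finset.mul_sum, Finset.sum_comm]
  apply mul_le_mul_of_nonneg_left _ (by positivity)
  have h3 : ∑ μ ∈ Q, ∑ x, |G (zz L b s μ x)| ^ p ≤
      ((N ^ d : ℕ) : ℝ) * (((∏ j, 2 ^ (L - s j + 1) : ℕ) : ℝ) * S0) := by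
    refine (Finset.sum_le_sum fun μ _ => coarse b L s μ hs G p).trans (le_of_eq ?_)
    rw [Finset.sum_const, hcard, nsmul_eq_mul]
  rcases Nat.eq_zero_or_pos (N ^ d) with h0 | h0
  · have : Q = ∅ := by rw [← Finset.card_eq_zero, hcard, h0]
    rw [this, Finset.sum_empty, mul_zero]
    positivity
  · have hK : (0 : ℝ) < ((N ^ d : ℕ) : ℝ) := by exact_mod_cast h0
    calc ((N ^ d : ℕ) : ℝ) ^ (p - 1) * ∑ μ ∈ Q, ∑ x, |G (zz L b s μ x)| ^ p
        ≤ ((N ^ d : ℕ) : ℝ) ^ (p - 1) *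
          (((N ^ d : ℕ) : ℝ) * (((∏ j, 2 ^ (L - s j + 1) : ℕ) : ℝ) * S0)) :=
          mul_le_mul_of_nonneg_left h3 (by positivity)
      _ = (((N ^ d : ℕ) : ℝ) ^ (p - 1) * ((N ^ d : ℕ) : ℝ) ^ (1 : ℝ)) *
          (((∏ j, 2 ^ (L - s j + 1) : ℕ) : ℝ) * S0) := by rw [Real.rpow_one]; ring
      _ = _ := by rw [← Real.rpow_add hK, sub_add_cancel]

end TVSM

open TVSM in
theorem specTVS (hJKB : SpecJKB) (hDNB : SpecDNB) (hTEN : SpecTEN) (hJOP : SpecJOP) : SpecTVS := by
  intro d l b p r hp hr hl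
  have hp0 : 0 < p := by linarith
  obtain ⟨C1, hC1, hK⟩ := hJKB b l hl
  obtain ⟨C2, hC2, hN⟩ := hDNB d l b p r hp hr
  set K : ℝ := (((2 ^ (b + 1)) ^ d : ℕ) : ℝ) with hKdef
  have hK1 : 1 ≤ K := by
    have : 1 ≤ (2 ^ (b + 1)) ^ d := Nat.one_le_pow _ _ (by positivity)
    rw [hKdef]
    exact_mod_cast this
  have hK0 : 0 < K := by linarith
  refine ⟨C1 ^ d * K * K * C2, by positivity, ?_⟩
  intro L F s v hbL hF
  obtain ⟨t1, -, -, t4, -, -⟩ := hTEN d L
  have hprod : Et L v *ᵥ ((tens fun j => JM L b (s j + 1) - JM L b (s j)) *ᵥ F) =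
      (tens fun j => (IM L (v j + 1) - IM L (v j)) * (JM L b (s j + 1) - JM L b (s j))) *ᵥ F := by
    rw [Matrix.mulVec_mulVec]
    congr 1
    exact t1 _ _
  refine ⟨?_, ?_⟩
  · intro h
    push Not at h
    obtain ⟨j, hj⟩ := h
    rw [hprod, t4 _ j (factor_zero hJOP b L (s j) (v j) hj), Matrix.zero_mulVec]
  · intro hsv
    rw [hprod]
    have hnn : 0 ≤ C1 ^ d * K * K * C2 * ((2 : ℝ) ^ (-(((∑ j, v j : ℕ) : ℝ) - (∑ j, s j : ℕ))) *
        (2 : ℝ) ^ (-(r * (∑ j, s j : ℕ)))) := by positivity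
    by_cases hb : ∀ j, s j + b ≤ L
    swap
    · push Not at hb
      obtain ⟨j, hj⟩ := hb
      have h0 : (tens fun j => (IM L (v j + 1) - IM L (v j)) *
          (JM L b (s j + 1) - JM L b (s j)) : MG d L) = 0 := by
        apply t4 _ j
        rw [fac_zero2 hJOP b L (s j) hbL hj, mul_zero]
      rw [h0, Matrix.zero_mulVec]
      refine le_trans (le_of_eq ?_) hnn
      unfold nrm mom
      simp [Real.zero_rpow hp0.ne', Real.zero_rpow (inv_ne_zero hp0.ne')]
    choose a ha1 ha2 using fun j => hK L (s j) (v j) (hsv j) (hb j)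
    set D : Fin d → M1 L := fun j => if s j = 0 then 1 else DM L l (2 ^ (L - s j - b)) with hD
    set H : Gr d L → ℝ := (tens fun j => (IM L (v j + 1) - IM L (v j)) *
      (JM L b (s j + 1) - JM L b (s j))) *ᵥ F with hH
    set G : Gr d L → ℝ := tens D *ᵥ F with hG
    set A : ℝ := C1 ^ d * (2 : ℝ) ^ (-(((∑ j, v j : ℕ) : ℝ) - (∑ j, s j : ℕ))) with hAdef
    have hA0 : 0 ≤ A := by positivity
    have hHx : ∀ x, |H x| ≤ A * ∑ μ ∈ Fintype.piFinset (fun _ : Fin d => range (2 ^ (b + 1))),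
        |G (zz L b s μ x)| := by
      intro x
      rw [hH, rep L b (2 ^ (b + 1)) s _ D a (fun j x y => ha2 j x y) F x, Finset.mul_sum]
      refine (Finset.abs_sum_le_sum_abs _ _).trans (Finset.sum_le_sum fun μ _ => ?_)
      rw [abs_mul, Finset.abs_prod]
      apply mul_le_mul_of_nonneg_right _ (abs_nonneg _)
      refine (Finset.prod_le_prod (fun _ _ => abs_nonneg _) fun j _ => ha1 j (x j) (μ j)).trans
        (le_of_eq ?_)
      rw [Finset.prod_mul_distrib, Finset.prod_const, Finset.card_univ, Fintype.card_fin, hAdef,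
        ← Real.rpow_sum_of_pos (by norm_num : (0 : ℝ) < 2)]
      congr 2
      rw [Finset.sum_neg_distrib, Finset.sum_sub_distrib]
      push_cast
      rfl
    have h1 := mom_bd L b (2 ^ (b + 1)) p hp s hb H G A hA0 hHx
    have h2 := hN L F s hb hF
    set B : ℝ := C2 * (2 : ℝ) ^ (-(r * (∑ j, s j : ℕ))) with hB
    have hB0 : 0 ≤ B := by positivity
    have hcnt : ((∏ j, 2 ^ (L - s j + 1) : ℕ) : ℝ) * 2 ^ (∑ j, s j + d * b) = K * 2 ^ (L * d) := by
      have h3 : (∏ j, 2 ^ (L - s j + 1) : ℕ) * 2 ^ (∑ j, s j + d * b) =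
          (2 ^ (b + 1)) ^ d * 2 ^ (L * d) := by
        rw [Finset.prod_pow_eq_pow_sum, ← pow_add, ← pow_mul, ← pow_add]
        congr 1
        have h4 : ∑ j, (L - s j + 1) + ∑ j, s j = L * d + d := by
          rw [← Finset.sum_add_distrib]
          have : ∀ j ∈ (univ : Finset (Fin d)), L - s j + 1 + s j = L + 1 := by
            intro j _
            have := hb j
            omega
          rw [Finset.sum_congr rfl this, Finset.sum_const, Finset.card_univ, Fintype.card_fin,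
            smul_eq_mul]
          ring
        rw [← add_assoc, h4]
        ring
      rw [hKdef]
      exact_mod_cast h3
    have h5 : ∑ x, |H x| ^ p ≤ A ^ p * (K ^ p * (K * 2 ^ (L * d) * B ^ p)) := by
      refine h1.trans ?_
      apply mul_le_mul_of_nonneg_left _ (by positivity)
      apply mul_le_mul_of_nonneg_left _ (by positivity)
      calc _ ≤ ((∏ j, 2 ^ (L - s j + 1) : ℕ) : ℝ) * (2 ^ (∑ j, s j + d * b) * B ^ p) :=
            mul_le_mul_of_nonneg_left h2 (by positivity)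
        _ = _ := by rw [← mul_assoc, hcnt]
    have hcardG : ((Fintype.card (Gr d L) : ℕ) : ℝ) = 2 ^ (L * d) := by
      simp [pow_mul]
    have h6 : mom p H ≤ (A * K * K * B) ^ p := by
      unfold mom
      rw [hcardG, div_le_iff₀ (by positivity)]
      refine h5.trans ?_
      have hKp : K ≤ K ^ p := by
        calc K = K ^ (1 : ℝ) := (Real.rpow_one K).symm
          _ ≤ K ^ p := Real.rpow_le_rpow_of_exponent_le hK1 hp
      rw [Real.mul_rpow (by positivity) hB0, Real.mul_rpow (by positivity) hK0.le,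
        Real.mul_rpow hA0 hK0.le]
      calc A ^ p * (K ^ p * (K * 2 ^ (L * d) * B ^ p))
          = (A ^ p * K ^ p * B ^ p * 2 ^ (L * d)) * K := by ring
        _ ≤ (A ^ p * K ^ p * B ^ p * 2 ^ (L * d)) * K ^ p :=
            mul_le_mul_of_nonneg_left hKp (by positivity)
        _ = _ := by ring
    have hmn : 0 ≤ mom p H := by
      unfold mom
      positivity
    calc nrm p H = mom p H ^ (1 / p) := rfl
      _ ≤ ((A * K * K * B) ^ p) ^ (1 / p) := Real.rpow_le_rpow hmn h6 (by positivity)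
      _ = A * K * K * B := by
          rw [← Real.rpow_mul (by positivity), mul_one_div_cancel hp0.ne', Real.rpow_one]
      _ = _ := by rw [hAdef, hB]; ring

end Pool.Agent.MP_bc5265.R2
end

section
/-!
# Row 230, UG (helper15): the upper bound on the grid
-/
set_option linter.unusedSectionVars false

open MeasureTheory Finset Matrix
open scoped ENNReal

namespace Pool.Agent.MP_bc5265.R2

open Pool.Agent.MP_bc5265.S

theorem specUG (hB : SpecB) (hCLA : SpecCLA) (hSMB : SpecSMB) : SpecUG := by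
  intro d l p r hd hp hp2 hr
  have hp0 : 0 < p := by linarith
  have hip1 : 1 / p < 1 := by
    rw [div_lt_one hp0]; exact hp
  obtain ⟨ρ, hρdef⟩ : ∃ ρ : ℝ, ρ = (1 / p + min r 1) / 2 := ⟨_, rfl⟩
  have hmin : 1 / p < min r 1 := lt_min hr hip1
  have hρ1 : 1 / p < ρ := by rw [hρdef]; linarith
  have hρ2 : ρ < 1 := by
    have := min_le_right r 1
    rw [hρdef]; linarith
  have hρ3 : ρ ≤ r := by
    have := min_le_left r 1
    rw [hρdef]; linarith
  have hl : l ≤ 2 ^ l := Nat.lt_two_pow_self.le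
  obtain ⟨C1, hC1, h1⟩ := hCLA d l l p r ρ hp.le hρ1 hρ2 hρ3 hl
  obtain ⟨C2, hC2, h2⟩ := hSMB d l (by omega)
  obtain ⟨C3, hC3, h3⟩ := hB d p ρ hd hp hp2 hρ1 hρ2
  refine ⟨C2 + C3 + C3 * C1, by positivity, fun n hn => ?_⟩
  obtain ⟨D2, hD2, h2'⟩ := h2 n hn
  obtain ⟨D3, hD3, h3'⟩ := h3 n hn
  refine ⟨D2 + D3 + D3 * D2, max (4 * n) (n + l), by positivity, fun L hL => ?_⟩
  have hL1 : 4 * n ≤ L := le_trans (le_max_left _ _) hL
  have hL2 : n + l ≤ L := le_trans (le_max_right _ _) hL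
  obtain ⟨S2, hS2, hc2, hs2⟩ := h2' L hL2
  obtain ⟨W, S3, hS3, hc3, hs3, hW⟩ := h3' L hL1
  refine ⟨SB L l n + W - W * SB L l n, S2 ∪ S3, ?_, ?_, ?_, ?_⟩
  · have hcard : ((S2 ∪ S3).card : ℝ) ≤ S2.card + S3.card := by
      exact_mod_cast Finset.card_union_le S2 S3
    have hnn : (0 : ℝ) ≤ (n : ℝ) ^ (d - 1) * 2 ^ n := by positivity
    have hx : 0 ≤ C3 * C1 * ((n : ℝ) ^ (d - 1) * 2 ^ n) := by positivity
    nlinarith
  · intro x y hy
    rw [Finset.mem_union, not_or] at hy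
    have e2 : ∀ z, SB L l n z y = 0 := fun z => hc2 z y hy.1
    have e3 : ∀ z, W z y = 0 := fun z => hc3 z y hy.2
    rw [Matrix.sub_apply, Matrix.add_apply, e2, e3, Matrix.mul_apply]
    rw [Finset.sum_eq_zero (fun z _ => by rw [e2, mul_zero])]
    norm_num
  · intro g M hM x
    have a2 := hs2 g M hM
    have a3 := hs3 g M hM x
    have a4 := hs3 (SB L l n *ᵥ g) (D2 * M) a2 x
    have e : ((SB L l n + W - W * SB L l n) *ᵥ g) x =
        (SB L l n *ᵥ g) x + (W *ᵥ g) x - (W *ᵥ (SB L l n *ᵥ g)) x := by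
      rw [Matrix.sub_mulVec, Matrix.add_mulVec, Matrix.mulVec_mulVec]
      rfl
    rw [e]
    have b2 := a2 x
    calc |(SB L l n *ᵥ g) x + (W *ᵥ g) x - (W *ᵥ (SB L l n *ᵥ g)) x|
        ≤ |(SB L l n *ᵥ g) x + (W *ᵥ g) x| + |(W *ᵥ (SB L l n *ᵥ g)) x| := abs_sub _ _
      _ ≤ |(SB L l n *ᵥ g) x| + |(W *ᵥ g) x| + |(W *ᵥ (SB L l n *ᵥ g)) x| := by
          have := abs_add_le ((SB L l n *ᵥ g) x) ((W *ᵥ g) x)
          linarith
      _ ≤ D2 * M + D3 * M + D3 * (D2 * M) := by linarith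
      _ = (D2 + D3 + D3 * D2) * M := by ring
  · intro F hF
    have g1 := h1 n L F (by omega) hF
    have hb0 : 0 ≤ C1 * (2 : ℝ) ^ (-(r * n)) := by positivity
    have g2 := hW _ _ hb0 g1
    have e : F - (SB L l n + W - W * SB L l n) *ᵥ F =
        (F - SB L l n *ᵥ F) - W *ᵥ (F - SB L l n *ᵥ F) := by
      rw [Matrix.sub_mulVec, Matrix.add_mulVec, Matrix.mulVec_sub, Matrix.mulVec_mulVec]
      abel
    rw [e]
    refine g2.trans ?_
    have hnn : 0 ≤ (2 : ℝ) ^ (-(r * n)) * (n : ℝ) ^ (((d : ℝ) - 1) / p) := by positivity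
    calc C3 * (C1 * (2 : ℝ) ^ (-(r * n))) * (n : ℝ) ^ (((d : ℝ) - 1) / p)
        = C3 * C1 * ((2 : ℝ) ^ (-(r * n)) * (n : ℝ) ^ (((d : ℝ) - 1) / p)) := by ring
      _ ≤ (C2 + C3 + C3 * C1) * ((2 : ℝ) ^ (-(r * n)) * (n : ℝ) ^ (((d : ℝ) - 1) / p)) := by
          apply mul_le_mul_of_nonneg_right _ hnn
          linarith

end Pool.Agent.MP_bc5265.R2
end
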