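import Pool.Agent.Lib.MP_bc5265_an.R2.SpecA
import Pool.Agent.Lib.MP_bc5265_an.R2.UG

/-!
# DNB: norms of mixed differences over coarse grids
-/

set_option linter.unusedSectionVars false

open MeasureTheory Finset Matrix

namespace Pool.Agent.MP_bc5265.R2

open Pool.Agent.MP_bc5265.S

namespace DNBM

variable {d L : ℕ}

/-- operator in one coordinate -/
theorem one_coord (i : Fin d) (A : M1 L) (G : Gr d L → ℝ) (x : Gr d L) :
    ((tens (Function.update (fun _ => (1 : M1 L)) i A)) *ᵥ G) x =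
      ∑ z, A (x i) z * G (Function.update x i z) := by
  classical
  rw [Matrix.mulVec, dotProduct]
  have hinj : Function.Injective (fun z : Fin (2 ^ L) => (Function.update x i z : Gr d L)) :=
    Function.update_injective x i
  have h1 : ∑ y, tens (Function.update (fun _ => (1 : M1 L)) i A) x y * G y =
      ∑ y ∈ univ.image (fun z : Fin (2 ^ L) => (Function.update x i z : Gr d L)),
        tens (Function.update (fun _ => (1 : M1 L)) i A) x y * G y := by
    symm
    refine sum_subset (subset_univ _) fun y _ hy => ?_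
    have h2 : ∃ j, j ≠ i ∧ x j ≠ y j := by
      by_contra hcon
      push Not at hcon
      apply hy
      rw [mem_image]
      refine ⟨y i, mem_univ _, ?_⟩
      funext j
      by_cases hj : j = i
      · subst hj; simp
      · rw [Function.update_of_ne hj]; exact hcon j hj
    obtain ⟨j, hji, hj⟩ := h2
    have h3 : tens (Function.update (fun _ => (1 : M1 L)) i A) x y = 0 := by
      unfold tens
      refine prod_eq_zero (mem_univ j) ?_
      rw [Function.update_of_ne hji, Matrix.one_apply, if_neg hj]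
    rw [h3, zero_mul]
  rw [h1, sum_image fun a _ b _ h => hinj h]
  refine sum_congr rfl fun z _ => ?_
  congr 1
  unfold tens
  rw [prod_eq_single i]
  · rw [Function.update_self, Function.update_self]
  · intro j _ hj
    rw [Function.update_of_ne hj, Function.update_of_ne hj, Matrix.one_apply, if_pos rfl]
  · intro h; exact absurd (mem_univ i) h

/-- the function with one coordinate singled out -/
noncomputable def til (P : Gr d L → Prop) (i : Fin d) (G : Gr d L → ℝ) :
    Matrix (Fin (2 ^ L)) (Gr d L) ℝ :=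
  fun a y => open Classical in if P y then G (Function.update y i a) else 0

theorem til_mul (P : Gr d L → Prop) (i : Fin d) (A : M1 L) (G : Gr d L → ℝ) :
    til P i ((tens (Function.update (fun _ => (1 : M1 L)) i A)) *ᵥ G) = A * til P i G := by
  classical
  ext a y
  rw [Matrix.mul_apply]
  unfold til
  by_cases h : P y
  · simp only [if_pos h]
    rw [one_coord, Function.update_self]
    refine sum_congr rfl fun z _ => ?_
    rw [Function.update_idem]
  · simp only [if_neg h, mul_zero, sum_const_zero]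

/-- the involution -/
def inv (i : Fin d) : Fin (2 ^ L) × Gr d L ≃ Fin (2 ^ L) × Gr d L where
  toFun q := (q.2 i, Function.update q.2 i q.1)
  invFun q := (q.2 i, Function.update q.2 i q.1)
  left_inv q := by simp
  right_inv q := by simp

theorem til_sum (P : Gr d L → Prop) (i : Fin d) (hP : ∀ x a, P (Function.update x i a) ↔ P x)
    (q : Fin (2 ^ L) → Prop) [DecidablePred q] [DecidablePred P] (p : ℝ) (hp : 1 ≤ p)
    (G : Gr d L → ℝ) :
    ∑ a ∈ univ.filter q, ∑ y, |til P i G a y| ^ p =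
      2 ^ L * ∑ x ∈ univ.filter (fun x : Gr d L => q (x i) ∧ P x), |G x| ^ p := by
  classical
  have hp0 : p ≠ 0 := by positivity
  have e1 : ∀ a y, |til P i G a y| ^ p = if P y then |G (Function.update y i a)| ^ p else 0 := by
    intro a y
    unfold til
    by_cases h : P y
    · simp only [if_pos h]
    · simp only [if_neg h, abs_zero, Real.zero_rpow hp0]
  simp_rw [e1]
  rw [sum_filter, sum_filter]
  have e2 : ∀ a, (if q a then ∑ y, (if P y then |G (Function.update y i a)| ^ p else 0) else 0) =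
      ∑ y, if q a ∧ P y then |G (Function.update y i a)| ^ p else 0 := by
    intro a
    by_cases h : q a
    · simp [h]
    · simp [h]
  simp_rw [e2]
  rw [← Fintype.sum_prod_type' (f := fun (a : Fin (2 ^ L)) (y : Gr d L) =>
    if q a ∧ P y then |G (Function.update y i a)| ^ p else 0), ← Equiv.sum_comp (inv i)]
  have e3 : ∀ z : Fin (2 ^ L) × Gr d L, (if q ((inv i) z).1 ∧ P ((inv i) z).2 then
      |G (Function.update ((inv i) z).2 i ((inv i) z).1)| ^ p else 0) =
      if q (z.2 i) ∧ P z.2 then |G z.2| ^ p else 0 := by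
    intro z
    have h1 : ((inv i) z).1 = z.2 i := rfl
    have h2 : ((inv i) z).2 = Function.update z.2 i z.1 := rfl
    rw [h1, h2, Function.update_idem, Function.update_eq_self]
    simp only [hP]
  simp_rw [e3]
  rw [Fintype.sum_prod_type]
  show (∑ _x : Fin (2 ^ L), ∑ y : Gr d L, if q (y i) ∧ P y then |G y| ^ p else 0) = _
  rw [sum_const, card_univ, Fintype.card_fin, nsmul_eq_mul]
  push_cast
  rfl

/-! ### differences are bounded -/

section bdd

open DN1M

variable {Y : Type} [Fintype Y] {p : ℝ}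

/-- shift as a permutation -/
theorem shp_bij (s : ℕ) : Function.Bijective (fun x : Fin (2 ^ L) => shp L x s) := by
  apply Finite.injective_iff_bijective.1
  intro x x' h
  have h1 : ((x : ℕ) + s) % 2 ^ L = ((x' : ℕ) + s) % 2 ^ L := congrArg Fin.val h
  have h2 : (x : ℕ) ≡ x' [MOD 2 ^ L] := Nat.ModEq.add_right_cancel' s h1
  exact Fin.ext (Nat.ModEq.eq_of_lt_of_lt h2 x.2 x'.2)

theorem nm_SM (s : ℕ) (X : Matrix (Fin (2 ^ L)) Y ℝ) :
    nm p univ (SM L s * X) = nm p univ X := by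
  have e1 : nm p univ (SM L s * X) = (∑ x, ∑ y, |(SM L s * X) x y| ^ p) ^ (1 / p) := nm_eq _ _
  have e2 : nm p univ X = (∑ x, ∑ y, |X x y| ^ p) ^ (1 / p) := nm_eq _ _
  rw [e1, e2]
  congr 1
  have e3 : ∀ x, ∑ y, |(SM L s * X) x y| ^ p = ∑ y, |X (shp L x s) y| ^ p := by
    intro x
    refine sum_congr rfl fun y _ => ?_
    rw [SM_mul]
  simp_rw [e3]
  exact (shp_bij s).sum_comp (fun x => ∑ y, |X x y| ^ p)

theorem nm_DM (hp : 1 ≤ p) (l t : ℕ) (X : Matrix (Fin (2 ^ L)) Y ℝ) :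
    nm p univ (DM L l t * X) ≤ 2 ^ l * nm p univ X := by
  induction l generalizing X with
  | zero => unfold DM; rw [pow_zero, pow_zero, Matrix.one_mul, one_mul]
  | succ l ih =>
    have e : DM L (l + 1) t * X = DM L l t * (SM L t * X - X) := by
      unfold DM
      rw [pow_succ, Matrix.mul_assoc, Matrix.sub_mul, Matrix.one_mul]
    rw [e]
    refine (ih _).trans ?_
    rw [pow_succ, mul_assoc]
    refine mul_le_mul_of_nonneg_left ?_ (by positivity)
    have h1 := nm_sub (p := p) (univ : Finset (Fin (2 ^ L))) hp (SM L t * X) X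
    have h2 := nm_SM (p := p) t X
    refine h1.trans ?_
    linarith

theorem DM_comm (l t t' : ℕ) : DM L l t * DM L l t' = DM L l t' * DM L l t := by
  have h : Commute (SM L t) (SM L t') := by
    unfold Commute SemiconjBy
    rw [SM_add, SM_add, add_comm]
  have h1 : Commute (SM L t - 1) (SM L t' - 1) :=
    (h.sub_left (Commute.one_left _)).sub_right
      ((Commute.one_right _))
  exact (h1.pow_pow l l)

end bdd

/-! ### induction -/

section ind

open DN1M

variable (l b : ℕ) (s : Fin d → ℕ)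

/-- points with coordinates in `J` on the coarse grids -/
def SJ (L b : ℕ) (s : Fin d → ℕ) (J : Finset (Fin d)) (x : Gr d L) : Prop :=
  ∀ j ∈ J, 2 ^ (L - s j - b) ∣ (x j : ℕ)

instance (L b : ℕ) (s : Fin d → ℕ) (J : Finset (Fin d)) :
    DecidablePred (SJ L b s J) := fun x => by unfold SJ; infer_instance

/-- the matrices -/
noncomputable def Bm (L l b : ℕ) (s : Fin d → ℕ) (J e : Finset (Fin d)) (t : Fin d → ℕ)
    (j : Fin d) : M1 L :=
  if j ∈ J then (if s j = 0 then 1 else DM L l (2 ^ (L - s j - b)))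
  else if j ∈ e then DM L l (t j) else 1

/-- number of points -/
noncomputable def W (L b : ℕ) (s : Fin d → ℕ) (J : Finset (Fin d)) : ℝ :=
  ∏ j, if j ∈ J then (2 : ℝ) ^ (s j + b) else 2 ^ L

/-- the bound -/
noncomputable def K (L : ℕ) (r c : ℝ) (s : Fin d → ℕ) (J e : Finset (Fin d)) (t : Fin d → ℕ) : ℝ :=
  c ^ J.card * (2 : ℝ) ^ (-(r * (∑ j ∈ J, s j : ℕ))) * ∏ j ∈ e, ((t j : ℝ) / 2 ^ L) ^ r

theorem W_pos (J : Finset (Fin d)) : 0 < W L b s J := by
  unfold W
  refine prod_pos fun j _ => ?_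
  split_ifs <;> positivity

theorem K_nonneg (r c : ℝ) (hc : 0 ≤ c) (J e : Finset (Fin d)) (t : Fin d → ℕ) :
    0 ≤ K L r c s J e t := by
  unfold K
  have : 0 ≤ ∏ j ∈ e, ((t j : ℝ) / 2 ^ L) ^ r :=
    prod_nonneg fun j _ => Real.rpow_nonneg (by positivity) _
  positivity

theorem W_insert (i : Fin d) (J : Finset (Fin d)) (hi : i ∉ J) :
    W L b s (insert i J) * 2 ^ L = W L b s J * 2 ^ (s i + b) := by
  unfold W
  rw [← mul_prod_erase univ _ (mem_univ i), ← mul_prod_erase univ (fun j => if j ∈ J then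
    (2 : ℝ) ^ (s j + b) else 2 ^ L) (mem_univ i)]
  rw [if_pos (mem_insert_self i J), if_neg hi]
  have e : ∏ x ∈ univ.erase i, (if x ∈ insert i J then (2 : ℝ) ^ (s x + b) else 2 ^ L) =
      ∏ x ∈ univ.erase i, (if x ∈ J then (2 : ℝ) ^ (s x + b) else 2 ^ L) := by
    refine prod_congr rfl fun x hx => ?_
    have hxi : x ≠ i := (mem_erase.1 hx).1
    simp [mem_insert, hxi]
  rw [e]
  ring

theorem K_insert (r c : ℝ) (i : Fin d) (J e : Finset (Fin d)) (hi : i ∉ J) (t : Fin d → ℕ) :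
    K L r c s (insert i J) e t = c * (K L r c s J e t * (2 : ℝ) ^ (-(r * (s i : ℝ)))) := by
  unfold K
  rw [card_insert_of_notMem hi, sum_insert hi, pow_succ]
  have h : (2 : ℝ) ^ (-(r * ((s i + ∑ j ∈ J, s j : ℕ) : ℝ))) =
      (2 : ℝ) ^ (-(r * (s i : ℝ))) * (2 : ℝ) ^ (-(r * ((∑ j ∈ J, s j : ℕ) : ℝ))) := by
    rw [two_rpow_mul]
    congr 1
    push_cast
    ring
  rw [h]
  ring

theorem K_update (r c : ℝ) (i : Fin d) (J e : Finset (Fin d)) (hi : i ∉ e) (t : Fin d → ℕ)
    (t' : ℕ) :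
    K L r c s J (insert i e) (Function.update t i t') =
      K L r c s J e t * ((t' : ℝ) / 2 ^ L) ^ r := by
  unfold K
  rw [prod_insert hi, Function.update_self]
  have e1 : ∏ x ∈ e, (((Function.update t i t' x : ℕ) : ℝ) / 2 ^ L) ^ r =
      ∏ x ∈ e, ((t x : ℝ) / 2 ^ L) ^ r := by
    refine prod_congr rfl fun x hx => ?_
    have : x ≠ i := fun h => hi (h ▸ hx)
    rw [Function.update_of_ne this]
  rw [e1]
  ring

theorem geo (q : ℝ) (hq0 : 0 ≤ q) (hq : q < 1) (k L : ℕ) :
    ∑ i ∈ Icc k L, q ^ (i - k) ≤ 1 / (1 - q) := by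
  have h1 : Icc k L = Ico k (L + 1) := by
    ext x; simp [mem_Icc, mem_Ico]
  rw [h1, sum_Ico_eq_sum_range]
  have h2 : ∑ m ∈ range (L + 1 - k), q ^ (k + m - k) = ∑ m ∈ range (L + 1 - k), q ^ m :=
    sum_congr rfl fun m _ => by rw [Nat.add_sub_cancel_left]
  rw [h2, le_div_iff₀ (by linarith), geom_sum_mul_neg]
  have : 0 ≤ q ^ (L + 1 - k) := by positivity
  linarith

theorem sum_bd (p r : ℝ) (hp : 1 ≤ p) (hr : 1 / p < r) (k L : ℕ) :
    ∑ i ∈ Icc k L, (2 : ℝ) ^ (((i : ℝ) - k) / p) * (2 : ℝ) ^ (-(r * (i : ℝ))) ≤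
      1 / (1 - (2 : ℝ) ^ (-(r - 1 / p))) * (2 : ℝ) ^ (-(r * (k : ℝ))) := by
  have hq : (2 : ℝ) ^ (-(r - 1 / p)) < 1 :=
    Real.rpow_lt_one_of_one_lt_of_neg one_lt_two (by linarith)
  have h1 : ∑ i ∈ Icc k L, (2 : ℝ) ^ (((i : ℝ) - k) / p) * (2 : ℝ) ^ (-(r * (i : ℝ))) =
      (∑ i ∈ Icc k L, ((2 : ℝ) ^ (-(r - 1 / p))) ^ (i - k)) * (2 : ℝ) ^ (-(r * (k : ℝ))) := by
    rw [sum_mul]
    refine sum_congr rfl fun i hi => ?_
    rw [← Real.rpow_natCast, ← Real.rpow_mul two_pos.le, two_rpow_mul, two_rpow_mul,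
      Nat.cast_sub (mem_Icc.1 hi).1]
    congr 1
    field_simp
    ring
  rw [h1]
  exact mul_le_mul_of_nonneg_right (geo _ (by positivity) hq k L) (by positivity)

theorem tens_update (hTEN : SpecTEN) (i : Fin d) (A : M1 L) (B : Fin d → M1 L) (F : Gr d L → ℝ) :
    tens (Function.update (fun _ => (1 : M1 L)) i A) *ᵥ (tens B *ᵥ F) =
      tens (Function.update B i (A * B i)) *ᵥ F := by
  rw [Matrix.mulVec_mulVec, (hTEN d L).1]
  congr 2
  funext j
  by_cases h : j = i
  · subst h; simp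
  · rw [Function.update_of_ne h, Function.update_of_ne h, Matrix.one_mul]

theorem til_nm (P : Gr d L → Prop) [DecidablePred P] (i : Fin d)
    (hP : ∀ x a, P (Function.update x i a) ↔ P x) (p : ℝ) (hp : 1 ≤ p) (G : Gr d L → ℝ) (B : ℝ)
    (hB : 0 ≤ B) (h : ∑ x ∈ univ.filter P, |G x| ^ p ≤ B ^ p) :
    nm p univ (til P i G) ≤ (2 : ℝ) ^ ((L : ℝ) / p) * B := by
  refine nm_le _ hp _ _ (by positivity) ?_
  rw [Real.mul_rpow (by positivity) hB, two_div_pow hp]
  have h1 := til_sum P i hP (fun _ => True) p hp G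
  simp only [true_and, filter_true] at h1
  rw [h1]
  exact mul_le_mul_of_nonneg_left h (by positivity)

theorem stepJ (hTEN : SpecTEN) (p r : ℝ) (hp : 1 ≤ p) (hr : 1 / p < r) (C1 : ℝ) (hC1 : 0 < C1)
    (hDN : ∀ (L k : ℕ) (Y : Type) [Fintype Y] (F : Fin (2 ^ L) → Y → ℝ) (N : ℝ) (Nd : ℕ → ℝ), k ≤ L →
    0 ≤ N → (∀ i, 0 ≤ Nd i) → (∑ x, ∑ y, |F x y| ^ p ≤ 2 ^ L * N ^ p) →
    (∀ i t : ℕ, k ≤ i → i ≤ L → t ≤ 2 ^ (L - i) →
      ∑ x, ∑ y, |∑ z, DM L l t x z * F z y| ^ p ≤ 2 ^ L * Nd i ^ p) →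
    ∑ x ∈ univ.filter (fun x : Fin (2 ^ L) => 2 ^ (L - k) ∣ (x : ℕ)), ∑ y, |F x y| ^ p ≤
      2 ^ k * (C1 * (N + ∑ i ∈ Icc k L, (2 : ℝ) ^ (((i : ℝ) - k) / p) * Nd i)) ^ p)
    (F : Gr d L → ℝ) (hs : ∀ j, s j + b ≤ L) (c : ℝ)
    (hc : c = C1 * (1 + 2 ^ l * (1 / (1 - (2 : ℝ) ^ (-(r - 1 / p)))))) (i : Fin d)
    (J : Finset (Fin d)) (hi : i ∉ J)
    (ih : ∀ (e : Finset (Fin d)) (t : Fin d → ℕ), Disjoint e J →
      ∑ x ∈ univ.filter (SJ L b s J), |(tens (Bm L l b s J e t) *ᵥ F) x| ^ p ≤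
        W L b s J * (K L r c s J e t) ^ p)
    (e : Finset (Fin d)) (t : Fin d → ℕ) (he : Disjoint e (insert i J)) :
    ∑ x ∈ univ.filter (SJ L b s (insert i J)),
      |(tens (Bm L l b s (insert i J) e t) *ᵥ F) x| ^ p ≤
        W L b s (insert i J) * (K L r c s (insert i J) e t) ^ p := by
  have hp0 : 0 < p := by positivity
  have hr0 : 0 < r := lt_trans (by positivity) hr
  have hq : (2 : ℝ) ^ (-(r - 1 / p)) < 1 :=
    Real.rpow_lt_one_of_one_lt_of_neg one_lt_two (by linarith)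
  set S : ℝ := 1 / (1 - (2 : ℝ) ^ (-(r - 1 / p))) with hS
  have hS0 : 0 < S := by rw [hS]; exact one_div_pos.2 (by linarith)
  have hc0 : 0 < c := by rw [hc]; positivity
  have hie : i ∉ e := fun h => (disjoint_left.1 he h) (mem_insert_self i J)
  have heJ : Disjoint e J := he.mono_right (subset_insert i J)
  set k : ℕ := s i + b with hk
  have hkL : k ≤ L := hs i
  set K0 : ℝ := K L r c s J e t with hK0
  have hK0n : 0 ≤ K0 := K_nonneg s r c hc0.le J e t
  set w : ℝ := (W L b s J) ^ (1 / p) with hw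
  have hWp := W_pos (L := L) b s J
  have hw0 : 0 ≤ w := Real.rpow_nonneg hWp.le _
  have hwp : w ^ p = W L b s J := by
    rw [hw, ← Real.rpow_mul hWp.le, one_div_mul_cancel hp0.ne', Real.rpow_one]
  have hP : ∀ (x : Gr d L) (a : Fin (2 ^ L)), SJ L b s J (Function.update x i a) ↔ SJ L b s J x := by
    intro x a
    unfold SJ
    refine forall₂_congr fun j hj => ?_
    have : j ≠ i := fun h => hi (h ▸ hj)
    rw [Function.update_of_ne this]
  set G0 : Gr d L → ℝ := tens (Bm L l b s J e t) *ᵥ F with hG0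
  set D : M1 L := if s i = 0 then 1 else DM L l (2 ^ (L - s i - b)) with hD
  set G : Gr d L → ℝ := tens (Bm L l b s (insert i J) e t) *ᵥ F with hG
  have hGD : G = tens (Function.update (fun _ => (1 : M1 L)) i D) *ᵥ G0 := by
    rw [hG0, tens_update hTEN, hG]
    congr 2
    funext j
    by_cases h : j = i
    · subst h
      rw [Function.update_self]
      unfold Bm
      rw [if_pos (mem_insert_self j J), if_neg hi, if_neg hie, Matrix.mul_one]
    · rw [Function.update_of_ne h]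
      unfold Bm
      simp [mem_insert, h]
  -- bound for one difference
  have hH : ∀ t' : ℕ, nm p univ (DM L l t' * til (SJ L b s J) i G0) ≤
      (2 : ℝ) ^ ((L : ℝ) / p) * (w * (K0 * ((t' : ℝ) / 2 ^ L) ^ r)) := by
    intro t'
    have h1 := tens_update hTEN i (DM L l t') (Bm L l b s J e t) F
    have h2 : Function.update (Bm L l b s J e t) i (DM L l t' * Bm L l b s J e t i) =
        Bm L l b s J (insert i e) (Function.update t i t') := by
      funext j
      by_cases h : j = i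
      · subst h
        rw [Function.update_self]
        unfold Bm
        rw [if_neg hi, if_neg hie, Matrix.mul_one, if_neg hi, if_pos (mem_insert_self j e),
          Function.update_self]
      · rw [Function.update_of_ne h]
        unfold Bm
        simp [mem_insert, h]
    rw [h2] at h1
    rw [← til_mul, h1]
    have hrp : 0 ≤ ((t' : ℝ) / 2 ^ L) ^ r := Real.rpow_nonneg (by positivity) _
    refine til_nm _ i hP p hp _ _ (by positivity) ?_
    refine (ih (insert i e) (Function.update t i t') ?_).trans_eq ?_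
    · rw [disjoint_insert_left]; exact ⟨hi, heJ⟩
    · rw [K_update s r c i J e hie t t', Real.mul_rpow hw0 (by positivity), hwp]
  have hDb : ∀ X : Matrix (Fin (2 ^ L)) (Gr d L) ℝ, nm p univ (D * X) ≤ 2 ^ l * nm p univ X := by
    intro X
    rw [hD]
    by_cases h : s i = 0
    · rw [if_pos h, Matrix.one_mul]
      have h1 : (1 : ℝ) ≤ 2 ^ l := one_le_pow₀ one_le_two
      have h2 : 0 ≤ nm p univ X := nm_nonneg _ _
      nlinarith
    · rw [if_neg h]
      exact nm_DM hp l _ X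
  have hcomm : ∀ t', DM L l t' * D = D * DM L l t' := by
    intro t'
    rw [hD]
    by_cases h : s i = 0
    · rw [if_pos h, Matrix.one_mul, Matrix.mul_one]
    · rw [if_neg h]
      exact DM_comm l _ _
  -- the two inputs of DN1
  have hN : nm p univ (til (SJ L b s J) i G) ≤
      (2 : ℝ) ^ ((L : ℝ) / p) * (w * (K0 * (2 : ℝ) ^ (-(r * (s i : ℝ))))) := by
    rw [hGD, til_mul, hD]
    by_cases h : s i = 0
    · rw [if_pos h, Matrix.one_mul, h]
      have e1 : (2 : ℝ) ^ (-(r * ((0 : ℕ) : ℝ))) = 1 := by simp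
      rw [e1, mul_one]
      refine til_nm _ i hP p hp _ _ (by positivity) ?_
      refine (ih e t heJ).trans_eq ?_
      rw [Real.mul_rpow hw0 hK0n, hwp]
    · rw [if_neg h]
      refine (hH _).trans ?_
      refine mul_le_mul_of_nonneg_left ?_ (by positivity)
      refine mul_le_mul_of_nonneg_left ?_ hw0
      refine mul_le_mul_of_nonneg_left ?_ hK0n
      have e1 : (((2 ^ (L - s i - b) : ℕ) : ℝ) / 2 ^ L) = (2 : ℝ) ^ (-(k : ℝ)) := by
        push_cast
        have h5 : L - s i - b = L - k := by omega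
        rw [h5, ← Real.rpow_natCast, ← Real.rpow_natCast, Nat.cast_sub hkL,
          ← Real.rpow_sub two_pos]
        congr 1
        ring
      rw [e1, ← Real.rpow_mul two_pos.le]
      refine Real.rpow_le_rpow_of_exponent_le one_le_two ?_
      have : (s i : ℝ) ≤ k := by rw [hk]; push_cast; linarith [(Nat.cast_nonneg b : (0:ℝ) ≤ b)]
      nlinarith
  have hNd : ∀ i' t' : ℕ, k ≤ i' → i' ≤ L → t' ≤ 2 ^ (L - i') →
      nm p univ (DM L l t' * til (SJ L b s J) i G) ≤
        (2 : ℝ) ^ ((L : ℝ) / p) * (w * (K0 * (2 ^ l * (2 : ℝ) ^ (-(r * (i' : ℝ)))))) := by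
    intro i' t' h1 h2 h3
    rw [hGD, til_mul, ← Matrix.mul_assoc, hcomm, Matrix.mul_assoc]
    refine (hDb _).trans ?_
    have h4 : ((t' : ℝ) / 2 ^ L) ^ r ≤ (2 : ℝ) ^ (-(r * (i' : ℝ))) := by
      have e1 : ((t' : ℝ) / 2 ^ L) ≤ (2 : ℝ) ^ (-(i' : ℝ)) := by
        rw [div_le_iff₀ (by positivity), ← Real.rpow_natCast 2 L, two_rpow_mul]
        have e2 : (-(i' : ℝ) + (L : ℝ)) = ((L - i' : ℕ) : ℝ) := by
          rw [Nat.cast_sub h2]; ring
        rw [e2, Real.rpow_natCast]
        exact_mod_cast h3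
      calc ((t' : ℝ) / 2 ^ L) ^ r ≤ ((2 : ℝ) ^ (-(i' : ℝ))) ^ r :=
            Real.rpow_le_rpow (by positivity) e1 hr0.le
        _ = (2 : ℝ) ^ (-(r * (i' : ℝ))) := by
            rw [← Real.rpow_mul two_pos.le]
            congr 1
            ring
    calc 2 ^ l * nm p univ (DM L l t' * til (SJ L b s J) i G0)
        ≤ 2 ^ l * ((2 : ℝ) ^ ((L : ℝ) / p) * (w * (K0 * ((t' : ℝ) / 2 ^ L) ^ r))) :=
          mul_le_mul_of_nonneg_left (hH t') (by positivity)
      _ ≤ 2 ^ l * ((2 : ℝ) ^ ((L : ℝ) / p) * (w * (K0 * (2 : ℝ) ^ (-(r * (i' : ℝ)))))) := by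
          gcongr
      _ = (2 : ℝ) ^ ((L : ℝ) / p) * (w * (K0 * (2 ^ l * (2 : ℝ) ^ (-(r * (i' : ℝ)))))) := by ring
  -- application of DN1
  have hpow : ∀ (X : Matrix (Fin (2 ^ L)) (Gr d L) ℝ) (B : ℝ), 0 ≤ B →
      nm p univ X ≤ (2 : ℝ) ^ ((L : ℝ) / p) * B → ∑ x, ∑ y, |X x y| ^ p ≤ 2 ^ L * B ^ p := by
    intro X B hB h
    have h1 := Real.rpow_le_rpow (nm_nonneg _ _) h hp0.le
    rw [Real.mul_rpow (by positivity) hB, two_div_pow hp] at h1
    exact (nm_pow univ hp X).symm.trans_le h1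
  have hmain := hDN L k (Gr d L) (til (SJ L b s J) i G)
    (w * (K0 * (2 : ℝ) ^ (-(r * (s i : ℝ)))))
    (fun i' => w * (K0 * (2 ^ l * (2 : ℝ) ^ (-(r * (i' : ℝ)))))) hkL (by positivity)
    (fun i' => by positivity) (hpow _ _ (by positivity) hN)
    (fun i' t' h1 h2 h3 => hpow _ _ (by positivity) (hNd i' t' h1 h2 h3))
  have hL := til_sum (SJ L b s J) i hP (fun a : Fin (2 ^ L) => 2 ^ (L - k) ∣ (a : ℕ)) p hp G
  rw [hL] at hmain
  have hset : univ.filter (fun x : Gr d L => 2 ^ (L - k) ∣ (x i : ℕ) ∧ SJ L b s J x) =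
      univ.filter (SJ L b s (insert i J)) := by
    ext x
    simp only [mem_filter, mem_univ, true_and]
    unfold SJ
    rw [forall_mem_insert]
    have h5 : L - s i - b = L - k := by omega
    rw [h5]
  rw [hset] at hmain
  have hsum : w * (K0 * (2 : ℝ) ^ (-(r * (s i : ℝ)))) +
      ∑ i' ∈ Icc k L, (2 : ℝ) ^ (((i' : ℝ) - k) / p) *
        (w * (K0 * (2 ^ l * (2 : ℝ) ^ (-(r * (i' : ℝ)))))) ≤
      w * (K0 * (2 : ℝ) ^ (-(r * (s i : ℝ)))) * (1 + 2 ^ l * S) := by
    have h1 : ∑ i' ∈ Icc k L, (2 : ℝ) ^ (((i' : ℝ) - k) / p) *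
        (w * (K0 * (2 ^ l * (2 : ℝ) ^ (-(r * (i' : ℝ)))))) =
        (w * K0 * 2 ^ l) * ∑ i' ∈ Icc k L, (2 : ℝ) ^ (((i' : ℝ) - k) / p) *
          (2 : ℝ) ^ (-(r * (i' : ℝ))) := by
      rw [mul_sum]
      refine sum_congr rfl fun i' _ => ?_
      ring
    rw [h1]
    have h2 := sum_bd p r hp hr k L
    have h3 : (2 : ℝ) ^ (-(r * (k : ℝ))) ≤ (2 : ℝ) ^ (-(r * (s i : ℝ))) := by
      refine Real.rpow_le_rpow_of_exponent_le one_le_two ?_
      have : (s i : ℝ) ≤ k := by rw [hk]; push_cast; linarith [(Nat.cast_nonneg b : (0:ℝ) ≤ b)]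
      nlinarith
    have h4 : ∑ i' ∈ Icc k L, (2 : ℝ) ^ (((i' : ℝ) - k) / p) * (2 : ℝ) ^ (-(r * (i' : ℝ))) ≤
        S * (2 : ℝ) ^ (-(r * (s i : ℝ))) :=
      h2.trans (mul_le_mul_of_nonneg_left h3 hS0.le)
    have h5 := mul_le_mul_of_nonneg_left h4 (show 0 ≤ w * K0 * 2 ^ l by positivity)
    nlinarith [h5]
  have hnn : 0 ≤ w * (K0 * (2 : ℝ) ^ (-(r * (s i : ℝ)))) +
      ∑ i' ∈ Icc k L, (2 : ℝ) ^ (((i' : ℝ) - k) / p) *
        (w * (K0 * (2 ^ l * (2 : ℝ) ^ (-(r * (i' : ℝ)))))) :=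
    add_nonneg (by positivity) (sum_nonneg fun i' _ => by positivity)
  have hfin : (C1 * (w * (K0 * (2 : ℝ) ^ (-(r * (s i : ℝ)))) +
      ∑ i' ∈ Icc k L, (2 : ℝ) ^ (((i' : ℝ) - k) / p) *
        (w * (K0 * (2 ^ l * (2 : ℝ) ^ (-(r * (i' : ℝ)))))))) ^ p ≤
      W L b s J * (K L r c s (insert i J) e t) ^ p := by
    rw [K_insert s r c i J e hi t, ← hK0, ← hwp, ← Real.mul_rpow hw0 (by positivity)]
    refine Real.rpow_le_rpow (by positivity) ?_ hp0.le
    refine (mul_le_mul_of_nonneg_left hsum hC1.le).trans_eq ?_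
    calc C1 * (w * (K0 * (2 : ℝ) ^ (-(r * (s i : ℝ)))) * (1 + 2 ^ l * S))
        = (C1 * (1 + 2 ^ l * S)) * (w * (K0 * (2 : ℝ) ^ (-(r * (s i : ℝ))))) := by ring
      _ = c * (w * (K0 * (2 : ℝ) ^ (-(r * (s i : ℝ))))) := by rw [← hc]
      _ = w * (c * (K0 * (2 : ℝ) ^ (-(r * (s i : ℝ))))) := by ring
  have h2L : (0 : ℝ) < 2 ^ L := by positivity
  have h7 : (2 : ℝ) ^ L * ∑ x ∈ univ.filter (SJ L b s (insert i J)), |G x| ^ p ≤
      2 ^ L * (W L b s (insert i J) * (K L r c s (insert i J) e t) ^ p) := by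
    refine hmain.trans ?_
    calc (2 : ℝ) ^ k * _ ≤ 2 ^ k * (W L b s J * (K L r c s (insert i J) e t) ^ p) :=
          mul_le_mul_of_nonneg_left hfin (by positivity)
      _ = 2 ^ L * (W L b s (insert i J) * (K L r c s (insert i J) e t) ^ p) := by
          have := W_insert (L := L) b s i J hi
          rw [← mul_assoc, ← mul_assoc, mul_comm ((2 : ℝ) ^ L), this, hk]
          ring
  exact le_of_mul_le_mul_left h7 h2L

end ind

end DNBM

open DNBM in
theorem specDNB (hTEN : SpecTEN) (hDN1 : SpecDN1) : SpecDNB := by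
  intro d l b p r hp hr
  obtain ⟨C1, hC1, hDN⟩ := hDN1 l p hp
  have hp0 : 0 < p := by positivity
  have hq : (2 : ℝ) ^ (-(r - 1 / p)) < 1 :=
    Real.rpow_lt_one_of_one_lt_of_neg one_lt_two (by linarith)
  have hS0 : 0 < 1 / (1 - (2 : ℝ) ^ (-(r - 1 / p))) := one_div_pos.2 (by linarith)
  set c : ℝ := C1 * (1 + 2 ^ l * (1 / (1 - (2 : ℝ) ^ (-(r - 1 / p))))) with hc
  have hc0 : 0 < c := by positivity
  refine ⟨c ^ d, by positivity, ?_⟩
  intro L F s hs hF
  have claim : ∀ J : Finset (Fin d), ∀ (e : Finset (Fin d)) (t : Fin d → ℕ), Disjoint e J →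
      ∑ x ∈ univ.filter (SJ L b s J), |(tens (Bm L l b s J e t) *ᵥ F) x| ^ p ≤
        W L b s J * (K L r c s J e t) ^ p := by
    intro J
    induction J using Finset.induction_on with
    | empty =>
      intro e t _
      have h1 := hF e t
      have h2 : Bm L l b s ∅ e t = fun j => if j ∈ e then DM L l (t j) else 1 := by
        funext j; simp [Bm]
      have h3 : K L r c s ∅ e t = 1 * ∏ j ∈ e, ((t j : ℝ) / 2 ^ L) ^ r := by
        unfold K; simp
      have h4 : W L b s ∅ = (Fintype.card (Gr d L) : ℝ) := by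
        unfold W
        have : Fintype.card (Gr d L) = (2 ^ L) ^ d := by
          show Fintype.card (Fin d → Fin (2 ^ L)) = _
          simp
        rw [this]
        simp
      have h5 : (univ.filter (SJ L b s (∅ : Finset (Fin d))) : Finset (Gr d L)) = univ := by
        ext x; simp [SJ]
      rw [h2, h3, h4, h5]
      have hcard : (0 : ℝ) < Fintype.card (Gr d L) := by
        have : 0 < Fintype.card (Gr d L) := Fintype.card_pos
        exact_mod_cast this
      have h6 : 0 ≤ nrm p ((tens fun j => if j ∈ e then DM L l (t j) else 1) *ᵥ F) := by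
        unfold nrm mom
        exact Real.rpow_nonneg (div_nonneg (sum_nonneg fun x _ =>
          Real.rpow_nonneg (abs_nonneg _) _) hcard.le) _
      have h7 := Real.rpow_le_rpow h6 h1 hp0.le
      have h8 : nrm p ((tens fun j => if j ∈ e then DM L l (t j) else 1) *ᵥ F) ^ p =
          (∑ x, |((tens fun j => if j ∈ e then DM L l (t j) else 1) *ᵥ F) x| ^ p) /
            Fintype.card (Gr d L) := by
        unfold nrm mom
        rw [← Real.rpow_mul (div_nonneg (sum_nonneg fun x _ =>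
          Real.rpow_nonneg (abs_nonneg _) _) hcard.le), one_div_mul_cancel hp0.ne',
          Real.rpow_one]
      rw [h8, div_le_iff₀ hcard, mul_comm] at h7
      exact h7
    | insert i J hi ih =>
      intro e t he
      exact stepJ l b s hTEN p r hp hr C1 hC1 hDN F hs c hc i J hi ih e t he
  have hfin := claim univ ∅ s (disjoint_empty_left _)
  have e1 : Bm L l b s univ ∅ s = fun j => if s j = 0 then 1 else DM L l (2 ^ (L - s j - b)) := by
    funext j; simp [Bm]
  have e2 : (univ.filter (SJ L b s (univ : Finset (Fin d))) : Finset (Gr d L)) =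
      univ.filter (fun x : Gr d L => ∀ j : Fin d, 2 ^ (L - s j - b) ∣ (x j : ℕ)) := by
    ext x; simp [SJ]
  have e3 : W L b s univ = 2 ^ (∑ j, s j + d * b) := by
    unfold W
    simp only [mem_univ, if_true]
    rw [prod_pow_eq_pow_sum, sum_add_distrib]
    simp
  have e4 : K L r c s univ ∅ s = c ^ d * (2 : ℝ) ^ (-(r * (∑ j, s j : ℕ))) := by
    unfold K; simp
  rw [e1, e2, e3, e4] at hfin
  exact hfin

end Pool.Agent.MP_bc5265.R2
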