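import Pool.Agent.Lib.MP_bc5265_an.R2.SpecC

/-!
# Row 230, RND (helper70): the random test vector
-/

set_option linter.unusedSectionVars false

open MeasureTheory Finset Matrix
open scoped ENNReal

namespace Pool.Agent.MP_bc5265.R2

open Pool.Agent.MP_bc5265.S Pool.Agent.MP_bc5265

namespace RNDM

variable {B : Type} [Fintype B] [DecidableEq B] {ι : B → Type} [∀ b, Fintype (ι b)]
  [∀ b, DecidableEq (ι b)] {Z : Type} [Fintype Z]

/-- one point of each block -/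
theorem sum_pt_le (cl : ∀ b, ι b) (g : (Σ b, ι b) → ℝ) (hg : ∀ i, 0 ≤ g i) :
    ∑ b, g ⟨b, cl b⟩ ≤ ∑ i, g i := by
  rw [Fintype.sum_sigma]
  exact Finset.sum_le_sum fun b _ =>
    Finset.single_le_sum (f := fun k => g ⟨b, k⟩) (fun k _ => hg _) (Finset.mem_univ (cl b))

/-- uniform distribution -/
theorem sum_unif (N : ℕ) (cl : Z → ∀ b, ι b) (g : (Σ b, ι b) → ℝ)
    (h : ∀ b k, (univ.filter fun z => cl z b = k).card * N = Fintype.card Z) :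
    (N : ℝ) * ∑ z, ∑ b, g ⟨b, cl z b⟩ = (Fintype.card Z : ℝ) * ∑ i, g i := by
  rw [Finset.sum_comm, Fintype.sum_sigma, Finset.mul_sum, Finset.mul_sum]
  apply Finset.sum_congr rfl
  intro b _
  rw [← Finset.sum_fiberwise (s := (univ : Finset Z)) (g := fun z => cl z b), Finset.mul_sum,
    Finset.mul_sum]
  apply Finset.sum_congr rfl
  intro k _
  have h1 : ∑ z ∈ univ.filter (fun z => cl z b = k), g ⟨b, cl z b⟩ =
      ((univ.filter fun z => cl z b = k).card : ℝ) * g ⟨b, k⟩ := by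
    rw [← nsmul_eq_mul, ← Finset.sum_const]
    apply Finset.sum_congr rfl
    intro z hz
    rw [(Finset.mem_filter.1 hz).2]
  rw [h1]
  have h2 : (((univ.filter fun z => cl z b = k).card : ℝ)) * N = Fintype.card Z := by
    exact_mod_cast h b k
  rw [← h2]
  ring

/-- column sums over one point of each block -/
def Qz (cl : Z → ∀ b, ι b) (T : (Σ b, ι b) → (Σ b, ι b) → ℝ) (v w : (Σ b, ι b) → ℝ) (z : Z)
    (i : Σ b, ι b) : ℝ :=
  ∑ b, v ⟨b, cl z b⟩ * T ⟨b, cl z b⟩ i ^ 2 * w i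

theorem Qz_nonneg (cl : Z → ∀ b, ι b) (T : (Σ b, ι b) → (Σ b, ι b) → ℝ) (v w : (Σ b, ι b) → ℝ)
    (hv : ∀ i, 0 ≤ v i) (hw : ∀ i, 0 ≤ w i) (z : Z) (i : Σ b, ι b) : 0 ≤ Qz cl T v w z i :=
  Finset.sum_nonneg fun b _ => mul_nonneg (mul_nonneg (hv _) (sq_nonneg _)) (hw _)

theorem Qz_le_one (cl : Z → ∀ b, ι b) (T : (Σ b, ι b) → (Σ b, ι b) → ℝ) (v w : (Σ b, ι b) → ℝ)
    (hv : ∀ i, 0 ≤ v i) (hw : ∀ i, 0 ≤ w i) (hc : ∀ k, ∑ i, v i * T i k ^ 2 * w k ≤ 1) (z : Z)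
    (i : Σ b, ι b) : Qz cl T v w z i ≤ 1 :=
  (sum_pt_le (cl z) (fun i' => v i' * T i' i ^ 2 * w i)
    (fun i' => mul_nonneg (mul_nonneg (hv _) (sq_nonneg _)) (hw _))).trans (hc i)

theorem sum_Qz (cl : Z → ∀ b, ι b) (T : (Σ b, ι b) → (Σ b, ι b) → ℝ) (v w : (Σ b, ι b) → ℝ)
    (z : Z) : ∑ i, Qz cl T v w z i =
      ∑ b, (fun i' => ∑ k, v i' * T i' k ^ 2 * w k) (⟨b, cl z b⟩ : Σ b, ι b) := by
  unfold Qz
  rw [Finset.sum_comm]

/-- the test vector -/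
noncomputable def y (κ : ℝ) (w : (Σ b, ι b) → ℝ) {K : ℕ} (ξ : (Σ b, ι b) → Fin K)
    (ε : (Σ b, ι b) → Bool) (i : Σ b, ι b) : ℝ :=
  sg (ε i) * (if (ξ i : ℕ) = 0 then κ * Real.sqrt (w i) else 0)

theorem abs_sg (b : Bool) : |sg b| = 1 := by cases b <;> simp [sg]

theorem abs_y_rpow (p κ : ℝ) (hp : 0 < p) (hκ : 0 ≤ κ) (w : (Σ b, ι b) → ℝ)
    (hw : ∀ i, 0 ≤ w i ∧ w i ≤ 1) {K : ℕ} (ξ : (Σ b, ι b) → Fin K) (ε : (Σ b, ι b) → Bool)
    (i : Σ b, ι b) : |y κ w ξ ε i| ^ p ≤ κ ^ p * (if (ξ i : ℕ) = 0 then (1 : ℝ) else 0) := by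
  unfold y
  rw [abs_mul, abs_sg, one_mul]
  by_cases h : (ξ i : ℕ) = 0
  · rw [if_pos h, if_pos h, mul_one]
    apply Real.rpow_le_rpow (abs_nonneg _) _ hp.le
    rw [abs_of_nonneg (mul_nonneg hκ (Real.sqrt_nonneg _))]
    have h1 : Real.sqrt (w i) ≤ 1 := Real.sqrt_le_one.2 (hw i).2
    calc κ * Real.sqrt (w i) ≤ κ * 1 := mul_le_mul_of_nonneg_left h1 hκ
      _ = κ := mul_one κ
  · rw [if_neg h, if_neg h, abs_zero, Real.zero_rpow hp.ne', mul_zero]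

/-- average over the signs -/
theorem step_eps (hKHI : SpecKHI) (q κ : ℝ) (hq : 0 < q) (hq2 : q ≤ 2) (hκ : 0 ≤ κ)
    (cl : Z → ∀ b, ι b) (T : (Σ b, ι b) → (Σ b, ι b) → ℝ) (v w : (Σ b, ι b) → ℝ)
    (hv : ∀ i, 0 ≤ v i ∧ v i ≤ 1) (hw : ∀ i, 0 ≤ w i ∧ w i ≤ 1) {K : ℕ}
    (ξ : (Σ b, ι b) → Fin K) (z : Z) :
    2 ^ Fintype.card (Σ b, ι b) * (((κ ^ 2) ^ (q / 2) *
      (∑ i, if (ξ i : ℕ) = 0 then Qz cl T v w z i else 0) ^ (q / 2)) / 24) ≤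
    ∑ ε : (Σ b, ι b) → Bool,
      (∑ b, (∑ i, T ⟨b, cl z b⟩ i * y κ w ξ ε i) ^ 2) ^ (q / 2) := by
  have h := hKHI q (Σ b, ι b) B
    (fun i b => T ⟨b, cl z b⟩ i * (if (ξ i : ℕ) = 0 then κ * Real.sqrt (w i) else 0)) hq hq2
  have e : ∀ ε : (Σ b, ι b) → Bool, (∑ b, (∑ i, sg (ε i) * (T ⟨b, cl z b⟩ i *
      (if (ξ i : ℕ) = 0 then κ * Real.sqrt (w i) else 0))) ^ 2) ^ (q / 2) =
      (∑ b, (∑ i, T ⟨b, cl z b⟩ i * y κ w ξ ε i) ^ 2) ^ (q / 2) := by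
    intro ε
    congr 1
    apply Finset.sum_congr rfl
    intro b _
    congr 1
    apply Finset.sum_congr rfl
    intro i _
    unfold y
    ring
  simp only [e] at h
  refine le_trans ?_ h
  apply mul_le_mul_of_nonneg_left _ (by positivity)
  apply div_le_div_of_nonneg_right _ (by norm_num)
  have hX : 0 ≤ ∑ i, if (ξ i : ℕ) = 0 then Qz cl T v w z i else 0 := by
    apply Finset.sum_nonneg
    intro i _
    split_ifs
    · exact Qz_nonneg cl T v w (fun i => (hv i).1) (fun i => (hw i).1) z i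
    · exact le_rfl
  rw [← Real.mul_rpow (sq_nonneg _) hX]
  apply Real.rpow_le_rpow (mul_nonneg (sq_nonneg _) hX) _ (by linarith)
  rw [Finset.mul_sum]
  apply Finset.sum_le_sum
  intro i _
  by_cases h0 : (ξ i : ℕ) = 0
  · simp only [if_pos h0]
    unfold Qz
    rw [Finset.mul_sum]
    apply Finset.sum_le_sum
    intro b _
    have h1 : (T ⟨b, cl z b⟩ i * (κ * Real.sqrt (w i))) ^ 2 =
        κ ^ 2 * (1 * T ⟨b, cl z b⟩ i ^ 2 * w i) := by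
      rw [mul_pow, mul_pow, Real.sq_sqrt (hw i).1]
      ring
    rw [h1]
    apply mul_le_mul_of_nonneg_left _ (sq_nonneg _)
    apply mul_le_mul_of_nonneg_right _ (hw i).1
    exact mul_le_mul_of_nonneg_right (hv _).2 (sq_nonneg _)
  · simp only [if_neg h0]
    simp

/-- average over the sparse sets -/
theorem step_xi (hBRN : SpecBRN) (q : ℝ) (hq : 0 < q) (hq2 : q ≤ 2)
    (cl : Z → ∀ b, ι b) (T : (Σ b, ι b) → (Σ b, ι b) → ℝ) (v w : (Σ b, ι b) → ℝ)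
    (hv : ∀ i, 0 ≤ v i ∧ v i ≤ 1) (hw : ∀ i, 0 ≤ w i ∧ w i ≤ 1)
    (hc : ∀ k, ∑ i, v i * T i k ^ 2 * w k ≤ 1) (hr : ∀ i, ∑ k, v i * T i k ^ 2 * w k ≤ 14)
    (K : ℕ) (hK : K = Fintype.card B) (hK1 : 1 ≤ K) (z : Z) :
    (K : ℝ) ^ Fintype.card (Σ b, ι b) / 160 * (((∑ i, Qz cl T v w z i) / K - 1 / 4) / 14) ≤
    ∑ ξ : (Σ b, ι b) → Fin K,
      (∑ i, if (ξ i : ℕ) = 0 then Qz cl T v w z i else 0) ^ (q / 2) := by
  have hK0 : (0 : ℝ) < K := by exact_mod_cast hK1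
  have hKS : (0 : ℝ) < (K : ℝ) ^ Fintype.card (Σ b, ι b) / 160 := by positivity
  have hR14 : (∑ i, Qz cl T v w z i) / K ≤ 14 := by
    rw [div_le_iff₀ hK0, sum_Qz]
    calc ∑ b, (fun i' => ∑ k, v i' * T i' k ^ 2 * w k) (⟨b, cl z b⟩ : Σ b, ι b)
        ≤ ∑ _b : B, (14 : ℝ) := Finset.sum_le_sum fun b _ => hr _
      _ = 14 * K := by rw [Finset.sum_const, Finset.card_univ, nsmul_eq_mul, hK]; ring
  by_cases hR : 1 / 4 ≤ (∑ i, Qz cl T v w z i) / K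
  · have h1 := hBRN (q / 2) ((∑ i, Qz cl T v w z i) / K) (Σ b, ι b) K (Qz cl T v w z)
      (by linarith) (by linarith) hK1
      (fun i => ⟨Qz_nonneg cl T v w (fun i => (hv i).1) (fun i => (hw i).1) z i,
        Qz_le_one cl T v w (fun i => (hv i).1) (fun i => (hw i).1) hc z i⟩)
      (by rw [mul_div_cancel₀ _ hK0.ne']) hR
    refine le_trans ?_ h1
    calc (K : ℝ) ^ Fintype.card (Σ b, ι b) / 160 * (((∑ i, Qz cl T v w z i) / K - 1 / 4) / 14)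
        ≤ (K : ℝ) ^ Fintype.card (Σ b, ι b) / 160 * 1 :=
          mul_le_mul_of_nonneg_left (by linarith) hKS.le
      _ = (K : ℝ) ^ Fintype.card (Σ b, ι b) / 160 := mul_one _
  · have h2 : (K : ℝ) ^ Fintype.card (Σ b, ι b) / 160 *
        (((∑ i, Qz cl T v w z i) / K - 1 / 4) / 14) ≤ 0 :=
      mul_nonpos_of_nonneg_of_nonpos hKS.le (by linarith)
    refine h2.trans (Finset.sum_nonneg fun ξ _ => Real.rpow_nonneg ?_ _)
    apply Finset.sum_nonneg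
    intro i _
    split_ifs
    · exact Qz_nonneg cl T v w (fun i => (hv i).1) (fun i => (hw i).1) z i
    · exact le_rfl

end RNDM

theorem specRND (hKHI : SpecKHI) (hBRN : SpecBRN) (hLAM : SpecLAM) : SpecRND := by
  intro p q A hq hqp hp2 hA
  have hp0 : 0 < p := by linarith
  have hq2 : q ≤ 2 := by linarith
  refine ⟨1 / (24 * 160 * 56) / (2 + A), by positivity, ?_⟩
  intro B _ _ _ ι _ _ N Z _ _ cl T v w hN hι hKN hunif hv hw hc hr hbig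
  obtain ⟨K, hK⟩ : ∃ K : ℕ, K = Fintype.card B := ⟨_, rfl⟩
  have hK1 : 1 ≤ K := by rw [hK]; exact Fintype.card_pos
  have hK0 : (0 : ℝ) < K := by exact_mod_cast hK1
  have hN0 : (0 : ℝ) < N := by exact_mod_cast hN
  have hZ0 : (0 : ℝ) < Fintype.card Z := by exact_mod_cast Fintype.card_pos
  rw [← hK] at hKN hbig
  rw [← hK]
  obtain ⟨S, hS⟩ : ∃ S : ℕ, S = Fintype.card (Σ b, ι b) := ⟨_, rfl⟩
  obtain ⟨Lam, hL1, hL2, hL3⟩ := hLAM A B ι K N hK1 hN hK.symm hι hKN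
  rw [← hS] at hL3
  obtain ⟨κ, hκ⟩ : ∃ κ : ℝ, κ = (K : ℝ) ^ (1 / p) := ⟨_, rfl⟩
  have hκ0 : 0 ≤ κ := by rw [hκ]; positivity
  have hκp : κ ^ p = K := by
    rw [hκ, ← Real.rpow_mul hK0.le, one_div_mul_cancel hp0.ne', Real.rpow_one]
  have hκq : (κ ^ 2) ^ (q / 2) = (K : ℝ) ^ (q / p) := by
    rw [← Real.rpow_natCast κ 2, ← Real.rpow_mul hκ0, hκ, ← Real.rpow_mul hK0.le]
    congr 1
    push_cast
    field_simp
  obtain ⟨M, hM⟩ : ∃ M : ℝ, M = (K : ℝ) ^ (q / p) := ⟨_, rfl⟩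
  have hM0 : 0 < M := by rw [hM]; positivity
  -- average over everything
  obtain ⟨F, hF⟩ : ∃ F : ((Σ b, ι b) → Fin K) → ((Σ b, ι b) → Bool) → ℝ,
      F = fun ξ ε => ∑ z, (∑ b, (∑ i, T ⟨b, cl z b⟩ i * RNDM.y κ w ξ ε i) ^ 2) ^ (q / 2) :=
    ⟨_, rfl⟩
  have havg : 2 ^ S * (M * ((K : ℝ) ^ S * ((Fintype.card Z : ℝ) * (1 / (24 * 160 * 56))))) ≤
      ∑ ξ, ∑ ε, F ξ ε := by
    have h1 : ∑ ξ, ∑ ε, F ξ ε = ∑ z, ∑ ξ : (Σ b, ι b) → Fin K, ∑ ε : (Σ b, ι b) → Bool,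
        (∑ b, (∑ i, T ⟨b, cl z b⟩ i * RNDM.y κ w ξ ε i) ^ 2) ^ (q / 2) := by
      rw [hF]
      simp only []
      rw [Finset.sum_congr rfl fun ξ _ => Finset.sum_comm, Finset.sum_comm]
    rw [h1]
    have h2 : ∀ z, 2 ^ S * (M * ((K : ℝ) ^ S / 160 *
        (((∑ i, RNDM.Qz cl T v w z i) / K - 1 / 4) / 14)) / 24) ≤
        ∑ ξ : (Σ b, ι b) → Fin K, ∑ ε : (Σ b, ι b) → Bool,
        (∑ b, (∑ i, T ⟨b, cl z b⟩ i * RNDM.y κ w ξ ε i) ^ 2) ^ (q / 2) := by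
      intro z
      have h3 := RNDM.step_xi hBRN q hq hq2 cl T v w hv hw hc hr K hK hK1 z
      rw [← hS] at h3
      calc 2 ^ S * (M * ((K : ℝ) ^ S / 160 *
            (((∑ i, RNDM.Qz cl T v w z i) / K - 1 / 4) / 14)) / 24)
          ≤ 2 ^ S * (M * (∑ ξ : (Σ b, ι b) → Fin K,
            (∑ i, if (ξ i : ℕ) = 0 then RNDM.Qz cl T v w z i else 0) ^ (q / 2)) / 24) := by
            apply mul_le_mul_of_nonneg_left _ (by positivity)
            apply div_le_div_of_nonneg_right _ (by norm_num)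
            exact mul_le_mul_of_nonneg_left h3 hM0.le
        _ = ∑ ξ : (Σ b, ι b) → Fin K, 2 ^ S * ((M *
            (∑ i, if (ξ i : ℕ) = 0 then RNDM.Qz cl T v w z i else 0) ^ (q / 2)) / 24) := by
            rw [Finset.mul_sum, Finset.sum_div, Finset.mul_sum]
        _ ≤ _ := by
            apply Finset.sum_le_sum
            intro ξ _
            have h4 := RNDM.step_eps hKHI q κ hq hq2 hκ0 cl T v w hv hw ξ z
            rw [hκq, ← hM, ← hS] at h4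
            exact h4
    have h5 : (Fintype.card Z : ℝ) / 2 ≤ ∑ z, (∑ i, RNDM.Qz cl T v w z i) / K := by
      have h6 := RNDM.sum_unif N cl (fun i' => ∑ k, v i' * T i' k ^ 2 * w k) hunif
      have h7 : ∑ z, (∑ i, RNDM.Qz cl T v w z i) / K =
          (∑ z, ∑ b, (fun i' => ∑ k, v i' * T i' k ^ 2 * w k)
            (⟨b, cl z b⟩ : Σ b, ι b)) / K := by
        rw [Finset.sum_div]
        apply Finset.sum_congr rfl
        intro z _
        rw [RNDM.sum_Qz]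
      rw [h7, le_div_iff₀ hK0]
      have h8 : (N : ℝ) * ((Fintype.card Z : ℝ) / 2 * K) ≤ N * ∑ z, ∑ b,
          (fun i' => ∑ k, v i' * T i' k ^ 2 * w k) (⟨b, cl z b⟩ : Σ b, ι b) := by
        rw [h6]
        calc (N : ℝ) * ((Fintype.card Z : ℝ) / 2 * K) =
              (Fintype.card Z : ℝ) * ((N : ℝ) * K / 2) := by ring
          _ ≤ _ := mul_le_mul_of_nonneg_left hbig hZ0.le
      exact le_of_mul_le_mul_left h8 hN0
    refine le_trans ?_ (Finset.sum_le_sum fun z _ => h2 z)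
    have h9 : ∑ z, 2 ^ S * (M * ((K : ℝ) ^ S / 160 *
        (((∑ i, RNDM.Qz cl T v w z i) / K - 1 / 4) / 14)) / 24) =
        2 ^ S * (M * ((K : ℝ) ^ S * ((∑ z, (∑ i, RNDM.Qz cl T v w z i) / K -
          (Fintype.card Z : ℝ) / 4) / (24 * 160 * 14)))) := by
      have h10 : ∀ z, 2 ^ S * (M * ((K : ℝ) ^ S / 160 *
        (((∑ i, RNDM.Qz cl T v w z i) / K - 1 / 4) / 14)) / 24) =
        (2 ^ S * (M * ((K : ℝ) ^ S / (24 * 160 * 14)))) *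
          ((∑ i, RNDM.Qz cl T v w z i) / K - 1 / 4) := fun z => by ring
      rw [Finset.sum_congr rfl fun z _ => h10 z, ← Finset.mul_sum, Finset.sum_sub_distrib,
        Finset.sum_const, Finset.card_univ, nsmul_eq_mul]
      ring
    rw [h9]
    apply mul_le_mul_of_nonneg_left _ (by positivity)
    apply mul_le_mul_of_nonneg_left _ hM0.le
    apply mul_le_mul_of_nonneg_left _ (by positivity)
    linarith
  -- choice
  obtain ⟨c', hc'⟩ : ∃ c' : ℝ, c' = 1 / (24 * 160 * 56) / (2 + A) * M * Fintype.card Z := ⟨_, rfl⟩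
  have hc'0 : 0 < c' := by rw [hc']; positivity
  have hex : ∃ (ξ : (Σ b, ι b) → Fin K) (ε : (Σ b, ι b) → Bool), c' * Lam ξ ≤ F ξ ε := by
    have hne1 : Nonempty (Fin K) := ⟨⟨0, hK1⟩⟩
    have h1 : ∑ ξ : (Σ b, ι b) → Fin K, (2 ^ S * (c' * Lam ξ)) ≤ ∑ ξ, ∑ ε, F ξ ε := by
      refine le_trans ?_ havg
      rw [← Finset.mul_sum, ← Finset.mul_sum]
      apply mul_le_mul_of_nonneg_left _ (by positivity)
      calc c' * ∑ ξ, Lam ξ ≤ c' * ((2 + A) * (K : ℝ) ^ S) :=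
            mul_le_mul_of_nonneg_left hL3 hc'0.le
        _ = M * ((K : ℝ) ^ S * ((Fintype.card Z : ℝ) * (1 / (24 * 160 * 56)))) := by
            rw [hc']
            field_simp
    obtain ⟨ξ, -, hξ⟩ := Finset.exists_le_of_sum_le Finset.univ_nonempty h1
    have h2 : ∑ _ε : (Σ b, ι b) → Bool, c' * Lam ξ ≤ ∑ ε, F ξ ε := by
      rw [Finset.sum_const, Finset.card_univ, nsmul_eq_mul, Fintype.card_fun, Fintype.card_bool,
        ← hS]
      push_cast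
      exact hξ
    obtain ⟨ε, -, hε⟩ := Finset.exists_le_of_sum_le Finset.univ_nonempty h2
    exact ⟨ξ, ε, hε⟩
  obtain ⟨ξ, ε, hξε⟩ := hex
  have hLam : 1 ≤ Lam ξ := hL1 ξ
  have hLam0 : 0 < Lam ξ := by linarith
  obtain ⟨μ, hμ⟩ : ∃ μ : ℝ, μ = (Lam ξ) ^ (-(1 / p)) := ⟨_, rfl⟩
  have hμ0 : 0 < μ := by rw [hμ]; positivity
  have hμp : μ ^ p = (Lam ξ)⁻¹ := by
    rw [hμ, ← Real.rpow_mul hLam0.le, neg_mul, one_div_mul_cancel hp0.ne', Real.rpow_neg_one]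
  refine ⟨fun i => μ * RNDM.y κ w ξ ε i, ?_, ?_⟩
  · intro b
    have h1 : ∀ k : ι b, |μ * RNDM.y κ w ξ ε ⟨b, k⟩| ^ p ≤
        (Lam ξ)⁻¹ * (K * (if (ξ ⟨b, k⟩ : ℕ) = 0 then (1 : ℝ) else 0)) := by
      intro k
      rw [abs_mul, Real.mul_rpow (abs_nonneg _) (abs_nonneg _), abs_of_pos hμ0, hμp, ← hκp]
      exact mul_le_mul_of_nonneg_left (RNDM.abs_y_rpow p κ hp0 hκ0 w hw ξ ε ⟨b, k⟩)
        (inv_nonneg.2 hLam0.le)
    calc ∑ k, |μ * RNDM.y κ w ξ ε ⟨b, k⟩| ^ p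
        ≤ ∑ k : ι b, (Lam ξ)⁻¹ * (K * (if (ξ ⟨b, k⟩ : ℕ) = 0 then (1 : ℝ) else 0)) :=
          Finset.sum_le_sum fun k _ => h1 k
      _ = (Lam ξ)⁻¹ * (K * ∑ k : ι b, (if (ξ ⟨b, k⟩ : ℕ) = 0 then (1 : ℝ) else 0)) := by
          rw [← Finset.mul_sum, ← Finset.mul_sum]
      _ ≤ (Lam ξ)⁻¹ * (N * Lam ξ) :=
          mul_le_mul_of_nonneg_left (hL2 ξ b) (inv_nonneg.2 hLam0.le)
      _ = N := by field_simp
  · have h1 : ∀ z, (∑ b, (∑ i, T ⟨b, cl z b⟩ i * (μ * RNDM.y κ w ξ ε i)) ^ 2) ^ (q / 2) =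
        μ ^ q * (∑ b, (∑ i, T ⟨b, cl z b⟩ i * RNDM.y κ w ξ ε i) ^ 2) ^ (q / 2) := by
      intro z
      have h2 : (∑ b, (∑ i, T ⟨b, cl z b⟩ i * (μ * RNDM.y κ w ξ ε i)) ^ 2) =
          μ ^ 2 * ∑ b, (∑ i, T ⟨b, cl z b⟩ i * RNDM.y κ w ξ ε i) ^ 2 := by
        rw [Finset.mul_sum]
        apply Finset.sum_congr rfl
        intro b _
        rw [← mul_pow, Finset.mul_sum]
        congr 1
        apply Finset.sum_congr rfl
        intro i _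
        ring
      rw [h2, Real.mul_rpow (sq_nonneg _) (Finset.sum_nonneg fun b _ => sq_nonneg _),
        ← Real.rpow_natCast μ 2, ← Real.rpow_mul hμ0.le]
      congr 2
      push_cast
      ring
    rw [Finset.sum_congr rfl fun z _ => h1 z, ← Finset.mul_sum]
    have h3 : ∑ z, (∑ b, (∑ i, T ⟨b, cl z b⟩ i * RNDM.y κ w ξ ε i) ^ 2) ^ (q / 2) = F ξ ε := by
      rw [hF]
    rw [h3, ← hM, ← hc']
    have h4 : 1 ≤ μ ^ q * Lam ξ := by
      have h5 : μ ^ q * Lam ξ = (Lam ξ) ^ (1 - q / p) := by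
        rw [hμ, ← Real.rpow_mul hLam0.le]
        nth_rewrite 2 [← Real.rpow_one (Lam ξ)]
        rw [← Real.rpow_add hLam0]
        congr 1
        ring
      rw [h5]
      apply Real.one_le_rpow hLam
      have : q / p ≤ 1 := (div_le_one hp0).2 hqp
      linarith
    calc c' = c' * 1 := (mul_one _).symm
      _ ≤ c' * (μ ^ q * Lam ξ) := mul_le_mul_of_nonneg_left h4 hc'0.le
      _ = μ ^ q * (c' * Lam ξ) := by ring
      _ ≤ μ ^ q * F ξ ε := mul_le_mul_of_nonneg_left hξε (Real.rpow_nonneg hμ0.le _)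

end Pool.Agent.MP_bc5265.R2
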