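import Mathlib
import Pool.Agent.Lib.MP_bc5265_an.S.Defs
import Pool.Agent.Lib.MP_bc5265_an.R2.SpecB
import Pool.Agent.Lib.MP_bc5265_an.R2.SpecR

section
/-! Number of levels with given total level. -/
set_option autoImplicit false

open Finset

namespace Pool.Agent.MP_bc5265.S

namespace CntM

theorem mem_Lay (d l : ℕ) (s : Fin d → ℕ) : s ∈ Lay d l ↔ tot s = l := by
  unfold Lay
  rw [mem_filter, Fintype.mem_piFinset]
  constructor
  · exact fun h => h.2
  · intro h
    refine ⟨fun j => ?_, h⟩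
    rw [mem_range, Nat.lt_succ_iff, ← h]
    exact single_le_sum (f := s) (fun i _ => Nat.zero_le _) (mem_univ j)

theorem card_Lay (n l : ℕ) : (Lay (n + 1) l).card ≤ (l + 1) ^ n := by
  have h1 : (Fintype.piFinset fun _ : Fin n => range (l + 1)).card = (l + 1) ^ n := by
    rw [Fintype.card_piFinset]
    simp
  rw [← h1]
  refine card_le_card_of_injOn (fun s => Fin.tail s) ?_ ?_
  · intro s hs
    have hs1 : s ∈ Lay (n + 1) l := hs
    unfold Lay at hs1
    have hs' := (mem_filter.1 hs1).1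
    rw [Fintype.mem_piFinset] at hs'
    rw [mem_coe, Fintype.mem_piFinset]
    exact fun j => hs' j.succ
  · intro s hs s' hs' hss
    have h2 : tot s = l := (mem_Lay _ _ _).1 hs
    have h3 : tot s' = l := (mem_Lay _ _ _).1 hs'
    have ht : Fin.tail s = Fin.tail s' := hss
    unfold tot at h2 h3
    rw [Fin.sum_univ_succ] at h2 h3
    have h4 : ∀ j : Fin n, s j.succ = s' j.succ := fun j => congrFun ht j
    have h5 : ∑ i : Fin n, s i.succ = ∑ i : Fin n, s' i.succ := sum_congr rfl fun j _ => h4 j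
    funext j
    refine Fin.cases ?_ (fun i => h4 i) j
    omega

theorem Ns_le (d : ℕ) (s : Fin d → ℕ) : Ns s ≤ 2 ^ tot s := by
  unfold Ns tot
  rw [← prod_pow_eq_pow_sum]
  exact prod_le_prod' fun j _ => Nat.pow_le_pow_right (by norm_num) (Nat.sub_le _ _)

end CntM

open CntM in
theorem specCnt : SpecCnt := by
  intro d l hd
  obtain ⟨n, rfl⟩ : ∃ n, d = n + 1 := ⟨d - 1, by omega⟩
  refine ⟨?_, mem_Lay _ _, Ns_le _⟩
  simpa using card_Lay n l

end Pool.Agent.MP_bc5265.S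
end

section
/-! # LAY: number of vectors with given sum -/
set_option linter.unusedSectionVars false

open MeasureTheory Finset Matrix
open scoped ENNReal

namespace Pool.Agent.MP_bc5265.R2

open Pool.Agent.MP_bc5265.S

noncomputable section

/-- LAY -/
theorem specLAY : SpecLAY := by
  intro d m k a hd hak
  obtain ⟨h1, h2, -⟩ := specCnt d (k - ∑ j, a j) hd
  refine le_trans ?_ h1
  refine Finset.card_le_card_of_injOn (fun v j => v j - a j) ?_ ?_
  · intro v hv
    have hv' := Finset.mem_filter.1 (Finset.mem_coe.1 hv)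
    obtain ⟨-, h3, h4⟩ := hv'
    rw [Finset.mem_coe, h2]
    show ∑ j, (v j - a j) = k - ∑ j, a j
    have h5 : ∑ j, (v j - a j) + ∑ j, a j = ∑ j, v j := by
      rw [← Finset.sum_add_distrib]
      exact Finset.sum_congr rfl fun j _ => Nat.sub_add_cancel (h3 j)
    omega
  · intro v hv w hw hvw
    have hv' := Finset.mem_filter.1 (Finset.mem_coe.1 hv)
    have hw' := Finset.mem_filter.1 (Finset.mem_coe.1 hw)
    funext j
    have h3 := hv'.2.1 j
    have h4 := hw'.2.1 j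
    have h5 : v j - a j = w j - a j := congrFun hvw j
    omega

end

end Pool.Agent.MP_bc5265.R2
end

section
/-!
# Region `R_2`, module LOW: the levels `h < |v| < (1+δ) h`
-/
set_option linter.unusedSectionVars false

open MeasureTheory Finset Matrix
open scoped ENNReal

namespace Pool.Agent.MP_bc5265.R2

open Pool.Agent.MP_bc5265.S

noncomputable section

namespace LOWM

theorem pb_pos (k : ℕ) (j : ℤ) : 0 < pb k j := by
  unfold pb
  split_ifs <;> positivity

theorem pb_one (j : ℤ) : pb 1 j = (2 : ℝ) ^ (j : ℝ) := by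
  unfold pb
  split_ifs
  · norm_num
  · congr 1
    push_cast
    ring

theorem mom_nonneg {p : ℝ} {X : Type} [Fintype X] (g : X → ℝ) : 0 ≤ mom p g := by
  unfold mom
  apply div_nonneg _ (Nat.cast_nonneg _)
  exact Finset.sum_nonneg fun x _ => Real.rpow_nonneg (abs_nonneg _) _

theorem Tu_add {d H : ℕ} (g : ℕ) (v : Fin d → ℕ) (ω : Gr d H → Fin (2 ^ g))
    (u u' : Gr d H → ℝ) :
    Tu g v ω (fun x => u x + u' x) = fun x => Tu g v ω u x + Tu g v ω u' x := by
  funext x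
  unfold Tu
  rw [← mul_add, ← Finset.sum_add_distrib]
  congr 1
  apply Finset.sum_congr rfl
  intro y _
  split_ifs
  · ring
  · ring

/-- the numbers -/
theorem numbers {p P : ℝ} {k : ℕ} (hp : 1 < p) (hP : P = p / (p - 1)) (j : ℤ) {C1 C2 : ℝ}
    (hC1 : 0 < C1) (hC2 : 0 < C2) : ∃ σ : ℝ, 0 < σ ∧
    (C2 * (C1 * pb 1 j * σ ^ (2 - P) + C1 * pb k j * σ ^ (2 * k - P))) ^ (1 / P)
      = (2 * C1 * C2) ^ (1 / P) * NU p j := by
  have hp1 : 0 < p - 1 := by linarith
  have hP0 : 0 < P := by rw [hP]; positivity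
  have h2 : (0 : ℝ) < 2 := by norm_num
  have hPp : (P - 1) / P = 1 / p := by
    rw [hP]
    field_simp
    ring
  by_cases hj : j ≤ 0
  · refine ⟨(2 : ℝ) ^ (-(j : ℝ) / 2), by positivity, ?_⟩
    have e1 : C1 * pb 1 j * ((2 : ℝ) ^ (-(j : ℝ) / 2)) ^ (2 - P) = C1 * (2 : ℝ) ^ ((j : ℝ) / 2 * P) := by
      rw [pb_one, ← Real.rpow_mul h2.le, mul_assoc, ← Real.rpow_add h2]
      congr 2
      ring
    have e2 : C1 * pb k j * ((2 : ℝ) ^ (-(j : ℝ) / 2)) ^ (2 * k - P)
        = C1 * (2 : ℝ) ^ ((j : ℝ) / 2 * P) := by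
      unfold pb
      rw [if_pos hj, ← Real.rpow_mul h2.le, mul_assoc, ← Real.rpow_add h2]
      congr 2
      ring
    rw [e1, e2]
    have e3 : C2 * (C1 * (2 : ℝ) ^ ((j : ℝ) / 2 * P) + C1 * (2 : ℝ) ^ ((j : ℝ) / 2 * P))
        = (2 * C1 * C2) * (2 : ℝ) ^ ((j : ℝ) / 2 * P) := by ring
    rw [e3, Real.mul_rpow (by positivity) (by positivity), ← Real.rpow_mul h2.le]
    unfold NU
    rw [if_pos hj]
    congr 2
    field_simp
  · refine ⟨(2 : ℝ) ^ (-(j : ℝ)), by positivity, ?_⟩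
    have e1 : C1 * pb 1 j * ((2 : ℝ) ^ (-(j : ℝ))) ^ (2 - P) = C1 * (2 : ℝ) ^ ((j : ℝ) * (P - 1)) := by
      rw [pb_one, ← Real.rpow_mul h2.le, mul_assoc, ← Real.rpow_add h2]
      congr 2
      ring
    have e2 : C1 * pb k j * ((2 : ℝ) ^ (-(j : ℝ))) ^ (2 * k - P)
        = C1 * (2 : ℝ) ^ ((j : ℝ) * (P - 1)) := by
      unfold pb
      rw [if_neg hj, ← Real.rpow_mul h2.le, mul_assoc, ← Real.rpow_add h2]
      congr 2
      ring
    rw [e1, e2]
    have e3 : C2 * (C1 * (2 : ℝ) ^ ((j : ℝ) * (P - 1)) + C1 * (2 : ℝ) ^ ((j : ℝ) * (P - 1)))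
        = (2 * C1 * C2) * (2 : ℝ) ^ ((j : ℝ) * (P - 1)) := by ring
    rw [e3, Real.mul_rpow (by positivity) (by positivity), ← Real.rpow_mul h2.le]
    unfold NU
    rw [if_neg hj]
    congr 2
    rw [mul_assoc, mul_one_div, hPp, mul_one_div]

end LOWM

open LOWM in
theorem specLOW (hOPB : SpecOPB) (hMAR : SpecMAR) (hDUA : SpecDUA) : SpecLOW := by
  intro p k hp hp2 hPk
  set P : ℝ := p / (p - 1) with hP
  have hp1 : 0 < p - 1 := by linarith
  have hP2 : 2 < P := by
    rw [hP, lt_div_iff₀ hp1]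
    linarith
  have hk : 1 ≤ k := by
    rcases Nat.eq_zero_or_pos k with h | h
    · exfalso
      rw [h] at hPk
      push_cast at hPk
      linarith
    · exact h
  obtain ⟨C1, hC1, hOPB⟩ := hOPB k hk
  obtain ⟨C2, hC2, hMAR⟩ := hMAR P k hP2 hPk
  refine ⟨(2 * C1 * C2) ^ (1 / P), by positivity, ?_⟩
  intro d κ h i0 g α δ ω hd hg hgood v b hv hvh hvδ hb hbα ψ hψ
  obtain ⟨σ, hσ, hnum⟩ := numbers (k := k) hp hP
    (((∑ j, v j : ℕ) : ℤ) - ((h + i0 : ℕ) : ℤ)) hC1 hC2
  have hNU : 0 ≤ NU p (((∑ j, v j : ℕ) : ℤ) - ((h + i0 : ℕ) : ℤ)) := by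
    unfold NU
    split_ifs <;> positivity
  refine hDUA d (3 * h) g h i0 p _ v b ω hp hg hv hb (by positivity) ?_ ψ hψ
  intro u hu
  have hA : 0 < C1 * pb 1 (((∑ j, v j : ℕ) : ℤ) - ((h + i0 : ℕ) : ℤ)) :=
    mul_pos hC1 (pb_pos _ _)
  have hB : 0 < C1 * pb k (((∑ j, v j : ℕ) : ℤ) - ((h + i0 : ℕ) : ℤ)) :=
    mul_pos hC1 (pb_pos _ _)
  have hmain := hMAR (Gr d (3 * h)) {u | CellC b u} (Tu g v ω) _ _ σ hA hB hσ
    (by
      intro u hu s
      constructor
      · intro x y hxy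
        have h1 := hu x y hxy
        show (if s < |u x| then u x else 0) = if s < |u y| then u y else 0
        rw [h1]
      · intro x y hxy
        have h1 := hu x y hxy
        show (if s < |u x| then 0 else u x) = if s < |u y| then 0 else u y
        rw [h1])
    (Tu_add g v ω)
    (fun u hu => by
      have := hOPB d κ h i0 g α δ ω hd hg hgood 1 (Or.inl rfl) v b hv hvh hvδ hb hbα u hu
      simpa using this)
    (fun u hu => by
      have := hOPB d κ h i0 g α δ ω hd hg hgood k (Or.inr rfl) v b hv hvh hvδ hb hbα u hu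
      exact this)
    u hu
  rw [← hnum]
  unfold nrm
  rw [← Real.mul_rpow (by positivity) (mom_nonneg u)]
  exact Real.rpow_le_rpow (mom_nonneg _) hmain (by positivity)

end

end Pool.Agent.MP_bc5265.R2
end

section
/-!
# Region `R_2`, module MAR: Marcinkiewicz interpolation (dyadic version)
-/
set_option linter.unusedSectionVars false

open MeasureTheory Finset Matrix
open scoped ENNReal

namespace Pool.Agent.MP_bc5265.R2

open Pool.Agent.MP_bc5265.S

noncomputable section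

namespace MARM

/-- the geometric sum below `s` -/
theorem geo1 {a c s : ℝ} (ha : 0 < a) (hc : 0 < c) (hs : 0 < s) (M : ℕ) :
    ∑ n ∈ range M, (if c * 2 ^ n < s then (c * 2 ^ n) ^ a else 0) ≤
      s ^ a / (1 - (2 : ℝ) ^ (-a)) := by
  have h1 : (2 : ℝ) ^ (-a) < 1 := Real.rpow_lt_one_of_one_lt_of_neg one_lt_two (neg_lt_zero.2 ha)
  have h2 : 0 < 1 - (2 : ℝ) ^ (-a) := by linarith
  rw [le_div_iff₀ h2, Finset.sum_mul]
  let φ : ℕ → ℝ := fun n => (min (c * 2 ^ n / 2) s) ^ a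
  have h3 : ∀ n ∈ range M, (if c * 2 ^ n < s then (c * 2 ^ n) ^ a else 0) * (1 - (2 : ℝ) ^ (-a)) ≤
      φ (n + 1) - φ n := by
    intro n _
    have hp : 0 < c * 2 ^ n := by positivity
    have e : c * 2 ^ (n + 1) / 2 = c * 2 ^ n := by rw [pow_succ]; ring
    show _ ≤ (min (c * 2 ^ (n + 1) / 2) s) ^ a - (min (c * 2 ^ n / 2) s) ^ a
    rw [e]
    split_ifs with h
    · rw [min_eq_left h.le, min_eq_left (by linarith), Real.div_rpow hp.le zero_le_two,
        Real.rpow_neg zero_le_two]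
      apply le_of_eq
      ring
    · rw [zero_mul, sub_nonneg]
      refine Real.rpow_le_rpow (le_min (by positivity) hs.le) (min_le_min ?_ le_rfl) ha.le
      linarith
  refine (Finset.sum_le_sum h3).trans ?_
  rw [Finset.sum_range_sub]
  have h4 : φ M ≤ s ^ a := by
    refine Real.rpow_le_rpow (le_min (by positivity) hs.le) (min_le_right _ _) ha.le
  have h5 : 0 ≤ φ 0 := Real.rpow_nonneg (le_min (by positivity) hs.le) _
  linarith

/-- the geometric sum above `s` -/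
theorem geo2 {b c s : ℝ} (hb : 0 < b) (hc : 0 < c) (hs : 0 < s) (M : ℕ) :
    ∑ n ∈ range M, (if c * 2 ^ n < s then 0 else (c * 2 ^ n) ^ (-b)) ≤
      s ^ (-b) / (1 - (2 : ℝ) ^ (-b)) := by
  have h1 : (2 : ℝ) ^ (-b) < 1 := Real.rpow_lt_one_of_one_lt_of_neg one_lt_two (neg_lt_zero.2 hb)
  have h2 : 0 < 1 - (2 : ℝ) ^ (-b) := by linarith
  rw [le_div_iff₀ h2, Finset.sum_mul]
  let ψ : ℕ → ℝ := fun n => (max (c * 2 ^ n) s) ^ (-b)
  have h3 : ∀ n ∈ range M, (if c * 2 ^ n < s then 0 else (c * 2 ^ n) ^ (-b)) *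
      (1 - (2 : ℝ) ^ (-b)) ≤ ψ n - ψ (n + 1) := by
    intro n _
    have hp : 0 < c * 2 ^ n := by positivity
    have e : c * 2 ^ (n + 1) = c * 2 ^ n * 2 := by rw [pow_succ]; ring
    show _ ≤ (max (c * 2 ^ n) s) ^ (-b) - (max (c * 2 ^ (n + 1)) s) ^ (-b)
    rw [e]
    split_ifs with h
    · rw [zero_mul, sub_nonneg]
      refine Real.rpow_le_rpow_of_nonpos (lt_max_of_lt_right hs) (max_le_max ?_ le_rfl)
        (neg_nonpos.2 hb.le)
      linarith
    · push Not at h
      rw [max_eq_left h, max_eq_left (by linarith), Real.mul_rpow hp.le zero_le_two]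
      apply le_of_eq
      ring
  refine (Finset.sum_le_sum h3).trans ?_
  rw [Finset.sum_range_sub']
  have h4 : ψ 0 ≤ s ^ (-b) := by
    refine Real.rpow_le_rpow_of_nonpos hs (le_max_right _ _) (neg_nonpos.2 hb.le)
  have h5 : 0 ≤ ψ M := Real.rpow_nonneg (le_max_of_le_right hs.le) _
  linarith

theorem exists_dyadic {c y : ℝ} (hc : c < y) : ∀ M : ℕ, y ≤ c * 2 ^ M →
    ∃ n < M, c * 2 ^ n < y ∧ y ≤ 2 * (c * 2 ^ n) := by
  intro M
  induction M with
  | zero => intro h; rw [pow_zero, mul_one] at h; exact absurd hc (not_lt.2 h)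
  | succ M ih =>
    intro h
    rcases le_or_gt y (c * 2 ^ M) with h1 | h1
    · obtain ⟨n, hn, h2⟩ := ih h1
      exact ⟨n, hn.trans (Nat.lt_succ_self M), h2⟩
    · exact ⟨M, Nat.lt_succ_self M, h1, by rw [pow_succ] at h; linarith⟩

theorem exists_range {X : Type} [Fintype X] (f : X → ℝ) : ∃ c : ℝ, 0 < c ∧ ∃ M : ℕ,
    ∀ x, f x ≠ 0 → c < |f x| ∧ |f x| ≤ c * 2 ^ M := by
  have h1 : ∀ᶠ c : ℝ in nhdsWithin 0 (Set.Ioi 0), ∀ x, f x ≠ 0 → c < |f x| := by
    rw [Filter.eventually_all]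
    intro x
    by_cases h : f x = 0
    · exact Filter.Eventually.of_forall fun c hc => absurd h hc
    · have h2 : ∀ᶠ c : ℝ in nhdsWithin 0 (Set.Ioi 0), c < |f x| :=
        (gt_mem_nhds (abs_pos.2 h)).filter_mono nhdsWithin_le_nhds
      exact h2.mono fun c hc _ => hc
  obtain ⟨c, h2, hc⟩ := (h1.and self_mem_nhdsWithin).exists
  have hc : 0 < c := hc
  refine ⟨c, hc, ?_⟩
  have h3 : ∀ᶠ M : ℕ in Filter.atTop, ∀ x, |f x| ≤ c * 2 ^ M := by
    rw [Filter.eventually_all]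
    intro x
    have h4 : Filter.Tendsto (fun M : ℕ => c * (2 : ℝ) ^ M) Filter.atTop Filter.atTop :=
      (tendsto_pow_atTop_atTop_of_one_lt one_lt_two).const_mul_atTop hc
    exact h4.eventually_ge_atTop _
  obtain ⟨M, hM⟩ := h3.exists
  exact ⟨M, fun x hx => ⟨h2 x hx, hM x⟩⟩

/-- Chebyshev for one point -/
theorem cheb {t y q : ℝ} (ht : 0 < t) (hq : 0 < q) :
    (if t < |y| then (1 : ℝ) else 0) ≤ t ^ (-q) * |y| ^ q := by
  split_ifs with h
  · have h1 : t ^ q ≤ |y| ^ q := Real.rpow_le_rpow ht.le h.le hq.le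
    have h2 : t ^ (-q) * t ^ q = 1 := by
      rw [← Real.rpow_add ht, neg_add_cancel, Real.rpow_zero]
    rw [← h2]
    exact mul_le_mul_of_nonneg_left h1 (Real.rpow_nonneg ht.le _)
  · positivity

/-- the sum over the levels at one point -/
theorem point {P a b σ c y q : ℝ} (ha : 0 < a) (hb : 0 < b) (hσ : 0 < σ) (hc : 0 < c)
    (hq : 0 < q) (hP : P = 2 + a) (hP' : P = q - b) (M : ℕ) :
    ∑ n ∈ range M, (c * 2 ^ n) ^ P * ((c * 2 ^ n) ^ (-(2 : ℝ)) *
        |if σ * (c * 2 ^ n) < |y| then y else 0| ^ (2 : ℝ)) ≤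
        1 / (1 - (2 : ℝ) ^ (-a)) * (σ ^ (2 - P) * |y| ^ P) ∧
      ∑ n ∈ range M, (c * 2 ^ n) ^ P * ((c * 2 ^ n) ^ (-q) *
        |if σ * (c * 2 ^ n) < |y| then 0 else y| ^ q) ≤
        1 / (1 - (2 : ℝ) ^ (-b)) * (σ ^ (q - P) * |y| ^ P) := by
  have h1 : (2 : ℝ) ^ (-a) < 1 := Real.rpow_lt_one_of_one_lt_of_neg one_lt_two (neg_lt_zero.2 ha)
  have h2 : (2 : ℝ) ^ (-b) < 1 := Real.rpow_lt_one_of_one_lt_of_neg one_lt_two (neg_lt_zero.2 hb)
  have hPp : 0 < P := by linarith
  rcases eq_or_ne y 0 with rfl | hy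
  · constructor
    · refine le_of_eq ?_
      rw [abs_zero, Real.zero_rpow hPp.ne', mul_zero, mul_zero]
      refine Finset.sum_eq_zero fun n _ => ?_
      simp
    · refine le_of_eq ?_
      rw [abs_zero, Real.zero_rpow hPp.ne', mul_zero, mul_zero]
      refine Finset.sum_eq_zero fun n _ => ?_
      simp [Real.zero_rpow hq.ne']
  · have hy' : 0 < |y| := abs_pos.2 hy
    have hs : 0 < |y| / σ := div_pos hy' hσ
    have hiff : ∀ t : ℝ, σ * t < |y| ↔ t < |y| / σ := fun t => by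
      rw [lt_div_iff₀ hσ, mul_comm]
    constructor
    · have h3 := geo1 ha hc hs M
      have h4 : ∀ n ∈ range M, (c * 2 ^ n) ^ P * ((c * 2 ^ n) ^ (-(2 : ℝ)) *
          |if σ * (c * 2 ^ n) < |y| then y else 0| ^ (2 : ℝ)) =
          |y| ^ (2 : ℝ) * (if c * 2 ^ n < |y| / σ then (c * 2 ^ n) ^ a else 0) := by
        intro n _
        have hp : 0 < c * 2 ^ n := by positivity
        by_cases h : c * 2 ^ n < |y| / σ
        · rw [if_pos h, if_pos ((hiff _).2 h), ← mul_assoc, ← Real.rpow_add hp, hP, mul_comm]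
          congr 2
          ring
        · rw [if_neg h, if_neg fun h' => h ((hiff _).1 h')]
          simp
      rw [Finset.sum_congr rfl h4, ← Finset.mul_sum]
      refine (mul_le_mul_of_nonneg_left h3 (by positivity)).trans (le_of_eq ?_)
      rw [Real.div_rpow hy'.le hσ.le, hP, show (2 : ℝ) - (2 + a) = -a by ring,
        Real.rpow_add hy', Real.rpow_neg hσ.le]
      field_simp
    · have h3 := geo2 hb hc hs M
      have h4 : ∀ n ∈ range M, (c * 2 ^ n) ^ P * ((c * 2 ^ n) ^ (-q) *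
          |if σ * (c * 2 ^ n) < |y| then 0 else y| ^ q) =
          |y| ^ q * (if c * 2 ^ n < |y| / σ then 0 else (c * 2 ^ n) ^ (-b)) := by
        intro n _
        have hp : 0 < c * 2 ^ n := by positivity
        by_cases h : c * 2 ^ n < |y| / σ
        · rw [if_pos h, if_pos ((hiff _).2 h)]
          simp [Real.zero_rpow hq.ne']
        · rw [if_neg h, if_neg fun h' => h ((hiff _).1 h'), ← mul_assoc, ← Real.rpow_add hp, hP',
            mul_comm]
          congr 2
          ring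
      rw [Finset.sum_congr rfl h4, ← Finset.mul_sum]
      refine (mul_le_mul_of_nonneg_left h3 (by positivity)).trans (le_of_eq ?_)
      have h5 : |y| ^ q = |y| ^ P * |y| ^ b := by
        rw [← Real.rpow_add hy', hP']
        congr 1
        ring
      rw [Real.div_rpow hy'.le hσ.le, h5, Real.rpow_neg hy'.le, Real.rpow_neg hσ.le,
        show q - P = b by rw [hP']; ring]
      have h6 : |y| ^ b ≠ 0 := (Real.rpow_pos_of_pos hy' _).ne'
      have h7 : σ ^ b ≠ 0 := (Real.rpow_pos_of_pos hσ _).ne'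
      field_simp

end MARM

open MARM in
/-- **MAR** -/
theorem specMAR : SpecMAR := by
  intro P k hP hPk
  have ha : 0 < P - 2 := by linarith
  have hb : 0 < 2 * (k : ℝ) - P := by linarith
  have hk : 0 < 2 * (k : ℝ) := by linarith
  have hPp : 0 < P := by linarith
  have h1 : (2 : ℝ) ^ (-(P - 2)) < 1 :=
    Real.rpow_lt_one_of_one_lt_of_neg one_lt_two (neg_lt_zero.2 ha)
  have h2 : (2 : ℝ) ^ (-(2 * (k : ℝ) - P)) < 1 :=
    Real.rpow_lt_one_of_one_lt_of_neg one_lt_two (neg_lt_zero.2 hb)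
  set K1 : ℝ := 1 / (1 - (2 : ℝ) ^ (-(P - 2))) with hK1
  set K2 : ℝ := 1 / (1 - (2 : ℝ) ^ (-(2 * (k : ℝ) - P))) with hK2
  have hK1p : 0 < K1 := one_div_pos.2 (by linarith)
  have hK2p : 0 < K2 := one_div_pos.2 (by linarith)
  refine ⟨4 ^ P * (K1 + K2), by positivity, ?_⟩
  intro X _ _ U T A B σ hA hB hσ hU hT hTA hTB u hu
  have hN : 0 < (Fintype.card X : ℝ) := by exact_mod_cast Fintype.card_pos
  obtain ⟨c, hc, M, hM⟩ := exists_range (T u)
  -- the pointwise dyadic bound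
  have s1 : ∑ x, |T u x| ^ P ≤
      ∑ x, ∑ n ∈ range M, (2 * (c * 2 ^ n)) ^ P * (if c * 2 ^ n < |T u x| then (1 : ℝ) else 0) := by
    refine Finset.sum_le_sum fun x _ => ?_
    by_cases hx : T u x = 0
    · rw [hx, abs_zero, Real.zero_rpow hPp.ne']
      refine Finset.sum_nonneg fun n _ => ?_
      split_ifs <;> positivity
    · obtain ⟨n, hn, h3, h4⟩ := exists_dyadic (hM x hx).1 M (hM x hx).2
      have h5 : |T u x| ^ P ≤ (2 * (c * 2 ^ n)) ^ P * (if c * 2 ^ n < |T u x| then (1 : ℝ) else 0) := by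
        rw [if_pos h3, mul_one]
        exact Real.rpow_le_rpow (abs_nonneg _) h4 hPp.le
      refine h5.trans (Finset.single_le_sum (f := fun n => (2 * (c * 2 ^ n)) ^ P *
        (if c * 2 ^ n < |T u x| then (1 : ℝ) else 0)) (fun n _ => ?_) (mem_range.2 hn))
      show 0 ≤ (2 * (c * 2 ^ n)) ^ P * (if c * 2 ^ n < |T u x| then (1 : ℝ) else 0)
      split_ifs <;> positivity
  rw [Finset.sum_comm] at s1
  -- one level
  have s2 : ∀ n ∈ range M, ∑ x, (2 * (c * 2 ^ n)) ^ P *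
      (if c * 2 ^ n < |T u x| then (1 : ℝ) else 0) ≤
      4 ^ P * ∑ x, (A * ((c / 2 * 2 ^ n) ^ P * ((c / 2 * 2 ^ n) ^ (-(2 : ℝ)) *
        |if σ * (c / 2 * 2 ^ n) < |u x| then u x else 0| ^ (2 : ℝ))) +
        B * ((c / 2 * 2 ^ n) ^ P * ((c / 2 * 2 ^ n) ^ (-(2 * (k : ℝ))) *
        |if σ * (c / 2 * 2 ^ n) < |u x| then 0 else u x| ^ (2 * (k : ℝ))))) := by
    intro n _
    set t : ℝ := c / 2 * 2 ^ n with ht
    have htp : 0 < t := by positivity
    have e1 : c * 2 ^ n = 2 * t := by rw [ht]; ring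
    have e2 : (2 * (c * 2 ^ n) : ℝ) ^ P = 4 ^ P * t ^ P := by
      rw [← Real.mul_rpow (by norm_num) htp.le, e1]
      congr 1
      ring
    obtain ⟨hu1, hu2⟩ := hU u hu (σ * t)
    set u1 : X → ℝ := fun x => if σ * t < |u x| then u x else 0 with hu1d
    set u2 : X → ℝ := fun x => if σ * t < |u x| then 0 else u x with hu2d
    have hadd : T u = fun x => T u1 x + T u2 x := by
      rw [← hT]
      congr 1
      funext x
      simp only [hu1d, hu2d]
      split_ifs <;> ring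
    have p1 : ∀ x, (if c * 2 ^ n < |T u x| then (1 : ℝ) else 0) ≤
        t ^ (-(2 : ℝ)) * |T u1 x| ^ (2 : ℝ) + t ^ (-(2 * (k : ℝ))) * |T u2 x| ^ (2 * (k : ℝ)) := by
      intro x
      refine le_trans ?_ (add_le_add (cheb (y := T u1 x) htp zero_lt_two)
        (cheb (y := T u2 x) htp hk))
      rw [e1, hadd]
      by_cases h3 : t < |T u1 x|
      · rw [if_pos h3]
        split_ifs <;> norm_num
      · by_cases h4 : t < |T u2 x|
        · rw [if_pos h4]
          split_ifs <;> norm_num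
        · have h5 : ¬ 2 * t < |T u1 x + T u2 x| := by
            push Not at h3 h4 ⊢
            exact (abs_add_le _ _).trans (by linarith)
          show (if 2 * t < |T u1 x + T u2 x| then (1 : ℝ) else 0) ≤ _
          rw [if_neg h5, if_neg h3, if_neg h4, add_zero]
    have m1 : ∑ x, |T u1 x| ^ (2 : ℝ) ≤ A * ∑ x, |u1 x| ^ (2 : ℝ) := by
      have := hTA u1 hu1
      unfold mom at this
      rw [mul_div_assoc', div_le_div_iff_of_pos_right hN] at this
      simpa using this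
    have m2 : ∑ x, |T u2 x| ^ (2 * (k : ℝ)) ≤ B * ∑ x, |u2 x| ^ (2 * (k : ℝ)) := by
      have := hTB u2 hu2
      unfold mom at this
      rw [mul_div_assoc', div_le_div_iff_of_pos_right hN] at this
      have e3 : ((2 * k : ℕ) : ℝ) = 2 * (k : ℝ) := by push_cast; ring
      rwa [e3] at this
    calc ∑ x, (2 * (c * 2 ^ n)) ^ P * (if c * 2 ^ n < |T u x| then (1 : ℝ) else 0)
        ≤ ∑ x, (4 ^ P * t ^ P) * (t ^ (-(2 : ℝ)) * |T u1 x| ^ (2 : ℝ) +
            t ^ (-(2 * (k : ℝ))) * |T u2 x| ^ (2 * (k : ℝ))) := by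
          refine Finset.sum_le_sum fun x _ => ?_
          rw [e2]
          exact mul_le_mul_of_nonneg_left (p1 x) (by positivity)
      _ = (4 ^ P * t ^ P) * (t ^ (-(2 : ℝ)) * ∑ x, |T u1 x| ^ (2 : ℝ) +
            t ^ (-(2 * (k : ℝ))) * ∑ x, |T u2 x| ^ (2 * (k : ℝ))) := by
          rw [← Finset.mul_sum, Finset.sum_add_distrib, ← Finset.mul_sum, ← Finset.mul_sum]
      _ ≤ (4 ^ P * t ^ P) * (t ^ (-(2 : ℝ)) * (A * ∑ x, |u1 x| ^ (2 : ℝ)) +
            t ^ (-(2 * (k : ℝ))) * (B * ∑ x, |u2 x| ^ (2 * (k : ℝ)))) := by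
          refine mul_le_mul_of_nonneg_left (add_le_add ?_ ?_) (by positivity)
          · exact mul_le_mul_of_nonneg_left m1 (by positivity)
          · exact mul_le_mul_of_nonneg_left m2 (by positivity)
      _ = _ := by
          rw [Finset.sum_add_distrib, ← Finset.mul_sum, ← Finset.mul_sum, ← Finset.mul_sum,
            ← Finset.mul_sum, ← Finset.mul_sum, ← Finset.mul_sum]
          ring
  have s3 : ∑ x, |T u x| ^ P ≤ 4 ^ P * ∑ x, (A * (K1 * (σ ^ (2 - P) * |u x| ^ P)) +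
      B * (K2 * (σ ^ (2 * (k : ℝ) - P) * |u x| ^ P))) := by
    refine s1.trans ((Finset.sum_le_sum s2).trans ?_)
    rw [← Finset.mul_sum, Finset.sum_comm]
    refine mul_le_mul_of_nonneg_left (Finset.sum_le_sum fun x _ => ?_) (by positivity)
    rw [Finset.sum_add_distrib, ← Finset.mul_sum, ← Finset.mul_sum]
    obtain ⟨q1, q2⟩ := point (P := P) (a := P - 2) (b := 2 * (k : ℝ) - P) (σ := σ) (c := c / 2)
      (y := u x) (q := 2 * (k : ℝ)) ha hb hσ (by positivity) hk (by ring) (by ring) M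
    exact add_le_add (mul_le_mul_of_nonneg_left q1 hA.le) (mul_le_mul_of_nonneg_left q2 hB.le)
  unfold mom
  rw [mul_div_assoc', div_le_div_iff_of_pos_right hN]
  refine s3.trans ?_
  have e4 : ∑ x, (A * (K1 * (σ ^ (2 - P) * |u x| ^ P)) +
      B * (K2 * (σ ^ (2 * (k : ℝ) - P) * |u x| ^ P))) =
      (A * K1 * σ ^ (2 - P) + B * K2 * σ ^ (2 * (k : ℝ) - P)) * ∑ x, |u x| ^ P := by
    rw [Finset.mul_sum]
    refine Finset.sum_congr rfl fun x _ => ?_
    ring
  rw [e4]
  have hsum : 0 ≤ ∑ x, |u x| ^ P := Finset.sum_nonneg fun x _ => by positivity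
  have e5 : A * K1 * σ ^ (2 - P) + B * K2 * σ ^ (2 * (k : ℝ) - P) ≤
      (K1 + K2) * (A * σ ^ (2 - P) + B * σ ^ (2 * (k : ℝ) - P)) := by
    have q1 : 0 ≤ A * σ ^ (2 - P) := by positivity
    have q2 : 0 ≤ B * σ ^ (2 * (k : ℝ) - P) := by positivity
    nlinarith [mul_nonneg hK2p.le q1, mul_nonneg hK1p.le q2]
  calc 4 ^ P * ((A * K1 * σ ^ (2 - P) + B * K2 * σ ^ (2 * (k : ℝ) - P)) * ∑ x, |u x| ^ P)
      ≤ 4 ^ P * (((K1 + K2) * (A * σ ^ (2 - P) + B * σ ^ (2 * (k : ℝ) - P))) *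
          ∑ x, |u x| ^ P) := by
        refine mul_le_mul_of_nonneg_left (mul_le_mul_of_nonneg_right e5 hsum) (by positivity)
    _ = _ := by ring

end

end Pool.Agent.MP_bc5265.R2
end

section
/-!
# Region `R_2`, block R: module MOM (moment inequality)
-/
set_option linter.unusedSectionVars false

open MeasureTheory Finset Matrix
open scoped ENNReal

namespace Pool.Agent.MP_bc5265.R2

open Pool.Agent.MP_bc5265.S

namespace MOMM

section

variable {X : Type} [Fintype X] [DecidableEq X] {g : ℕ}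

theorem EX_add (f f' : (X → Fin (2 ^ g)) → ℝ) :
    EX g (fun ω => f ω + f' ω) = EX g f + EX g f' := by
  unfold EX
  rw [Finset.sum_add_distrib, add_div]

theorem EX_const_mul (c : ℝ) (f : (X → Fin (2 ^ g)) → ℝ) :
    EX g (fun ω => c * f ω) = c * EX g f := by
  unfold EX
  rw [← Finset.mul_sum, mul_div_assoc]

theorem EX_mono {f f' : (X → Fin (2 ^ g)) → ℝ} (h : ∀ ω, f ω ≤ f' ω) : EX g f ≤ EX g f' := by
  unfold EX
  exact div_le_div_of_nonneg_right (Finset.sum_le_sum fun ω _ => h ω) (Nat.cast_nonneg _)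

theorem EX_nonneg {f : (X → Fin (2 ^ g)) → ℝ} (h : ∀ ω, 0 ≤ f ω) : 0 ≤ EX g f := by
  unfold EX
  exact div_nonneg (Finset.sum_nonneg fun ω _ => h ω) (Nat.cast_nonneg _)

end

theorem term (k m : ℕ) (hm : m ≤ 2 * k) (s t : ℝ) :
    t ^ (m + 2) * s ^ (2 * k - m) ≤ t ^ 2 * s ^ (2 * k) + t ^ (2 * k + 2) := by
  have h0 : t ^ (m + 2) * s ^ (2 * k - m) ≤ |t| ^ (m + 2) * |s| ^ (2 * k - m) := by
    calc t ^ (m + 2) * s ^ (2 * k - m) ≤ |t ^ (m + 2) * s ^ (2 * k - m)| := le_abs_self _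
      _ = _ := by rw [abs_mul, abs_pow, abs_pow]
  refine h0.trans ?_
  have hev : s ^ (2 * k) = |s| ^ (2 * k) := by
    rw [pow_mul, pow_mul, sq_abs]
  have hev2 : t ^ (2 * k + 2) = |t| ^ (2 * k + 2) := by
    have h1 : 2 * k + 2 = 2 * (k + 1) := by ring
    rw [h1, pow_mul, pow_mul, sq_abs]
  rw [← sq_abs t, hev, hev2]
  have ht := abs_nonneg t
  have hs := abs_nonneg s
  generalize |t| = u at *
  generalize |s| = v at *
  rcases le_total u v with h | h
  · have h1 : u ^ (m + 2) * v ^ (2 * k - m) ≤ u ^ 2 * v ^ (2 * k) := by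
      calc u ^ (m + 2) * v ^ (2 * k - m) = u ^ 2 * (u ^ m * v ^ (2 * k - m)) := by ring
        _ ≤ u ^ 2 * (v ^ m * v ^ (2 * k - m)) := by
            refine mul_le_mul_of_nonneg_left ?_ (by positivity)
            exact mul_le_mul_of_nonneg_right (pow_le_pow_left₀ ht h m) (by positivity)
        _ = u ^ 2 * v ^ (2 * k) := by rw [← pow_add, Nat.add_sub_cancel' hm]
    have h2 : 0 ≤ u ^ (2 * k + 2) := by positivity
    linarith
  · have h1 : u ^ (m + 2) * v ^ (2 * k - m) ≤ u ^ (2 * k + 2) := by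
      calc u ^ (m + 2) * v ^ (2 * k - m) ≤ u ^ (m + 2) * u ^ (2 * k - m) :=
            mul_le_mul_of_nonneg_left (pow_le_pow_left₀ hs h _) (by positivity)
        _ = u ^ (2 * k + 2) := by
            rw [← pow_add]
            congr 1
            omega
    have h2 : 0 ≤ u ^ 2 * v ^ (2 * k) := by positivity
    linarith

theorem pt (k : ℕ) (s t : ℝ) : (s + t) ^ (2 * k + 2) ≤
    s ^ (2 * k + 2) + ((2 * k + 2 : ℕ) : ℝ) * (t * s ^ (2 * k + 1)) +
      2 ^ (2 * k + 2) * (t ^ 2 * s ^ (2 * k) + t ^ (2 * k + 2)) := by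
  have h1 : (s + t) ^ (2 * k + 2) = ∑ m ∈ range (2 * k + 2 + 1),
      t ^ m * s ^ (2 * k + 2 - m) * ((2 * k + 2).choose m : ℝ) := by
    rw [add_comm, add_pow]
  rw [h1, sum_range_succ', sum_range_succ']
  have h2 : ∑ m ∈ range (2 * k + 1), t ^ (m + 1 + 1) * s ^ (2 * k + 2 - (m + 1 + 1)) *
      ((2 * k + 2).choose (m + 1 + 1) : ℝ) ≤
      ∑ m ∈ range (2 * k + 1), (t ^ 2 * s ^ (2 * k) + t ^ (2 * k + 2)) *
        ((2 * k + 2).choose (m + 1 + 1) : ℝ) := by
    refine sum_le_sum fun m hm => ?_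
    rw [mem_range] at hm
    refine mul_le_mul_of_nonneg_right ?_ (Nat.cast_nonneg _)
    have h3 : 2 * k + 2 - (m + 1 + 1) = 2 * k - m := by omega
    rw [h3]
    exact term k m (by omega) s t
  rw [← mul_sum] at h2
  have h3 : ∑ m ∈ range (2 * k + 1), ((2 * k + 2).choose (m + 1 + 1) : ℝ) ≤ 2 ^ (2 * k + 2) := by
    have h4 := Nat.sum_range_choose (2 * k + 2)
    rw [sum_range_succ', sum_range_succ'] at h4
    have h5 : ∑ m ∈ range (2 * k + 1), (2 * k + 2).choose (m + 1 + 1) ≤ 2 ^ (2 * k + 2) := by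
      omega
    exact_mod_cast h5
  have h6 : 0 ≤ t ^ 2 * s ^ (2 * k) + t ^ (2 * k + 2) := by
    have h7 : 0 ≤ s ^ (2 * k) := by
      rw [pow_mul]
      positivity
    have h8 : 0 ≤ t ^ (2 * k + 2) := by
      have h9 : 2 * k + 2 = 2 * (k + 1) := by ring
      rw [h9, pow_mul]
      positivity
    positivity
  have h7 := mul_le_mul_of_nonneg_left h3 h6
  have h8 : t ^ (0 + 1) * s ^ (2 * k + 2 - (0 + 1)) * ((2 * k + 2).choose (0 + 1) : ℝ) =
      ((2 * k + 2 : ℕ) : ℝ) * (t * s ^ (2 * k + 1)) := by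
    have h9 : 2 * k + 2 - (0 + 1) = 2 * k + 1 := by omega
    rw [h9, zero_add, Nat.choose_one_right, pow_one]
    ring
  have h10 : t ^ 0 * s ^ (2 * k + 2 - 0) * ((2 * k + 2).choose 0 : ℝ) = s ^ (2 * k + 2) := by
    simp
  rw [h8, h10]
  linarith

/-- the bound, with the value `1` for `k = 0` -/
noncomputable def bd {X : Type} [Fintype X] (g k : ℕ) (a : X → ℝ) : ℝ :=
  if k = 0 then 1 else mbd g k a

theorem W_nonneg {X : Type} [Fintype X] (g j : ℕ) (a : X → ℝ) :
    0 ≤ ((2 : ℝ) ^ g) ^ (2 * j - 1) * ∑ x, a x ^ (2 * j) := by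
  have h1 : 0 ≤ ∑ x, a x ^ (2 * j) := Finset.sum_nonneg fun x _ => by
    rw [pow_mul]
    positivity
  positivity

theorem mbd_nonneg {X : Type} [Fintype X] (g k : ℕ) (a : X → ℝ) : 0 ≤ mbd g k a := by
  unfold mbd
  refine Finset.sum_nonneg fun j _ => mul_nonneg ?_ (W_nonneg g j a)
  have h1 : 0 ≤ ∑ x, a x ^ 2 := Finset.sum_nonneg fun x _ => sq_nonneg _
  positivity

theorem bd_nonneg {X : Type} [Fintype X] (g k : ℕ) (a : X → ℝ) : 0 ≤ bd g k a := by
  unfold bd
  split_ifs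
  · exact zero_le_one
  · exact mbd_nonneg g k a

theorem bd_succ {X : Type} [Fintype X] (g k : ℕ) (a : X → ℝ) :
    ((2 : ℝ) ^ g * ∑ x, a x ^ 2) * bd g k a +
      ((2 : ℝ) ^ g) ^ (2 * (k + 1) - 1) * ∑ x, a x ^ (2 * (k + 1)) ≤ 2 * mbd g (k + 1) a := by
  rcases Nat.eq_zero_or_pos k with rfl | hk
  · unfold bd mbd
    rw [if_pos rfl]
    simp only [zero_add, Finset.Icc_self, Finset.sum_singleton, Nat.sub_self, pow_zero, one_mul,
      mul_one]
    have h1 : 2 - 1 = 1 := rfl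
    rw [h1, pow_one]
    linarith
  · have h1 : mbd g (k + 1) a = ((2 : ℝ) ^ g * ∑ x, a x ^ 2) * bd g k a +
        ((2 : ℝ) ^ g) ^ (2 * (k + 1) - 1) * ∑ x, a x ^ (2 * (k + 1)) := by
      unfold bd
      rw [if_neg (by omega)]
      unfold mbd
      rw [Finset.sum_Icc_succ_top (by omega : 1 ≤ k + 1), Nat.sub_self, pow_zero, one_mul]
      congr 1
      generalize (2 : ℝ) ^ g * ∑ x, a x ^ 2 = V
      rw [Finset.mul_sum]
      refine Finset.sum_congr rfl fun j hj => ?_
      rw [Finset.mem_Icc] at hj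
      have h2 : k + 1 - j = (k - j) + 1 := by omega
      rw [h2, pow_succ]
      ring
    rw [← h1]
    have := mbd_nonneg g (k + 1) a
    linarith

theorem main (hIND : SpecIND) (k : ℕ) : ∃ C : ℝ, 0 < C ∧
    ∀ (X : Type) [Fintype X] [DecidableEq X] (g : ℕ) (a : X → ℝ) (s : Finset X),
      EX g (fun ω : X → Fin (2 ^ g) => (∑ x ∈ s, a x * zt g (ω x)) ^ (2 * k)) ≤ C * bd g k a := by
  induction k with
  | zero =>
    refine ⟨1, one_pos, fun X _ _ g a s => ?_⟩
    unfold bd EX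
    rw [if_pos rfl]
    simp only [mul_zero, pow_zero, Finset.sum_const, nsmul_eq_mul, mul_one, Finset.card_univ]
    exact div_self_le_one _
  | succ k ih =>
    obtain ⟨C, hC, hCk⟩ := ih
    refine ⟨2 ^ (2 * k + 2) * (2 * (C + 1)) * 2, by positivity, fun X _ _ g a s => ?_⟩
    obtain ⟨hI1, hI2, hI3, hI4⟩ := hIND X g
    set N : ℝ := (2 : ℝ) ^ g with hN
    set M : ℝ := C * bd g k a with hM
    have hM0 : 0 ≤ M := mul_nonneg hC.le (bd_nonneg g k a)
    -- the induction over the set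
    have key : ∀ s : Finset X,
        EX g (fun ω : X → Fin (2 ^ g) => (∑ x ∈ s, a x * zt g (ω x)) ^ (2 * k + 2)) ≤
        ∑ x ∈ s, 2 ^ (2 * k + 2) * (a x ^ 2 * (2 * N) * M +
          a x ^ (2 * (k + 1)) * (2 * N ^ (2 * (k + 1) - 1))) := by
      intro s
      induction s using Finset.induction_on with
      | empty =>
        unfold EX
        simp
      | insert x s hx ihs =>
        rw [Finset.sum_insert hx]
        have hdep1 : ∀ (φ : Fin (2 ^ g) → ℝ),
            DepOn ({x} : Set X) (fun ω : X → Fin (2 ^ g) => φ (ω x)) := by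
          intro φ ω ω' h
          show φ (ω x) = φ (ω' x)
          rw [h x (Set.mem_singleton x)]
        have hdep2 : ∀ m : ℕ, DepOn (({x} : Set X)ᶜ)
            (fun ω : X → Fin (2 ^ g) => (∑ y ∈ s, a y * zt g (ω y)) ^ m) := by
          intro m ω ω' h
          show (∑ y ∈ s, a y * zt g (ω y)) ^ m = (∑ y ∈ s, a y * zt g (ω' y)) ^ m
          congr 1
          refine Finset.sum_congr rfl fun y hy => ?_
          rw [h y (fun h1 => hx (by
            rw [Set.mem_singleton_iff] at h1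
            rwa [h1] at hy))]
        have h1 : EX g (fun ω : X → Fin (2 ^ g) =>
            (∑ y ∈ insert x s, a y * zt g (ω y)) ^ (2 * k + 2)) ≤
            EX g (fun ω : X → Fin (2 ^ g) => (∑ y ∈ s, a y * zt g (ω y)) ^ (2 * k + 2)) +
            ((2 * k + 2 : ℕ) : ℝ) * (a x * EX g (fun ω : X → Fin (2 ^ g) =>
              zt g (ω x) * (∑ y ∈ s, a y * zt g (ω y)) ^ (2 * k + 1))) +
            2 ^ (2 * k + 2) * (a x ^ 2 * EX g (fun ω : X → Fin (2 ^ g) =>
              zt g (ω x) ^ 2 * (∑ y ∈ s, a y * zt g (ω y)) ^ (2 * k)) +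
              a x ^ (2 * k + 2) * EX g (fun ω : X → Fin (2 ^ g) => zt g (ω x) ^ (2 * k + 2))) := by
          rw [← EX_const_mul, ← EX_const_mul, ← EX_const_mul, ← EX_const_mul, ← EX_add,
            ← EX_add, ← EX_const_mul, ← EX_add]
          refine EX_mono fun ω => ?_
          rw [Finset.sum_insert hx]
          have h2 := pt k (∑ y ∈ s, a y * zt g (ω y)) (a x * zt g (ω x))
          rw [add_comm (∑ y ∈ s, a y * zt g (ω y)) (a x * zt g (ω x))] at h2
          refine h2.trans (le_of_eq ?_)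
          rw [mul_pow, mul_pow]
          ring
        have h2 : EX g (fun ω : X → Fin (2 ^ g) =>
            zt g (ω x) * (∑ y ∈ s, a y * zt g (ω y)) ^ (2 * k + 1)) = 0 := by
          rw [hI1 _ _ _ (hdep1 (zt g)) (hdep2 (2 * k + 1)), hI2 x (zt g), hI3, zero_div, zero_mul]
        have h3 : EX g (fun ω : X → Fin (2 ^ g) =>
            zt g (ω x) ^ 2 * (∑ y ∈ s, a y * zt g (ω y)) ^ (2 * k)) ≤ 2 * N * M := by
          rw [hI1 _ _ _ (hdep1 (fun t => zt g t ^ 2)) (hdep2 (2 * k)),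
            hI2 x (fun t => zt g t ^ 2)]
          have h4 := hI4 1 le_rfl
          rw [mul_one] at h4
          have h5 : 2 - 1 = 1 := rfl
          rw [h5, pow_one] at h4
          refine mul_le_mul h4 (hCk X g a s) ?_ (by positivity)
          refine EX_nonneg fun ω => ?_
          rw [pow_mul]
          positivity
        have h4 : EX g (fun ω : X → Fin (2 ^ g) => zt g (ω x) ^ (2 * k + 2)) ≤
            2 * N ^ (2 * (k + 1) - 1) := by
          rw [hI2 x (fun t => zt g t ^ (2 * k + 2))]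
          exact hI4 (k + 1) (by omega)
        have h5 : 0 ≤ a x ^ 2 := sq_nonneg _
        have h6 : 0 ≤ a x ^ (2 * k + 2) := by
          have h9 : 2 * k + 2 = 2 * (k + 1) := by ring
          rw [h9, pow_mul]
          positivity
        have h7 := mul_le_mul_of_nonneg_left h3 h5
        have h8 := mul_le_mul_of_nonneg_left h4 h6
        rw [h2, mul_zero, mul_zero, add_zero] at h1
        have h9 : (0 : ℝ) < 2 ^ (2 * k + 2) := by positivity
        have h10 := mul_le_mul_of_nonneg_left (add_le_add h7 h8) h9.le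
        have h11 : a x ^ (2 * (k + 1)) = a x ^ (2 * k + 2) := by
          congr 1
        rw [h11]
        calc _ ≤ _ := h1
          _ ≤ _ := add_le_add ihs h10
          _ = _ := by ring
    have h1 := key s
    have h2 : 2 * (k + 1) = 2 * k + 2 := by ring
    rw [h2]
    refine h1.trans ?_
    have h3 : ∀ x, 0 ≤ 2 ^ (2 * k + 2) * (a x ^ 2 * (2 * N) * M +
          a x ^ (2 * (k + 1)) * (2 * N ^ (2 * (k + 1) - 1))) := by
      intro x
      have h6 : 0 ≤ a x ^ (2 * (k + 1)) := by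
        rw [pow_mul]
        positivity
      positivity
    refine (Finset.sum_le_sum_of_subset_of_nonneg (Finset.subset_univ s)
      fun x _ _ => h3 x).trans ?_
    have h4 : ∑ x, 2 ^ (2 * k + 2) * (a x ^ 2 * (2 * N) * M +
          a x ^ (2 * (k + 1)) * (2 * N ^ (2 * (k + 1) - 1))) =
        2 ^ (2 * k + 2) * (2 * ((N * ∑ x, a x ^ 2) * M +
          N ^ (2 * (k + 1) - 1) * ∑ x, a x ^ (2 * (k + 1)))) := by
      rw [← Finset.mul_sum, Finset.sum_add_distrib, ← Finset.sum_mul, ← Finset.sum_mul,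
        ← Finset.sum_mul]
      ring
    rw [h4]
    have h5 : bd g (k + 1) a = mbd g (k + 1) a := by
      unfold bd
      rw [if_neg (by omega)]
    rw [h5]
    have h6 := bd_succ g k a
    have hV : 0 ≤ N * ∑ x, a x ^ 2 := by
      have : 0 ≤ ∑ x, a x ^ 2 := Finset.sum_nonneg fun x _ => sq_nonneg _
      positivity
    have hW := W_nonneg g (k + 1) a
    have hb := bd_nonneg g k a
    have h7 : (N * ∑ x, a x ^ 2) * M + N ^ (2 * (k + 1) - 1) * ∑ x, a x ^ (2 * (k + 1)) ≤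
        (C + 1) * (2 * mbd g (k + 1) a) := by
      calc (N * ∑ x, a x ^ 2) * M + N ^ (2 * (k + 1) - 1) * ∑ x, a x ^ (2 * (k + 1))
          ≤ (C + 1) * ((N * ∑ x, a x ^ 2) * bd g k a +
            N ^ (2 * (k + 1) - 1) * ∑ x, a x ^ (2 * (k + 1))) := by
            rw [hM]
            have h8 : 0 ≤ (N * ∑ x, a x ^ 2) * bd g k a := mul_nonneg hV hb
            nlinarith
        _ ≤ _ := mul_le_mul_of_nonneg_left h6 (by linarith)
    calc 2 ^ (2 * k + 2) * (2 * ((N * ∑ x, a x ^ 2) * M +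
          N ^ (2 * (k + 1) - 1) * ∑ x, a x ^ (2 * (k + 1))))
        ≤ 2 ^ (2 * k + 2) * (2 * ((C + 1) * (2 * mbd g (k + 1) a))) := by gcongr
      _ = _ := by ring

end MOMM

theorem specMOM (hIND : SpecIND) : SpecMOM := by
  intro k hk
  obtain ⟨C, hC, h⟩ := MOMM.main hIND k
  refine ⟨C, hC, fun X _ _ g a => ?_⟩
  have h1 := h X g a Finset.univ
  unfold MOMM.bd at h1
  rw [if_neg (by omega)] at h1
  exact h1

end Pool.Agent.MP_bc5265.R2
end

section
/-!
# Region `R_2`, block B: module MTP (martingale type `p`, tensor form)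
-/
set_option linter.unusedSectionVars false

open MeasureTheory Finset Matrix
open scoped ENNReal

namespace Pool.Agent.MP_bc5265.R2

open Pool.Agent.MP_bc5265.S

namespace MTPM

variable {d L : ℕ}

/-- the matrix `A` in the coordinate `j₀` -/
noncomputable def one (j₀ : Fin d) (A : M1 L) : MG d L := tens fun j => if j = j₀ then A else 1

theorem one_mul_one' (hTEN : SpecTEN) (j₀ : Fin d) (A B : M1 L) :
    (one j₀ A * one j₀ B : MG d L) = one j₀ (A * B) := by
  unfold one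
  rw [(hTEN d L).1]
  congr 1
  funext j
  split_ifs
  · rfl
  · rw [one_mul]

theorem one_mul_tens (hTEN : SpecTEN) (j₀ : Fin d) (A : M1 L) (B : Fin d → M1 L)
    (h : A * B j₀ = B j₀) : (one j₀ A * tens B : MG d L) = tens B := by
  unfold one
  rw [(hTEN d L).1]
  congr 1
  funext j
  split_ifs with hj
  · subst hj
    exact h
  · rw [one_mul]

theorem one_zero (hTEN : SpecTEN) (j₀ : Fin d) : (one j₀ (0 : M1 L) : MG d L) = 0 :=
  (hTEN d L).2.2.2.1 _ j₀ (if_pos rfl)

theorem rows (j₀ : Fin d) (k : ℕ) (x y : Gr d L) (h : one j₀ (EM L k) x y ≠ 0) (z : Gr d L) :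
    one j₀ (EM L k) x z = one j₀ (EM L k) y z := by
  unfold one tens at *
  rw [Finset.prod_ne_zero_iff] at h
  refine Finset.prod_congr rfl fun j _ => ?_
  have h1 := h j (Finset.mem_univ j)
  by_cases hj : j = j₀
  · subst hj
    simp only [if_true] at h1 ⊢
    cases k with
    | zero => exact absurd rfl h1
    | succ k =>
      have h2 : (x j : ℕ) / 2 ^ (L - k) = (y j : ℕ) / 2 ^ (L - k) := by
        by_contra h3
        apply h1
        exact if_neg h3
      show (if (x j : ℕ) / 2 ^ (L - k) = (z j : ℕ) / 2 ^ (L - k) then 1 / (2 : ℝ) ^ (L - k)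
        else 0) = if (y j : ℕ) / 2 ^ (L - k) = (z j : ℕ) / 2 ^ (L - k) then 1 / (2 : ℝ) ^ (L - k)
        else 0
      rw [h2]
  · simp only [if_neg hj] at h1 ⊢
    have h2 : x j = y j := by
      by_contra h3
      exact h1 (Matrix.one_apply_ne h3)
    rw [h2]

theorem one_symm (hOPS : SpecOPS) (j₀ : Fin d) (k : ℕ) (x y : Gr d L) :
    one j₀ (EM L k) x y = one j₀ (EM L k) y x := by
  unfold one tens
  refine Finset.prod_congr rfl fun j _ => ?_
  by_cases hj : j = j₀
  · simp only [hj, if_true]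
    exact ((hOPS L).2.2.2.2.1 k (x j₀) (y j₀)).2
  · simp only [if_neg hj]
    by_cases h : x j = y j
    · rw [h]
    · rw [Matrix.one_apply_ne h, Matrix.one_apply_ne (Ne.symm h)]

theorem inv_phi (E : MG d L) (hE : ∀ x y, E x y ≠ 0 → ∀ z, E x z = E y z) (S : Gr d L → ℝ)
    (hS : E *ᵥ S = S) (F : ℝ → ℝ) (hF : F 0 = 0) :
    E *ᵥ (fun x => F (S x)) = fun x => F (S x) := by
  have hval : ∀ x, S x = ∑ y, E x y * S y := fun x => (congrFun hS x).symm
  have hSxy : ∀ x y, E x y ≠ 0 → S y = S x := by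
    intro x y h
    rw [hval y, hval x]
    exact Finset.sum_congr rfl fun z _ => by rw [hE x y h z]
  have hgen : ∀ (f : ℝ → ℝ) (x : Gr d L), ∑ y, E x y * f (S y) = (∑ y, E x y) * f (S x) := by
    intro f x
    rw [Finset.sum_mul]
    refine Finset.sum_congr rfl fun y _ => ?_
    by_cases h : E x y = 0
    · rw [h, zero_mul, zero_mul]
    · rw [hSxy x y h]
  funext x
  show ∑ y, E x y * F (S y) = F (S x)
  rw [hgen F x]
  by_cases h0 : S x = 0
  · rw [h0, hF, mul_zero]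
  · have h1 : S x = (∑ y, E x y) * S x := (hval x).trans (hgen (fun t => t) x)
    have h2 : ∑ y, E x y = 1 := by
      have h3 : (∑ y, E x y - 1) * S x = 0 := by
        rw [sub_mul, one_mul, ← h1, sub_self]
      rcases mul_eq_zero.1 h3 with h4 | h4
      · linarith
      · exact absurd h4 h0
    rw [h2, one_mul]

theorem orth (E : MG d L) (hE : ∀ x y, E x y = E y x) (φ V : Gr d L → ℝ) (hφ : E *ᵥ φ = φ)
    (hV : E *ᵥ V = 0) : ∑ x, φ x * V x = 0 := by
  have h1 : ∀ x, φ x = ∑ y, E x y * φ y := fun x => (congrFun hφ x).symm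
  have h2 : ∀ y, ∑ x, E y x * V x = 0 := fun y => congrFun hV y
  calc ∑ x, φ x * V x = ∑ x, ∑ y, E x y * φ y * V x := by
        refine Finset.sum_congr rfl fun x _ => ?_
        rw [← Finset.sum_mul, ← h1]
    _ = ∑ y, φ y * ∑ x, E y x * V x := by
        rw [Finset.sum_comm]
        refine Finset.sum_congr rfl fun y _ => ?_
        rw [Finset.mul_sum]
        refine Finset.sum_congr rfl fun x _ => ?_
        rw [hE x y]
        ring
    _ = 0 := Finset.sum_eq_zero fun y _ => by rw [h2, mul_zero]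

theorem mom_zero {p : ℝ} (hp : 1 ≤ p) : mom p (0 : Gr d L → ℝ) = 0 := by
  unfold mom
  have h1 : ∀ x : Gr d L, |(0 : Gr d L → ℝ) x| ^ p = 0 := by
    intro x
    rw [Pi.zero_apply, abs_zero, Real.zero_rpow (by linarith)]
  rw [Finset.sum_congr rfl fun x _ => h1 x, Finset.sum_const_zero, zero_div]

/-- the inequality in one coordinate -/
theorem coord (hTEN : SpecTEN) (hOPS : SpecOPS) (hPTI : SpecPTI) (j₀ : Fin d) {p : ℝ}
    (hp1 : 1 ≤ p) (hp2 : p ≤ 2) {lev : ℕ → ℕ} (hlev : Monotone lev) (V : ℕ → Gr d L → ℝ) (n : ℕ)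
    (hV : ∀ i < n, one j₀ (EM L (lev (i + 1)) - EM L (lev i)) *ᵥ V i = V i) :
    mom p (∑ i ∈ range n, V i) ≤ 2 * ∑ i ∈ range n, mom p (V i) := by
  induction n with
  | zero => rw [Finset.range_zero, Finset.sum_empty, Finset.sum_empty, mom_zero hp1, mul_zero]
  | succ n ih =>
    have ih' := ih (fun i hi => hV i (by omega))
    rw [Finset.sum_range_succ, Finset.sum_range_succ]
    set S : Gr d L → ℝ := ∑ i ∈ range n, V i with hS
    set E : MG d L := one j₀ (EM L (lev n)) with hE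
    have hES : E *ᵥ S = S := by
      rw [hS, Matrix.mulVec_sum]
      refine Finset.sum_congr rfl fun i hi => ?_
      rw [Finset.mem_range] at hi
      have h1 := hV i (by omega)
      have h2 : E * one j₀ (EM L (lev (i + 1)) - EM L (lev i)) =
          one j₀ (EM L (lev (i + 1)) - EM L (lev i)) := by
        rw [hE, one_mul_one' hTEN]
        congr 1
        rw [mul_sub, (hOPS L).1, (hOPS L).1, min_eq_right (hlev (by omega : i + 1 ≤ n)),
          min_eq_right (hlev (by omega : i ≤ n))]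
      rw [← h1, Matrix.mulVec_mulVec, h2]
    have hEV : E *ᵥ V n = 0 := by
      have h1 := hV n (by omega)
      have h2 : E * one j₀ (EM L (lev (n + 1)) - EM L (lev n)) = 0 := by
        rw [hE, one_mul_one' hTEN, mul_sub, (hOPS L).1, (hOPS L).1, min_self,
          min_eq_left (hlev (by omega : n ≤ n + 1)), sub_self, one_zero hTEN]
      rw [← h1, Matrix.mulVec_mulVec, h2, Matrix.zero_mulVec]
    have hφ := inv_phi E (fun x y h z => rows j₀ (lev n) x y h z) S hES
      (fun t => (SignType.sign t : ℝ) * |t| ^ (p - 1)) (by simp)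
    have horth := orth E (one_symm hOPS j₀ (lev n)) _ _ hφ hEV
    have h3 : mom p (S + V n) ≤ mom p S + 2 * mom p (V n) := by
      unfold mom
      rw [← mul_div_assoc, ← add_div]
      refine div_le_div_of_nonneg_right ?_ (Nat.cast_nonneg _)
      have h4 : ∀ x, |(S + V n) x| ^ p ≤ |S x| ^ p +
          p * ((SignType.sign (S x) : ℝ) * |S x| ^ (p - 1) * V n x) + 2 * |V n x| ^ p := by
        intro x
        have h5 := hPTI p (S x) (V n x) hp1 hp2
        rw [mul_assoc p] at h5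
        exact h5
      calc ∑ x, |(S + V n) x| ^ p ≤ ∑ x, (|S x| ^ p +
          p * ((SignType.sign (S x) : ℝ) * |S x| ^ (p - 1) * V n x) + 2 * |V n x| ^ p) :=
            Finset.sum_le_sum fun x _ => h4 x
        _ = ∑ x, |S x| ^ p + p * ∑ x, ((SignType.sign (S x) : ℝ) * |S x| ^ (p - 1) * V n x) +
            2 * ∑ x, |V n x| ^ p := by
            rw [Finset.sum_add_distrib, Finset.sum_add_distrib, ← Finset.mul_sum,
              ← Finset.mul_sum]
        _ = ∑ x, |S x| ^ p + 2 * ∑ x, |V n x| ^ p := by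
            rw [horth, mul_zero, add_zero]
    linarith

/-- the part of the box with given values outside `J` -/
noncomputable def Bx (m : ℕ) (J : Finset (Fin d)) (κ₀ : Fin d → ℕ) : Finset (Fin d → ℕ) :=
  (box d m).filter fun κ => ∀ j, j ∉ J → κ j = κ₀ j

theorem mem_Bx {m : ℕ} {J : Finset (Fin d)} {κ₀ κ : Fin d → ℕ} :
    κ ∈ Bx m J κ₀ ↔ κ ∈ box d m ∧ ∀ j, j ∉ J → κ j = κ₀ j := Finset.mem_filter

theorem sum_Bx {M : Type*} [AddCommMonoid M] (m : ℕ) (J : Finset (Fin d)) (j₀ : Fin d)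
    (hj : j₀ ∉ J) (κ₀ : Fin d → ℕ) (f : (Fin d → ℕ) → M) :
    ∑ κ ∈ Bx m (insert j₀ J) κ₀, f κ =
      ∑ i ∈ range m, ∑ κ ∈ Bx m J (Function.update κ₀ j₀ i), f κ := by
  rw [← Finset.sum_fiberwise_of_maps_to (s := Bx m (insert j₀ J) κ₀) (t := range m)
    (g := fun κ => κ j₀)]
  · refine Finset.sum_congr rfl fun i _ => Finset.sum_congr ?_ fun _ _ => rfl
    ext κ
    rw [Finset.mem_filter, mem_Bx, mem_Bx]
    constructor
    · rintro ⟨⟨h1, h2⟩, h3⟩
      refine ⟨h1, fun j hj' => ?_⟩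
      by_cases hjj : j = j₀
      · subst hjj
        rw [Function.update_self]
        exact h3
      · rw [Function.update_of_ne hjj]
        exact h2 j (fun h4 => by
          rcases Finset.mem_insert.1 h4 with h5 | h5
          · exact hjj h5
          · exact hj' h5)
    · rintro ⟨h1, h2⟩
      refine ⟨⟨h1, fun j hj' => ?_⟩, ?_⟩
      · have hjj : j ≠ j₀ := fun h => hj' (Finset.mem_insert.2 (Or.inl h))
        have h3 := h2 j (fun h => hj' (Finset.mem_insert.2 (Or.inr h)))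
        rwa [Function.update_of_ne hjj] at h3
      · have h3 := h2 j₀ hj
        rwa [Function.update_self] at h3
  · intro κ hκ
    have h1 := (mem_Bx.1 hκ).1
    unfold box at h1
    rw [Fintype.mem_piFinset] at h1
    exact h1 j₀

theorem main (hTEN : SpecTEN) (hOPS : SpecOPS) (hPTI : SpecPTI) {p : ℝ}
    (hp1 : 1 ≤ p) (hp2 : p ≤ 2) {lev : ℕ → ℕ} (hlev : Monotone lev) (m : ℕ)
    (U : (Fin d → ℕ) → Gr d L → ℝ)
    (hU : ∀ κ ∈ box d m, ∀ j,
      one j (EM L (lev (κ j + 1)) - EM L (lev (κ j))) *ᵥ U κ = U κ) (J : Finset (Fin d)) :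
    ∀ κ₀ : Fin d → ℕ, mom p (∑ κ ∈ Bx m J κ₀, U κ) ≤
      2 ^ J.card * ∑ κ ∈ Bx m J κ₀, mom p (U κ) := by
  induction J using Finset.induction_on with
  | empty =>
    intro κ₀
    rw [Finset.card_empty, pow_zero, one_mul]
    by_cases h : κ₀ ∈ box d m
    · have h1 : Bx m ∅ κ₀ = {κ₀} := by
        ext κ
        rw [mem_Bx, Finset.mem_singleton]
        constructor
        · rintro ⟨-, h2⟩
          funext j
          exact h2 j (Finset.notMem_empty j)
        · rintro rfl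
          exact ⟨h, fun _ _ => rfl⟩
      rw [h1, Finset.sum_singleton, Finset.sum_singleton]
    · have h1 : Bx m ∅ κ₀ = ∅ := by
        rw [Finset.eq_empty_iff_forall_notMem]
        intro κ hκ
        rw [mem_Bx] at hκ
        apply h
        have h2 : κ = κ₀ := funext fun j => hκ.2 j (Finset.notMem_empty j)
        rw [← h2]
        exact hκ.1
      rw [h1, Finset.sum_empty, Finset.sum_empty, mom_zero hp1]
  | insert j₀ J hj ih =>
    intro κ₀
    rw [sum_Bx m J j₀ hj, sum_Bx m J j₀ hj, Finset.card_insert_of_notMem hj]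
    have h1 := coord hTEN hOPS hPTI j₀ hp1 hp2 hlev
      (fun i => ∑ κ ∈ Bx m J (Function.update κ₀ j₀ i), U κ) m (by
        intro i _
        show _ *ᵥ (∑ κ ∈ Bx m J (Function.update κ₀ j₀ i), U κ) = _
        rw [Matrix.mulVec_sum]
        refine Finset.sum_congr rfl fun κ hκ => ?_
        rw [mem_Bx] at hκ
        have h2 := hκ.2 j₀ hj
        rw [Function.update_self] at h2
        have h3 := hU κ hκ.1 j₀
        rw [h2] at h3
        exact h3)
    refine h1.trans ?_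
    have h3 : (2 : ℝ) ^ (J.card + 1) * ∑ i ∈ range m,
        ∑ κ ∈ Bx m J (Function.update κ₀ j₀ i), mom p (U κ) =
        2 * ∑ i ∈ range m, 2 ^ J.card * ∑ κ ∈ Bx m J (Function.update κ₀ j₀ i), mom p (U κ) := by
      rw [Finset.mul_sum, Finset.mul_sum]
      exact Finset.sum_congr rfl fun i _ => by ring
    rw [h3]
    have h2 : ∑ i ∈ range m, mom p (∑ κ ∈ Bx m J (Function.update κ₀ j₀ i), U κ) ≤
        ∑ i ∈ range m, 2 ^ J.card * ∑ κ ∈ Bx m J (Function.update κ₀ j₀ i), mom p (U κ) :=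
      Finset.sum_le_sum fun i _ => ih _
    linarith

end MTPM

theorem specMTP (hTEN : SpecTEN) (hOPS : SpecOPS) (hPTI : SpecPTI) : SpecMTP := by
  intro d L m p lev U hp1 hp2 hlev hU
  have hPP : ∀ i, (EM L (lev (i + 1)) - EM L (lev i)) * (EM L (lev (i + 1)) - EM L (lev i)) =
      EM L (lev (i + 1)) - EM L (lev i) := by
    intro i
    have h1 : lev i ≤ lev (i + 1) := hlev (by omega)
    rw [mul_sub, sub_mul, sub_mul, (hOPS L).1, (hOPS L).1, (hOPS L).1, (hOPS L).1, min_self,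
      min_self, min_eq_left h1, min_eq_right h1, sub_self, sub_zero]
  have h := MTPM.main hTEN hOPS hPTI hp1 hp2 hlev m U (by
    intro κ hκ j
    have h1 := hU κ hκ
    have h2 := MTPM.one_mul_tens hTEN j (EM L (lev (κ j + 1)) - EM L (lev (κ j)))
      (fun j => EM L (lev (κ j + 1)) - EM L (lev (κ j))) (hPP (κ j))
    conv_lhs => rw [← h1]
    rw [Matrix.mulVec_mulVec, h2, h1]) Finset.univ (fun _ => 0)
  have h1 : MTPM.Bx m Finset.univ (fun _ : Fin d => 0) = box d m := by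
    ext κ
    rw [MTPM.mem_Bx]
    exact ⟨fun h => h.1, fun h => ⟨h, fun j hj => absurd (Finset.mem_univ j) hj⟩⟩
  rw [h1, Finset.card_univ, Fintype.card_fin] at h
  exact h

end Pool.Agent.MP_bc5265.R2
end

section
/-! Region `R_2`, module NRM: normalised `ℓ_p` norms. -/
set_option autoImplicit false

open MeasureTheory Finset Matrix
open scoped ENNReal

namespace Pool.Agent.MP_bc5265.R2

open Pool.Agent.MP_bc5265.S

namespace NRMM

variable {X : Type} [Fintype X]

theorem mom_nonneg (p : ℝ) (g : X → ℝ) : 0 ≤ mom p g :=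
  div_nonneg (sum_nonneg fun x _ => Real.rpow_nonneg (abs_nonneg _) _) (Nat.cast_nonneg _)

theorem nrm_nonneg (p : ℝ) (g : X → ℝ) : 0 ≤ nrm p g := Real.rpow_nonneg (mom_nonneg p g) _

theorem nrm_pow {p : ℝ} (hp : 1 ≤ p) (g : X → ℝ) : nrm p g ^ p = mom p g := by
  rw [nrm, ← Real.rpow_mul (mom_nonneg p g), one_div_mul_cancel (by linarith), Real.rpow_one]

theorem nrm_smul {p : ℝ} (hp : 1 ≤ p) (c : ℝ) (g : X → ℝ) : nrm p (c • g) = |c| * nrm p g := by
  have h1 : mom p (c • g) = |c| ^ p * mom p g := by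
    unfold mom
    rw [← mul_div_assoc, mul_sum]
    congr 1
    refine sum_congr rfl fun x _ => ?_
    rw [Pi.smul_apply, smul_eq_mul, abs_mul, Real.mul_rpow (abs_nonneg _) (abs_nonneg _)]
  rw [nrm, nrm, h1, Real.mul_rpow (Real.rpow_nonneg (abs_nonneg _) _) (mom_nonneg p g),
    ← Real.rpow_mul (abs_nonneg _), mul_one_div_cancel (by linarith), Real.rpow_one]

theorem nrm_eq (p : ℝ) (g : X → ℝ) :
    nrm p g = (∑ x, |g x| ^ p) ^ (1 / p) / (Fintype.card X : ℝ) ^ (1 / p) := by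
  rw [nrm, mom, Real.div_rpow (sum_nonneg fun x _ => Real.rpow_nonneg (abs_nonneg _) _)
    (Nat.cast_nonneg _)]

theorem nrm_add {p : ℝ} (hp : 1 ≤ p) (g h : X → ℝ) : nrm p (g + h) ≤ nrm p g + nrm p h := by
  rw [nrm_eq, nrm_eq, nrm_eq, ← add_div]
  refine div_le_div_of_nonneg_right ?_ (Real.rpow_nonneg (Nat.cast_nonneg _) _)
  exact Real.Lp_add_le univ g h hp

theorem nrm_mono {p : ℝ} (hp : 1 ≤ p) (g h : X → ℝ) (hgh : ∀ x, |g x| ≤ |h x|) :
    nrm p g ≤ nrm p h := by
  refine Real.rpow_le_rpow (mom_nonneg p g) ?_ (by positivity)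
  refine div_le_div_of_nonneg_right ?_ (Nat.cast_nonneg _)
  exact sum_le_sum fun x _ => Real.rpow_le_rpow (abs_nonneg _) (hgh x) (by linarith)

theorem nrm_zero {p : ℝ} (hp : 1 ≤ p) : nrm p (0 : X → ℝ) = 0 := by
  have := nrm_smul hp 0 (0 : X → ℝ)
  rwa [zero_smul, abs_zero, zero_mul] at this

theorem nrm_sum {p : ℝ} (hp : 1 ≤ p) (β : Type) (s : Finset β) (g : β → X → ℝ) :
    nrm p (∑ i ∈ s, g i) ≤ ∑ i ∈ s, nrm p (g i) := by
  classical
  induction s using Finset.induction_on with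
  | empty => rw [sum_empty, sum_empty, nrm_zero hp]
  | insert a s ha ih =>
    rw [sum_insert ha, sum_insert ha]
    exact (nrm_add hp _ _).trans (add_le_add le_rfl ih)

theorem nrm_le [Nonempty X] {p : ℝ} (hp : 1 ≤ p) (g : X → ℝ) (M : ℝ) (hM : 0 ≤ M)
    (h : ∀ x, |g x| ≤ M) : nrm p g ≤ M := by
  have hc : (0 : ℝ) < Fintype.card X := Nat.cast_pos.2 Fintype.card_pos
  have h1 : mom p g ≤ M ^ p := by
    rw [mom, div_le_iff₀ hc]
    refine (sum_le_sum fun x _ => Real.rpow_le_rpow (abs_nonneg _) (h x) (by linarith)).trans ?_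
    rw [sum_const, card_univ, nsmul_eq_mul, mul_comm]
  refine (Real.rpow_le_rpow (mom_nonneg p g) h1 (by positivity)).trans ?_
  rw [← Real.rpow_mul hM, mul_one_div_cancel (by linarith), Real.rpow_one]

theorem nrm_mono_exp [Nonempty X] {p : ℝ} (hp : 1 ≤ p) (q : ℝ) (g : X → ℝ) (hq : 1 ≤ q)
    (hqp : q ≤ p) : nrm q g ≤ nrm p g := by
  have hc : (0 : ℝ) < Fintype.card X := Nat.cast_pos.2 Fintype.card_pos
  have h1 := Real.rpow_arith_mean_le_arith_mean_rpow (univ : Finset X)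
    (fun _ => 1 / (Fintype.card X : ℝ)) (fun x => |g x| ^ q) (fun x _ => by positivity)
    (by rw [sum_const, card_univ, nsmul_eq_mul]; field_simp)
    (fun x _ => Real.rpow_nonneg (abs_nonneg _) _) (p := p / q)
    (by rw [le_div_iff₀ (by linarith)]; linarith)
  have h2 : mom q g ^ (p / q) ≤ mom p g := by
    have e1 : ∑ x, 1 / (Fintype.card X : ℝ) * |g x| ^ q = mom q g := by
      rw [mom, sum_div]
      exact sum_congr rfl fun x _ => by ring
    have e2 : ∑ x, 1 / (Fintype.card X : ℝ) * (|g x| ^ q) ^ (p / q) = mom p g := by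
      rw [mom, sum_div]
      refine sum_congr rfl fun x _ => ?_
      rw [← Real.rpow_mul (abs_nonneg _), mul_div_cancel₀ _ (by linarith)]
      ring
    rwa [e1, e2] at h1
  have h3 : nrm q g = (mom q g ^ (p / q)) ^ (1 / p) := by
    rw [nrm, ← Real.rpow_mul (mom_nonneg q g)]
    congr 1
    field_simp
  rw [h3]
  exact Real.rpow_le_rpow (Real.rpow_nonneg (mom_nonneg q g) _) h2 (by positivity)

end NRMM

open NRMM in
theorem specNRM : SpecNRM := by
  intro X _ _ p hp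
  exact ⟨mom_nonneg p, nrm_nonneg p, nrm_pow hp, nrm_smul hp, nrm_add hp, nrm_sum hp, nrm_mono hp,
    nrm_le hp, nrm_mono_exp hp⟩

end Pool.Agent.MP_bc5265.R2
end

section
/-!
# OPB: operator bounds for good selections
-/
open MeasureTheory Finset Matrix
open scoped ENNReal

namespace Pool.Agent.MP_bc5265.R2

open Pool.Agent.MP_bc5265.S

namespace OPBM

variable {d H : ℕ}

/-- the index of the cell of levels `b` -/
def ci (b : Fin d → ℕ) (y : Gr d H) : Fin d → ℕ := fun j => (y j : ℕ) / 2 ^ (H - b j)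

/-- the box of the indices -/
def bx (b : Fin d → ℕ) : Finset (Fin d → ℕ) := Fintype.piFinset fun j : Fin d => range (2 ^ b j)

lemma ci_mem (b : Fin d → ℕ) (hb : ∀ j, b j ≤ H) (y : Gr d H) : ci b y ∈ bx b := by
  unfold bx
  rw [Fintype.mem_piFinset]
  intro j
  rw [mem_range]
  show (y j : ℕ) / 2 ^ (H - b j) < 2 ^ b j
  rw [Nat.div_lt_iff_lt_mul (by positivity), ← pow_add]
  have := hb j
  rw [show b j + (H - b j) = H by omega]
  exact (y j).2

lemma card_axis (H b c : ℕ) (hb : b ≤ H) (hc : c < 2 ^ b) :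
    (univ.filter fun x : Fin (2 ^ H) => (x : ℕ) / 2 ^ (H - b) = c).card = 2 ^ (H - b) := by
  have hpos : 0 < 2 ^ (H - b) := by positivity
  have himg : (univ.filter fun x : Fin (2 ^ H) => (x : ℕ) / 2 ^ (H - b) = c).image
      (fun x : Fin (2 ^ H) => (x : ℕ)) = Finset.Ico (c * 2 ^ (H - b)) ((c + 1) * 2 ^ (H - b)) := by
    ext n
    simp only [mem_image, mem_filter, mem_univ, true_and, mem_Ico]
    constructor
    · rintro ⟨x, hx, rfl⟩
      rw [← hx]
      exact ⟨Nat.div_mul_le_self _ _, (Nat.div_lt_iff_lt_mul hpos).1 (Nat.lt_succ_self _)⟩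
    · rintro ⟨h1, h2⟩
      have h3 : n < 2 ^ H := by
        have h4 : (c + 1) * 2 ^ (H - b) ≤ 2 ^ b * 2 ^ (H - b) := Nat.mul_le_mul_right _ hc
        rw [← pow_add, show b + (H - b) = H by omega] at h4
        omega
      exact ⟨⟨n, h3⟩, Nat.div_eq_of_lt_le (by simpa using h1) (by simpa using h2), rfl⟩
  have hcard := congrArg Finset.card himg
  rw [Finset.card_image_of_injective _ Fin.val_injective, Nat.card_Ico] at hcard
  rw [hcard, ← Nat.sub_mul]
  simp

lemma card_ci (b c : Fin d → ℕ) (hb : ∀ j, b j ≤ H) (hc : c ∈ bx b) :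
    (univ.filter fun y : Gr d H => ci b y = c).card = ∏ j, 2 ^ (H - b j) := by
  unfold bx at hc
  rw [Fintype.mem_piFinset] at hc
  have h1 : (univ.filter fun y : Gr d H => ci b y = c) =
      Fintype.piFinset fun j => univ.filter fun t : Fin (2 ^ H) =>
        (t : ℕ) / 2 ^ (H - b j) = c j := by
    ext x
    simp only [Fintype.mem_piFinset, mem_filter, mem_univ, true_and]
    exact ⟨fun h j => congrFun h j, fun h => funext h⟩
  rw [h1, Fintype.card_piFinset]
  exact Finset.prod_congr rfl fun j _ => card_axis H (b j) (c j) (hb j) (mem_range.1 (hc j))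

lemma prod_pow (b : Fin d → ℕ) (hb : ∀ j, b j ≤ H) :
    (∏ j, (2 : ℝ) ^ (H - b j)) * 2 ^ (∑ j, b j) = 2 ^ (d * H) := by
  rw [← Finset.prod_pow_eq_pow_sum, ← Finset.prod_mul_distrib]
  have : ∀ j, (2 : ℝ) ^ (H - b j) * 2 ^ b j = 2 ^ H := by
    intro j
    rw [← pow_add]
    congr 1
    have := hb j
    omega
  simp only [this]
  rw [Finset.prod_const, Finset.card_univ, Fintype.card_fin, ← pow_mul, mul_comm]

lemma card_gr : (Fintype.card (Gr d H) : ℝ) = 2 ^ (d * H) := by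
  simp only [Gr, Fintype.card_pi, Fintype.card_fin, Finset.prod_const, Finset.card_univ]
  push_cast
  rw [← pow_mul, mul_comm]

lemma sum_ci (b : Fin d → ℕ) (hb : ∀ j, b j ≤ H) (V : (Fin d → ℕ) → ℝ) :
    (∑ c ∈ bx b, V c) / 2 ^ (∑ j, b j) = ∑ y : Gr d H, 1 / 2 ^ (d * H) * V (ci b y) := by
  have h1 : ∑ y : Gr d H, V (ci b y) = (∏ j, (2 : ℝ) ^ (H - b j)) * ∑ c ∈ bx b, V c := by
    rw [← Finset.sum_fiberwise_of_maps_to (s := univ) (t := bx b) (g := ci b)
      (fun y _ => ci_mem b hb y), Finset.mul_sum]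
    refine Finset.sum_congr rfl fun c hc => ?_
    rw [Finset.sum_congr rfl (g := fun _ => V c) fun y hy => by rw [(mem_filter.1 hy).2],
      Finset.sum_const, nsmul_eq_mul, card_ci b c hb hc]
    push_cast
    rfl
  rw [← Finset.mul_sum, h1, ← prod_pow b hb]
  have : (∏ j, (2 : ℝ) ^ (H - b j)) ≠ 0 := (Finset.prod_pos fun j _ => by positivity).ne'
  field_simp

lemma mom_ge (n : ℕ) (f : Gr d H → ℝ) :
    (∑ y : Gr d H, 1 / 2 ^ (d * H) * |f y|) ^ n ≤ mom (n : ℝ) f := by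
  have h1 := Real.pow_arith_mean_le_arith_mean_pow univ
    (fun _ : Gr d H => (1 : ℝ) / 2 ^ (d * H)) (fun y => |f y|) (fun _ _ => by positivity)
    (by
      rw [Finset.sum_const, Finset.card_univ, nsmul_eq_mul, card_gr]
      field_simp) (fun _ _ => abs_nonneg _) n
  refine h1.trans (le_of_eq ?_)
  unfold mom
  rw [card_gr, ← Finset.mul_sum, one_div, mul_comm, ← div_eq_mul_inv]
  congr 1
  exact Finset.sum_congr rfl fun y _ => by rw [Real.rpow_natCast]

lemma pb_ge (k' i0 : ℕ) (j : ℤ) (hk : 1 ≤ k') (hj : -(i0 : ℤ) ≤ j) :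
    (2 : ℝ) ^ (-((k' * i0 : ℕ) : ℝ)) ≤ pb k' j := by
  have hk' : (1 : ℝ) ≤ k' := by exact_mod_cast hk
  have hj' : -(i0 : ℝ) ≤ j := by exact_mod_cast hj
  unfold pb
  split_ifs with h
  · refine Real.rpow_le_rpow_of_exponent_le (by norm_num) ?_
    push_cast
    nlinarith
  · push Not at h
    have h' : (0 : ℝ) < j := by exact_mod_cast h
    refine Real.rpow_le_rpow_of_exponent_le (by norm_num) ?_
    push_cast
    have : (0 : ℝ) ≤ i0 := Nat.cast_nonneg _
    nlinarith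

lemma pb_pos (k' : ℕ) (j : ℤ) : 0 < pb k' j := by
  unfold pb
  split_ifs <;> positivity

lemma exists_U (b : Fin d → ℕ) (u : Gr d H → ℝ) (hu : CellC b u) :
    ∃ U : (Fin d → ℕ) → ℝ, u = fun y => U (ci b y) := by
  classical
  refine ⟨fun c => if h : ∃ y : Gr d H, ci b y = c then u h.choose else 0, ?_⟩
  funext y
  have h : ∃ y' : Gr d H, ci b y' = ci b y := ⟨y, rfl⟩
  show _ = dite _ _ _
  rw [dif_pos h]
  exact (hu _ _ fun j => congrFun h.choose_spec j).symm

lemma main (k' : ℕ) (hk : 1 ≤ k') (C : ℝ) (g h i0 : ℕ) (v b : Fin d → ℕ)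
    (ω : Gr d H → Fin (2 ^ g)) (hb : ∀ j, b j ≤ H)
    (hj : -(i0 : ℤ) ≤ ((∑ j, v j : ℕ) : ℤ) - ((h + i0 : ℕ) : ℤ))
    (hz : ∀ U : (Fin d → ℕ) → ℝ, (∀ ω : Gr d H → Fin (2 ^ g),
      mom (2 * k' : ℕ) (Tu g v ω fun y => U fun j => (y j : ℕ) / 2 ^ (H - b j)) =
        ∑ c ∈ Fintype.piFinset (fun _ : Fin (2 * k') =>
            Fintype.piFinset fun j : Fin d => range (2 ^ b j)),
          (∏ i, U (c i)) * Zc g k' v b c ω) ∧
      EX g (fun ω : Gr d H → Fin (2 ^ g) =>
        mom (2 * k' : ℕ) (Tu g v ω fun y => U fun j => (y j : ℕ) / 2 ^ (H - b j))) ≤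
        C * pb k' (((∑ j, v j : ℕ) : ℤ) - ((h + i0 : ℕ) : ℤ)) *
          mom (2 * k' : ℕ) (fun y : Gr d H => U fun j => (y j : ℕ) / 2 ^ (H - b j)))
    (hgood : ∀ c : Fin (2 * k') → Fin d → ℕ, (∀ i j, c i j < 2 ^ b j) →
      |Zc g k' v b c ω - EX g (fun ω' : Gr d H → Fin (2 ^ g) => Zc g k' v b c ω')| ≤
        (2 : ℝ) ^ (-((2 * k' * ∑ j, b j : ℕ) : ℝ)) * (2 : ℝ) ^ (-((k' * i0 : ℕ) : ℝ)))
    (u : Gr d H → ℝ) (hu : CellC b u) :
    mom (2 * k' : ℕ) (Tu g v ω u) ≤
      (C + 1) * pb k' (((∑ j, v j : ℕ) : ℤ) - ((h + i0 : ℕ) : ℤ)) * mom (2 * k' : ℕ) u := by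
  obtain ⟨U, rfl⟩ := exists_U b u hu
  obtain ⟨z1, z2⟩ := hz U
  set m : ℝ := mom (2 * k' : ℕ) (fun y : Gr d H => U (ci b y)) with hm
  set lam : ℝ := (2 : ℝ) ^ (-((2 * k' * ∑ j, b j : ℕ) : ℝ)) * (2 : ℝ) ^ (-((k' * i0 : ℕ) : ℝ))
    with hlam
  set BX := Fintype.piFinset (fun _ : Fin (2 * k') =>
            Fintype.piFinset fun j : Fin d => range (2 ^ b j)) with hBX
  have hEX : EX g (fun ω : Gr d H → Fin (2 ^ g) =>
        mom (2 * k' : ℕ) (Tu g v ω fun y => U fun j => (y j : ℕ) / 2 ^ (H - b j))) =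
      ∑ c ∈ BX, (∏ i, U (c i)) * EX g (fun ω' : Gr d H → Fin (2 ^ g) => Zc g k' v b c ω') := by
    unfold EX
    simp only [z1]
    rw [Finset.sum_comm, Finset.sum_div]
    refine Finset.sum_congr rfl fun c _ => ?_
    rw [← Finset.mul_sum, mul_div_assoc]
  have hdiff : mom (2 * k' : ℕ) (Tu g v ω fun y => U (ci b y)) -
      EX g (fun ω : Gr d H → Fin (2 ^ g) =>
        mom (2 * k' : ℕ) (Tu g v ω fun y => U fun j => (y j : ℕ) / 2 ^ (H - b j))) ≤
      lam * (∑ c ∈ bx b, |U c|) ^ (2 * k') := by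
    have e1 : mom (2 * k' : ℕ) (Tu g v ω fun y => U (ci b y)) =
      ∑ c ∈ BX, (∏ i, U (c i)) * Zc g k' v b c ω := z1 ω
    rw [e1, hEX, ← Finset.sum_sub_distrib]
    have e2 : (∑ c ∈ bx b, |U c|) ^ (2 * k') = ∑ c ∈ BX, ∏ i, |U (c i)| := by
      have := Finset.prod_univ_sum (fun _ : Fin (2 * k') => bx b) (fun _ c => |U c|)
      rw [Finset.prod_const, Finset.card_univ, Fintype.card_fin] at this
      exact this
    rw [e2, Finset.mul_sum]
    refine Finset.sum_le_sum fun c hc => ?_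
    have hc' : ∀ i j, c i j < 2 ^ b j := by
      intro i j
      have h1 := Fintype.mem_piFinset.1 hc i
      exact mem_range.1 (Fintype.mem_piFinset.1 h1 j)
    rw [← mul_sub]
    calc (∏ i, U (c i)) * (Zc g k' v b c ω -
          EX g (fun ω' : Gr d H → Fin (2 ^ g) => Zc g k' v b c ω'))
        ≤ |(∏ i, U (c i)) * (Zc g k' v b c ω -
          EX g (fun ω' : Gr d H → Fin (2 ^ g) => Zc g k' v b c ω'))| := le_abs_self _
      _ = (∏ i, |U (c i)|) * |Zc g k' v b c ω -
          EX g (fun ω' : Gr d H → Fin (2 ^ g) => Zc g k' v b c ω')| := by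
          rw [abs_mul, Finset.abs_prod]
      _ ≤ (∏ i, |U (c i)|) * lam :=
          mul_le_mul_of_nonneg_left (hgood c hc') (Finset.prod_nonneg fun _ _ => abs_nonneg _)
      _ = _ := mul_comm _ _
  have hmean : lam * (∑ c ∈ bx b, |U c|) ^ (2 * k') ≤
      pb k' (((∑ j, v j : ℕ) : ℤ) - ((h + i0 : ℕ) : ℤ)) * m := by
    have e1 : (2 : ℝ) ^ (-((2 * k' * ∑ j, b j : ℕ) : ℝ)) * (∑ c ∈ bx b, |U c|) ^ (2 * k') =
        ((∑ c ∈ bx b, |U c|) / 2 ^ (∑ j, b j)) ^ (2 * k') := by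
      rw [Real.rpow_neg (by norm_num), Real.rpow_natCast, div_pow, ← pow_mul, mul_comm (2 * k'),
        div_eq_mul_inv, mul_comm]
    have e2 : ((∑ c ∈ bx b, |U c|) / 2 ^ (∑ j, b j)) ^ (2 * k') ≤ m := by
      rw [sum_ci b hb fun c => |U c|]
      exact mom_ge (2 * k') fun y : Gr d H => U (ci b y)
    have h0 : 0 ≤ ((∑ c ∈ bx b, |U c|) / 2 ^ (∑ j, b j)) ^ (2 * k') := by
      have : 0 ≤ ∑ c ∈ bx b, |U c| := Finset.sum_nonneg fun _ _ => abs_nonneg _
      positivity
    rw [hlam, mul_right_comm, e1, mul_comm]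
    exact mul_le_mul (pb_ge k' i0 _ hk hj) e2 h0 (pb_pos _ _).le
  have z2' : EX g (fun ω : Gr d H → Fin (2 ^ g) =>
        mom (2 * k' : ℕ) (Tu g v ω fun y => U fun j => (y j : ℕ) / 2 ^ (H - b j))) ≤
        C * pb k' (((∑ j, v j : ℕ) : ℤ) - ((h + i0 : ℕ) : ℤ)) * m := z2
  have e3 : (C + 1) * pb k' (((∑ j, v j : ℕ) : ℤ) - ((h + i0 : ℕ) : ℤ)) * m =
      C * pb k' (((∑ j, v j : ℕ) : ℤ) - ((h + i0 : ℕ) : ℤ)) * m +
        pb k' (((∑ j, v j : ℕ) : ℤ) - ((h + i0 : ℕ) : ℤ)) * m := by ring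
  rw [e3]
  linarith

end OPBM

open OPBM in
theorem specOPB (hZEX : SpecZEX) : SpecOPB := by
  intro k hk
  obtain ⟨C1, hC1, z1⟩ := hZEX 1 le_rfl
  obtain ⟨C2, hC2, z2⟩ := hZEX k hk
  refine ⟨C1 + C2 + 1, by positivity, ?_⟩
  intro d κ h i0 g α δ ω hd hg hgood k' hk' v b hv hv1 hv2 hb hb2 u hu
  have hj : -(i0 : ℤ) ≤ ((∑ j, v j : ℕ) : ℤ) - ((h + i0 : ℕ) : ℤ) := by
    have : ((h : ℕ) : ℤ) < ((∑ j, v j : ℕ) : ℤ) := by exact_mod_cast hv1
    push_cast at this ⊢
    linarith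
  have hm0 : 0 ≤ mom (2 * k' : ℕ) u :=
    div_nonneg (Finset.sum_nonneg fun x _ => Real.rpow_nonneg (abs_nonneg _) _) (Nat.cast_nonneg _)
  have hp := pb_pos k' (((∑ j, v j : ℕ) : ℤ) - ((h + i0 : ℕ) : ℤ))
  have hfin : ∀ C : ℝ, C ≤ C1 + C2 → mom (2 * k' : ℕ) (Tu g v ω u) ≤
      (C + 1) * pb k' (((∑ j, v j : ℕ) : ℤ) - ((h + i0 : ℕ) : ℤ)) * mom (2 * k' : ℕ) u →
      mom (2 * k' : ℕ) (Tu g v ω u) ≤ (C1 + C2 + 1) *
        pb k' (((∑ j, v j : ℕ) : ℤ) - ((h + i0 : ℕ) : ℤ)) * mom (2 * k' : ℕ) u := by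
    intro C hC h1
    refine h1.trans ?_
    refine mul_le_mul_of_nonneg_right (mul_le_mul_of_nonneg_right (by linarith) hp.le) hm0
  rcases hk' with rfl | rfl
  · refine hfin C1 (by linarith) (main 1 le_rfl C1 g h i0 v b ω hb hj
      (fun U => z1 d (3 * h) g h i0 v b U hg hv hb) (fun c hc => ?_) u hu)
    exact hgood.zc 1 (Or.inl rfl) v b c hv hv1 hv2 hb hb2 hc
  · refine hfin C2 (by linarith) (main k' hk C2 g h i0 v b ω hb hj
      (fun U => z2 d (3 * h) g h i0 v b U hg hv hb) (fun c hc => ?_) u hu)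
    exact hgood.zc k' (Or.inr rfl) v b c hv hv1 hv2 hb hb2 hc

end Pool.Agent.MP_bc5265.R2
end

section
/-!
# Module PCO: number of selected points in a cell
-/
set_option autoImplicit false
set_option linter.unusedSectionVars false

open Finset

namespace Pool.Agent.MP_bc5265.R2

open Pool.Agent.MP_bc5265.S

namespace PCOM

variable {X : Type} [Fintype X] [DecidableEq X] {g : ℕ}

theorem EX_mono (f f' : (X → Fin (2 ^ g)) → ℝ) (h : ∀ ω, f ω ≤ f' ω) : EX g f ≤ EX g f' := by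
  unfold EX
  exact div_le_div_of_nonneg_right (Finset.sum_le_sum fun ω _ => h ω) (by positivity)

theorem EX_div (f : (X → Fin (2 ^ g)) → ℝ) (m : ℝ) :
    EX g (fun ω => f ω / m) = EX g f / m := by
  unfold EX
  rw [← Finset.sum_div]
  ring

theorem EX_sum {β : Type} (s : Finset β) (f : β → (X → Fin (2 ^ g)) → ℝ) :
    EX g (fun ω => ∑ i ∈ s, f i ω) = ∑ i ∈ s, EX g (f i) := by
  unfold EX
  rw [Finset.sum_comm, Finset.sum_div]

theorem zt_sq (g : ℕ) : (∑ t : Fin (2 ^ g), zt g t ^ 2) / 2 ^ g = 2 ^ g - 1 := by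
  have h1 : ∀ t : Fin (2 ^ g), zt g t ^ 2 =
      1 + (if t = (⟨0, by positivity⟩ : Fin (2 ^ g)) then ((2 : ℝ) ^ g - 1) ^ 2 - 1 else 0) := by
    intro t
    unfold zt
    by_cases h : (t : ℕ) = 0
    · have h' : t = ⟨0, by positivity⟩ := Fin.ext h
      rw [if_pos h, if_pos h']
      ring
    · have h' : t ≠ ⟨0, by positivity⟩ := fun e => h (by rw [e])
      rw [if_neg h, if_neg h']
      ring
  have hp : (0 : ℝ) < 2 ^ g := by positivity
  simp only [h1, Finset.sum_add_distrib, Finset.sum_const, Finset.card_univ, Fintype.card_fin,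
    nsmul_eq_mul, Finset.sum_ite_eq', Finset.mem_univ, if_true]
  push_cast
  rw [div_eq_iff hp.ne']
  ring

/-- Second moment of the sum of the `ζ` over `Y`. -/
theorem second (hIND : SpecIND) (Y : Finset X) :
    EX g (fun ω : X → Fin (2 ^ g) => (∑ y ∈ Y, zt g (ω y)) ^ 2) = Y.card * (2 ^ g - 1) := by
  obtain ⟨h1, h2, h3, -⟩ := hIND X g
  have e : ∀ ω : X → Fin (2 ^ g), (∑ y ∈ Y, zt g (ω y)) ^ 2 =
      ∑ y ∈ Y, ∑ y' ∈ Y, zt g (ω y) * zt g (ω y') := by
    intro ω
    rw [sq, Finset.sum_mul_sum]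
  simp only [e]
  rw [EX_sum Y (fun y ω => ∑ y' ∈ Y, zt g (ω y) * zt g (ω y'))]
  have h4 : ∀ y ∈ Y, EX g (fun ω : X → Fin (2 ^ g) => ∑ y' ∈ Y, zt g (ω y) * zt g (ω y')) =
      2 ^ g - 1 := by
    intro y hy
    rw [EX_sum Y (fun y' ω => zt g (ω y) * zt g (ω y'))]
    rw [Finset.sum_eq_single_of_mem y hy]
    · have h5 := h2 y (fun t => zt g t ^ 2)
      rw [zt_sq] at h5
      rw [← h5]
      congr 1
      funext ω
      ring
    · intro y' _ hne
      have h5 := h1 {y} (fun ω => zt g (ω y)) (fun ω => zt g (ω y'))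
        (fun ω ω' h => congrArg (zt g) (h y rfl))
        (fun ω ω' h => congrArg (zt g) (h y' hne))
      rw [h5, h2 y (fun t => zt g t), h3]
      simp
  rw [Finset.sum_congr rfl h4, Finset.sum_const, nsmul_eq_mul]

theorem card_axis (H b c : ℕ) (hb : b ≤ H) (hc : c < 2 ^ b) :
    (univ.filter fun t : Fin (2 ^ H) => (t : ℕ) / 2 ^ (H - b) = c).card = 2 ^ (H - b) := by
  have hpos : 0 < 2 ^ (H - b) := by positivity
  have hle : (c + 1) * 2 ^ (H - b) ≤ 2 ^ H := by
    calc (c + 1) * 2 ^ (H - b) ≤ 2 ^ b * 2 ^ (H - b) := Nat.mul_le_mul_right _ hc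
      _ = 2 ^ H := by rw [← pow_add]; congr 1; omega
  have h1 : (univ.filter fun t : Fin (2 ^ H) => (t : ℕ) / 2 ^ (H - b) = c).map Fin.valEmbedding =
      Finset.Ico (c * 2 ^ (H - b)) ((c + 1) * 2 ^ (H - b)) := by
    ext i
    simp only [Finset.mem_map, Finset.mem_filter, Finset.mem_univ, true_and,
      Fin.valEmbedding_apply, Finset.mem_Ico]
    constructor
    · rintro ⟨t, ht, rfl⟩
      rw [Nat.div_eq_iff hpos] at ht
      constructor
      · exact ht.1
      · rw [add_mul]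
        omega
    · rintro ⟨h2, h3⟩
      refine ⟨⟨i, by omega⟩, ?_, rfl⟩
      rw [Nat.div_eq_iff hpos]
      rw [add_mul] at h3
      refine ⟨h2, ?_⟩
      show i ≤ _
      omega
  rw [← Finset.card_map Fin.valEmbedding, h1, Nat.card_Ico, add_mul]
  omega

theorem card_cell {d H : ℕ} (b c : Fin d → ℕ) (hb : ∀ j, b j ≤ H) (hc : ∀ j, c j < 2 ^ b j) :
    2 ^ (∑ j, b j) * (univ.filter fun y : Gr d H => inC b c y).card = 2 ^ (d * H) := by
  have h1 : (univ.filter fun y : Gr d H => inC b c y) =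
      Fintype.piFinset (fun j => univ.filter fun t : Fin (2 ^ H) =>
        (t : ℕ) / 2 ^ (H - b j) = c j) := by
    ext y
    rw [Finset.mem_filter, Fintype.mem_piFinset]
    simp only [Finset.mem_univ, true_and, inC, Finset.mem_filter]
  rw [h1, Fintype.card_piFinset, ← Finset.prod_pow_eq_pow_sum, ← Finset.prod_mul_distrib]
  have h2 : ∀ j : Fin d, 2 ^ b j * (univ.filter fun t : Fin (2 ^ H) =>
        (t : ℕ) / 2 ^ (H - b j) = c j).card = 2 ^ H := by
    intro j
    rw [card_axis H (b j) (c j) (hb j) (hc j), ← pow_add]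
    congr 1
    have := hb j
    omega
  simp only [h2, Finset.prod_const, Finset.card_univ, Fintype.card_fin]
  rw [← pow_mul, mul_comm]

end PCOM

/-- Module PCO. -/
theorem specPCO (hIND : SpecIND) : SpecPCO := by
  intro d H g h i0 b c hd hb hc
  set Y : Finset (Gr d H) := univ.filter fun y : Gr d H => inC b c y with hY
  have hcard : (2 : ℝ) ^ (∑ j, b j) * (Y.card : ℝ) = 2 ^ g * 2 ^ (h + i0) := by
    have := PCOM.card_cell b c hb hc
    rw [← pow_add, ← add_assoc, hd]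
    exact_mod_cast this
  have hB : (0 : ℝ) < 2 ^ (∑ j, b j) := by positivity
  have hG : (0 : ℝ) < 2 ^ g := by positivity
  have hM : (0 : ℝ) < 2 ^ (h + i0) := by positivity
  have hm : (0 : ℝ) < Y.card := by
    by_contra hneg
    push Not at hneg
    have : (2 : ℝ) ^ (∑ j, b j) * (Y.card : ℝ) ≤ 0 := mul_nonpos_of_nonneg_of_nonpos hB.le hneg
    rw [hcard] at this
    have : (0 : ℝ) < 2 ^ g * 2 ^ (h + i0) := by positivity
    linarith
  have hS : ∀ ω : Gr d H → Fin (2 ^ g), ∑ y ∈ Y, zt g (ω y) = 2 ^ g *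
      ((univ.filter fun y : Gr d H => inC b c y ∧ (ω y : ℕ) = 0).card : ℝ) - Y.card := by
    intro ω
    have e1 : ∀ y, zt g (ω y) = (if (ω y : ℕ) = 0 then (2 : ℝ) ^ g else 0) - 1 := by
      intro y
      unfold zt
      split_ifs <;> ring
    simp only [e1, Finset.sum_sub_distrib, Finset.sum_const, nsmul_eq_mul, mul_one]
    rw [← Finset.sum_filter, hY, Finset.filter_filter, Finset.sum_const, nsmul_eq_mul]
    ring
  have hpt : ∀ ω : Gr d H → Fin (2 ^ g),
      (if 2 * (2 : ℝ) ^ (h + i0) < 2 ^ (∑ j, b j) *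
      ((univ.filter fun y : Gr d H => inC b c y ∧ (ω y : ℕ) = 0).card : ℝ) then (1 : ℝ) else 0) ≤
      (∑ y ∈ Y, zt g (ω y)) ^ 2 / (Y.card : ℝ) ^ 2 := by
    intro ω
    split_ifs with hev
    · rw [one_le_div (by positivity)]
      apply pow_le_pow_left₀ hm.le
      rw [hS ω]
      set N : ℝ := ((univ.filter fun y : Gr d H => inC b c y ∧ (ω y : ℕ) = 0).card : ℝ)
      have h1 : (2 : ℝ) ^ (∑ j, b j) * (2 * Y.card) < 2 ^ (∑ j, b j) * (2 ^ g * N) := by
        calc (2 : ℝ) ^ (∑ j, b j) * (2 * Y.card) = 2 ^ g * (2 * 2 ^ (h + i0)) := by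
              rw [show (2 : ℝ) ^ (∑ j, b j) * (2 * Y.card) =
                2 * (2 ^ (∑ j, b j) * (Y.card : ℝ)) by ring, hcard]
              ring
          _ < 2 ^ g * (2 ^ (∑ j, b j) * N) := mul_lt_mul_of_pos_left hev hG
          _ = _ := by ring
      have h2 := lt_of_mul_lt_mul_left h1 hB.le
      linarith
    · positivity
  refine (PCOM.EX_mono _ _ hpt).trans ?_
  rw [PCOM.EX_div, PCOM.second hIND Y, div_le_div_iff₀ (by positivity) hM]
  have h5 : (Y.card : ℝ) * (2 ^ g - 1) * 2 ^ (h + i0) ≤ Y.card * (2 ^ g * 2 ^ (h + i0)) := by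
    have : (Y.card : ℝ) * (2 ^ g - 1) * 2 ^ (h + i0) =
      Y.card * (2 ^ g * 2 ^ (h + i0)) - Y.card * 2 ^ (h + i0) := by ring
    rw [this]
    have : (0 : ℝ) ≤ Y.card * 2 ^ (h + i0) := by positivity
    linarith
  rw [← hcard] at h5
  calc (Y.card : ℝ) * (2 ^ g - 1) * 2 ^ (h + i0)
      ≤ Y.card * (2 ^ (∑ j, b j) * (Y.card : ℝ)) := h5
    _ = 2 ^ (∑ j, b j) * (Y.card : ℝ) ^ 2 := by ring

end Pool.Agent.MP_bc5265.R2
end

section
/-!
# Region `R_2`, module ZVA: variance of an average of products over disjoint cells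
-/
set_option linter.unusedSectionVars false

open MeasureTheory Finset Matrix
open scoped ENNReal

namespace Pool.Agent.MP_bc5265.R2

namespace ZVAM

variable {X : Type} [Fintype X] [DecidableEq X] {g : ℕ}

lemma card_pos : (0 : ℝ) < Fintype.card (X → Fin (2 ^ g)) := by
  have : Nonempty (X → Fin (2 ^ g)) := ⟨fun _ => ⟨0, by positivity⟩⟩
  exact_mod_cast Fintype.card_pos

lemma EX_const (c : ℝ) : EX g (fun _ : X → Fin (2 ^ g) => c) = c := by
  unfold EX
  rw [Finset.sum_const, Finset.card_univ, nsmul_eq_mul, mul_comm, mul_div_assoc,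
    div_self card_pos.ne', mul_one]

lemma EX_mono (f f' : (X → Fin (2 ^ g)) → ℝ) (h : ∀ ω, f ω ≤ f' ω) : EX g f ≤ EX g f' := by
  unfold EX
  exact div_le_div_of_nonneg_right (Finset.sum_le_sum fun ω _ => h ω) card_pos.le

lemma EX_sum {R : Type} (s : Finset R) (f : R → (X → Fin (2 ^ g)) → ℝ) :
    EX g (fun ω => ∑ ρ ∈ s, f ρ ω) = ∑ ρ ∈ s, EX g (f ρ) := by
  unfold EX
  rw [Finset.sum_comm, Finset.sum_div]

lemma EX_mul (c : ℝ) (f : (X → Fin (2 ^ g)) → ℝ) : EX g (fun ω => c * f ω) = c * EX g f := by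
  unfold EX
  rw [← Finset.mul_sum, mul_div_assoc]

lemma EX_sub (f f' : (X → Fin (2 ^ g)) → ℝ) :
    EX g (fun ω => f ω - f' ω) = EX g f - EX g f' := by
  unfold EX
  rw [Finset.sum_sub_distrib, sub_div]

/-- the variance is at most the second moment -/
lemma var_le (f : (X → Fin (2 ^ g)) → ℝ) :
    EX g (fun ω => (f ω - EX g f) * (f ω - EX g f)) ≤ EX g (fun ω => f ω ^ 2) := by
  set e := EX g f with he
  have h1 : EX g (fun ω => (f ω - e) * (f ω - e)) = EX g (fun ω => f ω ^ 2) - e ^ 2 := by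
    have h2 : (fun ω => (f ω - e) * (f ω - e)) =
        fun ω => (f ω ^ 2 - (2 * e) * f ω) - (-(e ^ 2)) := by
      funext ω; ring
    rw [h2, EX_sub, EX_sub, EX_mul, EX_const, ← he]
    ring
  rw [h1]
  nlinarith [sq_nonneg e]

lemma prod_sq_le (m : ℕ) (hm : 1 ≤ m) (b : Fin m → ℝ) :
    (∏ i, b i) ^ 2 ≤ (1 / (m : ℝ)) * ∑ i, b i ^ (2 * m) := by
  have hm0 : m ≠ 0 := by omega
  have h1 := Real.geom_mean_le_arith_mean_weighted (Finset.univ : Finset (Fin m))
    (fun _ => 1 / (m : ℝ)) (fun i => b i ^ (2 * m)) (fun _ _ => by positivity)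
    (by
      rw [Finset.sum_const, Finset.card_univ, Fintype.card_fin, nsmul_eq_mul]
      field_simp)
    (fun i _ => by rw [pow_mul]; positivity)
  rw [← Finset.mul_sum] at h1
  refine le_trans (le_of_eq ?_) h1
  rw [← Finset.prod_pow]
  refine Finset.prod_congr rfl fun i _ => ?_
  rw [pow_mul, one_div, Real.pow_rpow_inv_natCast (sq_nonneg _) hm0]

end ZVAM

open ZVAM in
theorem specZVA (hIND : SpecIND) : SpecZVA := by
  intro X R _ _ _ _ g m cl w Q B hm hdep hQ
  obtain ⟨hind, -⟩ := hIND X g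
  set P : R → (X → Fin (2 ^ g)) → ℝ := fun ρ ω => w * ∏ i, B i ρ ω with hP
  set Z : R → (X → Fin (2 ^ g)) → ℝ := fun ρ ω => P ρ ω - EX g (P ρ) with hZ
  have hmr : (0 : ℝ) < m := by exact_mod_cast hm
  have hPdep : ∀ ρ, DepOn {x | cl x = ρ} (P ρ) := by
    intro ρ ω ω' h
    simp only [hP]
    congr 1
    exact Finset.prod_congr rfl fun i _ => hdep i ρ ω ω' h
  have hZdep : ∀ ρ, DepOn {x | cl x = ρ} (Z ρ) := by
    intro ρ ω ω' h
    simp only [hZ]
    rw [hPdep ρ ω ω' h]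
  have hZ0 : ∀ ρ, EX g (Z ρ) = 0 := by
    intro ρ
    simp only [hZ]
    rw [EX_sub, EX_const, sub_self]
  have hcross : ∀ ρ ρ', ρ ≠ ρ' → EX g (fun ω => Z ρ ω * Z ρ' ω) = 0 := by
    intro ρ ρ' hne
    have h1 : DepOn ({x | cl x = ρ}ᶜ : Set X) (Z ρ') := by
      intro ω ω' h
      refine hZdep ρ' ω ω' fun x hx => h x ?_
      simp only [Set.mem_compl_iff, Set.mem_ofPred_eq] at hx ⊢
      rw [hx]
      exact hne.symm
    rw [hind _ (Z ρ) (Z ρ') (hZdep ρ) h1, hZ0, zero_mul]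
  have hdiag : ∀ ρ, EX g (fun ω => Z ρ ω * Z ρ ω) ≤ w ^ 2 * Q := by
    intro ρ
    refine (var_le (P ρ)).trans ?_
    calc EX g (fun ω => P ρ ω ^ 2)
        ≤ EX g (fun ω => w ^ 2 * ((1 / (m : ℝ)) * ∑ i, B i ρ ω ^ (2 * m))) := by
          refine EX_mono _ _ fun ω => ?_
          simp only [hP, mul_pow]
          exact mul_le_mul_of_nonneg_left (prod_sq_le m hm fun i => B i ρ ω) (sq_nonneg w)
      _ = w ^ 2 * ((1 / (m : ℝ)) * ∑ i : Fin m, EX g (fun ω => B i ρ ω ^ (2 * m))) := by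
          rw [EX_mul, EX_mul, EX_sum]
      _ ≤ w ^ 2 * ((1 / (m : ℝ)) * ∑ _i : Fin m, Q) := by
          gcongr with i
          exact hQ i ρ
      _ = w ^ 2 * Q := by
          rw [Finset.sum_const, Finset.card_univ, Fintype.card_fin, nsmul_eq_mul]
          field_simp
  have hmean : EX g (fun ω => ∑ ρ, w * ∏ i, B i ρ ω) = ∑ ρ, EX g (P ρ) := EX_sum _ P
  calc EX g (fun ω => (∑ ρ, w * ∏ i, B i ρ ω -
      EX g (fun ω => ∑ ρ, w * ∏ i, B i ρ ω)) ^ 2)
      = EX g (fun ω => ∑ ρ, ∑ ρ', Z ρ ω * Z ρ' ω) := by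
        congr 1
        funext ω
        rw [hmean, ← Finset.sum_sub_distrib, sq, Finset.sum_mul_sum]
    _ = ∑ ρ, ∑ ρ', EX g (fun ω => Z ρ ω * Z ρ' ω) := by
        rw [EX_sum]
        refine Finset.sum_congr rfl fun ρ _ => ?_
        rw [EX_sum]
    _ = ∑ ρ, EX g (fun ω => Z ρ ω * Z ρ ω) := by
        refine Finset.sum_congr rfl fun ρ _ => ?_
        rw [Finset.sum_eq_single ρ]
        · intro ρ' _ hne
          exact hcross ρ ρ' hne.symm
        · intro h
          exact absurd (Finset.mem_univ _) h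
    _ ≤ ∑ _ρ : R, w ^ 2 * Q := Finset.sum_le_sum fun ρ _ => hdiag ρ
    _ = w ^ 2 * Fintype.card R * Q := by
        rw [Finset.sum_const, Finset.card_univ, nsmul_eq_mul]
        ring

end Pool.Agent.MP_bc5265.R2
end

section
/-!
# Region `R_2`, module POC: occupancy of cells
-/
set_option linter.unusedSectionVars false

open MeasureTheory Finset Matrix
open scoped ENNReal

namespace Pool.Agent.MP_bc5265.R2

open Pool.Agent.MP_bc5265.S

namespace POCM

open ZVAM

lemma cell1 (H n q : ℕ) : (univ.filter fun t : Fin (2 ^ H) => q = (t : ℕ) / 2 ^ n).card ≤ 2 ^ n := by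
  have h : ∀ t ∈ (univ.filter fun t : Fin (2 ^ H) => q = (t : ℕ) / 2 ^ n),
      (t : ℕ) ∈ Finset.Ico (q * 2 ^ n) (q * 2 ^ n + 2 ^ n) := by
    intro t ht
    rw [Finset.mem_filter] at ht
    rw [Finset.mem_Ico, ht.2]
    have h1 := Nat.div_add_mod (t : ℕ) (2 ^ n)
    have h2 := Nat.mod_lt (t : ℕ) (show 0 < 2 ^ n by positivity)
    rw [mul_comm] at h1
    omega
  have h2 := Finset.card_le_card_of_injOn (fun t : Fin (2 ^ H) => (t : ℕ)) h
    (fun a _ b _ hab => Fin.ext hab)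
  simpa using h2

lemma cell_card {d H : ℕ} (v : Fin d → ℕ) (hv : ∀ j, v j ≤ H) (x : Gr d H) :
    (univ.filter fun y : Gr d H => sameCell v x y).card * 2 ^ (∑ j, v j) ≤ 2 ^ (d * H) := by
  have h1 : (univ.filter fun y : Gr d H => sameCell v x y) = Fintype.piFinset fun j : Fin d =>
      (univ.filter fun t : Fin (2 ^ H) => (x j : ℕ) / 2 ^ (H - v j) = (t : ℕ) / 2 ^ (H - v j)) := by
    ext y
    rw [Finset.mem_filter, Fintype.mem_piFinset]
    simp [sameCell]
  rw [h1, Fintype.card_piFinset, ← Finset.prod_pow_eq_pow_sum, ← Finset.prod_mul_distrib]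
  calc ∏ j : Fin d, ((univ.filter fun t : Fin (2 ^ H) =>
        (x j : ℕ) / 2 ^ (H - v j) = (t : ℕ) / 2 ^ (H - v j)).card * 2 ^ v j)
      ≤ ∏ _j : Fin d, 2 ^ H := by
        refine Finset.prod_le_prod' fun j _ => ?_
        calc _ ≤ 2 ^ (H - v j) * 2 ^ v j := Nat.mul_le_mul_right _ (cell1 H _ _)
          _ = 2 ^ H := by rw [← pow_add, Nat.sub_add_cancel (hv j)]
    _ = 2 ^ (d * H) := by
        rw [Finset.prod_const, Finset.card_univ, Fintype.card_fin, ← pow_mul, mul_comm]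

/-- indicator of selection -/
noncomputable def ind {g : ℕ} (t : Fin (2 ^ g)) : ℝ := if (t : ℕ) = 0 then 1 else 0

lemma ind_nonneg {g : ℕ} (t : Fin (2 ^ g)) : 0 ≤ ind t := by
  unfold ind; split_ifs <;> norm_num

lemma sum_ind (g : ℕ) : ∑ t : Fin (2 ^ g), ind t = 1 := by
  unfold ind
  rw [Finset.sum_eq_single (⟨0, by positivity⟩ : Fin (2 ^ g))]
  · simp
  · intro t _ ht
    rw [if_neg]
    intro h
    exact ht (Fin.ext h)
  · intro h
    exact absurd (Finset.mem_univ _) h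

lemma EX_prod (hIND : SpecIND) {X : Type} [Fintype X] [DecidableEq X] (g : ℕ) (A : Finset X) :
    EX g (fun ω : X → Fin (2 ^ g) => ∏ y ∈ A, ind (ω y)) = (1 / (2 : ℝ) ^ g) ^ A.card := by
  obtain ⟨h1, h2, -⟩ := hIND X g
  induction A using Finset.induction_on with
  | empty => simp [EX_const]
  | insert a A ha ih =>
    have h3 : (fun ω : X → Fin (2 ^ g) => ∏ y ∈ insert a A, ind (ω y)) =
        fun ω => ind (ω a) * ∏ y ∈ A, ind (ω y) := by
      funext ω
      rw [Finset.prod_insert ha]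
    rw [h3, h1 {a} (fun ω => ind (ω a)) (fun ω => ∏ y ∈ A, ind (ω y)), h2 a ind, sum_ind, ih,
      Finset.card_insert_of_notMem ha, pow_succ, mul_comm]
    · intro ω ω' h
      simp only
      rw [h a rfl]
    · intro ω ω' h
      refine Finset.prod_congr rfl fun y hy => ?_
      rw [h y]
      rintro (rfl : y = a)
      exact ha hy

end POCM

open POCM ZVAM in
theorem specPOC (hIND : SpecIND) : SpecPOC := by
  intro d H g h i0 κ v x hg hv
  set cell := univ.filter fun y : Gr d H => sameCell v x y with hcell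
  calc EX g (fun ω : Gr d H → Fin (2 ^ g) =>
        if κ ≤ (univ.filter fun y : Gr d H => sameCell v x y ∧ (ω y : ℕ) = 0).card then 1 else 0)
      ≤ EX g (fun ω : Gr d H → Fin (2 ^ g) =>
          ∑ A ∈ cell.powersetCard κ, ∏ y ∈ A, ind (ω y)) := by
        refine EX_mono _ _ fun ω => ?_
        have hnn : ∀ A ∈ cell.powersetCard κ, 0 ≤ ∏ y ∈ A, ind (ω y) := fun A _ =>
          Finset.prod_nonneg fun y _ => ind_nonneg _
        split_ifs with hκ
        · obtain ⟨A, hA, hAc⟩ := Finset.exists_subset_card_eq hκ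
          have hAm : A ∈ cell.powersetCard κ := by
            rw [Finset.mem_powersetCard]
            refine ⟨fun y hy => ?_, hAc⟩
            have := hA hy
            rw [Finset.mem_filter] at this
            rw [hcell, Finset.mem_filter]
            exact ⟨this.1, this.2.1⟩
          have h1 : ∏ y ∈ A, ind (ω y) = 1 := by
            refine Finset.prod_eq_one fun y hy => ?_
            have := hA hy
            rw [Finset.mem_filter] at this
            unfold ind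
            rw [if_pos this.2.2]
          rw [← h1]
          exact Finset.single_le_sum hnn hAm
        · exact Finset.sum_nonneg hnn
    _ = (cell.card.choose κ : ℝ) * (1 / (2 : ℝ) ^ g) ^ κ := by
        rw [EX_sum]
        have h1 : ∀ A ∈ cell.powersetCard κ,
            EX g (fun ω : Gr d H → Fin (2 ^ g) => ∏ y ∈ A, ind (ω y)) =
              (1 / (2 : ℝ) ^ g) ^ κ := by
          intro A hA
          rw [EX_prod hIND, (Finset.mem_powersetCard.mp hA).2]
        rw [Finset.sum_congr rfl h1, Finset.sum_const, Finset.card_powersetCard, nsmul_eq_mul]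
    _ ≤ (cell.card : ℝ) ^ κ * (1 / (2 : ℝ) ^ g) ^ κ := by
        gcongr
        exact_mod_cast Nat.choose_le_pow _ _
    _ ≤ ((2 : ℝ) ^ (h + i0) / 2 ^ (∑ j, v j)) ^ κ := by
        rw [← mul_pow]
        apply pow_le_pow_left₀ (by positivity)
        have h1 : (cell.card : ℝ) * 2 ^ (∑ j, v j) ≤ 2 ^ (d * H) := by
          exact_mod_cast cell_card v hv x
        rw [← hg] at h1
        rw [mul_one_div, div_le_div_iff₀ (by positivity) (by positivity)]
        calc (cell.card : ℝ) * 2 ^ (∑ j, v j) ≤ 2 ^ (g + h + i0) := h1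
          _ = 2 ^ (h + i0) * 2 ^ g := by rw [← pow_add]; congr 1; omega

end Pool.Agent.MP_bc5265.R2
end

section
/-!
# Module PTI: the pointwise inequality
-/
set_option autoImplicit false

namespace Pool.Agent.MP_bc5265.R2

namespace PTIM

/-- `s ≥ 0`: `(1+s)^p ≤ 1 + p s + 2 s^p`. -/
theorem pos (p s : ℝ) (hp1 : 1 ≤ p) (hp2 : p ≤ 2) (hs : 0 ≤ s) :
    (1 + s) ^ p ≤ 1 + p * s + 2 * s ^ p := by
  have h1s : 0 < 1 + s := by linarith
  have e : (1 + s) ^ p = (1 + s) * (1 + s) ^ (p - 1) := by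
    rw [Real.rpow_sub_one h1s.ne']
    field_simp
  rw [e]
  have hsp : 0 ≤ s ^ p := Real.rpow_nonneg hs p
  rcases le_total s 1 with h | h
  · have hb := rpow_one_add_le_one_add_mul_self (s := s) (p := p - 1) (by linarith)
      (by linarith) (by linarith)
    have h2 : s ^ (2 : ℝ) ≤ s ^ p := Real.rpow_le_rpow_of_exponent_ge' hs h (by linarith) hp2
    rw [Real.rpow_two] at h2
    have h3 : (1 + s) * (1 + s) ^ (p - 1) ≤ (1 + s) * (1 + (p - 1) * s) :=
      mul_le_mul_of_nonneg_left hb h1s.le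
    nlinarith [sq_nonneg s]
  · have h0 : 0 < s := by linarith
    have hsub : (1 + s) ^ (p - 1) ≤ 1 + s ^ (p - 1) := by
      have := Real.rpow_add_le_add_rpow (a := 1) (b := s) zero_le_one hs
        (show 0 ≤ p - 1 by linarith) (by linarith)
      rwa [Real.one_rpow] at this
    have h3 : (1 + s) * (1 + s) ^ (p - 1) ≤ (1 + s) * (1 + s ^ (p - 1)) :=
      mul_le_mul_of_nonneg_left hsub h1s.le
    have h4 : s * s ^ (p - 1) = s ^ p := by
      rw [Real.rpow_sub_one h0.ne']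
      field_simp
    have h5 : s ^ (p - 1) ≤ s ^ p := Real.rpow_le_rpow_of_exponent_le h (by linarith)
    nlinarith

/-- `0 ≤ s ≤ 1`: `(1-s)^p ≤ 1 - p s + 2 s^p`. -/
theorem mid (p s : ℝ) (hp1 : 1 ≤ p) (hp2 : p ≤ 2) (hs : 0 ≤ s) (h : s ≤ 1) :
    (1 - s) ^ p ≤ 1 - p * s + 2 * s ^ p := by
  have hsp : 0 ≤ s ^ p := Real.rpow_nonneg hs p
  have h2 : s ^ (2 : ℝ) ≤ s ^ p := Real.rpow_le_rpow_of_exponent_ge' hs h (by linarith) hp2
  rw [Real.rpow_two] at h2
  rcases h.eq_or_lt with h1 | h1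
  · rw [h1, sub_self, Real.zero_rpow (by linarith), Real.one_rpow]
    linarith
  · have h1s : 0 < 1 - s := by linarith
    have e : (1 - s) ^ p = (1 - s) * (1 - s) ^ (p - 1) := by
      rw [Real.rpow_sub_one h1s.ne']
      field_simp
    rw [e]
    have hb := rpow_one_add_le_one_add_mul_self (s := -s) (p := p - 1) (by linarith)
      (by linarith) (by linarith)
    rw [← sub_eq_add_neg] at hb
    have h3 : (1 - s) * (1 - s) ^ (p - 1) ≤ (1 - s) * (1 + (p - 1) * -s) :=
      mul_le_mul_of_nonneg_left hb h1s.le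
    nlinarith [sq_nonneg s]

/-- `s ≥ 1`: `(s-1)^p ≤ 1 - p s + 2 s^p`. -/
theorem big (p s : ℝ) (hp1 : 1 ≤ p) (hp2 : p ≤ 2) (h : 1 ≤ s) :
    (s - 1) ^ p ≤ 1 - p * s + 2 * s ^ p := by
  have hs : 0 < s := by linarith
  have hb := one_add_mul_self_le_rpow_one_add (s := s - 1) (p := p) (by linarith) hp1
  rw [show 1 + (s - 1) = s by ring] at hb
  have h5 : 1 ≤ s ^ (p - 1) := Real.one_le_rpow h (by linarith)
  rcases h.eq_or_lt with h1 | h1
  · rw [← h1, sub_self, Real.zero_rpow (by linarith), Real.one_rpow]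
    linarith
  · have h1s : 0 < s - 1 := by linarith
    have e : (s - 1) ^ p = (s - 1) * (s - 1) ^ (p - 1) := by
      rw [Real.rpow_sub_one h1s.ne']
      field_simp
    have h4 : s * s ^ (p - 1) = s ^ p := by
      rw [Real.rpow_sub_one hs.ne']
      field_simp
    have h3 : (s - 1) * (s - 1) ^ (p - 1) ≤ (s - 1) * s ^ (p - 1) :=
      mul_le_mul_of_nonneg_left (Real.rpow_le_rpow h1s.le (by linarith) (by linarith)) h1s.le
    rw [e]
    nlinarith

theorem one_var (p t : ℝ) (hp1 : 1 ≤ p) (hp2 : p ≤ 2) :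
    |1 + t| ^ p ≤ 1 + p * t + 2 * |t| ^ p := by
  rcases le_total 0 t with h | h
  · rw [abs_of_nonneg h, abs_of_nonneg (by linarith)]
    exact pos p t hp1 hp2 h
  · rw [abs_of_nonpos h]
    rcases le_total (-t) 1 with h1 | h1
    · rw [abs_of_nonneg (by linarith)]
      have := mid p (-t) hp1 hp2 (by linarith) h1
      rw [show 1 - -t = 1 + t by ring] at this
      linarith
    · rw [abs_of_nonpos (by linarith)]
      have := big p (-t) hp1 hp2 h1
      rw [show -t - 1 = -(1 + t) by ring] at this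
      linarith

end PTIM

/-- Module PTI. -/
theorem specPTI : SpecPTI := by
  intro p a b hp1 hp2
  rcases eq_or_ne a 0 with ha | ha
  · subst ha
    have hb : 0 ≤ |b| ^ p := Real.rpow_nonneg (abs_nonneg b) p
    simp only [zero_add, abs_zero, sign_zero, SignType.coe_zero, zero_mul, mul_zero, add_zero]
    rw [Real.zero_rpow (by linarith)]
    linarith
  · have h := PTIM.one_var p (b / a) hp1 hp2
    have hapos : 0 < |a| := abs_pos.2 ha
    have hap : 0 < |a| ^ p := Real.rpow_pos_of_pos hapos p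
    have h2 := mul_le_mul_of_nonneg_left h hap.le
    have e1 : |a| ^ p * |1 + b / a| ^ p = |a + b| ^ p := by
      rw [← Real.mul_rpow (abs_nonneg _) (abs_nonneg _), ← abs_mul]
      congr 2
      field_simp
    have e2 : |a| ^ p * |b / a| ^ p = |b| ^ p := by
      rw [← Real.mul_rpow (abs_nonneg _) (abs_nonneg _), ← abs_mul]
      congr 2
      field_simp
    have e3 : |a| ^ p * (b / a) = ((SignType.sign a : SignType) : ℝ) * |a| ^ (p - 1) * b := by
      have h5 : |a| ^ (p - 1) = |a| ^ p / |a| := Real.rpow_sub_one hapos.ne' p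
      rw [h5]
      rcases lt_or_gt_of_ne ha with hn | hn
      · rw [sign_neg hn, abs_of_neg hn]
        simp only [SignType.coe_neg, SignType.coe_one]
        field_simp
      · rw [sign_pos hn, abs_of_pos hn]
        simp only [SignType.coe_one]
        field_simp
    rw [e1] at h2
    calc |a + b| ^ p ≤ |a| ^ p * (1 + p * (b / a) + 2 * |b / a| ^ p) := h2
      _ = |a| ^ p + p * (|a| ^ p * (b / a)) + 2 * (|a| ^ p * |b / a| ^ p) := by ring
      _ = _ := by
        rw [e2, e3]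
        ring

end Pool.Agent.MP_bc5265.R2
end

section
/-!
# Region `R_2`, module RW (existence of good patterns)
-/
open MeasureTheory Finset Matrix Filter
open scoped ENNReal

namespace Pool.Agent.MP_bc5265.R2

open Pool.Agent.MP_bc5265.S

namespace RWM

theorem nrm_nonneg' (p : ℝ) {X : Type} [Fintype X] (g : X → ℝ) : 0 ≤ nrm p g := by
  unfold nrm mom
  apply Real.rpow_nonneg
  apply div_nonneg (Finset.sum_nonneg (fun x _ => Real.rpow_nonneg (abs_nonneg _) _))
    (Nat.cast_nonneg _)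

theorem NU_nonneg (p : ℝ) (j : ℤ) : 0 ≤ NU p j := by
  unfold NU
  split_ifs <;> positivity

theorem large (d : ℕ) (δ : ℝ) (hδ : 0 < δ) :
    ∃ N : ℕ, ∀ h i0 : ℕ, N ≤ h → 2 ^ i0 ≤ h ^ d → (i0 : ℝ) ≤ δ * h := by
  have hl2 : 0 < Real.log 2 := Real.log_pos (by norm_num)
  have hc : 0 < δ * Real.log 2 / (d + 1) := by positivity
  have h1 := (Real.isLittleO_log_id_atTop.bound hc)
  have h2 := (tendsto_natCast_atTop_atTop (R := ℝ)).eventually h1
  obtain ⟨N, hN⟩ := eventually_atTop.1 h2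
  refine ⟨max N 1, fun h i0 hh hi => ?_⟩
  have hh1 : 1 ≤ h := (le_max_right _ _).trans hh
  have hhr : (1 : ℝ) ≤ h := by exact_mod_cast hh1
  have h3 := hN h ((le_max_left _ _).trans hh)
  simp only [id, Real.norm_eq_abs] at h3
  rw [abs_of_nonneg (Real.log_nonneg hhr), abs_of_nonneg (by linarith : (0 : ℝ) ≤ h)] at h3
  have h4 : (i0 : ℝ) * Real.log 2 ≤ d * Real.log h := by
    have h5 : ((2 : ℝ) ^ i0) ≤ (h : ℝ) ^ d := by exact_mod_cast hi
    have h6 := Real.log_le_log (by positivity) h5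
    rwa [Real.log_pow, Real.log_pow] at h6
  have hd0 : (0 : ℝ) ≤ d := Nat.cast_nonneg _
  have h7 : (d : ℝ) * Real.log h ≤ d * (δ * Real.log 2 / (d + 1) * h) :=
    mul_le_mul_of_nonneg_left h3 hd0
  have h8 : (d : ℝ) * (δ * Real.log 2 / (d + 1) * h) ≤ δ * h * Real.log 2 := by
    have h9 : (d : ℝ) / (d + 1) ≤ 1 := by
      rw [div_le_one (by positivity)]
      linarith
    have e : (d : ℝ) * (δ * Real.log 2 / (d + 1) * h) =
        (d / (d + 1)) * (δ * h * Real.log 2) := by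
      field_simp
    rw [e]
    have : 0 ≤ δ * h * Real.log 2 := by positivity
    calc _ ≤ 1 * (δ * h * Real.log 2) := mul_le_mul_of_nonneg_right h9 this
      _ = _ := one_mul _
  exact le_of_mul_le_mul_right (h4.trans (h7.trans h8)) hl2

end RWM

open RWM in
theorem specRW (hGOO : SpecGOO) (hLOW : SpecLOW) (hHIG : SpecHIG) : SpecRW := by
  intro d p hd hp1 hp2
  obtain ⟨k, hk⟩ := exists_nat_gt (p / (p - 1))
  have hp0 : 0 < p / (p - 1) := div_pos (by linarith) (by linarith)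
  have hk1 : 1 ≤ k := by
    rcases Nat.eq_zero_or_pos k with h | h
    · subst h
      simp at hk
      linarith
    · exact h
  have hk2 : p / (p - 1) < 2 * k := by
    have : (1 : ℝ) ≤ k := by exact_mod_cast hk1
    linarith
  obtain ⟨α, δ, κ, h0, hα, hδ, hα1, hδ1, hκ, hh0, hG⟩ := hGOO d k hd hk1
  obtain ⟨C1, hC1, hL⟩ := hLOW p k hp1 hp2 hk2
  obtain ⟨N, hN⟩ := large d δ hδ
  refine ⟨α, max C1 (1 + 2 * κ), max h0 N, hα, lt_of_lt_of_le hC1 (le_max_left _ _), ?_⟩
  intro h i0 hh hi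
  have hi1 := hN h i0 ((le_max_right _ _).trans hh) hi
  have hh' := (le_max_left _ _).trans hh
  have hi2 : i0 ≤ h := by
    have : (i0 : ℝ) ≤ 1 * h := hi1.trans (mul_le_mul_of_nonneg_right hδ1 (Nat.cast_nonneg _))
    rw [one_mul] at this
    exact_mod_cast this
  have hg : ∃ g : ℕ, g + h + i0 = d * (3 * h) := by
    refine ⟨d * (3 * h) - h - i0, ?_⟩
    have : 1 * (3 * h) ≤ d * (3 * h) := Nat.mul_le_mul_right _ hd
    omega
  obtain ⟨g, hg⟩ := hg
  obtain ⟨ω, hω⟩ := hG h i0 hh' hi g hg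
  refine ⟨univ.filter fun y => (ω y : ℕ) = 0, ?_, ?_⟩
  · have hc := hω.co (fun _ => 0) (fun _ => 0) (fun _ => Nat.zero_le _)
      (by simp; positivity) (fun _ => by simp)
    have e : (univ.filter fun y : Gr d (3 * h) => inC (fun _ => 0) (fun _ => 0) y ∧
        (ω y : ℕ) = 0) = univ.filter fun y => (ω y : ℕ) = 0 := by
      ext y
      simp only [mem_filter, mem_univ, true_and, and_iff_right_iff_imp]
      intro _ j
      rw [Nat.sub_zero]
      exact Nat.div_eq_of_lt (y j).2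
    rw [e] at hc
    simp only [Finset.sum_const_zero, pow_zero, one_mul] at hc
    exact_mod_cast hc
  · intro b v hb hv hhv ψ hψ
    have hbj : ∀ j, b j ≤ 3 * h := by
      intro j
      have h1 : b j ≤ ∑ j, b j := Finset.single_le_sum (fun _ _ => Nat.zero_le _) (mem_univ j)
      have h2 : ((∑ j, b j : ℕ) : ℝ) ≤ h := hb.trans (by
        calc α * h ≤ 1 * h := mul_le_mul_of_nonneg_right hα1 (Nat.cast_nonneg _)
          _ = h := one_mul _)
      have h3 : ∑ j, b j ≤ h := by exact_mod_cast h2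
      omega
    have hNn : 0 ≤ NU p (((∑ j, v j : ℕ) : ℤ) - ((h + i0 : ℕ) : ℤ)) * nrm p ψ :=
      mul_nonneg (NU_nonneg _ _) (nrm_nonneg' _ _)
    rcases lt_or_ge ((∑ j, v j : ℕ) : ℝ) ((1 + δ) * h) with hlt | hge
    · refine (hL d κ h i0 g α δ ω hd hg hω v b hv hhv hlt hbj hb ψ hψ).trans ?_
      rw [mul_assoc, mul_assoc]
      exact mul_le_mul_of_nonneg_right (le_max_left _ _) hNn
    · refine (hHIG p k κ d h i0 g α δ ω hp1 hp2 hκ hg hi1 hω v b hv hge hbj hb ψ hψ).trans ?_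
      rw [mul_assoc, mul_assoc]
      exact mul_le_mul_of_nonneg_right (le_max_right _ _) hNn

end Pool.Agent.MP_bc5265.R2
end
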