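import Pool.Agent.Lib.MP_bc5265_an.R2.SpecB

set_option linter.unusedSectionVars false

open MeasureTheory Finset Matrix
open scoped ENNReal

namespace Pool.Agent.MP_bc5265.R2

namespace SCAM

lemma geo (x : ℝ) (h0 : 0 ≤ x) (h1 : x < 1) (m : ℕ) : ∑ i ∈ range m, x ^ i ≤ (1 - x)⁻¹ := by
  rw [← tsum_geometric_of_lt_one h0 h1]
  exact (summable_geometric_of_lt_one h0 h1).sum_le_tsum (range m) fun i _ => by positivity

lemma pw (i : ℕ) (e : ℝ) : ((2 : ℝ) ^ i) ^ e = ((2 : ℝ) ^ e) ^ i := by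
  rw [← Real.rpow_natCast, ← Real.rpow_mul (by norm_num), ← Real.rpow_natCast,
    ← Real.rpow_mul (by norm_num), mul_comm]

end SCAM

open SCAM in
theorem specSCA : SpecSCA := by
  intro d C1 p γ hd hC1 hp hγ hγd hγp
  have hp0 : 0 < p := by linarith
  have hC1' : (1 : ℝ) ≤ (C1 : ℝ) := by exact_mod_cast hC1
  have hd1 : ((d - 1 : ℕ) : ℝ) = (d : ℝ) - 1 := by
    rw [Nat.cast_sub (by omega)]; simp
  set e1 : ℝ := ((d : ℝ) - 1) * (1 - 1 / p) - γ / 2 with he1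
  set e2 : ℝ := γ - ((d : ℝ) - 1) with he2
  have he1' : e1 < 0 := by rw [he1]; linarith
  have he2' : e2 < 0 := by rw [he2]; linarith
  have hx1 : (2 : ℝ) ^ e1 < 1 := Real.rpow_lt_one_of_one_lt_of_neg (by norm_num) he1'
  have hx2 : (2 : ℝ) ^ e2 < 1 := Real.rpow_lt_one_of_one_lt_of_neg (by norm_num) he2'
  have hx1' : 0 ≤ (2 : ℝ) ^ e1 := by positivity
  have hx2' : 0 ≤ (2 : ℝ) ^ e2 := by positivity
  have hy1 : 0 < (1 - (2 : ℝ) ^ e1)⁻¹ := inv_pos.mpr (by linarith)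
  have hy2 : 0 < (1 - (2 : ℝ) ^ e2)⁻¹ := inv_pos.mpr (by linarith)
  set K1 : ℝ := (C1 : ℝ) ^ (1 / p) * ((2 * C1 : ℝ) ^ ((d : ℝ) - 1) * (C1 : ℝ) ^ (-(γ / 2)))
    with hK1
  set K2 : ℝ := (C1 : ℝ) * (2 * C1 : ℝ) ^ γ with hK2
  have hK1p : 0 < K1 := by rw [hK1]; positivity
  have hK2p : 0 < K2 := by rw [hK2]; positivity
  refine ⟨K1 * (1 - (2 : ℝ) ^ e1)⁻¹ + K2 * (1 - (2 : ℝ) ^ e2)⁻¹, by positivity, ?_⟩
  intro n m c hn hc hcb
  have hn' : (0 : ℝ) < n := by exact_mod_cast hn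
  have hcb' : ∀ i, c i ≤ C1 * (n : ℝ) ^ (d - 1) * ((2 : ℝ) ^ i) ^ (-((d : ℝ) - 1)) := by
    intro i
    have h2 : (0 : ℝ) < ((2 : ℝ) ^ i) ^ (d - 1) := by positivity
    rw [Real.rpow_neg (by positivity), ← hd1, Real.rpow_natCast, ← div_eq_mul_inv,
      le_div_iff₀ h2]
    exact hcb i
  constructor
  · have key : ∀ i ∈ range m, c i ^ (1 / p) * (((2 * C1 * 2 ^ i : ℕ) : ℝ) ^ ((d : ℝ) - 1) *
          (((C1 * 2 ^ i : ℕ) : ℝ) ^ (-(γ / 2)))) ≤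
          K1 * (n : ℝ) ^ (((d : ℝ) - 1) / p) * ((2 : ℝ) ^ e1) ^ i := by
      intro i _
      have h1 : c i ^ (1 / p) ≤ (C1 : ℝ) ^ (1 / p) * (n : ℝ) ^ (((d : ℝ) - 1) / p) *
          ((2 : ℝ) ^ i) ^ (-((d : ℝ) - 1) / p) := by
        have := Real.rpow_le_rpow (hc i) (hcb' i) (by positivity : (0 : ℝ) ≤ 1 / p)
        refine this.trans_eq ?_
        rw [Real.mul_rpow (by positivity) (by positivity), Real.mul_rpow (by positivity)
          (by positivity), ← Real.rpow_natCast (n : ℝ), hd1, ← Real.rpow_mul (by positivity),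
          ← Real.rpow_mul (by positivity)]
        congr 2
        · congr 1; ring
        · ring
      have h2 : ((2 * C1 * 2 ^ i : ℕ) : ℝ) ^ ((d : ℝ) - 1) =
          (2 * C1 : ℝ) ^ ((d : ℝ) - 1) * ((2 : ℝ) ^ i) ^ ((d : ℝ) - 1) := by
        push_cast
        rw [Real.mul_rpow (by positivity) (by positivity)]
      have h3 : ((C1 * 2 ^ i : ℕ) : ℝ) ^ (-(γ / 2)) =
          (C1 : ℝ) ^ (-(γ / 2)) * ((2 : ℝ) ^ i) ^ (-(γ / 2)) := by
        push_cast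
        rw [Real.mul_rpow (by positivity) (by positivity)]
      rw [h2, h3]
      calc _ ≤ ((C1 : ℝ) ^ (1 / p) * (n : ℝ) ^ (((d : ℝ) - 1) / p) *
          ((2 : ℝ) ^ i) ^ (-((d : ℝ) - 1) / p)) * ((2 * C1 : ℝ) ^ ((d : ℝ) - 1) *
          ((2 : ℝ) ^ i) ^ ((d : ℝ) - 1) * ((C1 : ℝ) ^ (-(γ / 2)) *
          ((2 : ℝ) ^ i) ^ (-(γ / 2)))) := mul_le_mul_of_nonneg_right h1 (by positivity)
        _ = K1 * (n : ℝ) ^ (((d : ℝ) - 1) / p) * (((2 : ℝ) ^ i) ^ (-((d : ℝ) - 1) / p) *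
          ((2 : ℝ) ^ i) ^ ((d : ℝ) - 1) * ((2 : ℝ) ^ i) ^ (-(γ / 2))) := by rw [hK1]; ring
        _ = K1 * (n : ℝ) ^ (((d : ℝ) - 1) / p) * ((2 : ℝ) ^ i) ^ e1 := by
          rw [← Real.rpow_add (by positivity), ← Real.rpow_add (by positivity)]
          congr 2
          rw [he1]; field_simp; ring
        _ = _ := by rw [pw]
    refine (sum_le_sum key).trans ?_
    rw [← mul_sum]
    have := geo _ hx1' hx1 m
    calc _ ≤ K1 * (n : ℝ) ^ (((d : ℝ) - 1) / p) * (1 - (2 : ℝ) ^ e1)⁻¹ :=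
          mul_le_mul_of_nonneg_left this (by positivity)
      _ = K1 * (1 - (2 : ℝ) ^ e1)⁻¹ * (n : ℝ) ^ (((d : ℝ) - 1) / p) := by ring
      _ ≤ _ := by
        apply mul_le_mul_of_nonneg_right _ (by positivity)
        have : 0 ≤ K2 * (1 - (2 : ℝ) ^ e2)⁻¹ := by positivity
        linarith
  · have key : ∀ i ∈ range m, c i * ((2 * C1 * 2 ^ i : ℕ) : ℝ) ^ γ ≤
          K2 * (n : ℝ) ^ (d - 1) * ((2 : ℝ) ^ e2) ^ i := by
      intro i _
      have h2 : ((2 * C1 * 2 ^ i : ℕ) : ℝ) ^ γ =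
          (2 * C1 : ℝ) ^ γ * ((2 : ℝ) ^ i) ^ γ := by
        push_cast
        rw [Real.mul_rpow (by positivity) (by positivity)]
      rw [h2]
      calc _ ≤ (C1 * (n : ℝ) ^ (d - 1) * ((2 : ℝ) ^ i) ^ (-((d : ℝ) - 1))) *
            ((2 * C1 : ℝ) ^ γ * ((2 : ℝ) ^ i) ^ γ) :=
            mul_le_mul_of_nonneg_right (hcb' i) (by positivity)
        _ = K2 * (n : ℝ) ^ (d - 1) * (((2 : ℝ) ^ i) ^ (-((d : ℝ) - 1)) *
            ((2 : ℝ) ^ i) ^ γ) := by rw [hK2]; ring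
        _ = K2 * (n : ℝ) ^ (d - 1) * ((2 : ℝ) ^ i) ^ e2 := by
          rw [← Real.rpow_add (by positivity)]
          congr 2
          rw [he2]; ring
        _ = _ := by rw [pw]
    refine (sum_le_sum key).trans ?_
    rw [← mul_sum]
    have := geo _ hx2' hx2 m
    calc _ ≤ K2 * (n : ℝ) ^ (d - 1) * (1 - (2 : ℝ) ^ e2)⁻¹ :=
          mul_le_mul_of_nonneg_left this (by positivity)
      _ = K2 * (1 - (2 : ℝ) ^ e2)⁻¹ * (n : ℝ) ^ (d - 1) := by ring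
      _ ≤ _ := by
        apply mul_le_mul_of_nonneg_right _ (by positivity)
        have : 0 ≤ K1 * (1 - (2 : ℝ) ^ e1)⁻¹ := by positivity
        linarith

end Pool.Agent.MP_bc5265.R2
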